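import Pool.Agent.P.MP_860a31_lc.E.Stm

/-!
Existence of a small admissible top.
-/

open Cardinal hiding univ
open Set Order Filter Function

namespace Pool.Agent.P.MP_860a31_lc.E

open PC Sys

namespace AAexP

variable {C : AX} {S : Shape C} {κ : Cardinal.{0}} {v : Finset S.L} {l : S.L} {A : Sys S}

/-- the face generated by one letter -/
theorem top_one (hv : S.Face v) (hl : S.Mx v l) (h0 : S.sup (l, true) ∉ S.Bd v)
    (hA : A.Valid (S.Bd v) v) :
    ∃ (Z : C.Obj) (e : ∀ y, C.U (A.N y) → C.U Z) (p : S.L → C.U Z), A.AdmT v Z e p := by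
  have hu := hv.erase_mem_bd hl
  have e0 : v ⊆ S.sup (l, true) := by
    by_contra h
    exact h0 ⟨Shape.face_sup _, hv.sup_true.2 hl.1, h⟩
  have h1 : ∀ z ∈ S.Bd v, l ∉ z := fun z hz h => hz.2.2 (e0.trans (hz.1.sup_true.2 h))
  have h2 : ∀ z ∈ S.Bd v, z ⊆ v.erase l := fun z hz a ha =>
    Finset.mem_erase.2 ⟨fun e => h1 z hz (e ▸ ha), hz.2.1 ha⟩
  refine ⟨(C.S (S.opn l)).ap (A.N (v.erase l)),
    fun z x => (C.S (S.opn l)).eta _ (A.i z (v.erase l) x),
    fun _ => C.op (S.opn l) _ (A.b l (v.erase l)),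
    ⟨fun y hy => C.comp (hA.hom y hy _ hu (h2 y hy)) ((C.S _).eta_h _),
      fun y hy z hz hyz x => by rw [hA.comp y hy z hz _ hu hyz (h2 z hz)]⟩, fun j hj => ?_⟩
  have e : j = l := by
    rcases Finset.mem_insert.1 (e0 hj.1) with e | e
    · exact e
    · exact (hj.2 l hl.1 e).elim
  subst e
  exact ⟨fun z hz h => (h1 z hz h).elim,
    (AX.right_op _ _ _).congr (fun x => by rw [hA.id _ hu]) rfl rfl⟩

/-- a maximal letter that lies in a proper face is absorbed into a good system -/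
theorem top_two (h : S_Abs1) (hκ : C.Lv κ) (hv : S.Face v) (hl : S.Mx v l)
    (h0 : S.sup (l, true) ∈ S.Bd v) (hU : ∀ w ∈ S.Bd v, ULat κ w)
    (hT : TEat κ (S.Le (v.erase l)) (v.erase l)) (hA : InU κ (S.Bd v) v A) :
    ∃ (Z : C.Obj) (e : ∀ y, C.U (A.N y) → C.U Z) (p : S.L → C.U Z), A.AdmT v Z e p := by
  have hu := hv.erase_mem_bd hl
  have hul : v.erase l ∈ S.Le (v.erase l) := hu.1.mem_le
  have hs : S.Le (v.erase l) ⊆ S.Bd v := (Shape.dn_bd v).le_sub hu
  have e1 : {z ∈ S.Bd v | z ⊆ v.erase l} = S.Le (v.erase l) :=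
    Set.ext fun z => ⟨fun hz => ⟨hz.1.1, hz.2⟩, fun hz => ⟨hs hz, hz.2⟩⟩
  have e2 : {w ∈ S.Bd v | l ∉ w} = S.Le (v.erase l) :=
    Set.ext fun z => ⟨fun hz => ⟨hz.1.1, fun a ha =>
      Finset.mem_erase.2 ⟨fun e => hz.2 (e ▸ ha), hz.1.2.1 ha⟩⟩,
      fun hz => ⟨hs hz, fun a => Finset.notMem_erase l v (hz.2 a)⟩⟩
  obtain ⟨M, g, hM, hg⟩ := hT A (hA.small.mono hs)
    (hA.valid.mono hs (Finset.coe_subset.2 (Finset.erase_subset l v))) fun z hz _ => hA.uq z (hs hz)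
  have hi : ∀ w ∈ S.Le (v.erase l), ∀ z, w ∩ v.erase l ⊆ z → w ⊆ z := fun w hw z h' =>
    (Finset.subset_inter subset_rfl hw.2).trans h'
  have ab0 : Ab (S.Le (v.erase l)) (S.Le (v.erase l)) (v.erase l) A M
      (fun w z x => M.i w z (g w x)) :=
    ⟨fun w hw z hz h' => C.comp (hg.hom w hw) (hM.valid.hom w hw z hz (hi w hw z h')),
      fun w hw z hz z' hz' h' h'' x => hM.valid.comp w hw z hz z' hz' (hi w hw z h') h'' _,
      fun w hw w' hw' z hz h' h'' x => by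
        rw [hg.nat w hw w' hw' h', hM.valid.comp w hw w' hw' z hz h' (hi w' hw' z h'')],
      fun k hk z hz h' => by rw [hM.valid.id z hz, hg.el k hk z hz h']⟩
  obtain ⟨ρ, ab, -, hr⟩ := h C S κ hκ (S.Bd v) v (v.erase l) l (Shape.cx_bd v) hu.1
    (Finset.notMem_erase l v) (fun w hw a => hl.mono hw.2.1 a) hU A M
    (fun w z x => M.i w z (g w x)) hA (e1.symm ▸ hM) (by rw [e1, e2]; exact ab0)
  rw [e1] at ab
  have key : ∀ k : S.L × Bool, k.1 ∈ v.erase l → ∀ w ∈ S.Bd v, ∀ z ∈ S.Le (v.erase l),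
      S.sup k ⊆ w → S.sup k ⊆ z → w ∩ v.erase l ⊆ z → ρ w z (A.el k w) = M.el k z := by
    intro k hk w hw z hz h1 h2 h3
    have k1 : S.sup k ∈ S.Le (v.erase l) := ⟨Shape.face_sup k, h2.trans hz.2⟩
    rw [← hA.valid.el k (Finset.mem_of_mem_erase hk) _ (hs k1) w hw subset_rfl h1,
      ab.dn _ (hs k1) w hw z hz h1 h3,
      ← ab.up _ (hs k1) _ k1 z hz Finset.inter_subset_left h2, ab.el k hk _ k1 subset_rfl,
      hM.valid.el k hk _ k1 z hz subset_rfl h2]
  refine ⟨M.N (v.erase l), fun w => ρ w (v.erase l), fun j =>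
    if j = l then ρ _ (v.erase l) (A.c l (S.sup (l, true))) else M.c j (v.erase l),
    ⟨fun y hy => ab.hom y hy _ hul Finset.inter_subset_right,
      fun y hy z hz hyz x => ab.dn y hy z hz _ hul hyz Finset.inter_subset_right x⟩,
    fun j hj => ?_⟩
  by_cases e : j = l
  · subst e
    have hj0 : j ∈ S.sup (j, true) := Finset.mem_insert_self _ _
    rw [if_pos rfl]
    refine ⟨fun z hz hjz => ?_, hr _ h0 hj0 _ hu (Finset.notMem_erase j v) (hv.par_sub_erase hj.1)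
      _ hu subset_rfl Finset.inter_subset_right Finset.inter_subset_right⟩
    have k1 := hz.1.sup_true.2 hjz
    rw [← hA.valid.c hj.1 h0 hz h0.1 hj0 k1]
    exact ab.dn _ h0 z hz _ hul k1 Finset.inter_subset_right _
  · have hju : j ∈ v.erase l := Finset.mem_erase.2 ⟨e, hj.1⟩
    have hm : S.Mx (v.erase l) j := hj.mono (Finset.erase_subset l v) hju
    have k1 := hv.erase_mem_bd hj
    have k2 := S.bd_sub_le _ (hu.1.erase_mem_bd hm)
    have k3 : v.erase j ∩ v.erase l ⊆ (v.erase l).erase j := fun a ha =>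
      Finset.mem_erase.2 ⟨(Finset.mem_erase.1 (Finset.mem_inter.1 ha).1).1,
        (Finset.mem_inter.1 ha).2⟩
    rw [if_neg e]
    exact ⟨fun z hz hjz => key (j, true) hju z hz _ hul (hz.1.sup_true.2 hjz)
        (hu.1.sup_true.2 hju) Finset.inter_subset_right,
      (hM.valid.right _ hul j hm).mono (ab.hom _ k1 _ k2 k3)
        (key (j, false) hju _ k1 _ k2 (hv.par_sub_erase hj.1) (hu.1.par_sub_erase hju) k3)
        (ab.up _ k1 _ k2 _ hul k3 (Finset.erase_subset _ _))⟩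

end AAexP

theorem aaex (h : S_Abs1) : S_AAex := by
  intro C S κ hκ v hv hU hT A hA
  have : ∃ (Z : C.Obj) (e : ∀ y, C.U (A.N y) → C.U Z) (p : S.L → C.U Z), A.AdmT v Z e p := by
    rcases v.eq_empty_or_nonempty with rfl | hne
    · have h0 : ∀ y ∈ S.Bd ∅, False := fun y hy => Finset.not_ssubset_empty y hy.2
      exact ⟨A.N ∅, fun y => A.i y ∅, fun j => A.c j ∅,
        ⟨fun y hy => (h0 y hy).elim, fun y hy => (h0 y hy).elim⟩,
        fun j hj => absurd hj.1 (Finset.notMem_empty j)⟩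
    · obtain ⟨l, hl⟩ := Shape.exists_mx (S := S) hne
      by_cases h0 : S.sup (l, true) ∈ S.Bd v
      · exact AAexP.top_two h hκ hv hl h0 hU (hT _ (hv.erase_mem_bd hl)) hA
      · exact AAexP.top_one hv hl h0 hA.valid
  obtain ⟨Z, e, p, hZ⟩ := this
  obtain ⟨Q, _, e', p', _, h1, _, h2, _⟩ := hZ.cut (C.lv_ge hκ) hv hA.small (T := ∅) (by simp)
  exact ⟨Q, e', p', h1, h2⟩

end Pool.Agent.P.MP_860a31_lc.E
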