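import Pool.Agent.P.MP_860a31_lc.E.Stm

/-!
The abstract main theorem: the colimit of the free system realises all types.
-/

open Cardinal hiding univ
open Set Order Filter Function

namespace Pool.Agent.P.MP_860a31_lc.E

open PC Sys

namespace AMainP

variable {C : AX} {S : Shape C}

theorem mem_on_tg {Tag : Type} {tag : S.L → Tag} {T : Set Tag} {w : Finset S.L} :
    w ∈ S.On (S.Tg tag T) ↔ S.Face w ∧ ∀ l ∈ w, tag l ∈ T :=
  ⟨fun h => ⟨h.1, fun l hl => h.2 hl l (Finset.mem_insert_self _ _)⟩,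
    fun h => ⟨h.1, fun _ hl l' hl' => h.2 l' (h.1.sup_true.2 hl hl')⟩⟩

theorem on_empty (L : Set S.L) : ∅ ∈ S.On L := ⟨Shape.face_empty, by simp⟩

theorem on_union {L : Set S.L} {y z : Finset S.L} (hy : y ∈ S.On L) (hz : z ∈ S.On L) :
    y ∪ z ∈ S.On L := ⟨hy.1.union hz.1, by
  rw [Finset.coe_union]; exact union_subset hy.2 hz.2⟩

theorem on_univ {L : Set S.L} {y : Finset S.L} (hy : y ∈ S.On L) : y ∈ S.On univ :=
  ⟨hy.1, subset_univ _⟩

/-- finitely many tags below a limit are bounded below it -/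
theorem bound {α Λ : Type} [LinearOrder Λ] [OrderBot Λ] [SuccOrder Λ] [NoMaxOrder Λ]
    (tag : α → WithTop Λ) (d : WithTop Λ) (h0 : ((⊥ : Λ) : WithTop Λ) < d)
    (hs : ∀ a : Λ, (a : WithTop Λ) < d → ((succ a : Λ) : WithTop Λ) < d) (w : Finset α)
    (hw : ∀ l ∈ w, tag l < d) :
    ∃ a : Λ, (a : WithTop Λ) < d ∧ ∀ l ∈ w, tag l < (a : WithTop Λ) := by
  classical
  induction w using Finset.induction_on with
  | empty => exact ⟨⊥, h0, by simp⟩
  | insert l w _ ih =>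
    obtain ⟨a, ha, H⟩ := ih fun l' hl' => hw l' (Finset.mem_insert_of_mem hl')
    have hl := hw l (Finset.mem_insert_self _ _)
    obtain ⟨b, hb⟩ := WithTop.ne_top_iff_exists.1 hl.ne_top
    refine ⟨max a (succ b), ?_, fun l' hl' => ?_⟩
    · rw [WithTop.coe_max]
      exact max_lt ha (hs b (hb ▸ hl))
    · rw [WithTop.coe_max]
      rcases Finset.mem_insert.1 hl' with rfl | h
      · exact lt_max_of_lt_right (hb ▸ WithTop.coe_lt_coe.2 (lt_succ b))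
      · exact lt_max_of_lt_left (H l' h)

/-- the colimit of a system on all faces -/
theorem exists_top (A : Sys S) (hA : A.Valid (S.On univ) univ) :
    ∃ (N : C.Obj) (ι : ∀ y, C.U (A.N y) → C.U N), A.Cone (S.On univ) N ι ∧
      ∀ p, ∃ y ∈ S.On univ, ∃ x, ι y x = p := by
  classical
  have : Nonempty (S.On univ) := ⟨⟨∅, on_empty _⟩⟩
  have : IsDirected (S.On univ) (· ≤ ·) := ⟨fun i j => ⟨⟨i.1 ∪ j.1, on_union i.2 j.2⟩,
    Finset.subset_union_left, Finset.subset_union_right⟩⟩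
  obtain ⟨N, u, h1, h2, h3⟩ := C.colim (S.On univ) (fun i => A.N i.1)
    (fun i j _ => A.i i.1 j.1) (fun i j h => hA.hom _ i.2 _ j.2 h) (fun i => hA.id _ i.2)
    (fun i j k hij hjk => hA.comp _ i.2 _ j.2 _ k.2 hij hjk)
  refine ⟨N, fun y => if h : y ∈ S.On univ then u ⟨y, h⟩ else fun _ => Classical.choice (C.ne N),
    ⟨fun y hy => ?_, fun y hy z hz h x => ?_⟩, fun p => ?_⟩
  · rw [dif_pos hy]; exact h1 _
  · rw [dif_pos hy, dif_pos hz]; exact h2 ⟨y, hy⟩ ⟨z, hz⟩ h x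
  · obtain ⟨i, x, h⟩ := h3 p
    exact ⟨i.1, i.2, x, by beta_reduce; rw [dif_pos i.2]; exact h⟩

/-- the union of the faces with letters in `L` is a subobject -/
theorem exists_sub {A : Sys S} {N : C.Obj} {ι : ∀ y, C.U (A.N y) → C.U N}
    (h : A.Cone (S.On univ) N ι) (L : Set S.L) :
    C.IsSub N (⋃ w ∈ S.On L, range (ι w)) := by
  have : Nonempty (S.On L) := ⟨⟨∅, on_empty _⟩⟩
  rw [biUnion_eq_iUnion]
  refine CC.isSub_iUnion (fun w : S.On L => range (ι w.1))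
    (fun w => isSub_range (h.hom _ (on_univ w.2))) fun i j =>
      ⟨⟨i.1 ∪ j.1, on_union i.2 j.2⟩, ?_, ?_⟩
  · rintro _ ⟨x, rfl⟩
    exact ⟨_, h.nat _ (on_univ i.2) _ (on_univ (on_union i.2 j.2)) Finset.subset_union_left x⟩
  · rintro _ ⟨x, rfl⟩
    exact ⟨_, h.nat _ (on_univ j.2) _ (on_univ (on_union i.2 j.2)) Finset.subset_union_right x⟩

theorem card_finset {α : Type} {θ : Cardinal.{0}} (hθ : ℵ₀ ≤ θ) (h : #α ≤ θ) :
    #(Finset α) ≤ θ := by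
  classical
  exact (mk_le_of_surjective (f := fun l : List α => l.toFinset)
    fun s => ⟨s.toList, s.toList_toFinset⟩).trans ((mk_list_le_max α).trans (max_le hθ h))

end AMainP

open AMainP in
theorem amain (h1 : S_Master) (h2 : S_ShapeEx) (h3 : S_BigSys) (h4 : S_RealStep)
    (h5 : S_RealChain) : S_AMain := by
  intro C θ hθ M hM
  have hk : C.k0 ≤ θ := (le_succ _).trans hθ
  have hi : ℵ₀ ≤ θ := C.inf.trans hk
  obtain ⟨S, code, tag, hL, hfree⟩ := h2 C (J C.k0) (WithTop (W θ))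
  have hL' : #S.L ≤ θ := by
    refine hL.trans (add_le_of_le hi (add_le_of_le hi ((J.card C.inf).trans_le hθ) ?_) hk)
    change #(Option (W θ)) ≤ θ
    rw [mk_option, W.card hi]
    exact add_le_of_le hi le_rfl (one_le_aleph0.trans hi)
  have m0 := h1 C S _ C.lv_k0
  have m1 := h1 C S _ (C.lv_succ C.lv_k0)
  obtain ⟨A, hA, hc⟩ := h3 C S _ C.lv_k0 m0 M code
  have hU : InU (succ C.k0) (S.On univ) univ A :=
    m0.g (S.On univ) univ (fun y hy => ⟨hy.1, fun z hz _ => ⟨hz, subset_univ _⟩⟩)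
      (fun _ _ => subset_univ _) A hA
  obtain ⟨N, ι, hι, hs⟩ := exists_top A hA.valid
  have hN : #(C.U N) ≤ θ :=
    card_cover (ι := S.On univ) (α := fun y => C.U (A.N y.1)) (fun y => ι y.1)
      (fun p => by obtain ⟨y, hy, x, h⟩ := hs p; exact ⟨⟨y, hy⟩, x, h⟩) hi
      ((mk_set_le _).trans (card_finset hi hL')) fun y => (hA.small _ y.2).trans hθ
  have step := h4 C S _ (C.lv_succ C.lv_k0) m1.ul _ _ code tag hfree A hU hc N ι hι
  choose B u hu hr using fun d : WithTop (W θ) => exists_sub hι (S.Tg tag (Iio d))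
  have mem : ∀ (d : WithTop (W θ)) (p : C.U N), p ∈ range (u d) ↔
      ∃ w, S.Face w ∧ (∀ l ∈ w, tag l < d) ∧ p ∈ range (ι w) := fun d p => by
    rw [hr, mem_iUnion₂]
    exact ⟨fun ⟨w, hw, h⟩ => ⟨w, (mem_on_tg.1 hw).1, (mem_on_tg.1 hw).2, h⟩,
      fun ⟨w, a, b, h⟩ => ⟨w, mem_on_tg.2 ⟨a, b⟩, h⟩⟩
  have mono : ∀ d d', d ≤ d' → range (u d) ⊆ range (u d') := fun d d' h p hp => by
    obtain ⟨w, a, b, c⟩ := (mem d p).1 hp
    exact (mem d' p).2 ⟨w, a, fun l hl => (b l hl).trans_le h, c⟩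
  choose v hv huv using fun a : W θ => factor (hu a) (hu ⊤) (mono _ _ le_top)
  have back : ∀ (a : W θ) y, u ⊤ y ∈ range (u a) → y ∈ range (v a) := by
    rintro a y ⟨x, hx⟩
    exact ⟨x, C.inj (hu ⊤) ((huv a x).trans hx)⟩
  have univ' : C.Univ θ (v ⊥) := by
    refine h5 C.toAC θ hi (fun a => B a) (B ⊤) v hv ?_ ?_ ?_ ?_
    · rintro a b h _ ⟨x, rfl⟩
      exact back b _ (mono _ _ (WithTop.coe_le_coe.2 h) ⟨x, (huv a x).symm⟩)
    · rintro δ hδ _ ⟨x, rfl⟩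
      obtain ⟨w, a, b, c⟩ := (mem δ _).1 ⟨x, (huv δ x).symm⟩
      obtain ⟨a', k1, k2⟩ := bound tag δ (WithTop.coe_lt_coe.2 hδ.bot_lt)
        (fun a h => WithTop.coe_lt_coe.2 (hδ.succ_lt (WithTop.coe_lt_coe.1 h))) w b
      exact ⟨a', WithTop.coe_lt_coe.1 k1, back a' _ ((mem _ _).2 ⟨w, a, k2, c⟩)⟩
    · intro y
      obtain ⟨w, a, b, c⟩ := (mem ⊤ _).1 ⟨y, rfl⟩
      obtain ⟨a', -, k2⟩ := bound tag ⊤ (WithTop.coe_lt_top _)
        (fun a _ => WithTop.coe_lt_top _) w b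
      exact ⟨a', back a' _ ((mem _ _).2 ⟨w, a, k2, c⟩)⟩
    · intro a Z e c he
      obtain ⟨w, hw, x, hx⟩ := step (Iio a) a self_notMem_Iio (B a) (u a) (hu a) (hr a) Z e c he
      obtain ⟨k1, k2⟩ := mem_on_tg.1 hw
      obtain ⟨a', ha'⟩ := (mem (succ a : W θ) (ι w x)).2 ⟨w, k1, fun l hl =>
        (show tag l ≤ a from (k2 l hl).elim le_of_eq fun h => (mem_Iio.1 h).le).trans_lt
          (WithTop.coe_lt_coe.2 (lt_succ a)), x, rfl⟩
      refine ⟨a', hx.pull_right (hu ⊤) ?_⟩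
      rintro _ _ (⟨y, rfl, rfl⟩ | ⟨rfl, rfl⟩)
      · exact Or.inl ⟨y, rfl, (huv a y).symm⟩
      · exact Or.inr ⟨rfl, ((huv _ a').trans ha').symm⟩
  obtain ⟨f, hf, -⟩ := univ' M _ hM (El.empty (C := C.toAC) M (B (⊥ : W θ)))
  refine ⟨N, fun x => u ⊤ (f x), C.comp hf (hu ⊤), hN, fun Z e c he => ?_⟩
  obtain ⟨Z', k, e', hk', he', hke⟩ := C.ap he hf
  obtain ⟨w, -, x, hx⟩ := step (Iio ⊤) ⊤ self_notMem_Iio (B ⊤) (u ⊤) (hu ⊤) (hr ⊤) Z' e' (k c) he'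
  refine ⟨ι w x, hx.pull_left hk' ?_⟩
  rintro _ _ (⟨y, rfl, rfl⟩ | ⟨rfl, rfl⟩)
  · exact Or.inl ⟨f y, (hke y).symm, rfl⟩
  · exact Or.inr ⟨rfl, rfl⟩

end Pool.Agent.P.MP_860a31_lc.E
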