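import Pool.Agent.P.MP_860a31_lc.E.Stm

/-!
Absorption of a uniqueness system into a target system, face by face.
-/

open Cardinal hiding univ
open Set Order Filter Function

namespace Pool.Agent.P.MP_860a31_lc.E

open PC Sys

namespace AbsAux

theorem chain_mono {α : Type} {T : ℕ → Set α} {n : ℕ} (h : ∀ k < n, T k ⊆ T (k + 1)) :
    ∀ k ≤ n, T 0 ⊆ T k := by
  intro k
  induction k with
  | zero => exact fun _ => subset_rfl
  | succ k ih => exact fun hk => (ih (by omega)).trans (h k (by omega))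

end AbsAux

theorem abs' : S_Abs := by
  intro C S κ 𝒟 E hF A B M τ g T hA hB hτ hM hg hT1 hT2 hT3 hT4
  have main : 𝒟 ⊆ 𝒟 → ∃ f : ∀ y, C.U (B.N y) → C.U (M.N y), SMor 𝒟 E B M f ∧
      (∀ y ∈ 𝒟, ∀ x, f y (τ y x) = g y x) ∧ ∀ y ∈ 𝒟, ∀ x, f y x ∈ T 𝒟.ncard y := by
    refine Shape.Cx.induction (S := S) (E := E) (P := fun D1 => D1 ⊆ 𝒟 →
      ∃ f : ∀ y, C.U (B.N y) → C.U (M.N y), SMor D1 E B M f ∧
        (∀ y ∈ D1, ∀ x, f y (τ y x) = g y x) ∧ ∀ y ∈ D1, ∀ x, f y x ∈ T D1.ncard y) ?_ ?_ hF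
    · intro _
      exact ⟨fun y _ => Classical.choice (C.ne _),
        ⟨fun _ h => absurd h (notMem_empty _), fun _ h => absurd h (notMem_empty _),
          fun _ _ _ h => absurd h (notMem_empty _)⟩,
        fun _ h => absurd h (notMem_empty _), fun _ h => absurd h (notMem_empty _)⟩
    · intro D1 v h1 hvf hvE hv1 hb ih hsub
      have hv : v ∈ 𝒟 := hsub (mem_insert _ _)
      have hD1 : D1 ⊆ 𝒟 := (subset_insert _ _).trans hsub
      obtain ⟨f, hf, hfτ, hfT⟩ := ih hD1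
      have hcard : (insert v D1).ncard = D1.ncard + 1 := ncard_insert_of_notMem hv1 h1.fin
      have hlt : D1.ncard < 𝒟.ncard := by
        have := ncard_le_ncard hsub hF.fin
        omega
      have hvE' : (↑v : Set S.L) ⊆ ↑E := Finset.coe_subset.2 hvE
      have hbD : S.Bd v ⊆ 𝒟 := hb.trans hD1
      have a1 := hτ.aa hB.valid hF hv
      have a2 : AA A v (A.N v) (fun y => A.i y v) (fun j => A.c j v) B τ (M.N v) (g v)
          (fun z x => M.i z v (f z x)) := by
        refine ⟨hg.hom v hv, ((hM.admT hF.dn hv hvE').pull hvf (hf.mono hb hvE')).post hvf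
          (C.idH _) (fun _ _ _ => rfl) fun j hj => ?_, fun z hz x => ?_⟩
        · exact (hg.c (hvE' hj.1) hv hvf hj.1).symm
        · rw [hfτ z (hb hz), hg.nat z (hbD hz) v hv hz.2.1]
      have hel := uq_iff.1 (hA.uq v hv) B τ (hB.mono hbD hvE') (hτ.mono hbD hvE') _ _ _ _ _ _
        a1 a2
      obtain ⟨fv, k1, k2, k3⟩ := hT4 D1.ncard hlt v hv (B.N v) _ (hB.small v hv) hel (by
        rintro b a (⟨x, -, rfl⟩ | ⟨z, hz, x, -, rfl⟩)
        · exact AbsAux.chain_mono (T := fun k => T k v) (fun k hk => hT1 k hk v hv) _ hlt.le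
            (hT3 v hv x)
        · exact hT2 _ hlt z (hbD hz) v hv hz.2.1 (hfT z (hb hz) x))
      have e1 : update f v fv v = fv := update_self ..
      have e2 : ∀ y ∈ D1, update f v fv y = f y := fun y hy =>
        update_of_ne (fun e : y = v => hv1 (e ▸ hy)) _ _
      have kτ : ∀ x, fv (τ v x) = g v x := fun x => k2 _ _ (Or.inl (G.mk _ _ x))
      refine ⟨update f v fv, ⟨?_, ?_, ?_⟩, ?_, ?_⟩
      · rintro y (rfl | hy)
        · rw [e1]; exact k1
        · rw [e2 y hy]; exact hf.hom y hy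
      · rintro y (rfl | hy) z (rfl | hz) hyz x
        · rw [hB.valid.id _ hv, hM.id _ hv]
        · exact absurd ((h1.dn z hz).2 y hvf hyz) hv1
        · have hy' : y ∈ S.Bd z := ⟨(h1.dn y hy).1, hyz.ssubset_of_ne fun e => hv1 (e ▸ hy)⟩
          rw [e1, e2 y hy]
          exact k2 _ _ (Or.inr (GI.mk (fun y => B.i y z) (fun y x => M.i y z (f y x)) hy' x))
        · rw [e2 y hy, e2 z hz]
          exact hf.nat y hy z hz hyz x
      · rintro k hk y (rfl | hy) hs
        · rw [e1, ← hτ.el k hk y hv hs, kτ, hg.el k hk y hv hs]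
        · rw [e2 y hy]; exact hf.el k hk y hy hs
      · rintro y (rfl | hy) x
        · rw [e1]; exact kτ x
        · rw [e2 y hy]; exact hfτ y hy x
      · rw [hcard]
        rintro y (rfl | hy) x
        · rw [e1]; exact k3 x
        · rw [e2 y hy]; exact hT1 _ hlt y (hD1 hy) (hfT y hy x)
  obtain ⟨f, h1, h2, -⟩ := main subset_rfl
  exact ⟨f, h1, h2⟩

theorem absSat (h : S_Abs) : S_AbsSat := by
  intro C S κ 𝒟 E hF A B M τ g hA hB hτ hM hg hS
  refine h C S κ 𝒟 E hF A B M τ g (fun _ _ => univ) hA hB hτ hM hg (fun _ _ _ _ => subset_rfl)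
    (fun _ _ _ _ _ _ _ => mapsTo_univ _ _) (fun _ _ _ => mem_univ _) ?_
  intro k _ y hy B' R hB' hel _
  obtain ⟨f, h1, h2⟩ := hS y hy B' R hB' hel
  exact ⟨f, h1, h2, fun _ => mem_univ _⟩

end Pool.Agent.P.MP_860a31_lc.E
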