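import Pool.Agent.P.MP_860a31_lc.E.Stm

/-!
Absorption of one new letter.
-/

open Cardinal hiding univ
open Set Order Filter Function

namespace Pool.Agent.P.MP_860a31_lc.E

open PC Sys

namespace Abs1P

variable {C : AX} {S : Shape C} {κ : Cardinal.{0}} {𝒞 : Set (Finset S.L)} {E y : Finset S.L}
  {l : S.L} {A M : Sys S} {ρ : ∀ w z, C.U (A.N w) → C.U (M.N z)}

theorem cx0 (hC : S.Cx 𝒞 E) (y : Finset S.L) : S.Cx {z ∈ 𝒞 | z ⊆ y} y :=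
  ⟨fun z hz => ⟨(hC.dn z hz.1).1, fun z' hz' h => ⟨(hC.dn z hz.1).2 z' hz' h, h.trans hz.2⟩⟩,
    fun _ hz => hz.2⟩

theorem inter_mem (hC : S.Cx 𝒞 E) (hy : S.Face y) {w : Finset S.L} (hw : w ∈ 𝒞) :
    w ∩ y ∈ {z ∈ 𝒞 | z ⊆ y} :=
  ⟨(hC.dn w hw).2 _ ((hC.dn w hw).1.inter hy) Finset.inter_subset_left, Finset.inter_subset_right⟩

/-- a point that is right over all faces without the new letter -/
theorem point (h : S_SigRho) (hκ : C.Lv κ) (hC : S.Cx 𝒞 E) (hy : S.Face y) (hlE : l ∈ E)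
    (hp : S.par l ∈ 𝒞) (hA : InU κ 𝒞 E A) (hM : Good κ {z ∈ 𝒞 | z ⊆ y} y M)
    (hρ : Ab {w ∈ 𝒞 | l ∉ w} {z ∈ 𝒞 | z ⊆ y} y A M ρ) :
    ∃ d : C.U (M.N (S.par l ∩ y)), ∀ w ∈ 𝒞, l ∉ w → S.par l ⊆ w → ∀ z ∈ 𝒞, z ⊆ y → w ∩ y ⊆ z →
      C.Right (S.opn l) (A.N w) (A.b l w) (ρ w z) (M.i (S.par l ∩ y) z d) := by
  have h0 := cx0 hC y
  have hz0 := inter_mem hC hy hp
  have hk := C.lv_ge hκ
  have hp' : S.par l ∈ {w ∈ 𝒞 | l ∉ w} := ⟨hp, S.irr l⟩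
  have e1 : ∀ᶠ γ in cf κ, ∀ w ∈ 𝒞, ∀ z ∈ {z ∈ 𝒞 | z ⊆ y}, ∀ x,
      ρ w z x ∈ C.filt κ (M.N z) γ :=
    (eventually_all_finite hC.fin).2 fun w hw => (eventually_all_finite h0.fin).2 fun z hz =>
      CC.ev_range hk (hM.small z hz) (hA.small w hw) (ρ w z)
  obtain ⟨γ, ⟨c1, u1⟩, r1⟩ := ((hM.ev_inU hκ h0).and e1).exists
  set β := ρ (S.par l) (S.par l ∩ y) (A.b l (S.par l)) with hβ
  have hβγ : β ∈ C.filt κ (M.N (S.par l ∩ y)) γ := r1 _ hp _ hz0 _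
  obtain ⟨f, hf, hfe⟩ := (hM.sat _ hz0).ext
    ((C.S_bd (S.opn l)).le (AX.lv_inf hκ) hk (CC.card_st hk (hM.small _ hz0) γ))
    (El.span ((C.S (S.opn l)).eta_h (C.st κ (M.N (S.par l ∩ y)) γ)) val_h)
  have hd := (AX.right_op (S.opn l) (C.st κ (M.N (S.par l ∩ y)) γ) (pt γ β)).post hf
    (e' := val) (fun x => hfe _ _ (G.mk _ _ x)) rfl
  set d := f (C.op (S.opn l) _ (pt γ β)) with hdd
  obtain ⟨δ, ⟨⟨c2, u2⟩, hγδ⟩, hdδ⟩ := (((hM.ev_inU hκ h0).and (ev_ge γ)).and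
    (CC.ev_mem hk (hM.small _ hz0) d)).exists
  obtain ⟨F, r, hr⟩ := h C S κ hκ _ y h0 _ _ _ u1 u2 (c1.mor_tr hκ hM.small c2 hγδ)
  have k1 := (hd.pre (f := val) val_h (e' := tr (M.N (S.par l ∩ y)) γ δ)
    (CC.val_tr hk (hM.small _ hz0) hγδ) (val_pt hdδ)).post (hr.hom _ hz0) (hr.eta _ hz0) rfl
  refine ⟨d, fun w hw hlw hpw z hz hzy hwz => ?_⟩
  have hz' : z ∈ {z ∈ 𝒞 | z ⊆ y} := ⟨hz, hzy⟩
  have hw' : w ∈ {w ∈ 𝒞 | l ∉ w} := ⟨hw, hlw⟩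
  have hsub : S.par l ∩ y ⊆ z := (Finset.inter_subset_inter_right hpw).trans hwz
  have k2 := k1.rep hκ hr.bd (u1.valid.hom _ hz0 z hz' hsub) (u1.small z hz')
  have k3 := (k2.pre (hr.hom z hz') (hr.eta z hz') (hr.nat _ hz0 z hz' hsub (pt δ d))).post
    (f := val) val_h (e' := val) (CC.val_tr hk (hM.small z hz') hγδ)
    (c' := M.i (S.par l ∩ y) z d) (by
      have := (c2.into _ hz0 z hz' hsub).val (pt δ d)
      rw [val_pt hdδ] at this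
      exact this)
  refine k3.mono (pt_h (hρ.hom w hw' z hz' hwz) (r1 w hw z hz')) ?_
    fun x => val_pt (r1 w hw z hz' x)
  have e2 : ρ w z (A.b l w) = M.i (S.par l ∩ y) z β := by
    rw [hβ, hρ.up _ hp' _ hz0 z hz' subset_rfl hsub, ← hρ.dn _ hp' w hw' z hz' hpw hwz,
      hA.valid.b hlE hp hw subset_rfl hpw]
  rw [e2]
  exact (Into.stm_pt hβγ).symm

end Abs1P

theorem abs1 (h : S_SigRho) : S_Abs1 := by
  intro C S κ hκ 𝒞 E y l hC hy hly hmx hUL A M ρ hA hM hρ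
  by_cases hex : ∃ w ∈ 𝒞, l ∈ w
  swap
  · push Not at hex
    have e : {w ∈ 𝒞 | l ∉ w} = 𝒞 := Set.ext fun w => ⟨fun hw => hw.1, fun hw => ⟨hw, hex w hw⟩⟩
    rw [e] at hρ
    exact ⟨ρ, hρ, fun _ _ => rfl, fun w hw hl => absurd hl (hex w hw)⟩
  obtain ⟨w0, hw0, hl0⟩ := hex
  have hp : S.par l ∈ 𝒞 := (hC.dn w0 hw0).2 _ (S.face_par l) ((hC.dn w0 hw0).1 l hl0)
  have hz0 := Abs1P.inter_mem hC hy hp
  obtain ⟨d, hd⟩ := Abs1P.point h hκ hC hy (hC.sub w0 hw0 hl0) hp hA hM hρ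
  have key : 𝒞 ⊆ 𝒞 → ∃ ρ1, Ab ({w ∈ 𝒞 | l ∉ w} ∪ 𝒞) {z ∈ 𝒞 | z ⊆ y} y A M ρ1 ∧
      (∀ w, l ∉ w → ρ1 w = ρ w) ∧ ∀ w ∈ 𝒞, l ∈ w → ∀ z ∈ {z ∈ 𝒞 | z ⊆ y}, w ∩ y ⊆ z →
        ρ1 w z (A.c l w) = M.i (S.par l ∩ y) z d := by
    refine Shape.Cx.induction (P := fun 𝒟 => 𝒟 ⊆ 𝒞 → ∃ ρ1,
      Ab ({w ∈ 𝒞 | l ∉ w} ∪ 𝒟) {z ∈ 𝒞 | z ⊆ y} y A M ρ1 ∧
      (∀ w, l ∉ w → ρ1 w = ρ w) ∧ ∀ w ∈ 𝒟, l ∈ w → ∀ z ∈ {z ∈ 𝒞 | z ⊆ y}, w ∩ y ⊆ z →
        ρ1 w z (A.c l w) = M.i (S.par l ∩ y) z d) ?_ ?_ hC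
    · intro _
      exact ⟨ρ, by rwa [union_empty], fun _ _ => rfl, fun _ hw => hw.elim⟩
    intro 𝒟 v hD hv hvE hvD hb ih hsub
    have hDC : 𝒟 ⊆ 𝒞 := (subset_insert _ _).trans hsub
    have hvC : v ∈ 𝒞 := hsub (mem_insert _ _)
    obtain ⟨ρ1, a1, a2, a3⟩ := ih hDC
    by_cases hlv : l ∈ v
    swap
    · have e : {w ∈ 𝒞 | l ∉ w} ∪ insert v 𝒟 = {w ∈ 𝒞 | l ∉ w} ∪ 𝒟 := by
        rw [union_insert]
        exact insert_eq_of_mem (Or.inl ⟨hvC, hlv⟩)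
      refine ⟨ρ1, by rwa [e], a2, ?_⟩
      rintro w (rfl | hw) hl
      · exact absurd hl hlv
      · exact a3 w hw hl
    have hm := hmx v hvC hlv
    have hu := Abs1P.inter_mem hC hy hvC
    have hzu : S.par l ∩ y ⊆ v ∩ y := Finset.inter_subset_inter_right (hv l hlv)
    have hbu : ∀ w ∈ S.Bd v, w ∩ y ⊆ v ∩ y := fun w hw => Finset.inter_subset_inter_right hw.2.1
    have hvE' : (↑v : Set S.L) ⊆ ↑E := Finset.coe_subset.2 hvE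
    have t1 := hA.valid.admT hC.dn hvC hvE'
    have he := hv.erase_mem_bd hm
    have hle : l ∉ v.erase l := Finset.notMem_erase l v
    obtain ⟨f, hf, hfe⟩ := (hM.sat _ hu).ext (hA.small v hvC)
      (hUL v hvC A (hA.mono (hb.trans hDC) hvE') l hm _ _ _ (M.N (v ∩ y))
        (fun w => ρ1 w (v ∩ y)) (M.i (S.par l ∩ y) (v ∩ y) d) t1.cone (t1.pnt l hm)
        ⟨fun w hw => a1.hom w (Or.inr (hb hw)) _ hu (hbu w hw),
          fun w hw z hz hwz => a1.dn w (Or.inr (hb hw)) z (Or.inr (hb hz)) _ hu hwz (hbu z hz)⟩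
        ⟨fun z hz hlz => a3 z (hb hz) hlz _ hu (hbu z hz), by
          rw [a2 _ hle]
          exact hd _ (hDC (hb he)) hle (hv.par_sub_erase hlv) _ hu.1 hu.2 (hbu _ he)⟩)
    have hne : ∀ w ∈ {w ∈ 𝒞 | l ∉ w} ∪ 𝒟, w ≠ v := by
      rintro w (hw | hw) rfl
      · exact hw.2 hlv
      · exact hvD hw
    have hcase : ∀ w ∈ {w ∈ 𝒞 | l ∉ w} ∪ insert v 𝒟, w = v ∨ w ∈ {w ∈ 𝒞 | l ∉ w} ∪ 𝒟 := by
      rintro w (hw | rfl | hw)
      · exact Or.inr (Or.inl hw)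
      · exact Or.inl rfl
      · exact Or.inr (Or.inr hw)
    refine ⟨update ρ1 v (fun z x => M.i (v ∩ y) z (f x)), ⟨?_, ?_, ?_, ?_⟩, ?_, ?_⟩
    · intro w hw z hz hwz
      rcases hcase w hw with rfl | hw
      · rw [update_self]
        exact C.comp hf (hM.valid.hom _ hu z hz hwz)
      · rw [update_of_ne (hne w hw)]
        exact a1.hom w hw z hz hwz
    · intro w hw z hz z' hz' hwz hzz x
      rcases hcase w hw with rfl | hw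
      · rw [update_self]
        exact hM.valid.comp _ hu z hz z' hz' hwz hzz _
      · rw [update_of_ne (hne w hw)]
        exact a1.up w hw z hz z' hz' hwz hzz x
    · intro w hw w' hw' z hz hww hwz x
      replace hw' := hcase w' hw'
      rcases hw' with rfl | hw'
      · rcases hcase w hw with rfl | hw
        · rw [hA.valid.id _ hvC]
        · have hwb : w ∈ S.Bd w' :=
            ⟨(hC.dn w (hw.elim (fun k => k.1) fun k => hDC k)).1, hww.ssubset_of_ne (hne w hw)⟩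
          rw [update_self, update_of_ne (hne w hw)]
          rw [hfe _ _ (Or.inl (GI.mk _ _ hwb x))]
          exact a1.up w hw _ hu z hz (hbu w hwb) hwz x
      · rcases hcase w hw with rfl | hw
        · rcases hw' with k | k
          · exact absurd (hww hlv) k.2
          · exact absurd ((hD.dn w' k).2 w hv hww) hvD
        · rw [update_of_ne (hne w hw), update_of_ne (hne w' hw')]
          exact a1.dn w hw w' hw' z hz hww hwz x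
    · intro k hk z hz hs
      rw [update_of_ne fun e : z = v => hly (hz.2 (e ▸ hlv))]
      exact a1.el k hk z hz hs
    · intro w hw
      rw [update_of_ne fun e : w = v => hw (e ▸ hlv)]
      exact a2 w hw
    · rintro w (rfl | hw) hl z hz hwz
      · rw [update_self, hfe _ _ (Or.inr ⟨rfl, rfl⟩)]
        exact hM.valid.comp _ hz0 _ hu z hz hzu hwz d
      · rw [update_of_ne (hne w (Or.inr hw))]
        exact a3 w hw hl z hz hwz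
  obtain ⟨ρ1, a1, a2, a3⟩ := key subset_rfl
  rw [union_eq_self_of_subset_left (sep_subset _ _)] at a1
  refine ⟨ρ1, a1, a2, fun w hw hl w' hw' hl' hpw z hz hzy h1 h2 => ?_⟩
  rw [a2 w' hl', a3 w hw hl z ⟨hz, hzy⟩ h1]
  exact hd w' hw' hl' hpw z hz hzy h2

end Pool.Agent.P.MP_860a31_lc.E
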