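import Pool.Agent.P.MP_860a31_lc.E.Stm

/-!
Absorption of all letters outside a face.
-/

open Cardinal hiding univ
open Set Order Filter Function

namespace Pool.Agent.P.MP_860a31_lc.E

open PC Sys

theorem absP (h : S_Abs1) : S_AbsP := by
  intro C S κ hκ 𝒞 E y hC hy hE hU hT A hA
  have hs : {z ∈ 𝒞 | z ⊆ y} ⊆ 𝒞 := fun z hz => hz.1
  have hD : S.Cx {z ∈ 𝒞 | z ⊆ y} y :=
    ⟨fun z hz => ⟨(hC.dn z hz.1).1, fun w hw hwz =>
      ⟨(hC.dn z hz.1).2 w hw hwz, hwz.trans hz.2⟩⟩, fun z hz => hz.2⟩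
  obtain ⟨M, g, hM, hg⟩ := hT A (hA.small.mono hs)
    (hA.valid.mono hs (Finset.coe_subset.2 hE)) fun z hz _ => hA.uq z hz.1
  have key : ∀ (n : ℕ) (𝒞1 : Set (Finset S.L)), 𝒞1.ncard < n → S.Cx 𝒞1 E → 𝒞1 ⊆ 𝒞 →
      {z ∈ 𝒞 | z ⊆ y} ⊆ 𝒞1 → ∃ ρ, Ab 𝒞1 {z ∈ 𝒞 | z ⊆ y} y A M ρ := by
    intro n
    induction n with
    | zero => exact fun _ a => absurd a (Nat.not_lt_zero _)
    | succ n ih =>
      intro 𝒞1 hn h1 h2 h3
      by_cases k : ∀ w ∈ 𝒞1, w ⊆ y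
      · have m : ∀ w ∈ 𝒞1, w ∈ {z ∈ 𝒞 | z ⊆ y} := fun w hw => ⟨h2 hw, k w hw⟩
        have i : ∀ w ∈ 𝒞1, ∀ {z}, w ∩ y ⊆ z → w ⊆ z := fun w hw z a => by
          rwa [Finset.inter_eq_left.2 (k w hw)] at a
        refine ⟨fun w z x => M.i w z (g w x), fun w hw z hz a => ?_, fun w hw z hz z' hz' a b x => ?_,
          fun w hw w' hw' z hz a b x => ?_, fun j hj z hz a => ?_⟩
        · exact C.comp (hg.hom w (m w hw)) (hM.valid.hom w (m w hw) z hz (i w hw a))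
        · exact hM.valid.comp w (m w hw) z hz z' hz' (i w hw a) b _
        · change M.i w' z (g w' (A.i w w' x)) = _
          rw [hg.nat w (m w hw) w' (m w' hw') a]
          exact hM.valid.comp w (m w hw) w' (m w' hw') z hz a (i w' hw' b) _
        · change M.i z z (g z (A.el j z)) = _
          rw [hM.valid.id z hz, hg.el j hj z hz a]
      · have le : ∀ w ∈ 𝒞1, w ⊆ h1.fin.toFinset.sup id := fun w hw =>
          Finset.le_sup (f := id) (h1.fin.mem_toFinset.2 hw)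
        obtain ⟨l, hl, hly⟩ := Shape.exists_mx_not (v := h1.fin.toFinset.sup id) hy
          fun a => k fun w hw => (le w hw).trans a
        obtain ⟨w0, a1, a2⟩ := Finset.mem_sup.1 hl.1
        have e : {z ∈ 𝒞1 | z ⊆ y} = {z ∈ 𝒞 | z ⊆ y} :=
          Subset.antisymm (fun z hz => ⟨h2 hz.1, hz.2⟩) fun z hz => ⟨h3 hz, hz.2⟩
        obtain ⟨ρ, hρ⟩ := ih {w ∈ 𝒞1 | l ∉ w}
          (lt_of_lt_of_le (ncard_lt_ncard ⟨fun w hw => hw.1, fun a =>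
            (a (h1.fin.mem_toFinset.1 a1)).2 a2⟩ h1.fin) (Nat.le_of_lt_succ hn))
          ⟨fun w hw => ⟨(h1.dn w hw.1).1, fun z hz a =>
            ⟨(h1.dn w hw.1).2 z hz a, fun b => hw.2 (a b)⟩⟩, fun w hw => h1.sub w hw.1⟩
          (fun w hw => h2 hw.1) fun z hz => ⟨h3 hz, fun b => hly (hz.2 b)⟩
        obtain ⟨ρ', hρ', -⟩ := h C S κ hκ 𝒞1 E y l h1 hy hly
          (fun w hw a => hl.mono (le w hw) a) (fun w hw => hU w (h2 hw)) A M ρ
          (hA.mono h2 subset_rfl) (e ▸ hM) (e ▸ hρ)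
        exact ⟨ρ', e ▸ hρ'⟩
  obtain ⟨ρ, hρ⟩ := key _ 𝒞 (Nat.lt_succ_self _) hC subset_rfl hs
  obtain ⟨γ, ⟨c1, c2⟩, c3⟩ := ((hM.ev_inU hκ hD).and ((eventually_all_finite hC.fin).2
    fun w hw => (eventually_all_finite hD.fin).2 fun z hz =>
      CC.ev_range (C.lv_ge hκ) (hM.small z hz) (hA.small w hw) (ρ w z))).exists
  refine ⟨M.stage κ γ, fun w z x => pt γ (ρ w z x), c2, fun w hw z hz a => ?_,
    fun w hw z hz z' hz' a b x => ?_, fun w hw w' hw' z hz a b x => ?_, fun j hj z hz a => ?_⟩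
  · exact pt_h (hρ.hom w hw z hz a) (c3 w hw z hz)
  · change stm (M.i z z') γ γ (pt γ (ρ w z x)) = pt γ (ρ w z' x)
    rw [Into.stm_pt (c3 w hw z hz x), hρ.up w hw z hz z' hz' a b]
  · exact congrArg (pt γ) (hρ.dn w hw w' hw' z hz a b x)
  · exact congrArg (pt γ) (hρ.el j hj z hz a)

end Pool.Agent.P.MP_860a31_lc.E
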