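import Pool.Agent.P.MP_860a31_lc.E.Stm

/-!
Amalgamation of a family of small extensions over a common base.
-/

open Cardinal hiding univ
open Set Order Filter Function

namespace Pool.Agent.P.MP_860a31_lc.E

open PC

namespace AmalgFamP

/-- objects with a map from the base -/
def St (C : AC) (B : C.Obj) : Type 1 := Σ Z : C.Obj, (C.U B → C.U Z)

/-- morphisms over the base -/
def Hm {C : AC} {B : C.Obj} (S S' : St C B) (w : Unit → C.U S.1 → C.U S'.1) : Prop :=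
  C.IsH (w ()) ∧ ∀ x, w () (S.2 x) = S'.2 x

/-- colimits of small chains over the base -/
theorem lim {C : AC} {B : C.Obj} {θ : Cardinal.{0}} (hθ : ℵ₀ ≤ θ) (ι : Type) [LinearOrder ι]
    (i0 : ι) (h0 : ∀ i, i0 ≤ i) (hι : #ι ≤ θ) (F : ι → St C B)
    (t : ∀ a b : ι, a ≤ b → Unit → C.U (F a).1 → C.U (F b).1)
    (ht : ∀ a b h, Hm (F a) (F b) (t a b h)) (hid : ∀ a i x, t a a le_rfl i x = x)
    (hc : ∀ a b c (h : a ≤ b) (h' : b ≤ c) i x, t b c h' i (t a b h i x) = t a c (h.trans h') i x)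
    (hI : ∀ a, C.IsH (F a).2 ∧ #(C.U (F a).1) ≤ θ) :
    ∃ S : St C B, ∃ u : ∀ a, Unit → C.U (F a).1 → C.U S.1, (C.IsH S.2 ∧ #(C.U S.1) ≤ θ) ∧
      (∀ a, Hm (F a) S (u a)) ∧ (∀ a b h i x, u b i (t a b h i x) = u a i x) ∧
      ∀ i y, ∃ a x, u a i x = y := by
  have : Nonempty ι := ⟨i0⟩
  obtain ⟨D, u, h1, h2, h3⟩ := C.colim ι (fun a => (F a).1) (fun a b h => t a b h ())
    (fun a b h => (ht a b h).1) (fun a x => hid a () x) (fun a b c h h' x => hc a b c h h' () x)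
  refine ⟨⟨D, fun x => u i0 ((F i0).2 x)⟩, fun a _ => u a,
    ⟨comp' (hI i0).1 (h1 i0) fun _ => rfl, card_cover u h3 hθ hι fun a => (hI a).2⟩,
    fun a => ⟨h1 a, fun x => ?_⟩, fun a b h _ x => h2 a b h x, fun _ y => h3 y⟩
  change u a ((F a).2 x) = u i0 ((F i0).2 x)
  rw [← (ht i0 a (h0 a)).2 x]
  exact h2 i0 a (h0 a) _

end AmalgFamP

open AmalgFamP in
theorem amalgFam : S_AmalgFam := by
  intro C θ hk B T Y R hB hT hY hR
  have hθ : ℵ₀ ≤ θ := C.inf.trans hk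
  obtain ⟨en, hen⟩ : ∃ en : W θ → Option T, Surjective en := by
    have h1 : #(Option T) ≤ #(W θ) := by
      rw [W.card hθ, mk_option]
      exact add_le_of_le hθ hT (one_le_aleph0.trans hθ)
    obtain ⟨e⟩ := (Cardinal.le_def _ _).1 h1
    exact ⟨invFun e, invFun_surjective e.injective⟩
  obtain ⟨F, t, hF0, hI, ht, hid, hc, hS, -⟩ := gchain (Λ := W θ) (St := St C B) (ι := Unit)
    (fun S _ => C.U S.1) Hm (fun S => ⟨C.idH _, fun _ => rfl⟩)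
    (fun S S' S'' f g hf hg => ⟨C.comp hf.1 hg.1, fun x => by
      change g () (f () (S.2 x)) = _
      rw [hf.2, hg.2]⟩)
    (fun _ S => C.IsH S.2 ∧ #(C.U S.1) ≤ θ)
    (fun a _ S' _ => ∀ τ, en a = some τ → ∃ h : C.U (Y τ) → C.U S'.1, C.IsH h ∧
      ∀ y x, R τ y x → h y = S'.2 x)
    ⟨B, fun x => x⟩ ⟨C.idH B, hB⟩
    (by
      intro a S hS
      rcases he : en a with _ | τ
      · exact ⟨S, fun _ x => x, ⟨C.idH _, fun _ => rfl⟩, hS, fun τ h => by cases h⟩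
      · have h1 : C.El (Y τ) S.1 (fun y w => ∃ x, R τ y x ∧ S.2 x = w) :=
          El.push (C.idH _) hS.1 (hR τ) fun y w ⟨x, r, e⟩ => ⟨y, x, r, rfl, e⟩
        obtain ⟨Z, f, f', k1, k2, k3, k4⟩ := h1.small hk (hY τ) hS.2
        refine ⟨⟨Z, fun x => f' (S.2 x)⟩, fun _ => f', ⟨k2, fun _ => rfl⟩,
          ⟨comp' hS.1 k2 fun _ => rfl, k3⟩, fun τ' h => ?_⟩
        obtain rfl : τ = τ' := Option.some_injective _ h
        exact ⟨f, k1, fun y x r => k4 _ _ ⟨x, r, rfl⟩⟩)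
    (by
      intro δ hδ c hI _
      exact lim hθ (Iio δ) ⟨⊥, hδ.bot_lt⟩ (fun i => (bot_le : (⊥ : W θ) ≤ i.1))
        (W.iio hθ δ).le c.F c.t c.hom c.t_id c.t_comp hI)
  obtain ⟨S, u, ⟨k1, k2⟩, k3, -, -⟩ :=
    lim hθ (W θ) ⊥ (fun _ => bot_le) (W.card hθ).le F t ht hid hc hI
  have key : ∀ τ, ∃ h : C.U (Y τ) → C.U S.1, C.IsH h ∧ ∀ y x, R τ y x → h y = S.2 x := by
    intro τ
    obtain ⟨a, ha⟩ := hen (some τ)
    obtain ⟨h, h1, h2⟩ := hS a τ ha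
    refine ⟨fun y => u (succ a) () (h y), C.comp h1 (k3 _).1, fun y x r => ?_⟩
    change u (succ a) () (h y) = _
    rw [h2 y x r, (k3 _).2]
  choose h hh using key
  exact ⟨S.1, S.2, h, k2, k1, hh⟩

end Pool.Agent.P.MP_860a31_lc.E
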