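import Pool.Agent.P.MP_860a31_lc.E.Filt

/-!
The abstract axioms: definable types given by functors, universality and symmetry at a
sequence of levels.  Calculus of the relation `Right`.
-/

open Cardinal hiding univ
open Set Order Filter Function

namespace Pool.Agent.P.MP_860a31_lc.E

/-- the relation in the symmetry property of two functors at `N` -/
def SymR {C : PC} (F F' : Fn C) (N : C.Obj) (a : C.U (F'.ap (F.ap N))) (b : C.U (F.ap (F'.ap N))) :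
    Prop :=
  G (F'.eta (F.ap N)) (F.mp (F'.eta N)) a b ∨ G (F'.mp (F.eta N)) (F.eta (F'.ap N)) a b

structure AX extends AC where
  Lv : Cardinal.{0} → Prop
  lv_k0 : Lv k0
  lv_ge : ∀ {κ}, Lv κ → k0 ≤ κ
  lv_succ : ∀ {κ}, Lv κ → Lv (succ κ)
  Op : Type
  op_card : #Op ≤ k0
  S : Op → Fn toPC
  S_bd : ∀ t, (S t).Bd k0
  op : ∀ (t : Op) (A : Obj), U A → U ((S t).ap A)
  op_nat : ∀ (t : Op) {A B : Obj} {g : U A → U B}, IsH g → ∀ x,
    (S t).mp g (op t A x) = op t B (g x)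
  uu : ∀ {κ}, Lv κ → ∀ {N B : Obj} {φ : U N → U B}, IsH φ → #(U B) ≤ κ →
    ∃ F : Fn toPC, F.Bd κ ∧ F.Fin ∧
      (∀ τ : U (F.ap N), ∃ t x,
        toPC.El (F.ap N) ((S t).ap N) (G1 (F.eta N) ((S t).eta N) τ (op t N x))) ∧
      ∃ ψ : U B → U (F.ap N), IsH ψ ∧ ∀ x, ψ (φ x) = F.eta N x
  sym : ∀ {κ}, Lv κ → ∀ {F F' : Fn toPC}, F.Bd κ → F'.Bd κ → ∀ N : Obj, #(U N) ≤ κ →
    toPC.El (F'.ap (F.ap N)) (F.ap (F'.ap N)) (SymR F F' N)

namespace AX

variable {C : AX} {κ : Cardinal.{0}}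

theorem lv_inf (h : C.Lv κ) : ℵ₀ ≤ κ := C.inf.trans (C.lv_ge h)

/-- `c` realises over `B` the definable type given by `t` and `β` -/
def Right (C : AX) (t : C.Op) (B : C.Obj) (β : C.U B) {Z : C.Obj} (e : C.U B → C.U Z)
    (c : C.U Z) : Prop :=
  C.El Z ((C.S t).ap B) (G1 e ((C.S t).eta B) c (C.op t B β))

theorem right_op (t : C.Op) (B : C.Obj) (β : C.U B) :
    C.Right t B β ((C.S t).eta B) (C.op t B β) :=
  PC.El.of_hom (C.idH _) (by rintro _ _ (⟨x, rfl, rfl⟩ | ⟨rfl, rfl⟩) <;> rfl)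

namespace Right

variable {t t' : C.Op} {A B Z Z' : C.Obj} {β : C.U B} {e : C.U B → C.U Z} {c : C.U Z}

theorem congr (h : C.Right t B β e c) {e' : C.U B → C.U Z} (he : ∀ x, e x = e' x) {β' : C.U B}
    (hβ : β = β') {c' : C.U Z} (hc : c = c') : C.Right t B β' e' c' := by
  rw [← (funext he : e = e'), ← hβ, ← hc]; exact h

/-- restriction to a smaller base containing the parameter -/
theorem mono (h : C.Right t B β e c) {g : C.U A → C.U B} (hg : C.IsH g) {α : C.U A}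
    (hα : g α = β) {e' : C.U A → C.U Z} (he : ∀ x, e (g x) = e' x) : C.Right t A α e' c := by
  refine PC.El.pull_right ((C.S t).mp_h hg) h ?_
  rintro _ _ (⟨x, rfl, rfl⟩ | ⟨rfl, rfl⟩)
  · exact Or.inl ⟨g x, he x, ((C.S t).eta_nat hg x).symm⟩
  · exact Or.inr ⟨rfl, by rw [C.op_nat t hg, hα]⟩

/-- transfer along a joint embedding -/
theorem of_el (h : C.Right t B β e c) {e' : C.U B → C.U Z'} {c' : C.U Z'}
    {R : C.U Z' → C.U Z → Prop} (hR : C.El Z' Z R) (h1 : ∀ x, R (e' x) (e x)) (h2 : R c' c) :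
    C.Right t B β e' c' := by
  refine PC.El.trans hR h ?_
  rintro _ _ (⟨x, rfl, rfl⟩ | ⟨rfl, rfl⟩)
  · exact ⟨_, h1 x, Or.inl (G.mk _ _ x)⟩
  · exact ⟨_, h2, Or.inr ⟨rfl, rfl⟩⟩

theorem post (h : C.Right t B β e c) {f : C.U Z → C.U Z'} (hf : C.IsH f) {e' : C.U B → C.U Z'}
    (he : ∀ x, f (e x) = e' x) {c' : C.U Z'} (hc : f c = c') : C.Right t B β e' c' :=
  h.of_el (R := fun a b => a = f b) (PC.El.of_hom' hf fun _ _ h => h) (fun x => (he x).symm)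
    hc.symm

theorem pre (h : C.Right t B β e c) {f : C.U Z' → C.U Z} (hf : C.IsH f) {e' : C.U B → C.U Z'}
    (he : ∀ x, f (e' x) = e x) {c' : C.U Z'} (hc : f c' = c) : C.Right t B β e' c' :=
  h.of_el (R := fun a b => f a = b) (PC.El.of_hom hf fun _ _ h => h) he hc

/-- two realisations have the same type -/
theorem uniq (h : C.Right t B β e c) {e' : C.U B → C.U Z'} {c' : C.U Z'}
    (h' : C.Right t B β e' c') : C.El Z Z' (G1 e e' c c') := by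
  refine PC.El.trans h (PC.El.symm h') ?_
  rintro _ _ (⟨x, rfl, rfl⟩ | ⟨rfl, rfl⟩)
  · exact ⟨_, Or.inl (G.mk _ _ x), Or.inl (G.mk _ _ x)⟩
  · exact ⟨_, Or.inr ⟨rfl, rfl⟩, Or.inr ⟨rfl, rfl⟩⟩

/-- functors preserve the relation -/
theorem fn (hκ : C.Lv κ) (h : C.Right t B β e c) (he : C.IsH e) (hB : #(C.U B) ≤ κ)
    {F : Fn C.toPC} (hF : F.Bd κ) :
    C.Right t (F.ap B) (F.eta B β) (F.mp e) (F.eta Z c) := by
  refine PC.El.trans (F.el h) (C.sym hκ ((C.S_bd t).mono (C.lv_ge hκ)) hF B hB) ?_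
  rintro _ _ (⟨x, rfl, rfl⟩ | ⟨rfl, rfl⟩)
  · exact ⟨_, Or.inr ⟨B, e, _, he, (C.S t).eta_h B, fun x => Or.inl (G.mk _ _ x), G.mk _ _ x⟩,
      Or.inr (G.mk _ _ x)⟩
  · exact ⟨_, Or.inl ⟨_, _, Or.inr ⟨rfl, rfl⟩, rfl, rfl⟩,
      Or.inl ⟨_, rfl, C.op_nat t (F.eta_h B) β⟩⟩

/-- an element of `F A` that is right over `A` is right over every small extension -/
theorem rep (hκ : C.Lv κ) {F : Fn C.toPC} (hF : F.Bd κ) {α : C.U A} {τ : C.U (F.ap A)}
    (h : C.Right t A α (F.eta A) τ) {g : C.U A → C.U B} (hg : C.IsH g) (hB : #(C.U B) ≤ κ) :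
    C.Right t B (g α) (F.eta B) (F.mp g τ) := by
  have hA : #(C.U A) ≤ κ := (PC.card_le hg).trans hB
  obtain ⟨F', hF', -, -, ψ, hψ, hψg⟩ := C.uu hκ hg hB
  have h1 := h.fn hκ (F.eta_h A) hA hF'
  have h2 : C.Right t (F'.ap A) (F'.eta A α) (F.eta (F'.ap A)) (F.mp (F'.eta A) τ) :=
    h1.of_el (C.sym hκ hF hF' A hA).symm (fun x => Or.inr (G.mk _ _ x)) (Or.inl (G.mk _ _ τ))
  exact (h2.mono hψ (hψg α) (fun _ => rfl)).pre (F.mp_h hψ) (fun x => F.eta_nat hψ x)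
    (F.mp_eq hg hψ hψg τ)

/-- two definitions of a type that agree on `A` agree on every small extension -/
theorem swap (hκ : C.Lv κ) {α α' : C.U A} {e0 : C.U A → C.U Z'} {c0 : C.U Z'}
    (h1 : C.Right t A α e0 c0) (h2 : C.Right t' A α' e0 c0) {g : C.U A → C.U B} (hg : C.IsH g)
    (hB : #(C.U B) ≤ κ) (h : C.Right t B (g α) e c) : C.Right t' B (g α') e c := by
  have h3 : C.Right t' A α' ((C.S t).eta A) (C.op t A α) :=
    h2.of_el (PC.El.symm h1) (fun x => Or.inl (G.mk _ _ x)) (Or.inr ⟨rfl, rfl⟩)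
  have h4 := h3.rep hκ ((C.S_bd t).mono (C.lv_ge hκ)) hg hB
  rw [C.op_nat t hg] at h4
  exact h4.of_el h (fun x => Or.inl (G.mk _ _ x)) (Or.inr ⟨rfl, rfl⟩)

end Right

/-- every type over an object of level size is definable -/
theorem exists_right (hκ : C.Lv κ) {B Z : C.Obj} {e : C.U B → C.U Z} (he : C.IsH e)
    (hB : #(C.U B) ≤ κ) (c : C.U Z) : ∃ t β, C.Right t B β e c := by
  obtain ⟨Y, k, h1, h2, h3⟩ := PC.ls' (C.lv_ge hκ) Z (S := insert c (range e))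
    (mk_insert_le.trans (add_le_of_le (lv_inf hκ) (mk_range_le.trans hB)
      (one_le_aleph0.trans (lv_inf hκ))))
  obtain ⟨e', k1, k2⟩ := PC.factor he h1 ((subset_insert _ _).trans h2)
  obtain ⟨c', rfl⟩ := h2 (mem_insert _ _)
  obtain ⟨F, -, -, hF, ψ, hψ, hψe⟩ := C.uu hκ k1 h3
  obtain ⟨t, β, h⟩ := hF (ψ c')
  exact ⟨t, β, (Right.pre (e := F.eta B) h hψ hψe rfl).post h1 k2 rfl⟩

/-- local character -/
theorem Right.loc (hκ : C.Lv κ) {t : C.Op} {B Z : C.Obj} {β : C.U B} {e : C.U B → C.U Z}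
    {c : C.U Z} (he : C.IsH e) (hB : #(C.U B) ≤ κ)
    (h : ∀ x : C.U B, ∃ (A : C.Obj) (g : C.U A → C.U B) (α : C.U A), C.IsH g ∧ g α = β ∧
      x ∈ range g ∧ C.Right t A α (fun a => e (g a)) c) : C.Right t B β e c := by
  obtain ⟨t', β', h'⟩ := exists_right hκ he hB c
  obtain ⟨A, g, α, hg, rfl, ⟨α', rfl⟩, h1⟩ := h β'
  exact Right.swap hκ (h'.mono hg rfl fun _ => rfl) h1 hg hB h'

/-- a joint embedding with `F N` becomes an embedding into `F' (F N)` -/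
theorem el_fn (hκ : C.Lv κ) {M N : C.Obj} {R : C.U M → C.U N → Prop} (h : C.El M N R)
    (hM : #(C.U M) ≤ κ) (hN : #(C.U N) ≤ κ) : ∃ F : Fn C.toPC, F.Bd κ ∧
      ∃ ψ : C.U M → C.U (F.ap N), C.IsH ψ ∧ ∀ m u, R m u → ψ m = F.eta N u := by
  obtain ⟨Y, f, f', h1, h2, h3, h4⟩ := h.small (C.lv_ge hκ) hM hN
  obtain ⟨F, hF, -, -, ψ, hψ, hψf⟩ := C.uu hκ h2 h3
  exact ⟨F, hF, _, C.comp h1 hψ, fun m u r => by rw [← hψf, ← h4 m u r]⟩

/-- stability at every level -/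
theorem pstab (hκ : C.Lv κ) : C.PStab κ Unit := by
  intro A M f hf hA Y a hY
  choose t β h using fun y => exists_right hκ hf hA (a y ())
  have : ¬ Injective (fun y => (t y, β y)) := fun hi => by
    refine hY.not_ge ((mk_le_of_injective hi).trans ?_)
    rw [mk_prod, lift_id, lift_id]
    exact mul_le_of_le (lv_inf hκ) (C.op_card.trans (C.lv_ge hκ)) hA
  obtain ⟨y, y', e, hne⟩ := not_injective_iff.1 this
  obtain ⟨e1, e2⟩ := Prod.mk.inj e
  refine ⟨y, y', hne, ((h y).uniq (e1 ▸ e2 ▸ h y')).mono ?_⟩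
  rintro _ _ (h | ⟨_, rfl, rfl⟩)
  · exact Or.inl h
  · exact Or.inr ⟨rfl, rfl⟩

end AX

end Pool.Agent.P.MP_860a31_lc.E
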