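import Pool.Agent.P.MP_860a31_lc.E.Stm

/-!
Adding all faces of the next size.
-/

open Cardinal hiding univ
open Set Order Filter Function

namespace Pool.Agent.P.MP_860a31_lc.E

open PC Sys

theorem bigStep (h1 : S_AAex) (h2 : S_UpdGood) (h3 : S_GoodT) : S_BigStep := by
  classical
  intro C S κ hκ hM code n A hA hc
  have bd : ∀ v : Finset S.L, v.card = n → S.Bd v ⊆ {y | S.Face y ∧ y.card < n} :=
    fun v hv y hy => ⟨hy.1, hv ▸ Finset.card_lt_card hy.2⟩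
  have ex : ∀ v : Finset S.L, ∃ (Z : C.Obj) (e : ∀ y, C.U (A.N y) → C.U Z) (p : S.L → C.U Z)
      (en : J κ → C.U Z), S.Face v ∧ v.card = n → #(C.U Z) ≤ succ κ ∧ C.Sat κ Z ∧
        A.AdmT v Z e p ∧ GoodT κ A v Z e p ∧ Surjective en := fun v => by
    by_cases hv : S.Face v ∧ v.card = n
    swap
    · exact ⟨A.N v, fun y => A.i y v, fun j => A.c j v, fun _ => Classical.arbitrary _,
        fun h => absurd h hv⟩
    have g : Good κ (S.Bd v) v A := hA.mono (bd v hv.2) (subset_univ _)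
    obtain ⟨γ, a1, a2⟩ := (g.ev_inU hκ (S.cx_bd v)).exists
    obtain ⟨Q, e, p, b1, b2⟩ := h1 C S κ hκ v hv.1 (fun w hw => hM.ul w hw.1)
      (fun u _ => hM.te _ _ (S.cx_le u)) _ a2
    obtain ⟨Z, k, e', -, c1, c2, c3, -, c4⟩ := hM.d v hv.1 A g _ _ a2 a1.mor Q e p b1 b2
    obtain ⟨f⟩ := (Cardinal.le_def _ _).1 (c1.trans_eq (J.card (C.lv_inf hκ)).symm)
    exact ⟨Z, e', _, invFun f, fun _ => ⟨c1, c2, c3, c4, invFun_surjective f.injective⟩⟩
  choose Z e p en hZ using ex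
  let q : ∀ v, S.L × Bool → C.U (Z v) := fun v a =>
    if S.sup a ∈ S.Bd v then e v (S.sup a) (A.el a (S.sup a))
    else if a.2 then p v a.1 else en v (code a.1)
  have hq : ∀ v, S.Face v ∧ v.card = n → ∀ j, S.Mx v j → p v j = q v (j, true) := fun v hv j hj => by
    by_cases h : S.sup (j, true) ∈ S.Bd v
    · rw [show q v (j, true) = _ from if_pos h]
      exact (((hZ v hv).2.2.1.pnt j hj).idp _ h (Finset.mem_insert_self _ _)).symm
    · rw [show q v (j, true) = _ from if_neg h, if_pos rfl]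
  obtain ⟨B, ρ, k, b1, b2, b3, b4⟩ := h2 C S κ hκ {y | S.Face y ∧ y.card < n}
    {v | S.Face v ∧ v.card = n} univ
    (fun y hy => ⟨hy.1, fun z hz h => ⟨hz, (Finset.card_le_card h).trans_lt hy.2⟩⟩)
    (fun v hv => ⟨hv.1, fun h => h.2.ne hv.2, bd v hv.2⟩) A Z e q hA (fun _ _ => subset_univ _)
    (fun _ _ => subset_univ _)
    (fun v hv => (hZ v hv).2.2.1.post hv.1 (C.idH _) (fun _ _ _ => rfl) (hq v hv))
    (fun v hv a _ y hy h => by
      have h' : S.sup a ∈ S.Bd v := ⟨S.face_sup a, h.trans_ssubset hy.2⟩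
      rw [show q v a = _ from if_pos h', ← hA.valid.el a trivial _ (bd v hv.2 h') y (bd v hv.2 hy)
        subset_rfl h, (hZ v hv).2.2.1.cone.nat _ h' y hy h])
    fun v hv => ⟨(hZ v hv).1, (hZ v hv).2.1, h3 C S κ hκ v hv.1 A A (fun _ x => x) _ _ (e v) (e v)
      (p v) _ (fun x => x) (hA.small.mono (bd v hv.2)) (hZ v hv).1 (SMor.id A) (C.idH _)
      surjective_id (fun _ _ _ => rfl) (hq v hv) (hZ v hv).2.2.2.1⟩
  refine ⟨B, ρ, b1.mono (fun y hy => ?_) subset_rfl, fun u hu β => ?_, b2,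
    fun y hy hn => b3 y ⟨hy, hn⟩⟩
  · rcases (Nat.lt_succ_iff.1 hy.2).eq_or_lt with h | h
    exacts [Or.inr ⟨hy.1, h⟩, Or.inl ⟨hy.1, h⟩]
  · rcases (Nat.lt_succ_iff.1 hu.2).eq_or_lt with h | h
    · obtain ⟨-, c1, -, c2⟩ := b4 u ⟨hu.1, h⟩
      obtain ⟨z, rfl⟩ := c1 β
      obtain ⟨j, rfl⟩ := (hZ u ⟨hu.1, h⟩).2.2.2.2 z
      refine ⟨j, fun l hl hj => (c2 _).trans (congrArg _ ?_)⟩
      rw [show q u (l, false) = _ from if_neg (by
        rw [S.sup_false, hl]; exact S.not_mem_bd u), if_neg Bool.false_ne_true, hj]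
    · obtain ⟨x, rfl⟩ := b3 u ⟨hu.1, h⟩ β
      obtain ⟨j, hj⟩ := hc u ⟨hu.1, h⟩ x
      exact ⟨j, fun l hl hl' => by rw [← hj l hl hl', b2.b trivial ⟨hu.1, h⟩ hl.le]⟩

end Pool.Agent.P.MP_860a31_lc.E
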