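import Pool.Agent.P.MP_860a31_lc.E.Stm

/-!
A good system on all faces.
-/

open Cardinal hiding univ
open Set Order Filter Function

namespace Pool.Agent.P.MP_860a31_lc.E

open PC Sys

namespace BigSysP

variable {C : AX} {S : Shape C}

/-- the faces of size less than `n` -/
abbrev D (S : Shape C) (n : ℕ) : Set (Finset S.L) := {y | S.Face y ∧ y.card < n}

theorem dn (n : ℕ) : S.Dn (D S n) := fun _ hy =>
  ⟨hy.1, fun _ hz h => ⟨hz, (Finset.card_le_card h).trans_lt hy.2⟩⟩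

theorem mono {n m : ℕ} (h : n ≤ m) : D S n ⊆ D S m := fun _ hy => ⟨hy.1, hy.2.trans_le h⟩

theorem sub {y z : Finset S.L} (hy : S.Face y) (h : y ⊆ z) : y ∈ D S (z.card + 1) :=
  ⟨hy, Nat.lt_succ_of_le (Finset.card_le_card h)⟩

/-- composites along a sequence of surjective morphisms -/
theorem comps (A : ℕ → Sys S) (ρ : ∀ n y, C.U ((A n).N y) → C.U ((A (n + 1)).N y))
    (h1 : ∀ n, SMor (D S n) univ (A n) (A (n + 1)) (ρ n))
    (h2 : ∀ n, ∀ y ∈ D S n, Surjective (ρ n y)) :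
    ∃ k : ∀ n m y, C.U ((A n).N y) → C.U ((A m).N y),
      (∀ n m, n ≤ m → SMor (D S n) univ (A n) (A m) (k n m) ∧
        ∀ y ∈ D S n, Surjective (k n m y)) ∧
      ∀ n m l, n ≤ m → m ≤ l → ∀ y x, k m l y (k n m y x) = k n l y x := by
  refine ⟨fun n m y x => if h : n ≤ m then
    Nat.leRecOn (C := fun j => C.U ((A j).N y)) h (fun {j} => ρ j y) x
    else Classical.arbitrary _, fun n m h => ?_, fun n m l h h' y x => ?_⟩
  · induction m, h using Nat.le_induction with
    | base =>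
      simp only [le_refl, dif_pos, Nat.leRecOn_self]
      exact ⟨SMor.id _, fun _ _ => surjective_id⟩
    | succ m h ih =>
      simp only [dif_pos h] at ih
      simp only [dif_pos (Nat.le_succ_of_le h), Nat.leRecOn_succ h]
      exact ⟨ih.1.comp ((h1 m).mono (mono h) subset_rfl),
        fun y hy => (h2 m y (mono h hy)).comp (ih.2 y hy)⟩
  · simp only [dif_pos h, dif_pos h', dif_pos (h.trans h')]
    exact (Nat.leRecOn_trans (C := fun j => C.U ((A j).N y)) h h' x).symm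

end BigSysP

open BigSysP in
theorem bigSys (h1 : S_BigStep) (h2 : S_GoodIso) : S_BigSys := by
  intro C S κ hκ hM O code
  let T : ℕ → Type 1 := fun n => {A : Sys S // Good κ (D S n) univ A ∧ Coded code (D S n) A}
  have st : ∀ n (A : T n), ∃ (B : T (n + 1)) (ρ : ∀ y, C.U (A.1.N y) → C.U (B.1.N y)),
      SMor (D S n) univ A.1 B.1 ρ ∧ ∀ y ∈ D S n, Surjective (ρ y) := fun n A => by
    obtain ⟨B, ρ, a1, a2, a3, a4⟩ := h1 C S κ hκ hM code n A.1 A.2.1 A.2.2
    exact ⟨⟨B, a1, a2⟩, ρ, a3, fun y hy => a4 y hy.1 hy.2⟩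
  choose nx ρ s1 s2 using st
  have e0 : ∀ {y : Finset S.L} {p : Prop}, y ∈ D S 0 → p := fun h => absurd h.2 (Nat.not_lt_zero _)
  let a : ∀ n, T n := fun n => Nat.rec
    ⟨⟨fun _ => O, fun _ _ x => x, fun _ _ => Classical.arbitrary _⟩,
      ⟨fun _ h => e0 h, ⟨fun _ h => e0 h, fun _ h => e0 h, fun _ h => e0 h, fun _ _ _ h => e0 h,
        fun _ h => e0 h⟩, fun _ h => e0 h, fun _ h => e0 h⟩, fun _ h => e0 h⟩ nx n
  obtain ⟨k, k1, k2⟩ := comps (fun n => (a n).1) (fun n => ρ n (a n)) (fun n => s1 n (a n))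
    fun n => s2 n (a n)
  let B : Sys S := ⟨fun y => (a (y.card + 1)).1.N y,
    fun y z x => (a (z.card + 1)).1.i y z (k (y.card + 1) (z.card + 1) y x),
    fun c y => (a (y.card + 1)).1.el c y⟩
  have g : ∀ n, Good κ (D S n) univ B := fun n => by
    have m : SMor (D S n) univ B (a n).1 fun y => k (y.card + 1) n y :=
      ⟨fun y hy => (k1 _ n hy.2).1.hom y (sub hy.1 subset_rfl), fun y hy z hz hyz x =>
        ((k1 _ n hz.2).1.nat y (sub hy.1 hyz) z (sub hz.1 subset_rfl) hyz _).trans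
          (congrArg _ (k2 _ _ _ (Nat.succ_le_succ (Finset.card_le_card hyz)) hz.2 y x)),
        fun c hc y hy hs => (k1 _ n hy.2).1.el c hc y (sub hy.1 subset_rfl) hs⟩
    obtain ⟨σ, b1, -, b2⟩ := m.inverse fun y hy => (k1 _ n hy.2).2 y (sub hy.1 subset_rfl)
    exact h2 C S κ hκ _ _ (dn n) (fun _ _ => subset_univ _) _ _ σ b1 b2 (a n).2.1
  refine ⟨B, ⟨fun y hy => (g _).small y (sub hy.1 subset_rfl),
    ⟨fun y hy => (g _).valid.id y (sub hy.1 subset_rfl),
      fun y hy z hz h => (g _).valid.hom y (sub hy.1 h) z (sub hz.1 subset_rfl) h,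
      fun y hy z hz w hw h h' => (g _).valid.comp y (sub hy.1 (h.trans h')) z (sub hz.1 h') w
        (sub hw.1 subset_rfl) h h',
      fun c hc y hy z hz h h' => (g _).valid.el c hc y (sub hy.1 h') z (sub hz.1 subset_rfl) h h',
      fun z hz => (g _).valid.right z (sub hz.1 subset_rfl)⟩,
    fun y hy => (g _).sat y (sub hy.1 subset_rfl), fun y hy => (g _).uq y (sub hy.1 subset_rfl)⟩,
    fun u hu β => (a (u.card + 1)).2.2 u (sub hu.1 subset_rfl) β⟩

end Pool.Agent.P.MP_860a31_lc.E
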