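import Pool.Agent.P.MP_860a31_lc.E.Idx

/-!
Abstract concrete categories with the closure properties of an abstract elementary class,
joint embeddability of tuples, and endofunctors.
-/

open Cardinal hiding univ
open Set Order Filter Function

namespace Pool.Agent.P.MP_860a31_lc.E

/-- objects, underlying sets and a class of injective maps with coherence and a
Löwenheim–Skolem number `k0` -/
structure PC where
  Obj : Type 1
  U : Obj → Type
  IsH : ∀ {A B : Obj}, (U A → U B) → Prop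
  k0 : Cardinal.{0}
  inf : ℵ₀ ≤ k0
  ne : ∀ A, Nonempty (U A)
  inj : ∀ {A B : Obj} {f : U A → U B}, IsH f → Injective f
  idH : ∀ A : Obj, IsH (fun x : U A => x)
  comp : ∀ {A B D : Obj} {f : U A → U B} {g : U B → U D}, IsH f → IsH g → IsH (fun x => g (f x))
  coh : ∀ {A B D : Obj} (h : U A → U B) {g : U B → U D}, IsH g → IsH (fun x => g (h x)) → IsH h
  ls : ∀ (A : Obj) (S : Set (U A)), ∃ (B : Obj) (f : U B → U A), IsH f ∧ S ⊆ range f ∧
    #(U B) ≤ #S + k0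

instance (C : PC) (A : C.Obj) : Nonempty (C.U A) := C.ne A

/-- directed colimits and smoothness -/
structure CC extends PC where
  colim : ∀ (ι : Type) [Preorder ι] [IsDirected ι (· ≤ ·)] [Nonempty ι] (A : ι → Obj)
    (f : ∀ i j, i ≤ j → U (A i) → U (A j)), (∀ i j h, IsH (f i j h)) →
    (∀ i x, f i i le_rfl x = x) →
    (∀ i j k (hij : i ≤ j) (hjk : j ≤ k) x, f j k hjk (f i j hij x) = f i k (hij.trans hjk) x) →
    ∃ (B : Obj) (u : ∀ i, U (A i) → U B), (∀ i, IsH (u i)) ∧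
      (∀ i j h x, u j (f i j h x) = u i x) ∧ ∀ y, ∃ i x, u i x = y
  smooth : ∀ {ι : Type} (A : ι → Obj) {B D : Obj} (u : ∀ i, U (A i) → U B) (g : U B → U D),
    (∀ i, IsH (u i)) → (∀ i j, ∃ k, range (u i) ⊆ range (u k) ∧ range (u j) ⊆ range (u k)) →
    (∀ y, ∃ i x, u i x = y) → (∀ i, IsH (fun x => g (u i x))) → IsH g

/-- amalgamation and joint embedding -/
structure AC extends CC where
  ap : ∀ {A B D : Obj} {f : U A → U B} {g : U A → U D}, IsH f → IsH g →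
    ∃ (Z : Obj) (f' : U B → U Z) (g' : U D → U Z), IsH f' ∧ IsH g' ∧ ∀ x, f' (f x) = g' (g x)
  jep : ∀ A B : Obj, ∃ (Z : Obj) (f : U A → U Z) (g : U B → U Z), IsH f ∧ IsH g

/-- the joint graph of two maps -/
def G {α β γ : Type} (e : α → β) (e' : α → γ) (b : β) (c : γ) : Prop := ∃ x, e x = b ∧ e' x = c

theorem G.mk {α β γ : Type} (e : α → β) (e' : α → γ) (x : α) : G e e' (e x) (e' x) :=
  ⟨x, rfl, rfl⟩

/-- the joint graph of two maps together with one more pair -/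
def G1 {α β γ : Type} (e : α → β) (e' : α → γ) (p : β) (p' : γ) (b : β) (c : γ) : Prop :=
  G e e' b c ∨ (p = b ∧ p' = c)

namespace PC

variable (C : PC)

/-- `Z` and `Z'` embed jointly, identifying the pairs related by `R` -/
def El (Z Z' : C.Obj) (R : C.U Z → C.U Z' → Prop) : Prop :=
  ∃ (Y : C.Obj) (f : C.U Z → C.U Y) (f' : C.U Z' → C.U Y), C.IsH f ∧ C.IsH f' ∧
    ∀ a b, R a b → f a = f' b

/-- `S` is the range of a morphism -/
def IsSub (A : C.Obj) (S : Set (C.U A)) : Prop :=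
  ∃ (B : C.Obj) (f : C.U B → C.U A), C.IsH f ∧ range f = S

/-- `g` is universal for extensions of size `≤ κ` -/
def Univ (κ : Cardinal.{0}) {A A' : C.Obj} (g : C.U A → C.U A') : Prop :=
  ∀ (B : C.Obj) (R : C.U B → C.U A → Prop), #(C.U B) ≤ κ → C.El B A R →
    ∃ f : C.U B → C.U A', C.IsH f ∧ ∀ b a, R b a → f b = g a

/-- saturation for objects of size `≤ κ` -/
def Sat (κ : Cardinal.{0}) (A : C.Obj) : Prop := C.Univ κ (fun x : C.U A => x)

/-- `g` realises all types over its domain -/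
def Real {A A' : C.Obj} (g : C.U A → C.U A') : Prop :=
  ∀ (Z : C.Obj) (e : C.U A → C.U Z) (c : C.U Z), C.IsH e → ∃ a', C.El Z A' (G1 e g c a')

/-- stability in `θ`, pigeonhole form, for tuples indexed by `ι` -/
def PStab (θ : Cardinal.{0}) (ι : Type) : Prop :=
  ∀ (A M : C.Obj) (f : C.U A → C.U M), C.IsH f → #(C.U A) ≤ θ →
    ∀ (Y : Type) (a : Y → ι → C.U M), θ < #Y →
      ∃ y y', y ≠ y' ∧ C.El M M (fun p q => G f f p q ∨ G (a y) (a y') p q)

/-- few isomorphism types of enumerated objects -/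
def HasCode : Prop :=
  ∀ ι : Type, ∃ (Cd : Type) (cd : ∀ A : C.Obj, (ι → C.U A) → Cd), #Cd ≤ 2 ^ (#ι + C.k0) ∧
    ∀ (A B : C.Obj) (e : ι → C.U A) (e' : ι → C.U B), cd A e = cd B e' → Surjective e →
      Surjective e' → ∃ f : C.U A → C.U B, C.IsH f ∧ ∀ i, f (e i) = e' i

variable {C}

theorem congr {A B : C.Obj} {f g : C.U A → C.U B} (h : C.IsH f) (e : ∀ x, f x = g x) : C.IsH g :=
  (funext e : f = g) ▸ h

/-- coherence, with the composite named -/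
theorem coh' {A B D : C.Obj} {h : C.U A → C.U B} {g : C.U B → C.U D} {f : C.U A → C.U D}
    (hg : C.IsH g) (hf : C.IsH f) (e : ∀ x, g (h x) = f x) : C.IsH h :=
  C.coh h hg (congr hf fun x => (e x).symm)

theorem comp' {A B D : C.Obj} {f : C.U A → C.U B} {g : C.U B → C.U D} {k : C.U A → C.U D}
    (hf : C.IsH f) (hg : C.IsH g) (e : ∀ x, g (f x) = k x) : C.IsH k :=
  congr (C.comp hf hg) e

/-- factorisation through a morphism with larger range -/
theorem factor {A B D : C.Obj} {f : C.U A → C.U D} {g : C.U B → C.U D} (hf : C.IsH f)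
    (hg : C.IsH g) (h : range f ⊆ range g) : ∃ k : C.U A → C.U B, C.IsH k ∧ ∀ x, g (k x) = f x := by
  choose k hk using fun x => h ⟨x, rfl⟩
  exact ⟨k, coh' hg hf hk, hk⟩

/-- the inverse of a surjective morphism -/
theorem inverse {A B : C.Obj} {f : C.U A → C.U B} (hf : C.IsH f) (hs : Surjective f) :
    ∃ g : C.U B → C.U A, C.IsH g ∧ (∀ y, f (g y) = y) ∧ ∀ x, g (f x) = x := by
  obtain ⟨g, hg, h⟩ := factor (C.idH B) hf (by rw [hs.range_eq]; exact subset_univ _)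
  exact ⟨g, hg, h, fun x => C.inj hf (h _)⟩

theorem card_le {A B : C.Obj} {f : C.U A → C.U B} (hf : C.IsH f) : #(C.U A) ≤ #(C.U B) :=
  mk_le_of_injective (C.inj hf)

/-- a small subobject containing a small set -/
theorem ls' {κ : Cardinal.{0}} (hκ : C.k0 ≤ κ) (A : C.Obj) {S : Set (C.U A)} (hS : #S ≤ κ) :
    ∃ (B : C.Obj) (f : C.U B → C.U A), C.IsH f ∧ S ⊆ range f ∧ #(C.U B) ≤ κ := by
  obtain ⟨B, f, h1, h2, h3⟩ := C.ls A S
  exact ⟨B, f, h1, h2, h3.trans (add_le_of_le (C.inf.trans hκ) hS hκ)⟩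

/-- a subobject of prescribed size containing a given set -/
theorem ls_eq {κ : Cardinal.{0}} (hκ : C.k0 ≤ κ) (A : C.Obj) (hA : κ ≤ #(C.U A))
    {S : Set (C.U A)} (hS : #S ≤ κ) :
    ∃ (B : C.Obj) (f : C.U B → C.U A), C.IsH f ∧ S ⊆ range f ∧ #(C.U B) = κ := by
  obtain ⟨T, hT⟩ := le_mk_iff_exists_set.1 hA
  obtain ⟨B, f, h1, h2, h3⟩ := ls' hκ A (S := S ∪ T)
    ((mk_union_le _ _).trans (add_le_of_le (C.inf.trans hκ) hS hT.le))
  refine ⟨B, f, h1, subset_union_left.trans h2, le_antisymm h3 ?_⟩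
  rw [← hT, ← mk_range_eq f (C.inj h1)]
  exact mk_le_mk_of_subset (subset_union_right.trans h2)

/-- two morphisms into the same object factor through a small subobject -/
theorem cut2 {κ : Cardinal.{0}} (hκ : C.k0 ≤ κ) {A B Z : C.Obj} {f : C.U A → C.U Z}
    {g : C.U B → C.U Z} (hf : C.IsH f) (hg : C.IsH g) (hA : #(C.U A) ≤ κ) (hB : #(C.U B) ≤ κ) :
    ∃ (Y : C.Obj) (k : C.U Y → C.U Z) (f' : C.U A → C.U Y) (g' : C.U B → C.U Y), C.IsH k ∧
      C.IsH f' ∧ C.IsH g' ∧ #(C.U Y) ≤ κ ∧ (∀ x, k (f' x) = f x) ∧ ∀ x, k (g' x) = g x := by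
  obtain ⟨Y, k, h1, h2, h3⟩ := ls' hκ Z (S := range f ∪ range g) ((mk_union_le _ _).trans
    (add_le_of_le (C.inf.trans hκ) (mk_range_le.trans hA) (mk_range_le.trans hB)))
  obtain ⟨f', k1, k2⟩ := factor hf h1 (subset_union_left.trans h2)
  obtain ⟨g', k3, k4⟩ := factor hg h1 (subset_union_right.trans h2)
  exact ⟨Y, k, f', g', h1, k1, k3, h3, k2, k4⟩

theorem isSub_univ (A : C.Obj) : C.IsSub A univ := ⟨A, _, C.idH A, range_id⟩

theorem isSub_range {A B : C.Obj} {f : C.U A → C.U B} (hf : C.IsH f) : C.IsSub B (range f) :=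
  ⟨A, f, hf, rfl⟩

namespace El

variable {Z Z' Z'' : C.Obj} {R R' : C.U Z → C.U Z' → Prop}

theorem mono (h : C.El Z Z' R) (H : ∀ a b, R' a b → R a b) : C.El Z Z' R' := by
  obtain ⟨Y, f, f', h1, h2, h3⟩ := h
  exact ⟨Y, f, f', h1, h2, fun a b r => h3 a b (H a b r)⟩

theorem symm (h : C.El Z Z' R) : C.El Z' Z (fun b a => R a b) := by
  obtain ⟨Y, f, f', h1, h2, h3⟩ := h
  exact ⟨Y, f', f, h2, h1, fun b a r => (h3 a b r).symm⟩

theorem symm' {S : C.U Z' → C.U Z → Prop} (h : C.El Z Z' R) (H : ∀ b a, S b a → R a b) :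
    C.El Z' Z S := h.symm.mono H

/-- a morphism is a joint embedding -/
theorem of_hom {f : C.U Z → C.U Z'} (hf : C.IsH f) (H : ∀ a b, R a b → f a = b) : C.El Z Z' R :=
  ⟨Z', f, _, hf, C.idH _, H⟩

theorem of_hom' {f : C.U Z' → C.U Z} (hf : C.IsH f) (H : ∀ a b, R a b → a = f b) : C.El Z Z' R :=
  ⟨Z, _, f, C.idH _, hf, H⟩

/-- pulling back along morphisms on both sides -/
theorem pull {A A' : C.Obj} {k : C.U A → C.U Z} {k' : C.U A' → C.U Z'} (hk : C.IsH k)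
    (hk' : C.IsH k') (h : C.El Z Z' R) {S : C.U A → C.U A' → Prop}
    (H : ∀ a b, S a b → R (k a) (k' b)) : C.El A A' S := by
  obtain ⟨Y, f, f', h1, h2, h3⟩ := h
  exact ⟨Y, _, _, C.comp hk h1, C.comp hk' h2, fun a b s => h3 _ _ (H a b s)⟩

theorem pull_left {A : C.Obj} {k : C.U A → C.U Z} (hk : C.IsH k) (h : C.El Z Z' R)
    {S : C.U A → C.U Z' → Prop} (H : ∀ a b, S a b → R (k a) b) : C.El A Z' S :=
  h.pull hk (C.idH _) H

theorem pull_right {A' : C.Obj} {k' : C.U A' → C.U Z'} (hk' : C.IsH k') (h : C.El Z Z' R)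
    {S : C.U Z → C.U A' → Prop} (H : ∀ a b, S a b → R a (k' b)) : C.El Z A' S :=
  h.pull (C.idH _) hk' H

/-- related pairs determine each other -/
theorem func (h : C.El Z Z' R) {a : C.U Z} {b b' : C.U Z'} (h1 : R a b) (h2 : R a b') : b = b' := by
  obtain ⟨Y, f, f', -, k2, k3⟩ := h
  exact C.inj k2 ((k3 _ _ h1).symm.trans (k3 _ _ h2))

/-- the joint embedding can be taken small -/
theorem small {κ : Cardinal.{0}} (hκ : C.k0 ≤ κ) (h : C.El Z Z' R) (hZ : #(C.U Z) ≤ κ)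
    (hZ' : #(C.U Z') ≤ κ) : ∃ (Y : C.Obj) (f : C.U Z → C.U Y) (f' : C.U Z' → C.U Y),
      C.IsH f ∧ C.IsH f' ∧ #(C.U Y) ≤ κ ∧ ∀ a b, R a b → f a = f' b := by
  obtain ⟨Y, f, f', h1, h2, h3⟩ := h
  obtain ⟨Y', k, g, g', k1, k2, k3, k4, k5, k6⟩ := cut2 hκ h1 h2 hZ hZ'
  exact ⟨Y', g, g', k2, k3, k4, fun a b r => C.inj k1 (by rw [k5, k6, h3 a b r])⟩

end El

theorem Univ.mono {κ κ' : Cardinal.{0}} {A A' : C.Obj} {g : C.U A → C.U A'} (h : C.Univ κ g)
    (hκ : κ' ≤ κ) : C.Univ κ' g := fun B R hB => h B R (hB.trans hκ)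

theorem Univ.post {κ : Cardinal.{0}} {A A' A'' : C.Obj} {g : C.U A → C.U A'}
    {k : C.U A' → C.U A''} (h : C.Univ κ g) (hk : C.IsH k) : C.Univ κ (fun x => k (g x)) :=
  fun B R hB hR => by
    obtain ⟨f, hf, H⟩ := h B R hB hR
    exact ⟨_, C.comp hf hk, fun b a r => congrArg k (H b a r)⟩

theorem Sat.mono {κ κ' : Cardinal.{0}} {A : C.Obj} (h : C.Sat κ A) (hκ : κ' ≤ κ) : C.Sat κ' A :=
  Univ.mono h hκ

theorem Sat.ext {κ : Cardinal.{0}} {A B : C.Obj} (h : C.Sat κ A) {R : C.U B → C.U A → Prop}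
    (hB : #(C.U B) ≤ κ) (hR : C.El B A R) :
    ∃ f : C.U B → C.U A, C.IsH f ∧ ∀ b a, R b a → f b = a := h B R hB hR

end PC

/-- the union of a long chain with cofinally many universal steps is saturated -/
theorem PC.sat_union {C : PC} {κ : Cardinal.{0}} {Λ : Type} [LinearOrder Λ] (A : Λ → C.Obj)
    {T : C.Obj} (u : ∀ a, C.U (A a) → C.U T) (hu : ∀ a, C.IsH (u a))
    (hm : ∀ a b, a ≤ b → range (u a) ⊆ range (u b)) (hs : ∀ y, ∃ a x, u a x = y)
    (hb : ∀ s : Set Λ, #s ≤ κ → ∃ b, ∀ a ∈ s, a ≤ b)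
    (hU : ∀ a, ∃ (b : Λ) (g : C.U (A a) → C.U (A b)), C.Univ κ g ∧ ∀ x, u b (g x) = u a x) :
    C.Sat κ T := by
  intro B R hB hR
  choose ix px hpx using hs
  let f0 : C.U B → C.U T := fun b => Classical.epsilon (R b)
  have hf0 : ∀ b t, R b t → f0 b = t := fun b t r => hR.func (Classical.epsilon_spec ⟨t, r⟩) r
  obtain ⟨a, ha⟩ := hb (range fun b => ix (f0 b)) (mk_range_le.trans hB)
  obtain ⟨a', g, hg, hug⟩ := hU a
  obtain ⟨f, hf, H⟩ := hg B (fun b x => R b (u a x)) hB (hR.pull_right (hu a) fun _ _ h => h)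
  refine ⟨_, C.comp hf (hu a'), fun b t r => ?_⟩
  obtain ⟨x, hx⟩ := hm _ _ (ha _ ⟨b, rfl⟩) ⟨_, hpx (f0 b)⟩
  rw [hf0 b t r] at hx
  subst hx
  exact (congrArg (u a') (H b x r)).trans (hug x)

/-- an endofunctor with a natural map from the identity -/
structure Fn (C : PC) where
  ap : C.Obj → C.Obj
  mp : ∀ {A B : C.Obj}, (C.U A → C.U B) → C.U (ap A) → C.U (ap B)
  eta : ∀ A : C.Obj, C.U A → C.U (ap A)
  mp_h : ∀ {A B : C.Obj} {f : C.U A → C.U B}, C.IsH f → C.IsH (mp f)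
  mp_comp : ∀ {A B D : C.Obj} {f : C.U A → C.U B} {g : C.U B → C.U D}, C.IsH f → C.IsH g →
    ∀ x, mp g (mp f x) = mp (fun a => g (f a)) x
  mp_id : ∀ (A : C.Obj) (x : C.U (ap A)), mp (fun a : C.U A => a) x = x
  eta_h : ∀ A : C.Obj, C.IsH (eta A)
  eta_nat : ∀ {A B : C.Obj} {f : C.U A → C.U B}, C.IsH f → ∀ x, mp f (eta A x) = eta B (f x)

namespace Fn

variable {C : PC}

/-- size bound -/
def Bd (F : Fn C) (κ : Cardinal.{0}) : Prop := ∀ A, #(C.U (F.ap A)) ≤ #(C.U A) + κ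

/-- every element is supported by one point -/
def Fin (F : Fn C) : Prop :=
  ∀ (B : C.Obj) (τ : C.U (F.ap B)), ∃ x : C.U B, ∀ (A : C.Obj) (g : C.U A → C.U B), C.IsH g →
    x ∈ range g → τ ∈ range (F.mp g)

/-- the identity functor -/
def idF (C : PC) : Fn C where
  ap A := A
  mp f := f
  eta _ x := x
  mp_h h := h
  mp_comp _ _ _ := rfl
  mp_id _ _ := rfl
  eta_h := C.idH
  eta_nat _ _ := rfl

/-- `F'` after `F` -/
def comp (F' F : Fn C) : Fn C where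
  ap A := F'.ap (F.ap A)
  mp f := F'.mp (F.mp f)
  eta A x := F'.eta _ (F.eta A x)
  mp_h h := F'.mp_h (F.mp_h h)
  mp_comp hf hg x := by
    rw [F'.mp_comp (F.mp_h hf) (F.mp_h hg)]
    exact congrFun (congrArg F'.mp (funext (F.mp_comp hf hg))) x
  mp_id A x := by
    have : F.mp (fun a : C.U A => a) = fun y => y := funext (F.mp_id A)
    rw [this, F'.mp_id]
  eta_h A := C.comp (F.eta_h A) (F'.eta_h _)
  eta_nat hf x := by rw [F'.eta_nat (F.mp_h hf), F.eta_nat hf]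

theorem mp_eq (F : Fn C) {A B D : C.Obj} {f : C.U A → C.U B} {g : C.U B → C.U D}
    {k : C.U A → C.U D} (hf : C.IsH f) (hg : C.IsH g) (e : ∀ a, g (f a) = k a)
    (x : C.U (F.ap A)) : F.mp g (F.mp f x) = F.mp k x := by
  rw [F.mp_comp hf hg, (funext e : (fun a => g (f a)) = k)]

theorem mp_sq (F : Fn C) {A B B' D : C.Obj} {f : C.U A → C.U B} {g : C.U B → C.U D}
    {f' : C.U A → C.U B'} {g' : C.U B' → C.U D} (hf : C.IsH f) (hg : C.IsH g) (hf' : C.IsH f')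
    (hg' : C.IsH g') (e : ∀ a, g (f a) = g' (f' a)) (x : C.U (F.ap A)) :
    F.mp g (F.mp f x) = F.mp g' (F.mp f' x) := by
  rw [F.mp_eq hf hg e, F.mp_comp hf' hg']

theorem Bd.mono {F : Fn C} {κ κ' : Cardinal.{0}} (h : F.Bd κ) (hκ : κ ≤ κ') : F.Bd κ' :=
  fun A => (h A).trans (by gcongr)

theorem Bd.le {F : Fn C} {κ θ : Cardinal.{0}} (h : F.Bd κ) (hθ : ℵ₀ ≤ θ) (hκ : κ ≤ θ) {A : C.Obj}
    (hA : #(C.U A) ≤ θ) : #(C.U (F.ap A)) ≤ θ := (h A).trans (add_le_of_le hθ hA hκ)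

theorem bd_id (κ : Cardinal.{0}) : (idF C).Bd κ := fun _ => self_le_add_right _ _

theorem Bd.comp {F F' : Fn C} {κ : Cardinal.{0}} (hκ : ℵ₀ ≤ κ) (h' : F'.Bd κ) (h : F.Bd κ) :
    (F'.comp F).Bd κ := fun A =>
  (h' _).trans ((add_le_add (h A) le_rfl).trans_eq (by rw [add_assoc, add_eq_self hκ]))

/-- functors preserve joint embeddings -/
theorem el (F : Fn C) {Z Z' : C.Obj} {R : C.U Z → C.U Z' → Prop} (h : C.El Z Z' R) :
    C.El (F.ap Z) (F.ap Z') (fun p q => (∃ a b, R a b ∧ F.eta _ a = p ∧ F.eta _ b = q) ∨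
      ∃ (B : C.Obj) (e : C.U B → C.U Z) (e' : C.U B → C.U Z'), C.IsH e ∧ C.IsH e' ∧
        (∀ x, R (e x) (e' x)) ∧ G (F.mp e) (F.mp e') p q) := by
  obtain ⟨Y, f, f', h1, h2, h3⟩ := h
  refine ⟨F.ap Y, F.mp f, F.mp f', F.mp_h h1, F.mp_h h2, ?_⟩
  rintro _ _ (⟨a, b, r, rfl, rfl⟩ | ⟨B, e, e', he, he', r, x, rfl, rfl⟩)
  · rw [F.eta_nat h1, F.eta_nat h2, h3 a b r]
  · exact F.mp_sq he h1 he' h2 (fun a => h3 _ _ (r a)) x

end Fn

namespace CC

variable {C : CC}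

/-- a directed union of subobjects is a subobject -/
theorem isSub_iUnion {ι : Type} [Nonempty ι] {A : C.Obj} (S : ι → Set (C.U A))
    (hS : ∀ i, C.IsSub A (S i)) (hd : ∀ i j, ∃ k, S i ⊆ S k ∧ S j ⊆ S k) :
    C.IsSub A (⋃ i, S i) := by
  choose B f hf hr using hS
  let _ : Preorder ι := Preorder.lift S
  have : IsDirected ι (· ≤ ·) := ⟨hd⟩
  have hsub : ∀ i j, i ≤ j → range (f i) ⊆ range (f j) := fun i j h => by
    rw [hr, hr]; exact h
  choose t ht hft using fun i j (h : i ≤ j) => PC.factor (hf i) (hf j) (hsub i j h)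
  obtain ⟨D, u, h1, h2, h3⟩ := C.colim ι B t ht (fun i x => C.inj (hf i) (hft _ _ _ _))
    (fun i j k hij hjk x => C.inj (hf k) (by rw [hft, hft, hft]))
  choose ix px hpx using h3
  have key : ∀ i x, f (ix (u i x)) (px (u i x)) = f i x := fun i x => by
    obtain ⟨k, k1, k2⟩ := hd i (ix (u i x))
    rw [← hft _ k k2, ← hft _ k k1]
    congr 1
    exact C.inj (h1 k) (by rw [h2, h2, hpx])
  refine ⟨D, fun y => f (ix y) (px y), C.smooth B u _ h1 (fun i j => ?_)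
    (fun y => ⟨_, _, hpx y⟩) (fun i => PC.congr (hf i) fun x => (key i x).symm), ?_⟩
  · obtain ⟨k, k1, k2⟩ := hd i j
    exact ⟨k, by rintro _ ⟨x, rfl⟩; exact ⟨_, h2 i k k1 x⟩,
      by rintro _ ⟨x, rfl⟩; exact ⟨_, h2 j k k2 x⟩⟩
  · ext a
    simp only [mem_range, mem_iUnion]
    constructor
    · rintro ⟨y, rfl⟩; exact ⟨ix y, hr _ ▸ ⟨_, rfl⟩⟩
    · rintro ⟨i, hi⟩
      rw [← hr] at hi
      obtain ⟨x, rfl⟩ := hi
      exact ⟨u i x, key i x⟩

/-- the map out of a directed union induced by compatible morphisms -/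
theorem lift {ι : Type} (A : ι → C.Obj) {B D : C.Obj} (u : ∀ i, C.U (A i) → C.U B)
    (g : ∀ i, C.U (A i) → C.U D) (hu : ∀ i, C.IsH (u i)) (hg : ∀ i, C.IsH (g i))
    (hd : ∀ i j, ∃ k, range (u i) ⊆ range (u k) ∧ range (u j) ⊆ range (u k))
    (hs : ∀ y, ∃ i x, u i x = y) (hc : ∀ i j x y, u i x = u j y → g i x = g j y) :
    ∃ k : C.U B → C.U D, C.IsH k ∧ ∀ i x, k (u i x) = g i x := by
  choose ix px hpx using hs
  have key : ∀ i x, g (ix (u i x)) (px (u i x)) = g i x := fun i x => hc _ _ _ _ (hpx _)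
  exact ⟨fun y => g (ix y) (px y), C.smooth A u _ hu hd (fun y => ⟨_, _, hpx y⟩)
    (fun i => PC.congr (hg i) fun x => (key i x).symm), key⟩

/-- the map out of the colimit of a linearly ordered chain -/
theorem lift_chain {ι : Type} [LinearOrder ι] (A : ι → C.Obj) {B D : C.Obj}
    (t : ∀ i j, i ≤ j → C.U (A i) → C.U (A j)) (u : ∀ i, C.U (A i) → C.U B)
    (g : ∀ i, C.U (A i) → C.U D) (hu : ∀ i, C.IsH (u i)) (hg : ∀ i, C.IsH (g i))
    (hut : ∀ i j h x, u j (t i j h x) = u i x) (hgt : ∀ i j h x, g j (t i j h x) = g i x)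
    (hs : ∀ y, ∃ i x, u i x = y) : ∃ k : C.U B → C.U D, C.IsH k ∧ ∀ i x, k (u i x) = g i x := by
  refine lift A u g hu hg (fun i j => ⟨max i j, ?_, ?_⟩) hs fun i j x y h => ?_
  · rintro _ ⟨x, rfl⟩; exact ⟨_, hut _ _ (le_max_left i j) x⟩
  · rintro _ ⟨x, rfl⟩; exact ⟨_, hut _ _ (le_max_right i j) x⟩
  · rw [← hgt i _ (le_max_left i j), ← hgt j _ (le_max_right i j)]
    congr 1
    exact C.inj (hu _) (by rw [hut, hut, h])

end CC

/-- size of a union -/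
theorem card_cover {ι β : Type} {α : ι → Type} (u : ∀ i, α i → β) (hs : ∀ y, ∃ i x, u i x = y)
    {κ : Cardinal.{0}} (hκ : ℵ₀ ≤ κ) (hι : #ι ≤ κ) (h : ∀ i, #(α i) ≤ κ) : #β ≤ κ := by
  have h1 : #β ≤ #(Σ i, α i) := mk_le_of_surjective (f := fun p : Σ i, α i => u p.1 p.2)
    fun y => by obtain ⟨i, x, h⟩ := hs y; exact ⟨⟨i, x⟩, h⟩
  refine h1.trans ?_
  rw [mk_sigma]
  refine (sum_le_mk_mul_iSup _).trans (mul_le_of_le hκ hι ?_)
  exact ciSup_le' h

namespace PC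

variable {C : AC}

theorem El.trans {Z Z' Z'' : C.Obj} {R : C.U Z → C.U Z' → Prop} {R' : C.U Z' → C.U Z'' → Prop}
    (h : C.El Z Z' R) (h' : C.El Z' Z'' R') {S : C.U Z → C.U Z'' → Prop}
    (H : ∀ a c, S a c → ∃ b, R a b ∧ R' b c) : C.El Z Z'' S := by
  obtain ⟨Y, f, f', h1, h2, h3⟩ := h
  obtain ⟨Y', g, g', k1, k2, k3⟩ := h'
  obtain ⟨V, p, q, hp, hq, hpq⟩ := C.ap h2 k1
  refine ⟨V, _, _, C.comp h1 hp, C.comp k2 hq, fun a c s => ?_⟩
  obtain ⟨b, r, r'⟩ := H a c s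
  rw [h3 a b r, hpq, k3 b c r']

/-- a span gives a joint embedding -/
theorem El.span {A Z Z' : C.Obj} {k : C.U A → C.U Z} {k' : C.U A → C.U Z'} (hk : C.IsH k)
    (hk' : C.IsH k') : C.El Z Z' (G k k') := by
  obtain ⟨Y, f, f', h1, h2, h3⟩ := C.ap hk hk'
  exact ⟨Y, f, f', h1, h2, by rintro _ _ ⟨x, rfl, rfl⟩; exact h3 x⟩

/-- pushing forward along morphisms on both sides -/
theorem El.push {Z Z' A A' : C.Obj} {R : C.U Z → C.U Z' → Prop} {k : C.U Z → C.U A}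
    {k' : C.U Z' → C.U A'} (hk : C.IsH k) (hk' : C.IsH k') (h : C.El Z Z' R)
    {S : C.U A → C.U A' → Prop} (H : ∀ a b, S a b → ∃ x y, R x y ∧ k x = a ∧ k' y = b) :
    C.El A A' S :=
  El.trans (R := fun a x => a = k x) (El.of_hom' hk fun _ _ h => h)
    (El.trans h (El.of_hom (R := fun y b => k' y = b) hk' fun _ _ h => h)
      (S := fun x b => ∃ y, R x y ∧ k' y = b) fun _ _ h => h) fun a b s => by
      obtain ⟨x, y, r, rfl, rfl⟩ := H a b s
      exact ⟨x, rfl, y, r, rfl⟩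

theorem El.empty (Z Z' : C.Obj) : C.El Z Z' (fun _ _ => False) := by
  obtain ⟨Y, f, g, hf, hg⟩ := C.jep Z Z'
  exact ⟨Y, f, g, hf, hg, fun _ _ h => h.elim⟩

theorem Univ.pre {κ : Cardinal.{0}} {A0 A A' : C.Obj} {g : C.U A → C.U A'} {k : C.U A0 → C.U A}
    (h : C.Univ κ g) (hk : C.IsH k) : C.Univ κ (fun x => g (k x)) := fun B R hB hR => by
  obtain ⟨f, hf, H⟩ := h B (fun b a => ∃ x, R b x ∧ k x = a) hB
    (El.push (C.idH _) hk hR fun b a ⟨x, r, e⟩ => ⟨b, x, r, rfl, e⟩)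
  exact ⟨f, hf, fun b x r => H b _ ⟨x, r, rfl⟩⟩

/-- extension of a morphism along a small extension -/
theorem Univ.ext {κ : Cardinal.{0}} {A0 B A A' : C.Obj} {g : C.U A → C.U A'} (h : C.Univ κ g)
    {p : C.U A0 → C.U B} {f : C.U A0 → C.U A} (hp : C.IsH p) (hf : C.IsH f) (hB : #(C.U B) ≤ κ) :
    ∃ f' : C.U B → C.U A', C.IsH f' ∧ ∀ x, f' (p x) = g (f x) := by
  obtain ⟨f', h1, h2⟩ := h B _ hB (El.span hp hf)
  exact ⟨f', h1, fun x => h2 _ _ (G.mk _ _ x)⟩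

/-- saturation passes to isomorphic objects -/
theorem Sat.iso {κ : Cardinal.{0}} {A A' : C.Obj} (h : C.Sat κ A) {k : C.U A → C.U A'}
    (hk : C.IsH k) (hs : Surjective k) : C.Sat κ A' := by
  obtain ⟨g, hg, h1, -⟩ := inverse hk hs
  have := (Univ.pre h hg).post hk
  simp only [h1] at this
  exact this

end PC

end Pool.Agent.P.MP_860a31_lc.E
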