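import Pool.Agent.P.MP_860a31_lc.E.Stm

/-!
On a club, a stage of the larger object is free from the smaller object.
-/

open Cardinal hiding univ
open Set Order Filter Function

namespace Pool.Agent.P.MP_860a31_lc.E

open PC Sys

theorem closure : S_Closure := by
  intro C κ hκ T V h hh hV
  have hk0 : C.k0 ≤ κ := C.lv_ge hκ
  have hT : #(C.U T) ≤ succ κ := (PC.card_le hh).trans hV
  obtain ⟨H, hH, hFin, -, Φ, hΦ, hΦh⟩ := C.uu (C.lv_succ hκ) hh hV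
  choose supp hsupp using hFin T
  filter_upwards [CC.ev_into hk0 hT hV h, CC.ev_into hk0 hV hT (fun w => supp (Φ w))]
    with γ h1 h2
  refine ⟨h1, fun B k j F ψ hk hj hkj hF hψ hψj => ?_⟩
  obtain ⟨Θ, hΘ, hΘv⟩ := PC.factor (f := fun w : C.U (C.st κ V γ) => Φ (val w))
    (g := H.mp (val : C.U (C.st κ T γ) → C.U T)) (C.comp val_h hΦ) (H.mp_h val_h) (by
      rintro _ ⟨w, rfl⟩
      refine hsupp _ _ _ val_h ?_
      rw [range_val]
      exact h2 (val_mem w))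
  have hΘs : ∀ x, Θ (stm h γ γ x) = H.eta _ x := fun x => by
    refine C.inj (H.mp_h (val_h (A := T) (γ := γ))) ?_
    rw [hΘv, H.eta_nat val_h, h1.val, hΦh]
  have hN : #(C.U (C.st κ T γ)) ≤ succ κ := (PC.card_le val_h).trans hT
  have e1 : C.El V (H.ap B) (fun a b => Φ a = H.mp k b) :=
    ⟨_, Φ, H.mp k, hΦ, H.mp_h hk, fun _ _ r => r⟩
  have e2 : C.El (H.ap B) (F.ap (C.st κ V γ))
      (fun a b => SymR F H (C.st κ T γ) (H.mp ψ a) (F.mp Θ b)) :=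
    (C.sym (C.lv_succ hκ) hF hH _ hN).pull (H.mp_h hψ) (F.mp_h hΘ) fun _ _ r => r
  refine PC.El.trans e1 e2 ?_
  rintro _ _ (⟨w, rfl, rfl⟩ | ⟨x, rfl, rfl⟩)
  · refine ⟨H.mp j (Θ w), ?_, Or.inr ⟨Θ w, ?_, ?_⟩⟩
    · rw [H.mp_eq hj hk hkj, hΘv]
    · exact (H.mp_eq hj hψ hψj _).symm
    · exact (F.eta_nat hΘ w).symm
  · refine ⟨H.eta B x, ?_, Or.inl ⟨ψ x, ?_, ?_⟩⟩
    · rw [H.eta_nat hk]
      exact hΦh _
    · exact (H.eta_nat hψ x).symm
    · exact (F.mp_eq (h1.isH hh) hΘ hΘs _).symm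

end Pool.Agent.P.MP_860a31_lc.E
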