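import Pool.Agent.P.MP_860a31_lc.E.Stm

/-!
Cofinality of small uniqueness subsystems, and the passage from good systems to uniqueness at the
next level.
-/

open Cardinal hiding univ
open Set Order Filter Function

namespace Pool.Agent.P.MP_860a31_lc.E

open PC Sys

namespace CofP

variable {C : AX} {S : Shape C}

/-- a morphism whose ranges are a closed stage is onto that stage -/
theorem onto_stage {μ : Cardinal.{0}} {𝒟 : Set (Finset S.L)} {E : Set S.L} {V V' : Sys S}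
    {ξ : J μ} (hc : Cl μ V' 𝒟 E ξ) {f : ∀ y, C.U (V.N y) → C.U (V'.N y)} (hf : SMor 𝒟 E V V' f)
    (hr : ∀ y ∈ 𝒟, range (f y) = C.filt μ (V'.N y) ξ) :
    SMor 𝒟 E V (V'.stage μ ξ) (fun y x => pt ξ (f y x)) ∧
      ∀ y ∈ 𝒟, Surjective (fun x => (pt ξ (f y x) : C.U ((V'.stage μ ξ).N y))) := by
  refine ⟨hc.mor_pt hf fun y hy x => hr y hy ▸ ⟨x, rfl⟩, fun y hy u => ?_⟩
  have hu : val u ∈ range (f y) := by rw [hr y hy]; exact val_mem u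
  obtain ⟨x, hx⟩ := hu
  exact ⟨x, by simp only [hx, pt_val]⟩

end CofP

theorem cof (h1 : S_CofStep) (h2 : S_StageIso) (h3 : S_GoodIso) : S_Cof := by
  intro C S κ hκ 𝒟 E hF hU hT V hV
  refine Shape.Cx.induction (P := fun 𝒟1 => 𝒟1 ⊆ 𝒟 → CofAt κ 𝒟1 E V) (fun _ X _ => ?_)
    (fun 𝒟1 v hF1 hv hvE hv1 hb ih hs => ?_) hF subset_rfl
  · refine ⟨V, fun _ x => x, ⟨fun _ h => h.elim, hV.valid.mono (empty_subset _) subset_rfl,
      fun _ h => h.elim⟩, SMor.id V, fun _ h => h.elim⟩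
  · have hs1 : 𝒟1 ⊆ 𝒟 := (subset_insert _ _).trans hs
    have hV1 : Good (succ κ) 𝒟1 E V := hV.mono hs1 subset_rfl
    refine h1 C S κ hκ 𝒟1 E v hF1 hv hvE hv1 hb
      (fun w hw => hU w (hF.dn.le_sub (hs (mem_insert _ _)) hw))
      (hT _ hs (hF1.insert hv hvE hb).dn) V (hV.mono hs subset_rfl) fun D0 hD0 => ?_
    obtain ⟨A, f, hA, hf, -⟩ := ih hs1 (fun _ => ∅) fun _ _ => by simp
    obtain ⟨V0, g, hV0, hg⟩ := hT 𝒟1 hs1 hF1.dn A hA.small hA.valid fun z hz _ => hA.uq z hz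
    obtain ⟨D1, hD1, hc⟩ := ev_iff.1 (ev_cl (C.lv_succ hκ) hF1 hV1.small)
    obtain ⟨ξ, hξ, k, hk, hr⟩ := h2 C S κ hκ 𝒟1 E hF1 A V0 V g f hA hV0 hV1 (ih hs1) hg hf
      (D0 ∩ D1) (club_inter hD0 hD1)
    obtain ⟨m1, m2⟩ := CofP.onto_stage (hc ξ hξ.2) hk hr
    exact ⟨ξ, hξ.1, h3 C S κ hκ 𝒟1 E hF1.dn (fun y hy => Finset.coe_subset.2 (hF1.sub y hy)) V0 _ _
      m1 m2 hV0⟩

theorem g1 (h : S_StageIso) : S_G1 := by
  intro C S κ hκ v hv hT hC V hV hU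
  obtain ⟨V', g, hV', hg⟩ := hT V hV.small hV.valid fun z hz ⟨z', hz', hzz⟩ =>
    hU z ⟨hz.1, lt_of_lt_of_le hzz hz'.2⟩
  obtain ⟨γ, hγ, hA⟩ := (hV.ev_inU hκ (S.cx_le v)).exists
  obtain ⟨D1, hD1, hc⟩ := ev_iff.1 (hV'.ev_inU (C.lv_succ hκ) (S.cx_le v))
  obtain ⟨ξ, hξ, k, hk, hr⟩ := h C S κ hκ _ v (S.cx_le v) _ V V' _ _ hA hV hV' (hC V' hV') hγ.mor
    (hγ.mor.comp hg) D1 hD1
  obtain ⟨m1, m2⟩ := CofP.onto_stage (hc ξ hξ).1 hk hr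
  obtain ⟨σ, s1, -, s2⟩ := m1.inverse m2
  exact ((hc ξ hξ).2.uq v hv.mem_le).transfer hv s1 (s2 v hv.mem_le)

end Pool.Agent.P.MP_860a31_lc.E
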