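import Pool.Agent.P.MP_860a31_lc.E.Stm

/-!
Cofinality of small uniqueness subsystems: adding one maximal face.
-/

open Cardinal hiding univ
open Set Order Filter Function

namespace Pool.Agent.P.MP_860a31_lc.E

open PC Sys

namespace CofStepP

variable {C : AX} {S : Shape C} {𝒟 : Set (Finset S.L)} {E v : Finset S.L}

/-- a morphism on `𝒟` together with a compatible map at the new face `v` -/
theorem mor_update {B V : Sys S} (hF : S.Cx 𝒟 E) (hv : S.Face v) (hn : v ∉ 𝒟)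
    {f : ∀ y, C.U (B.N y) → C.U (V.N y)} (hf : SMor 𝒟 E B V f)
    {fv : C.U (B.N v) → C.U (V.N v)} (h1 : C.IsH fv) (hB : ∀ x, B.i v v x = x)
    (hV : ∀ x, V.i v v x = x) (h2 : ∀ z ∈ S.Bd v, ∀ x, fv (B.i z v x) = V.i z v (f z x))
    (h3 : ∀ k : S.L × Bool, k.1 ∈ (E : Set S.L) → S.sup k ⊆ v → fv (B.el k v) = V.el k v) :
    SMor (insert v 𝒟) E B V (update f v fv) := by
  have hne : ∀ y ∈ 𝒟, y ≠ v := fun y hy e => hn (e ▸ hy)
  refine ⟨?_, ?_, ?_⟩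
  · rintro y (rfl | hy)
    · rw [update_self]; exact h1
    · rw [update_of_ne (hne y hy)]; exact hf.hom y hy
  · rintro y (rfl | hy) z (rfl | hz) hyz x
    · rw [hB, hV]
    · exact absurd ((hF.dn z hz).2 y hv hyz) hn
    · rw [update_self, update_of_ne (hne y hy)]
      exact h2 y ⟨(hF.dn y hy).1, hyz.ssubset_of_ne (hne y hy)⟩ x
    · rw [update_of_ne (hne y hy), update_of_ne (hne z hz)]
      exact hf.nat y hy z hz hyz x
  · rintro k hk y (rfl | hy) hs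
    · rw [update_self]; exact h3 k hk hs
    · rw [update_of_ne (hne y hy)]; exact hf.el k hk y hy hs

end CofStepP

theorem cofStep (h1 : S_UnivSys) (h2 : S_LiftMix) (h3 : S_TopExt) : S_CofStep := by
  intro C S κ hκ 𝒟 E v hF hv hvE hn hb hUL hTE V hV hG X hX
  have hμ : C.Lv (succ κ) := C.lv_succ hκ
  have hP : S.Cx (insert v 𝒟) E := hF.insert hv hvE hb
  have hD : 𝒟 ⊆ insert v 𝒟 := subset_insert _ _
  have hvP : v ∈ insert v 𝒟 := mem_insert _ _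
  have hvE' : (v : Set S.L) ⊆ E := Finset.coe_subset.2 hvE
  have hbP : S.Bd v ⊆ insert v 𝒟 := hb.trans hD
  have hlP : S.Le v ⊆ insert v 𝒟 := hP.dn.le_sub hvP
  -- the first stage
  have e0 : ∀ᶠ ξ in cf (succ κ), (Cl (succ κ) V (insert v 𝒟) E ξ ∧
      InU (succ κ) (insert v 𝒟) E (V.stage (succ κ) ξ)) ∧
      ∀ y ∈ insert v 𝒟, X y ⊆ C.filt (succ κ) (V.N y) ξ :=
    (hV.ev_inU hμ hP).and ((eventually_all_finite hP.fin).2 fun y hy =>
      (CC.isFilt (C.lv_ge hμ) (hV.small y hy)).ev_sub ((hX y hy).trans (le_succ κ)))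
  obtain ⟨D0, hD0, H0⟩ := ev_iff.1 e0
  obtain ⟨ξ, hξ, gV⟩ := hG D0 hD0
  obtain ⟨⟨cV, uV⟩, xV⟩ := H0 ξ hξ
  -- the second stage
  have e1 := (h1 C S κ hκ 𝒟 E hF V (hV.small.mono hD) (hV.valid.mono hD subset_rfl)
    (fun y hy => hV.sat y (hD hy)) ξ (cV.mono hD subset_rfl)).and
    ((hV.ev_inU hμ hP).and (ev_ge ξ))
  obtain ⟨D1, hD1, H1⟩ := ev_iff.1 e1
  obtain ⟨ξ', hξ', gM⟩ := hG D1 hD1
  obtain ⟨eU, ⟨cM, uM⟩, hle⟩ := H1 ξ' hξ'
  have hσ := Cl.mor_tr hμ hV.small cV cM hle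
  have eL := h2 C S κ hκ v hv hUL (V.stage (succ κ) ξ) (V.stage (succ κ) ξ')
    (fun y => tr (V.N y) ξ ξ') (uV.mono hlP hvE') (uM.mono hbP hvE') (hσ.mono hbP hvE')
  have eX : ∀ᶠ γ in cf κ, ∀ y ∈ insert v 𝒟,
      (val : C.U (C.st (succ κ) (V.N y) ξ) → C.U (V.N y)) ⁻¹' X y ⊆
        C.filt κ (C.st (succ κ) (V.N y) ξ) γ :=
    (eventually_all_finite hP.fin).2 fun y hy =>
      (CC.isFilt (C.lv_ge hκ) (uV.small y hy)).ev_sub
        ((mk_preimage_of_injective _ _ (C.inj val_h)).trans (hX y hy))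
  obtain ⟨γ, ⟨⟨⟨⟨⟨⟨hL, hU⟩, -, uA⟩, cM0, uM0⟩, cA⟩, xA⟩, iσ⟩⟩ :=
    ((((((eL.and eU).and (gV.ev_inU hκ hF)).and (gM.ev_inU hκ hF)).and
      (ev_cl hκ hP uV.small)).and eX).and
      (ev_into hκ hP.fin uM.small uV.small (fun y => tr (V.N y) ξ ξ'))).exists
  -- a small uniqueness extension of the stage on all faces
  obtain ⟨W, g0, gW, mW⟩ := hTE ((V.stage (succ κ) ξ).stage κ γ) (small_stage hκ uV.small γ)
    (cA.valid hP uV.valid) (by
      rintro z (rfl | hz) ⟨z', hz', hzz⟩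
      · rcases hz' with rfl | hz'
        · exact absurd hzz (lt_irrefl _)
        · exact absurd ((hF.dn z' hz').2 z hv hzz.1) hn
      · exact uA.uq z hz)
  obtain ⟨δ, ⟨cW, uB0⟩, rW⟩ := ((gW.ev_inU hκ hP).and
    (ev_range hκ hP.fin gW.small (small_stage hκ uV.small γ) g0)).exists
  obtain ⟨B, τ, uB, hτ⟩ : ∃ (B : Sys S)
      (τ : ∀ y, C.U (((V.stage (succ κ) ξ).stage κ γ).N y) → C.U (B.N y)),
      InU κ (insert v 𝒟) E B ∧ SMor (insert v 𝒟) E ((V.stage (succ κ) ξ).stage κ γ) B τ :=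
    ⟨_, _, uB0, cW.mor_pt mW rW⟩
  obtain ⟨g, hg, hgτ⟩ := hU uA B τ (uB.mono hD subset_rfl) (hτ.mono hD subset_rfl)
  obtain ⟨Z0, k0, e0, cZ, aa⟩ := h3 C S κ hκ v hv B ((V.stage (succ κ) ξ').stage κ γ) g
    (uB.mono hbP hvE') (uM0.mono hb hvE') (hg.mono hb hvE') _ _ _
    (uB.valid.admT hP.dn hvP hvE')
  have cZ' : #(C.U Z0) ≤ κ := cZ.trans (add_le_of_le (AX.lv_inf hκ) (uB.small v hvP) le_rfl)
  have el := hL Z0 (fun x => k0 (τ v x)) e0 cZ'
    ⟨C.comp (hτ.hom v hvP) aa.hom,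
      aa.adm.post hv (C.idH _) (fun _ _ _ => rfl)
        (fun j hj => congrArg k0 (hτ.c (hvE hj.1) hvP hv hj.1).symm),
      fun z hz x => by
        rw [← hgτ z (hb hz), aa.ov z hz]
        exact congrArg k0 (hτ.nat z (hbP hz) v hvP hz.2.1 x).symm⟩
    (V.N v) val (fun z x => V.i z v (val x))
    ⟨val_h,
      ((hV.valid.admT hP.dn hvP hvE').pull hv (cM.mor.mono hbP hvE')).post hv (C.idH _)
        (fun _ _ _ => rfl) (fun j hj => (cV.mor.c (hvE hj.1) hvP hv hj.1).symm),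
      fun z hz x => by
        rw [CC.val_tr (C.lv_ge hμ) (hV.small z (hbP hz)) hle]
        exact (cV.mor.nat z (hbP hz) v hvP hz.2.1 x).symm⟩
  obtain ⟨fv, hfv, Hf⟩ := (hV.sat v hvP).ext ((uB.small v hvP).trans (le_succ κ))
    (el.pull_left (S := fun a b => G (τ v) (fun x => val (val x)) a b ∨
      ∃ z ∈ S.Bd v, G (B.i z v) (fun x => V.i z v (val (val (g z x)))) a b) aa.hom (by
      rintro _ _ (⟨x, rfl, rfl⟩ | ⟨z, hz, x, rfl, rfl⟩)
      · exact Or.inl ⟨x, rfl, rfl⟩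
      · exact Or.inr ⟨z, hz, g z x, aa.ov z hz x, rfl⟩))
  have hb0 := (hg.comp cM0.mor).comp (cM.mor.mono hD subset_rfl)
  refine ⟨B, update (fun y x => val (val (g y x))) v fv, uB,
    CofStepP.mor_update hF hv hn hb0 hfv (uB.valid.id v hvP) (hV.valid.id v hvP)
      (fun z hz x => Hf _ _ (Or.inr ⟨z, hz, x, rfl, rfl⟩)) (fun k hk hs => ?_), fun y hy a ha => ?_⟩
  · rw [← hτ.el k hk v hvP hs, Hf _ _ (Or.inl ⟨_, rfl, rfl⟩)]
    exact (cA.mor.comp cV.mor).el k hk v hvP hs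
  · have a1 : val (pt ξ a) = a := val_pt (xV y hy ha)
    have a2 : val (pt γ (pt ξ a)) = pt ξ a := val_pt (xA y hy (by rw [mem_preimage, a1]; exact ha))
    refine ⟨τ y (pt γ (pt ξ a)), ?_⟩
    rcases hy with rfl | hy
    · rw [update_self, Hf _ _ (Or.inl ⟨_, rfl, rfl⟩)]
      exact (congrArg val a2).trans a1
    · rw [update_of_ne (show y ≠ v from fun e => hn (e ▸ hy))]
      show val (val (g y _)) = a
      rw [hgτ y hy, (iσ y (hD hy)).val, a2, CC.val_tr (C.lv_ge hμ) (hV.small y (hD hy)) hle, a1]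

end Pool.Agent.P.MP_860a31_lc.E
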