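import Pool.Agent.P.MP_860a31_lc.E.Stm

/-!
Good tops over good boundaries.
-/

open Cardinal hiding univ
open Set Order Filter Function

namespace Pool.Agent.P.MP_860a31_lc.E

open PC Sys

theorem dAt (h1 : S_TrapBd) (h2 : S_TopExt) (h3 : S_AbsSat) : S_D := by
  intro C S κ hκ v hv hU hG V hV A g hA hg Q e p hQ hT
  have hi : ℵ₀ ≤ κ := C.inf.trans (C.lv_ge hκ)
  have hI := hV.ev_inU hκ (S.cx_bd v)
  obtain ⟨D0, hD, H⟩ := h1 C S κ hκ v hv hU V (hG V hV)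
  obtain ⟨γ0, a1, ⟨a2, a3⟩, a4⟩ := ((ev_club hD).and (hI.and
    (ev_range hκ (S.fin_bd v) hV.small hA.small g))).exists
  obtain ⟨Q', k0, e0, b1, b2⟩ := h2 C S κ hκ v hv A _ _ hA a3 (a2.mor_pt hg a4) Q e p hT
  obtain ⟨Z, k, eZ, c1, c2, c3, c4, c5, c6⟩ :=
    H γ0 a1 Q' e0 _ (b1.trans (add_le_of_le hi hQ le_rfl)) b2.adm
  refine ⟨Z, fun x => k (k0 x), eZ, C.comp b2.hom c1, c2, c3, c4, fun z hz x => ?_, ?_⟩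
  · show _ = k (k0 (e z x))
    rw [← b2.ov z hz, ← c5 z hz, val_pt (a4 z hz x)]
  filter_upwards [c6, hI] with γ d1 d2 M σ hM hσ Z1 m1 e1 Z2 m2 e2 t1 t2
  obtain ⟨f, f1, f2⟩ := h3 C S κ _ v (S.cx_bd v) _ M V σ _ d2.2 hM hσ hV.valid d2.1.mor hV.sat
  obtain ⟨δ, g1, g2, ⟨g3, g4⟩, g5⟩ := ((ev_club hD).and ((ev_ge γ).and (hI.and
    (ev_range hκ (S.fin_bd v) hV.small hM.small f)))).exists
  have key : ∀ (Z1 : C.Obj) (m1 : C.U (C.st κ Z γ) → C.U Z1) (e1 : ∀ y, C.U (M.N y) → C.U Z1),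
      AA (V.stage κ γ) v (C.st κ Z γ) (fun y => stm (eZ y) γ γ) (fun j => pt γ (k (k0 (p j)))) M σ
        Z1 m1 e1 → ∃ (Z' : C.Obj) (k' : C.U Z1 → C.U Z')
        (e' : ∀ y, C.U ((V.stage κ δ).N y) → C.U Z'), C.IsH k' ∧
        (∀ z ∈ S.Bd v, ∀ x, e' z (pt δ (f z x)) = k' (e1 z x)) ∧
        AA (V.stage κ γ) v (C.st κ Z γ) (fun y => stm (eZ y) γ γ) (fun j => pt γ (k (k0 (p j))))
          (V.stage κ δ) (fun y => tr (V.N y) γ δ) Z' (fun x => k' (m1 x)) e' := by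
    intro Z1 m1 e1 t
    obtain ⟨Z', k', e', -, s⟩ := h2 C S κ hκ v hv M _ _ hM g4 (g3.mor_pt f1 g5) Z1 e1 _ t.adm
    refine ⟨Z', k', e', s.hom, s.ov, C.comp t.hom s.hom, s.adm, fun z hz x => ?_⟩
    rw [← t.ov z hz, ← s.ov z hz, f2 z hz]
    rfl
  obtain ⟨Z1', k1, e1', r1, r2, r3⟩ := key Z1 m1 e1 t1
  obtain ⟨Z2', k2, e2', s1, s2, s3⟩ := key Z2 m2 e2 t2
  refine (d1 δ g1 g2 _ _ _ _ _ _ r3 s3).pull r1 s1 ?_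
  rintro _ _ (⟨x, rfl, rfl⟩ | ⟨z, hz, x, rfl, rfl⟩)
  · exact Or.inl ⟨x, rfl, rfl⟩
  · exact Or.inr ⟨z, hz, _, r2 z hz x, s2 z hz x⟩

end Pool.Agent.P.MP_860a31_lc.E
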