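import Pool.Agent.P.MP_860a31_lc.E.Stm

/-!
The trap: along a chain of length `κ⁺` non-canonical amalgams occur only off a club.
-/

open Cardinal hiding univ
open Set Order Filter Function

namespace Pool.Agent.P.MP_860a31_lc.E

open PC

namespace DTrapP

variable {C : AX} {ι Pt : Type} {κ : Cardinal.{0}} {D : Dg C ι} {I : Set ι} {pc : Pc D Pt}

theorem adm_top (hκ : C.Lv κ) (hD : D.Ok I (succ κ)) (hP : pc.Ok I) {V : C.Obj}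
    {e : ∀ i, C.U (D.X i) → C.U V} {p : Pt → C.U V} (he : ∀ i ∈ I, C.IsH (e i))
    (h : ∀ γ : J κ, ∃ γ', γ ≤ γ' ∧ DCl κ D I pc γ' ∧
      Adm (D.stage κ γ') I (pc.stage κ γ') V (fun i x => e i (val x)) p) :
    Adm D I pc V e p := by
  have hk := C.lv_ge hκ
  have cov : ∀ i ∈ I, ∀ x : C.U (D.X i), ∃ γ', DCl κ D I pc γ' ∧
      Adm (D.stage κ γ') I (pc.stage κ γ') V (fun i x => e i (val x)) p ∧
      ∃ y : C.U (C.st κ (D.X i) γ'), val y = x := fun i hi x => by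
    have hf := CC.isFilt hk (hD.card i hi)
    obtain ⟨γ, hγ⟩ := hf.cover x
    obtain ⟨γ', h1, h2, h3⟩ := h γ
    exact ⟨γ', h2, h3, pt γ' x, val_pt (hf.mono h1 hγ)⟩
  refine ⟨he, fun i hi i' hi' a x => ?_, fun j hj i hi a => ?_, fun j hj => ?_⟩
  · obtain ⟨γ, h1, h2, y, rfl⟩ := cov i hi x
    exact (congrArg (e i') ((h1.into i hi i' hi' a).val y)).symm.trans (h2.nat i hi i' hi' a y)
  · obtain ⟨γ, -, h1, h2⟩ := h ⊥
    exact (congrArg (e i) (val_pt (h1.idx j hj i hi))).symm.trans (h2.idp j hj i hi a)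
  · have hi := hP.fc j hj
    refine AX.Right.loc (C.lv_succ hκ) (he _ hi) (hD.card _ hi) fun x => ?_
    obtain ⟨γ, h1, h2, y, hy⟩ := cov _ hi x
    exact ⟨_, val, pt γ (pc.β j), val_h, val_pt (h1.β j hj), ⟨y, hy⟩, h2.right j hj⟩

theorem adm_lim (hκ : C.Lv κ) (hD : D.Ok I (succ κ)) (hP : pc.Ok I) {δ : J κ}
    (hδ : IsSuccLimit δ) {V : C.Obj} {e : ∀ i, C.U (C.st κ (D.X i) δ) → C.U V} {p : Pt → C.U V}
    (he : ∀ i ∈ I, C.IsH (e i))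
    (h : ∀ γ < δ, ∃ γ', γ ≤ γ' ∧ γ' ≤ δ ∧ DCl κ D I pc γ' ∧
      Adm (D.stage κ γ') I (pc.stage κ γ') V (fun i x => e i (tr (D.X i) γ' δ x)) p) :
    Adm (D.stage κ δ) I (pc.stage κ δ) V e p := by
  have hk := C.lv_ge hκ
  have cov : ∀ i ∈ I, ∀ x : C.U (C.st κ (D.X i) δ), ∃ γ', γ' ≤ δ ∧ DCl κ D I pc γ' ∧
      Adm (D.stage κ γ') I (pc.stage κ γ') V (fun i x => e i (tr (D.X i) γ' δ x)) p ∧
      ∃ y : C.U (C.st κ (D.X i) γ'), tr (D.X i) γ' δ y = x := fun i hi x => by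
    have hf := CC.isFilt hk (hD.card i hi)
    obtain ⟨γ, hγ, hx⟩ := hf.cont δ hδ _ (val_mem x)
    obtain ⟨γ', h1, h0, h2, h3⟩ := h γ hγ
    refine ⟨γ', h0, h2, h3, pt γ' (val x), ?_⟩
    exact (Into.stm_pt (g := fun x : C.U (D.X i) => x) (hf.mono h1 hx)).trans (pt_val x)
  refine ⟨he, fun i hi i' hi' a x => ?_, fun j hj i hi a => ?_, fun j hj => ?_⟩
  · obtain ⟨γ, h0, h1, h2, y, rfl⟩ := cov i hi x
    refine Eq.trans (congrArg (e i') ?_) (h2.nat i hi i' hi' a y)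
    exact ((CC.into_tr hk (hD.card i hi) h0).stm_stm y).trans
      ((h1.into i hi i' hi' a).stm_stm (k := fun x : C.U (D.X i') => x) y).symm
  · obtain ⟨γ, -, -, h1, h2⟩ := h ⊥ hδ.bot_lt
    refine Eq.trans (congrArg (e i) ?_) (h2.idp j hj i hi a)
    exact (Into.stm_pt (g := fun x : C.U (D.X i) => x) (h1.idx j hj i hi)).symm
  · have hi := hP.fc j hj
    refine AX.Right.loc hκ (he _ hi) (CC.card_st hk (hD.card _ hi) δ) fun x => ?_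
    obtain ⟨γ, h0, h1, h2, y, hy⟩ := cov _ hi x
    exact ⟨_, tr _ γ δ, pt γ (pc.β j), CC.tr_h hk (hD.card _ hi) h0,
      Into.stm_pt (g := fun x : C.U (D.X (pc.fc j)) => x) (h1.β j hj), ⟨y, hy⟩, h2.right j hj⟩

/-- the relation that compares an amalgam with the canonical one -/
def Can (I : Set ι) {γ δ : J κ} (F : Fn C.toPC)
    (ρ : ∀ i, C.U (C.st κ (D.X i) δ) → C.U (F.ap (C.st κ (D.X i) γ))) {Q Z : C.Obj}
    (eQ : ∀ i, C.U (C.st κ (D.X i) γ) → C.U Q) (h : C.U Q → C.U Z)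
    (e : ∀ i, C.U (C.st κ (D.X i) δ) → C.U Z) : Prop :=
  C.El Z (F.ap Q) (fun a b => G h (F.eta Q) a b ∨ GI I e (fun i x => F.mp (eQ i) (ρ i x)) a b)

theorem key1 (hκ : C.Lv κ) (hD : D.Ok I (succ κ)) (hP : pc.Ok I) {D0 : Set (J κ)}
    (h0 : IsClub D0) (hsr : ∀ γ ∈ D0, ∀ δ ∈ D0, γ ≤ δ → ∃ F ρ, IsSR κ D I γ δ F ρ)
    (hd : ∀ γ ∈ D0, DCl κ D I pc γ) {s : J κ} (hs : s ∈ D0) (a : J κ) {Q : C.Obj}
    {eQ : ∀ i, C.U (C.st κ (D.X i) s) → C.U Q} {pQ : Pt → C.U Q}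
    (hQ : Adm (D.stage κ s) I (pc.stage κ s) Q eQ pQ) :
    ∃ δ ∈ D0, s < δ ∧ a ≤ δ ∧ ∃ F ρ, IsSR κ D I s δ F ρ ∧ ∃ Z h e,
      CA κ D I pc s δ Q eQ pQ Z h e ∧ (¬ CU κ D I pc D0 s Q eQ pQ → ¬ Can I F ρ eQ h e) := by
  have hk := C.lv_ge hκ
  by_cases hc : CU κ D I pc D0 s Q eQ pQ
  · obtain ⟨δ, h1, h2⟩ := ev_exists_gt (ev_club h0) (max s a)
    have h3 := (le_max_left s a).trans_lt h1
    obtain ⟨F, ρ, hF⟩ := hsr s hs δ h2 h3.le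
    exact ⟨δ, h2, h3, (le_max_right s a).trans h1.le, F, ρ, hF, _, _, _,
      hF.ca hκ hD hP (hd s hs) hQ, fun h => absurd hc h⟩
  have hc' := hc
  unfold CU at hc'
  push Not at hc'
  obtain ⟨δ1, d1, l1, Z1, g1, e1, Z2, g2, e2, c1, c2, hne⟩ := hc'
  obtain ⟨δ, h1, h2⟩ := ev_exists_gt (ev_club h0) (max (max s a) δ1)
  have h3 : s < δ := ((le_max_left s a).trans (le_max_left _ δ1)).trans_lt h1
  have h4 : a ≤ δ := ((le_max_right s a).trans (le_max_left _ δ1)).trans h1.le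
  have h5 : δ1 ≤ δ := (le_max_right _ δ1).trans h1.le
  obtain ⟨F, ρ, hF⟩ := hsr s hs δ h2 h3.le
  obtain ⟨F1, ρ1, hF1⟩ := hsr δ1 d1 δ h2 h5
  have ext : ∀ {Z : C.Obj} {g : C.U Q → C.U Z} {e : ∀ i, C.U (C.st κ (D.X i) δ1) → C.U Z},
      CA κ D I pc s δ1 Q eQ pQ Z g e →
      CA κ D I pc s δ Q eQ pQ (F1.ap Z) (fun x => F1.eta Z (g x))
        (fun i x => F1.mp (e i) (ρ1 i x)) ∧
      ∀ i ∈ I, ∀ y, F1.mp (e i) (ρ1 i (tr (D.X i) δ1 δ y)) = F1.eta Z (e i y) := by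
    intro Z g e c
    have c' := hF1.ca hκ hD hP (hd δ1 d1) c.adm
    refine ⟨⟨C.comp c.hom c'.hom, c'.adm, fun i hi x => ?_⟩, c'.ov⟩
    rw [← CC.tr_tr hk (hD.card i hi) l1 δ x, c'.ov i hi, c.ov i hi]
  obtain ⟨c1', o1⟩ := ext c1
  obtain ⟨c2', o2⟩ := ext c2
  by_cases k1 : Can I F ρ eQ (fun x => F1.eta Z1 (g1 x)) (fun i x => F1.mp (e1 i) (ρ1 i x))
  · refine ⟨δ, h2, h3, h4, F, ρ, hF, _, _, _, c2', fun _ k2 => hne ?_⟩
    have el : C.El (F1.ap Z1) (F1.ap Z2) (fun a b =>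
        G (fun x => F1.eta Z1 (g1 x)) (fun x => F1.eta Z2 (g2 x)) a b ∨
        GI I (fun i x => F1.mp (e1 i) (ρ1 i x)) (fun i x => F1.mp (e2 i) (ρ1 i x)) a b) := by
      refine El.trans k1 (El.symm k2) ?_
      rintro _ _ (⟨x, rfl, rfl⟩ | ⟨i, hi, x, rfl, rfl⟩)
      · exact ⟨_, Or.inl ⟨x, rfl, rfl⟩, Or.inl ⟨x, rfl, rfl⟩⟩
      · exact ⟨_, Or.inr ⟨i, hi, x, rfl, rfl⟩, Or.inr ⟨i, hi, x, rfl, rfl⟩⟩
    refine el.pull (F1.eta_h Z1) (F1.eta_h Z2) ?_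
    rintro _ _ (⟨x, rfl, rfl⟩ | ⟨i, hi, x, rfl, rfl⟩)
    · exact Or.inl ⟨x, rfl, rfl⟩
    · exact Or.inr ⟨i, hi, tr (D.X i) δ1 δ x, o1 i hi x, o2 i hi x⟩
  · exact ⟨δ, h2, h3, h4, F, ρ, hF, _, _, _, c1', fun _ => k1⟩

theorem key2 (h2 : S_UnivExt) (hκ : C.Lv κ) (hD : D.Ok I (succ κ)) (hP : pc.Ok I) {s δ : J κ}
    {Q Z : C.Obj} {eQ : ∀ i, C.U (C.st κ (D.X i) s) → C.U Q} {pQ : Pt → C.U Q}
    (hQ : #(C.U Q) ≤ κ) {h : C.U Q → C.U Z} {e : ∀ i, C.U (C.st κ (D.X i) δ) → C.U Z}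
    (c : CA κ D I pc s δ Q eQ pQ Z h e) :
    ∃ (Q' : C.Obj) (w : C.U Q → C.U Q') (e' : ∀ i, C.U (C.st κ (D.X i) δ) → C.U Q'),
      CA κ D I pc s δ Q eQ pQ Q' w e' ∧ #(C.U Q') ≤ κ ∧ C.Univ κ w ∧
      ∀ F ρ, Can I F ρ eQ w e' → Can I F ρ eQ h e := by
  have hk := C.lv_ge hκ
  obtain ⟨Z', k, e', p', k1, k2, k3, k4, k5, k6⟩ := c.adm.cut hk hD.fin (hP.stage κ δ)
    (fun i hi => CC.card_st hk (hD.card i hi) δ) (T := range h) (mk_range_le.trans hQ)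
  obtain ⟨h', hh, hk'⟩ := factor c.hom k1 k3
  obtain ⟨Q', g, hg, hQ', hU⟩ := h2 C.toAC κ hk (AX.pstab hκ) Z' k2
  refine ⟨Q', fun x => g (h' x), fun i x => g (e' i x), ⟨C.comp hh hg,
    k4.post (hP.stage κ δ) hg (fun _ _ _ => rfl) fun j hj => congrArg g (C.inj k1 ?_),
    fun i hi x => congrArg g (C.inj k1 ?_)⟩, hQ', hU.pre hh, fun F ρ hc => ?_⟩
  · rw [k6 j hj, hk']
  · rw [k5 i hi, hk', c.ov i hi]
  · have el : C.El Z' (F.ap Q) (fun a b => G h' (F.eta Q) a b ∨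
        GI I e' (fun i x => F.mp (eQ i) (ρ i x)) a b) := by
      refine El.pull_left hg hc ?_
      rintro _ _ (⟨x, rfl, rfl⟩ | ⟨i, hi, x, rfl, rfl⟩)
      · exact Or.inl ⟨x, rfl, rfl⟩
      · exact Or.inr ⟨i, hi, x, rfl, rfl⟩
    refine El.push k1 (C.idH _) el ?_
    rintro _ _ (⟨x, rfl, rfl⟩ | ⟨i, hi, x, rfl, rfl⟩)
    · exact ⟨_, _, Or.inl ⟨x, rfl, rfl⟩, hk' x, rfl⟩
    · exact ⟨_, _, Or.inr ⟨i, hi, x, rfl, rfl⟩, k5 i hi x, rfl⟩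

/-- one side of a state: a top over the stage `s` with a map from the initial top -/
structure Sd (κ : Cardinal.{0}) (D : Dg C ι) (Q0 : C.Obj) (s : J κ) where
  Z : C.Obj
  e : ∀ i, C.U (C.st κ (D.X i) s) → C.U Z
  q : C.U Q0 → C.U Z

variable {Q0 : C.Obj} {γ0 : J κ} {e0 : ∀ i, C.U (C.st κ (D.X i) γ0) → C.U Q0} {p0 : Pt → C.U Q0}

structure SH (I : Set ι) {s s' : J κ} (A : Sd κ D Q0 s) (B : Sd κ D Q0 s')
    (w : C.U A.Z → C.U B.Z) : Prop where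
  hom : C.IsH w
  ov : ∀ i ∈ I, ∀ x, w (A.e i x) = B.e i (tr (D.X i) s s' x)
  q : ∀ x, w (A.q x) = B.q x

structure SI (I : Set ι) (pc : Pc D Pt) (e0 : ∀ i, C.U (C.st κ (D.X i) γ0) → C.U Q0)
    (p0 : Pt → C.U Q0) {s : J κ} (A : Sd κ D Q0 s) : Prop where
  card : #(C.U A.Z) ≤ κ
  hq : C.IsH A.q
  adm : Adm (D.stage κ s) I (pc.stage κ s) A.Z A.e (fun j => A.q (p0 j))
  ov : ∀ i ∈ I, ∀ x, A.e i (tr (D.X i) γ0 s x) = A.q (e0 i x)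

theorem of_ca (hκ : C.Lv κ) (hD : D.Ok I (succ κ)) {s δ : J κ} (h0 : γ0 ≤ s) {A : Sd κ D Q0 s}
    (hA : SI I pc e0 p0 A) {Z : C.Obj} {w : C.U A.Z → C.U Z}
    {e : ∀ i, C.U (C.st κ (D.X i) δ) → C.U Z}
    (c : CA κ D I pc s δ A.Z A.e (fun j => A.q (p0 j)) Z w e) (hZ : #(C.U Z) ≤ κ) :
    SH I A (⟨Z, e, fun x => w (A.q x)⟩ : Sd κ D Q0 δ) w ∧
      SI I pc e0 p0 (⟨Z, e, fun x => w (A.q x)⟩ : Sd κ D Q0 δ) :=
  ⟨⟨c.hom, fun i hi x => (c.ov i hi x).symm, fun _ => rfl⟩,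
    ⟨hZ, comp' hA.hq c.hom fun _ => rfl, c.adm, fun i hi x => by
      change e i _ = w _
      rw [← CC.tr_tr (C.lv_ge hκ) (hD.card i hi) h0 δ x, c.ov i hi, hA.ov i hi]⟩⟩

theorem side_colim {Λ : Type} [LinearOrder Λ] [Nonempty Λ] (s : Λ → J κ)
    (A : ∀ a, Sd κ D Q0 (s a)) (t : ∀ a b, a ≤ b → C.U (A a).Z → C.U (A b).Z)
    (hH : ∀ a b h, SH I (A a) (A b) (t a b h)) (tid : ∀ a x, t a a le_rfl x = x)
    (tc : ∀ a b c (h : a ≤ b) (h' : b ≤ c) x, t b c h' (t a b h x) = t a c (h.trans h') x) :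
    ∃ (Z : C.Obj) (u : ∀ a, C.U (A a).Z → C.U Z) (q : C.U Q0 → C.U Z), (∀ a, C.IsH (u a)) ∧
      (∀ a b h x, u b (t a b h x) = u a x) ∧ (∀ y, ∃ a x, u a x = y) ∧
      (∀ a x, u a ((A a).q x) = q x) ∧
      ∀ i ∈ I, ∀ a b, a ≤ b → ∀ x, u b ((A b).e i (tr (D.X i) (s a) (s b) x)) =
        u a ((A a).e i x) := by
  obtain ⟨Z, u, h1, h2, h3⟩ := C.colim Λ (fun a => (A a).Z) t (fun a b h => (hH a b h).hom) tid tc
  obtain ⟨a0⟩ := ‹Nonempty Λ›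
  refine ⟨Z, u, fun x => u a0 ((A a0).q x), h1, h2, h3, fun a x => ?_, fun i hi a b h x => ?_⟩
  · change _ = u a0 _
    rcases le_total a a0 with h | h
    · rw [← (hH a a0 h).q, h2]
    · rw [← (hH a0 a h).q, h2]
  · rw [← (hH a b h).ov i hi, h2]

theorem side_lim (hκ : C.Lv κ) (hD : D.Ok I (succ κ)) (hP : pc.Ok I) {Λ : Type} [LinearOrder Λ]
    [Nonempty Λ] (hΛ : #Λ ≤ κ) (s : Λ → J κ) (hs : Monotone s) {δ : J κ} (hδ : IsSuccLimit δ)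
    (h1 : ∀ a, s a ≤ δ) (h2 : ∀ γ < δ, ∃ a, γ ≤ s a) (h0 : ∀ a, γ0 ≤ s a)
    (hd : ∀ a, DCl κ D I pc (s a))
    (A : ∀ a, Sd κ D Q0 (s a)) (t : ∀ a b, a ≤ b → C.U (A a).Z → C.U (A b).Z)
    (hI : ∀ a, SI I pc e0 p0 (A a))
    (hH : ∀ a b h, SH I (A a) (A b) (t a b h)) (tid : ∀ a x, t a a le_rfl x = x)
    (tc : ∀ a b c (h : a ≤ b) (h' : b ≤ c) x, t b c h' (t a b h x) = t a c (h.trans h') x) :
    ∃ (B : Sd κ D Q0 δ) (u : ∀ a, C.U (A a).Z → C.U B.Z), SI I pc e0 p0 B ∧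
      (∀ a, SH I (A a) B (u a)) ∧ (∀ a b h x, u b (t a b h x) = u a x) ∧
      ∀ y, ∃ a x, u a x = y := by
  have hk := C.lv_ge hκ
  obtain ⟨Z, u, q, u1, u2, u3, u4, u5⟩ := side_colim s A t hH tid tc
  have ex : ∀ i, ∃ k : C.U (C.st κ (D.X i) δ) → C.U Z, i ∈ I → C.IsH k ∧
      ∀ a x, k (tr (D.X i) (s a) δ x) = u a ((A a).e i x) := fun i => by
    by_cases hi : i ∈ I
    · obtain ⟨k, hk'⟩ := CC.lift_st hk (hD.card i hi) s hs hδ h1 h2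
        (fun a x => u a ((A a).e i x)) (fun a => C.comp ((hI a).adm.hom i hi) (u1 a)) (u5 i hi)
      exact ⟨k, fun _ => hk'⟩
    · exact ⟨fun _ => Classical.arbitrary _, fun h => absurd h hi⟩
  choose e he using ex
  obtain ⟨a0⟩ := ‹Nonempty Λ›
  refine ⟨⟨Z, e, q⟩, u, ⟨card_cover u u3 (AX.lv_inf hκ) hΛ fun a => (hI a).card,
    comp' (hI a0).hq (u1 a0) (u4 a0), ?_, fun i hi x => ?_⟩,
    fun a => ⟨u1 a, fun i hi x => ((he i hi).2 a x).symm, u4 a⟩, u2, u3⟩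
  · refine adm_lim hκ hD hP hδ (fun i hi => (he i hi).1) fun γ hγ => ?_
    obtain ⟨a, ha⟩ := h2 γ hγ
    exact ⟨s a, ha, h1 a, hd a, (hI a).adm.post (hP.stage κ _) (u1 a)
      (fun i hi x => ((he i hi).2 a x).symm) fun j _ => u4 a _⟩
  · change e i _ = q _
    rw [← CC.tr_tr hk (hD.card i hi) (h0 a0) δ x, (he i hi).2, (hI a0).ov i hi, u4]

theorem side_top (hκ : C.Lv κ) (hD : D.Ok I (succ κ)) (hP : pc.Ok I) (s : J κ → J κ)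
    (hs : Monotone s) (h2 : ∀ a, a ≤ s a) (h0 : ∀ a, γ0 ≤ s a) (hd : ∀ a, DCl κ D I pc (s a))
    (A : ∀ a, Sd κ D Q0 (s a)) (t : ∀ a b, a ≤ b → C.U (A a).Z → C.U (A b).Z)
    (hI : ∀ a, SI I pc e0 p0 (A a))
    (hH : ∀ a b h, SH I (A a) (A b) (t a b h)) (tid : ∀ a x, t a a le_rfl x = x)
    (tc : ∀ a b c (h : a ≤ b) (h' : b ≤ c) x, t b c h' (t a b h x) = t a c (h.trans h') x)
    (hc : ∀ δ, IsSuccLimit δ → ∀ y, ∃ a, ∃ h : a < δ, ∃ x, t a δ h.le x = y) :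
    ∃ (V : C.Obj) (u : ∀ a, C.U (A a).Z → C.U V) (k : C.U Q0 → C.U V)
      (e : ∀ i, C.U (D.X i) → C.U V), (∀ a, C.IsH (u a)) ∧
      (∀ a b h x, u b (t a b h x) = u a x) ∧ (∀ y, ∃ a x, u a x = y) ∧
      (∀ a x, u a ((A a).q x) = k x) ∧ (∀ i ∈ I, ∀ a x, e i (val x) = u a ((A a).e i x)) ∧
      C.IsH k ∧ #(C.U V) ≤ succ κ ∧ Adm D I pc V e (fun j => k (p0 j)) ∧
      (∀ i ∈ I, ∀ x, e i (val x) = k (e0 i x)) ∧
      ∀ᶠ γ in cf κ, range (u γ) = C.filt κ V γ := by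
  have hk := C.lv_ge hκ
  have hi0 := AX.lv_inf hκ
  obtain ⟨Z, u, q, u1, u2, u3, u4, u5⟩ := side_colim s A t hH tid tc
  have ex : ∀ i, ∃ k : C.U (D.X i) → C.U Z, i ∈ I → C.IsH k ∧
      ∀ a x, k (val x) = u a ((A a).e i x) := fun i => by
    by_cases hi : i ∈ I
    · obtain ⟨k, hk'⟩ := CC.lift_top hk (hD.card i hi) s hs (fun γ => ⟨γ, h2 γ⟩)
        (fun a x => u a ((A a).e i x)) (fun a => C.comp ((hI a).adm.hom i hi) (u1 a)) (u5 i hi)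
      exact ⟨k, fun _ => hk'⟩
    · exact ⟨fun _ => Classical.arbitrary _, fun h => absurd h hi⟩
  choose e he using ex
  have hZ : #(C.U Z) ≤ succ κ := card_cover u u3 (hi0.trans (le_succ κ)) (J.card hi0).le
    fun a => (hI a).card.trans (le_succ κ)
  refine ⟨Z, u, q, e, u1, u2, u3, u4, fun i hi => (he i hi).2, comp' (hI ⊥).hq (u1 ⊥) (u4 ⊥), hZ,
    ?_, fun i hi x => ?_, (CC.isFilt_chain t u u1 (fun a => (hI a).card) u2 hc u3).ev_eq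
      (CC.isFilt hk hZ) hi0⟩
  · exact adm_top hκ hD hP (fun i hi => (he i hi).1) fun γ => ⟨s γ, h2 γ, hd γ,
      (hI γ).adm.post (hP.stage κ _) (u1 γ) (fun i hi x => ((he i hi).2 γ x).symm)
        fun j _ => u4 γ _⟩
  · rw [← CC.val_tr hk (hD.card i hi) (h0 ⊥) x, (he i hi).2, (hI ⊥).ov i hi, u4]

/-- the conclusion of the closure statement at one stage -/
def Clo (κ : Cardinal.{0}) {T V : C.Obj} (h : C.U T → C.U V) (γ : J κ) : Prop :=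
  Into h γ γ ∧
    ∀ (B : C.Obj) (k : C.U B → C.U T) (j : C.U (C.st κ T γ) → C.U B) (F : Fn C.toPC)
      (ψ : C.U B → C.U (F.ap (C.st κ T γ))), C.IsH k → C.IsH j → (∀ x, k (j x) = val x) →
      F.Bd (succ κ) → C.IsH ψ → (∀ x, ψ (j x) = F.eta _ x) →
      C.El V (F.ap (C.st κ V γ)) (fun a b => G val (F.eta (C.st κ V γ)) a b ∨
        G (fun x => h (k x)) (fun x => F.mp (stm h γ γ) (ψ x)) a b)

theorem pt_iso {A V : C.Obj} {γ : J κ} {u : C.U A → C.U V} (hu : C.IsH u)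
    (h : range u = C.filt κ V γ) : C.IsH (fun x => pt γ (u x)) ∧
      Surjective (fun x => pt γ (u x)) ∧ ∀ x, val (pt γ (u x)) = u x := by
  have h1 : ∀ x, u x ∈ C.filt κ V γ := fun x => h ▸ mem_range_self x
  refine ⟨pt_h hu h1, fun y => ?_, fun x => val_pt (h1 x)⟩
  obtain ⟨x, hx⟩ : val y ∈ range u := h ▸ val_mem y
  exact ⟨x, (congrArg (pt γ) hx).trans (pt_val y)⟩

theorem final {γ δ : J κ} {Q T Q' T' V T1 W : C.Obj}
    {eQ : ∀ i, C.U (C.st κ (D.X i) γ) → C.U Q} {eT : ∀ i, C.U (C.st κ (D.X i) γ) → C.U T}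
    {eQ' : ∀ i, C.U (C.st κ (D.X i) δ) → C.U Q'} {eT' : ∀ i, C.U (C.st κ (D.X i) δ) → C.U T'}
    {wQ : C.U Q → C.U Q'} {wT : C.U T → C.U T'} {uQ : C.U Q → C.U V} {uQ' : C.U Q' → C.U V}
    {uT : C.U T → C.U T1} {uT' : C.U T' → C.U T1} {eV : ∀ i, C.U (D.X i) → C.U V}
    {e1 : ∀ i, C.U (D.X i) → C.U T1} {f : C.U V → C.U W} {f' : C.U T1 → C.U W}
    (hQ : ∀ i ∈ I, C.IsH (eQ i)) (hT : ∀ i ∈ I, C.IsH (eT i)) (a1 : C.IsH uQ) (a2 : C.IsH uQ')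
    (a3 : C.IsH uT) (a4 : C.IsH uT') (hf : C.IsH f) (hf' : C.IsH f')
    (b1 : ∀ x, uQ' (wQ x) = uQ x) (b2 : ∀ x, uT' (wT x) = uT x)
    (c1 : ∀ i ∈ I, ∀ x, eV i (val x) = uQ (eQ i x)) (c2 : ∀ i ∈ I, ∀ x, eV i (val x) = uQ' (eQ' i x))
    (c3 : ∀ i ∈ I, ∀ x, e1 i (val x) = uT (eT i x)) (c4 : ∀ i ∈ I, ∀ x, e1 i (val x) = uT' (eT' i x))
    (hff : ∀ i ∈ I, ∀ x, f (eV i x) = f' (e1 i x)) (r1 : range uQ = C.filt κ V γ)
    (r2 : range uT = C.filt κ T1 γ) (i1 : Into f γ γ) (cl : Clo κ f' γ) {F : Fn C.toPC}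
    {ρ : ∀ i, C.U (C.st κ (D.X i) δ) → C.U (F.ap (C.st κ (D.X i) γ))} (hF : F.Bd κ)
    {ψ : C.U (F.ap T) → C.U T'} (hψ : C.IsH ψ) (d1 : ∀ x, ψ (F.eta T x) = wT x)
    (d2 : ∀ i ∈ I, ∀ x, ψ (F.mp (eT i) (ρ i x)) = eT' i x) : Can I F ρ eQ wQ eQ' := by
  obtain ⟨m1, -, m3⟩ := pt_iso a1 r1
  obtain ⟨n1, n2, n3⟩ := pt_iso a3 r2
  obtain ⟨g, g1, g2, -⟩ := inverse n1 n2
  have el := cl.2 (F.ap T) (fun x => uT' (ψ x)) (fun x => F.eta T (g x)) F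
    (F.mp fun x => pt γ (uT x)) (C.comp hψ a4) (C.comp g1 (F.eta_h T))
    (fun x => by rw [d1, b2, ← n3, g2 x]) (hF.mono (le_succ κ)) (F.mp_h n1)
    (fun x => by rw [F.eta_nat n1, g2 x])
  have hn : C.IsH fun x => stm f γ γ (pt γ (uQ x)) := C.comp m1 (i1.isH hf)
  have vn : ∀ x, val (stm f γ γ (pt γ (uQ x))) = f (uQ x) := fun x => by rw [i1.val, m3]
  refine el.pull (C.comp a2 hf) (F.mp_h hn) ?_
  rintro _ _ (⟨x, rfl, rfl⟩ | ⟨i, hi, x, rfl, rfl⟩)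
  · exact Or.inl ⟨stm f γ γ (pt γ (uQ x)), by rw [vn, b1], (F.eta_nat hn x).symm⟩
  · refine Or.inr ⟨F.mp (eT i) (ρ i x), ?_, ?_⟩
    · change f' (uT' (ψ _)) = f (uQ' _)
      rw [d2 i hi, ← c4 i hi, ← c2 i hi, hff i hi]
    · change F.mp _ (F.mp _ (F.mp _ _)) = F.mp _ (F.mp _ _)
      rw [F.mp_comp n1 (cl.1.isH hf')]
      refine F.mp_sq (hT i hi) (C.comp n1 (cl.1.isH hf')) (hQ i hi) hn (fun z => val_inj ?_) _
      rw [vn, cl.1.val, n3, ← c3 i hi, ← c1 i hi, hff i hi]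

theorem cu_iso {D0 : Set (J κ)} {γ : J κ} {Q Q' : C.Obj}
    {eQ : ∀ i, C.U (C.st κ (D.X i) γ) → C.U Q} {pQ : Pt → C.U Q}
    {eQ' : ∀ i, C.U (C.st κ (D.X i) γ) → C.U Q'} {pQ' : Pt → C.U Q'}
    (h : CU κ D I pc D0 γ Q eQ pQ) {m : C.U Q → C.U Q'} (hm : C.IsH m) (hs : Surjective m)
    (he : ∀ i ∈ I, ∀ x, m (eQ i x) = eQ' i x) (hp : ∀ j, m (pQ j) = pQ' j) :
    CU κ D I pc D0 γ Q' eQ' pQ' := by
  obtain rfl : pQ' = fun j => m (pQ j) := funext fun j => (hp j).symm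
  intro δ hδ hle Z g e Z' g' e' c c'
  refine (h δ hδ hle Z (fun x => g (m x)) e Z' (fun x => g' (m x)) e'
    ⟨C.comp hm c.hom, c.adm, fun i hi x => (c.ov i hi x).trans (congrArg g (he i hi x).symm)⟩
    ⟨C.comp hm c'.hom, c'.adm,
      fun i hi x => (c'.ov i hi x).trans (congrArg g' (he i hi x).symm)⟩).mono ?_
  rintro _ _ (⟨x, rfl, rfl⟩ | H)
  · obtain ⟨y, rfl⟩ := hs x
    exact Or.inl ⟨y, rfl, rfl⟩
  · exact Or.inr H

/-- states of the recursion -/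
structure St (κ : Cardinal.{0}) (D : Dg C ι) (Q0 : C.Obj) where
  s : J κ
  sd : Bool → Sd κ D Q0 s

/-- the carriers of a state -/
def XX (S : St κ D Q0) : Option Bool → Type
  | none => Iio S.s
  | some b => C.U (S.sd b).Z

def mk3 {S S' : St κ D Q0} (h : S.s ≤ S'.s) (w : ∀ b, C.U (S.sd b).Z → C.U (S'.sd b).Z) :
    ∀ i, XX S i → XX S' i
  | none => fun x : Iio S.s => (⟨x.1, x.2.trans_le h⟩ : Iio S'.s)
  | some b => w b

def iv {S : St κ D Q0} (x : XX S none) : Iio S.s := x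

def Hm (I : Set ι) (S S' : St κ D Q0) (w : ∀ i, XX S i → XX S' i) : Prop :=
  S.s ≤ S'.s ∧ (∀ x, (iv (w none x)).1 = (iv x).1) ∧ ∀ b, SH I (S.sd b) (S'.sd b) (w (some b))

def Stp (I : Set ι) (pc : Pc D Pt) (D0 : Set (J κ)) (p0 : Pt → C.U Q0) (S S' : St κ D Q0)
    (w : ∀ i, XX S i → XX S' i) : Prop :=
  S.s < S'.s ∧ C.Univ κ (A := (S.sd true).Z) (A' := (S'.sd true).Z) (w (some true)) ∧
    ∃ F ρ, IsSR κ D I S.s S'.s F ρ ∧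
      (∃ ψ : C.U (F.ap (S.sd false).Z) → C.U (S'.sd false).Z, C.IsH ψ ∧
        (∀ x, ψ (F.eta _ x) = w (some false) x) ∧
        ∀ i ∈ I, ∀ x, ψ (F.mp ((S.sd false).e i) (ρ i x)) = (S'.sd false).e i x) ∧
      (¬ CU κ D I pc D0 S.s (S.sd true).Z (S.sd true).e (fun j => (S.sd true).q (p0 j)) →
        ¬ Can (Z := (S'.sd true).Z) I F ρ (S.sd true).e (w (some true)) (S'.sd true).e)

end DTrapP

open DTrapP in
theorem dtrap (h1 : S_Closure) (h2 : S_UnivExt) : S_DTrap := by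
  intro C κ hκ ι Pt D I pc hD hP hS hU
  have hk := C.lv_ge hκ
  have hi0 := AX.lv_inf hκ
  obtain ⟨D1, hD1, hsr1⟩ := hS
  obtain ⟨D2, hD2, hd2⟩ := ev_iff.1 (ev_dcl hκ hD hP)
  refine ⟨D1 ∩ D2, club_inter hD1 hD2, fun γ0 hγ0 Q0 e0 p0 hQ0 hA0 => ?_⟩
  have h0 := club_inter hD1 hD2
  have hsr : ∀ γ ∈ D1 ∩ D2, ∀ δ ∈ D1 ∩ D2, γ ≤ δ → ∃ F ρ, IsSR κ D I γ δ F ρ :=
    fun γ a δ b => hsr1 γ a.1 δ b.1
  have hd : ∀ γ ∈ D1 ∩ D2, DCl κ D I pc γ := fun γ a => hd2 γ a.2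
  generalize D1 ∩ D2 = D0 at hγ0 h0 hsr hd
  obtain ⟨F, t, -, hI, hH, tid, tc, hSt, hct⟩ := gchain (Λ := J κ) (XX (κ := κ) (D := D) (Q0 := Q0))
    (Hm I)
    (fun S => ⟨le_rfl, fun _ => rfl, fun b => ⟨C.idH _, fun i _ x => by rw [tr_self],
      fun _ => rfl⟩⟩)
    (fun S S' S'' f g a b => ⟨a.1.trans b.1, fun x => (b.2.1 _).trans (a.2.1 x), fun c =>
      ⟨C.comp (a.2.2 c).hom (b.2.2 c).hom, fun i hi x => by
        change g (some c) (f (some c) _) = _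
        rw [(a.2.2 c).ov i hi, (b.2.2 c).ov i hi, CC.tr_tr hk (hD.card i hi) a.1],
       fun x => (congrArg (g (some c)) ((a.2.2 c).q x)).trans ((b.2.2 c).q x)⟩⟩)
    (fun a S => S.s ∈ D0 ∧ γ0 ≤ S.s ∧ a ≤ S.s ∧ ∀ b, SI I pc e0 p0 (S.sd b))
    (fun _ => Stp I pc D0 p0) ⟨γ0, fun _ => ⟨Q0, e0, fun x => x⟩⟩
    ⟨hγ0, le_rfl, bot_le, fun _ => ⟨hQ0, C.idH _, hA0, fun i _ x => by rw [tr_self]⟩⟩
    (by
      rintro a S ⟨s1, s2, -, s4⟩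
      obtain ⟨δ, d1, d2, d3, F, ρ, hF, Z, h, e, c, hc⟩ :=
        key1 hκ hD hP h0 hsr hd s1 (succ a) (s4 true).adm
      obtain ⟨Q', w, e', c', hQ', hw, hcan⟩ := key2 h2 hκ hD hP (s4 true).card c
      obtain ⟨x1, x2⟩ := of_ca hκ hD s2 (s4 true) c' hQ'
      obtain ⟨y1, y2⟩ := of_ca hκ hD s2 (s4 false) (hF.ca hκ hD hP (hd _ s1) (s4 false).adm)
        (hF.bd.le hi0 le_rfl (s4 false).card)
      let S' : St κ D Q0 := ⟨δ, fun b => match b with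
        | true => ⟨Q', e', fun x => w ((S.sd true).q x)⟩
        | false => ⟨F.ap (S.sd false).Z, fun i x => F.mp ((S.sd false).e i) (ρ i x),
            fun x => F.eta _ ((S.sd false).q x)⟩⟩
      refine ⟨S', mk3 (S := S) (S' := S') d2.le (fun b => match b with
        | true => w
        | false => F.eta _), ⟨d2.le, fun _ => rfl, fun b => ?_⟩,
        ⟨d1, s2.trans d2.le, d3, fun b => ?_⟩, d2, hw, F, ρ, hF,
        ⟨fun x => x, C.idH _, fun _ => rfl, fun _ _ _ => rfl⟩, fun a b => hc a (hcan F ρ b)⟩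
      · cases b
        · exact y1
        · exact x1
      · cases b
        · exact y2
        · exact x2)
    (by
      intro δ hδ c hI hSt
      have : Nonempty (Iio δ) := ⟨⟨⊥, hδ.bot_lt⟩⟩
      obtain ⟨ε, l1, l2, l3, l4⟩ := exists_sup (fun a => (c.F a).s)
        (J.bdd_fun (J.iio hi0 δ) _) (fun a => ⟨⟨succ a.1, hδ.succ_lt a.2⟩,
          (hSt a ⟨succ a.1, hδ.succ_lt a.2⟩ (le_succ a.1) rfl).1⟩)
      have ex := fun b => side_lim (e0 := e0) (p0 := p0) hκ hD hP (J.iio hi0 δ)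
        (fun a => (c.F a).s) (fun a a' h => (c.hom a a' h).1) l2 (fun a => (l3 a).le)
        (fun γ h => (l4 γ h).imp fun _ h => h.le) (fun a => (hI a).2.1) (fun a => hd _ (hI a).1)
        (fun a => (c.F a).sd b) (fun a a' h => c.t a a' h (some b)) (fun a => (hI a).2.2.2 b)
        (fun a a' h => (c.hom a a' h).2.2 b) (fun a => c.t_id a (some b))
        (fun a a' a'' h h' => c.t_comp a a' a'' h h' (some b))
      choose B u b1 b2 b3 b4 using ex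
      obtain ⟨a0⟩ := this
      refine ⟨⟨ε, B⟩, fun a => mk3 (S := c.F a) (S' := ⟨ε, B⟩) (l3 a).le (fun b => u b a),
        ⟨h0.isLUB_mem (by rintro _ ⟨a, rfl⟩; exact (hI a).1) ⟨_, mem_range_self a0⟩ l1,
          (hI a0).2.1.trans (l3 a0).le, not_lt.1 fun h => ?_, b1⟩,
        fun a => ⟨(l3 a).le, fun _ => rfl, fun b => b2 b a⟩, fun a a' h i x => ?_, fun i y => ?_⟩
      · exact ((hI ⟨ε, h⟩).2.2.1.trans_lt (l3 ⟨ε, h⟩)).false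
      · cases i
        · exact Subtype.ext ((c.hom a a' h).2.1 x)
        · exact b3 _ a a' h x
      · cases i
        · obtain ⟨a, ha⟩ := l4 _ (iv y).2
          exact ⟨a, (⟨(iv y).1, ha⟩ : Iio (c.F a).s), rfl⟩
        · exact b4 _ y)
  have top := fun b => side_top (e0 := e0) (p0 := p0) hκ hD hP (fun a => (F a).s)
    (fun a a' h => (hH a a' h).1) (fun a => (hI a).2.2.1) (fun a => (hI a).2.1)
    (fun a => hd _ (hI a).1) (fun a => (F a).sd b) (fun a a' h => t a a' h (some b))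
    (fun a => (hI a).2.2.2 b) (fun a a' h => (hH a a' h).2.2 b) (fun a => tid a (some b))
    (fun a a' a'' h h' => tc a a' a'' h h' (some b)) (fun δ hδ => hct δ hδ (some b))
  obtain ⟨V, u, k, e, u1, u2, u3, u4, u5, u6, u7, u8, u9, u10⟩ := top true
  obtain ⟨T, v, k', e', v1, v2, -, -, v5, -, v7, v8, -, v10⟩ := top false
  obtain ⟨W, f, f', hf, hf', hW, hff⟩ :=
    (hU V e _ T e' _ u8 v8).small (hk.trans (le_succ κ)) u7 v7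
  refine ⟨V, k, e, u6, u7, ?_, u8, u9, ?_⟩
  · refine PC.sat_union (fun a => ((F a).sd true).Z) u u1 (fun a b h => ?_) u3 (fun s hs => ?_)
      fun a => ⟨succ a, t a (succ a) (le_succ a) (some true), (hSt a).2.1, u2 _ _ _⟩
    · rintro _ ⟨x, rfl⟩
      exact ⟨_, u2 a b h x⟩
    · exact (J.bdd hs).imp fun _ h a ha => (h a ha).le
  have key : ∀ a, range (u a) = C.filt κ V (F a).s → range (v a) = C.filt κ T (F a).s →
      Into f (F a).s (F a).s → Clo κ f' (F a).s →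
      CU κ D I pc D0 (F a).s (C.st κ V (F a).s) (fun i => stm (e i) (F a).s (F a).s)
        (fun j => pt (F a).s (k (p0 j))) := by
    intro a r1 r2 i1 cl
    obtain ⟨-, -, G, ρ, hG, ⟨ψ, hψ, d1, d2⟩, hc⟩ := hSt a
    have hcu := not_not.1 fun h => hc h (final ((hI a).2.2.2 true).adm.hom
      ((hI a).2.2.2 false).adm.hom (u1 a) (u1 (succ a)) (v1 a) (v1 (succ a)) hf hf'
      (u2 a _ (le_succ a)) (v2 a _ (le_succ a)) (fun i hi => u5 i hi a)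
      (fun i hi => u5 i hi (succ a)) (fun i hi => v5 i hi a) (fun i hi => v5 i hi (succ a))
      (fun i hi x => hff _ _ (GI.mk e e' hi x)) r1 r2 i1 cl hG.bd hψ d1 d2)
    obtain ⟨m1, m2, -⟩ := pt_iso (u1 a) r1
    exact cu_iso hcu m1 m2 (fun i hi x => congrArg (pt _) (u5 i hi a x).symm)
      fun j => congrArg (pt _) (u4 a _)
  filter_upwards [u10, v10, CC.ev_into hk u7 hW f, h1 C κ hκ T W f' hf' hW,
    ev_closed (fun a => (F a).s), ev_lim] with γ r1 r2 i1 cl hcl hl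
  have hγ : (F γ).s = γ := le_antisymm (not_lt.1 fun h => by
    obtain ⟨a, ha, x, hx⟩ := hct γ hl none (⟨γ, h⟩ : Iio (F γ).s)
    have e1 : γ = (iv x).1 := (congrArg (fun y => (iv y).1) hx).symm.trans ((hH a γ ha.le).2.1 x)
    exact (e1.trans_lt ((iv x).2.trans (hcl a ha))).false) (hI γ).2.2.1
  have := key γ (r1.trans (congrArg _ hγ.symm)) (r2.trans (congrArg _ hγ.symm))
    (by rw [hγ]; exact i1) (by rw [hγ]; exact cl)
  rwa [hγ] at this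

end Pool.Agent.P.MP_860a31_lc.E
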