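import Pool.Agent.P.MP_860a31_lc.E.Ax

/-!
Finite diagrams with marked points, admissible cocones, and their stages.
-/

open Cardinal hiding univ
open Set Order Filter Function

namespace Pool.Agent.P.MP_860a31_lc.E

open PC

/-- objects and arrows; a set `I` of active vertices is given separately -/
structure Dg (C : AX) (ι : Type) where
  X : ι → C.Obj
  Ar : ι → ι → Prop
  ar : ∀ i i', C.U (X i) → C.U (X i')

/-- points: `Act` is the set of active points; point `j` is identified with `idx i j` when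
`Idr i j`, and has to be right over the vertex `fc j` -/
structure Pc {C : AX} {ι : Type} (D : Dg C ι) (Pt : Type) where
  Act : Set Pt
  Idr : ι → Pt → Prop
  idx : ∀ i, Pt → C.U (D.X i)
  t : Pt → C.Op
  fc : Pt → ι
  β : ∀ j, C.U (D.X (fc j))

variable {C : AX} {ι Pt : Type}

@[reducible] noncomputable def Dg.stage (D : Dg C ι) (κ : Cardinal.{0}) (γ : J κ) : Dg C ι where
  X i := C.st κ (D.X i) γ
  Ar := D.Ar
  ar i i' := stm (D.ar i i') γ γ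

@[reducible] noncomputable def Pc.stage {D : Dg C ι} (p : Pc D Pt) (κ : Cardinal.{0}) (γ : J κ) :
    Pc (D.stage κ γ) Pt where
  Act := p.Act
  Idr := p.Idr
  idx i j := pt γ (p.idx i j)
  t := p.t
  fc := p.fc
  β j := pt γ (p.β j)

/-- admissible cocones with points -/
structure Adm (D : Dg C ι) (I : Set ι) (pc : Pc D Pt) (Z : C.Obj)
    (e : ∀ i, C.U (D.X i) → C.U Z) (p : Pt → C.U Z) : Prop where
  hom : ∀ i ∈ I, C.IsH (e i)
  nat : ∀ i ∈ I, ∀ i' ∈ I, D.Ar i i' → ∀ x, e i' (D.ar i i' x) = e i x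
  idp : ∀ j ∈ pc.Act, ∀ i ∈ I, pc.Idr i j → e i (pc.idx i j) = p j
  right : ∀ j ∈ pc.Act, C.Right (pc.t j) (D.X (pc.fc j)) (pc.β j) (e (pc.fc j)) (p j)

/-- the joint graph of two families of maps on the active vertices -/
def GI {ι β γ : Type} {α : ι → Type} (I : Set ι) (e : ∀ i, α i → β) (e' : ∀ i, α i → γ) (b : β)
    (c : γ) : Prop := ∃ i ∈ I, G (e i) (e' i) b c

theorem GI.mk {ι β γ : Type} {α : ι → Type} {I : Set ι} (e : ∀ i, α i → β) (e' : ∀ i, α i → γ)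
    {i : ι} (hi : i ∈ I) (x : α i) : GI I e e' (e i x) (e' i x) := ⟨i, hi, x, rfl, rfl⟩

/-- any two admissible cocones embed jointly -/
def HU (D : Dg C ι) (I : Set ι) (pc : Pc D Pt) : Prop :=
  ∀ (Z : C.Obj) (e : ∀ i, C.U (D.X i) → C.U Z) (p : Pt → C.U Z) (Z' : C.Obj)
    (e' : ∀ i, C.U (D.X i) → C.U Z') (p' : Pt → C.U Z'),
    Adm D I pc Z e p → Adm D I pc Z' e' p' → C.El Z Z' (GI I e e')

/-- a finite diagram of morphisms between objects of size `≤ μ` -/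
structure Dg.Ok (D : Dg C ι) (I : Set ι) (μ : Cardinal.{0}) : Prop where
  fin : I.Finite
  card : ∀ i ∈ I, #(C.U (D.X i)) ≤ μ
  hom : ∀ i ∈ I, ∀ i' ∈ I, D.Ar i i' → C.IsH (D.ar i i')

structure Pc.Ok {D : Dg C ι} (pc : Pc D Pt) (I : Set ι) : Prop where
  fin : pc.Act.Finite
  fc : ∀ j ∈ pc.Act, pc.fc j ∈ I

/-- stage `δ` of the diagram maps naturally into `F` of stage `γ` over stage `γ` -/
structure IsSR (κ : Cardinal.{0}) (D : Dg C ι) (I : Set ι) (γ δ : J κ) (F : Fn C.toPC)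
    (ρ : ∀ i, C.U (C.st κ (D.X i) δ) → C.U (F.ap (C.st κ (D.X i) γ))) : Prop where
  bd : F.Bd κ
  hom : ∀ i ∈ I, C.IsH (ρ i)
  eta : ∀ i ∈ I, ∀ x, ρ i (tr (D.X i) γ δ x) = F.eta _ x
  nat : ∀ i ∈ I, ∀ i' ∈ I, D.Ar i i' → ∀ u,
    ρ i' (stm (D.ar i i') δ δ u) = F.mp (stm (D.ar i i') γ γ) (ρ i u)

/-- such maps exist between all stages in a club -/
def SRc (κ : Cardinal.{0}) (D : Dg C ι) (I : Set ι) : Prop :=
  ∃ D0 : Set (J κ), IsClub D0 ∧ ∀ γ ∈ D0, ∀ δ ∈ D0, γ ≤ δ → ∃ F ρ, IsSR κ D I γ δ F ρ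

theorem IsSR.mono {κ : Cardinal.{0}} {D : Dg C ι} {I I' : Set ι} {γ δ : J κ} {F : Fn C.toPC}
    {ρ : ∀ i, C.U (C.st κ (D.X i) δ) → C.U (F.ap (C.st κ (D.X i) γ))}
    (h : IsSR κ D I γ δ F ρ) (hI : I' ⊆ I) : IsSR κ D I' γ δ F ρ :=
  ⟨h.bd, fun i hi => h.hom i (hI hi), fun i hi => h.eta i (hI hi),
    fun i hi i' hi' => h.nat i (hI hi) i' (hI hi')⟩

theorem SRc.mono {κ : Cardinal.{0}} {D : Dg C ι} {I I' : Set ι} (h : SRc κ D I) (hI : I' ⊆ I) :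
    SRc κ D I' := by
  obtain ⟨D0, h1, h2⟩ := h
  refine ⟨D0, h1, fun γ hγ δ hδ h => ?_⟩
  obtain ⟨F, ρ, h3⟩ := h2 γ hγ δ hδ h
  exact ⟨F, ρ, h3.mono hI⟩

/-- an admissible amalgam of the top `(Q, eQ, pQ)` over stage `γ` with stage `δ` -/
structure CA (κ : Cardinal.{0}) (D : Dg C ι) (I : Set ι) (pc : Pc D Pt) (γ δ : J κ) (Q : C.Obj)
    (eQ : ∀ i, C.U (C.st κ (D.X i) γ) → C.U Q) (pQ : Pt → C.U Q) (Z : C.Obj)
    (h : C.U Q → C.U Z) (e : ∀ i, C.U (C.st κ (D.X i) δ) → C.U Z) : Prop where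
  hom : C.IsH h
  adm : Adm (D.stage κ δ) I (pc.stage κ δ) Z e (fun j => h (pQ j))
  ov : ∀ i ∈ I, ∀ x, e i (tr (D.X i) γ δ x) = h (eQ i x)

/-- chain uniqueness of the top `(Q, eQ, pQ)` over stage `γ`, along the stages in `D0` -/
def CU (κ : Cardinal.{0}) (D : Dg C ι) (I : Set ι) (pc : Pc D Pt) (D0 : Set (J κ)) (γ : J κ)
    (Q : C.Obj) (eQ : ∀ i, C.U (C.st κ (D.X i) γ) → C.U Q) (pQ : Pt → C.U Q) : Prop :=
  ∀ δ ∈ D0, γ ≤ δ → ∀ (Z : C.Obj) (h : C.U Q → C.U Z) (e : ∀ i, C.U (C.st κ (D.X i) δ) → C.U Z)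
    (Z' : C.Obj) (h' : C.U Q → C.U Z') (e' : ∀ i, C.U (C.st κ (D.X i) δ) → C.U Z'),
    CA κ D I pc γ δ Q eQ pQ Z h e → CA κ D I pc γ δ Q eQ pQ Z' h' e' →
    C.El Z Z' (fun a b => G h h' a b ∨ GI I e e' a b)

/-- the stage `γ` is closed under the arrows and contains the marked elements -/
structure DCl (κ : Cardinal.{0}) (D : Dg C ι) (I : Set ι) (pc : Pc D Pt) (γ : J κ) : Prop where
  into : ∀ i ∈ I, ∀ i' ∈ I, D.Ar i i' → Into (D.ar i i') γ γ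
  idx : ∀ j ∈ pc.Act, ∀ i ∈ I, pc.idx i j ∈ C.filt κ (D.X i) γ
  β : ∀ j ∈ pc.Act, pc.β j ∈ C.filt κ (D.X (pc.fc j)) γ

variable {κ : Cardinal.{0}} {D : Dg C ι} {I : Set ι} {pc : Pc D Pt}

theorem ev_into_all (hκ : C.Lv κ) (hD : D.Ok I (succ κ)) :
    ∀ᶠ γ in cf κ, ∀ i ∈ I, ∀ i' ∈ I, Into (D.ar i i') γ γ :=
  (eventually_all_finite hD.fin).2 fun i hi => (eventually_all_finite hD.fin).2 fun i' hi' =>
    CC.ev_into (C.lv_ge hκ) (hD.card i hi) (hD.card i' hi') _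

theorem ev_dcl (hκ : C.Lv κ) (hD : D.Ok I (succ κ)) (hP : pc.Ok I) :
    ∀ᶠ γ in cf κ, DCl κ D I pc γ := by
  filter_upwards [ev_into_all hκ hD,
    (eventually_all_finite hP.fin).2 fun j _ => (eventually_all_finite hD.fin).2 fun i hi =>
      CC.ev_mem (C.lv_ge hκ) (hD.card i hi) (pc.idx i j),
    (eventually_all_finite hP.fin).2 fun j hj =>
      CC.ev_mem (C.lv_ge hκ) (hD.card _ (hP.fc j hj)) (pc.β j)] with γ h1 h2 h3
  exact ⟨fun i hi i' hi' _ => h1 i hi i' hi', h2, h3⟩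

theorem Pc.Ok.stage (hP : pc.Ok I) (κ : Cardinal.{0}) (γ : J κ) : (pc.stage κ γ).Ok I :=
  ⟨hP.fin, hP.fc⟩

theorem srC_empty (D : Dg C ι) : SRc κ D ∅ :=
  ⟨univ, IsClub.univ, fun _ _ _ _ _ => ⟨Fn.idF _, fun _ _ => Classical.choice (C.ne _),
    Fn.bd_id κ, fun _ h => h.elim, fun _ h => h.elim, fun _ h => h.elim⟩⟩

namespace Adm

variable {Z Z' : C.Obj} {e : ∀ i, C.U (D.X i) → C.U Z} {p : Pt → C.U Z}
  {e' : ∀ i, C.U (D.X i) → C.U Z'} {p' : Pt → C.U Z'}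

theorem post (h : Adm D I pc Z e p) (hP : pc.Ok I) {f : C.U Z → C.U Z'} (hf : C.IsH f)
    (he : ∀ i ∈ I, ∀ x, f (e i x) = e' i x) (hp : ∀ j ∈ pc.Act, f (p j) = p' j) :
    Adm D I pc Z' e' p' where
  hom i hi := comp' (h.hom i hi) hf (he i hi)
  nat i hi i' hi' a x := by rw [← he i hi, ← he i' hi', h.nat i hi i' hi' a]
  idp j hj i hi a := by rw [← he i hi, h.idp j hj i hi a, hp j hj]
  right j hj := (h.right j hj).post hf (he _ (hP.fc j hj)) (hp j hj)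

theorem pre (h : Adm D I pc Z e p) (hP : pc.Ok I) {f : C.U Z' → C.U Z} (hf : C.IsH f)
    (he : ∀ i ∈ I, ∀ x, f (e' i x) = e i x) (hp : ∀ j ∈ pc.Act, f (p' j) = p j) :
    Adm D I pc Z' e' p' where
  hom i hi := coh' hf (h.hom i hi) (he i hi)
  nat i hi i' hi' a x := C.inj hf (by rw [he i hi, he i' hi', h.nat i hi i' hi' a])
  idp j hj i hi a := C.inj hf (by rw [he i hi, h.idp j hj i hi a, hp j hj])
  right j hj := (h.right j hj).pre hf (he _ (hP.fc j hj)) (hp j hj)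

/-- a top over a small diagram contains a small top containing a given small set -/
theorem cut (h : Adm D I pc Z e p) (hκ : C.k0 ≤ κ) (hI : I.Finite) (hP : pc.Ok I)
    (hX : ∀ i ∈ I, #(C.U (D.X i)) ≤ κ) {T : Set (C.U Z)} (hT : #T ≤ κ) :
    ∃ (Q : C.Obj) (k : C.U Q → C.U Z) (e' : ∀ i, C.U (D.X i) → C.U Q) (p' : Pt → C.U Q),
      C.IsH k ∧ #(C.U Q) ≤ κ ∧ T ⊆ range k ∧ Adm D I pc Q e' p' ∧
      (∀ i ∈ I, ∀ x, k (e' i x) = e i x) ∧ ∀ j ∈ pc.Act, k (p' j) = p j := by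
  have hi := C.inf.trans hκ
  have h1 : #(⋃ i : I, range (e i) : Set (C.U Z)) ≤ κ := (mk_iUnion_le _).trans
    (mul_le_of_le hi (hI.lt_aleph0.le.trans hi) (ciSup_le' fun i => mk_range_le.trans (hX i i.2)))
  have h2 : #(p '' pc.Act) ≤ κ := (hP.fin.image p).lt_aleph0.le.trans hi
  obtain ⟨Q, k, k1, k2, k3⟩ := ls' hκ Z (S := T ∪ ((⋃ i : I, range (e i)) ∪ p '' pc.Act))
    ((mk_union_le _ _).trans (add_le_of_le hi hT ((mk_union_le _ _).trans (add_le_of_le hi h1 h2))))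
  have e1 : ∀ i ∈ I, ∀ x, k (invFun k (e i x)) = e i x := fun i hi x =>
    invFun_eq (k2 (Or.inr (Or.inl (mem_iUnion.2 ⟨⟨i, hi⟩, x, rfl⟩))))
  have e2 : ∀ j ∈ pc.Act, k (invFun k (p j)) = p j := fun j hj =>
    invFun_eq (k2 (Or.inr (Or.inr ⟨j, hj, rfl⟩)))
  exact ⟨Q, k, _, _, k1, k3, subset_union_left.trans k2, h.pre hP k1 e1 e2, e1, e2⟩

/-- restriction to a closed stage -/
theorem restrict (h : Adm D I pc Z e p) {γ : J κ} (hc : DCl κ D I pc γ) :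
    Adm (D.stage κ γ) I (pc.stage κ γ) Z (fun i x => e i (val x)) p where
  hom i hi := C.comp val_h (h.hom i hi)
  nat i hi i' hi' a x := by
    change e i' (val (stm (D.ar i i') γ γ x)) = _
    rw [(hc.into i hi i' hi' a).val, h.nat i hi i' hi' a]
  idp j hj i hi a := by
    change e i (val (pt γ (pc.idx i j))) = _
    rw [val_pt (hc.idx j hj i hi), h.idp j hj i hi a]
  right j hj := (h.right j hj).mono val_h (val_pt (hc.β j hj)) fun _ => rfl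

/-- a top of size `≤ κ⁺` restricts to a club of its stages -/
theorem ev_stage (h : Adm D I pc Z e p) (hκ : C.Lv κ) (hD : D.Ok I (succ κ)) (hP : pc.Ok I)
    (hZ : #(C.U Z) ≤ succ κ) : ∀ᶠ γ in cf κ, (∀ i ∈ I, Into (e i) γ γ) ∧
      (∀ j ∈ pc.Act, p j ∈ C.filt κ Z γ) ∧
      Adm (D.stage κ γ) I (pc.stage κ γ) (C.st κ Z γ) (fun i => stm (e i) γ γ)
        (fun j => pt γ (p j)) := by
  filter_upwards [ev_dcl hκ hD hP,
    (eventually_all_finite hD.fin).2 fun i hi =>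
      CC.ev_into (C.lv_ge hκ) (hD.card i hi) hZ (e i),
    (eventually_all_finite hP.fin).2 fun j _ => CC.ev_mem (C.lv_ge hκ) hZ (p j)] with γ h1 h2 h3
  exact ⟨h2, h3, (h.restrict h1).pre (pc := pc.stage κ γ) ⟨hP.fin, hP.fc⟩ val_h
    (fun i hi x => (h2 i hi).val x) fun j hj => val_pt (h3 j hj)⟩

end Adm

/-- the canonical amalgam -/
theorem IsSR.ca (hκ : C.Lv κ) (hD : D.Ok I (succ κ)) (hP : pc.Ok I) {γ δ : J κ}
    (hγ : DCl κ D I pc γ) {F : Fn C.toPC}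
    {ρ : ∀ i, C.U (C.st κ (D.X i) δ) → C.U (F.ap (C.st κ (D.X i) γ))} (h : IsSR κ D I γ δ F ρ)
    {Q : C.Obj} {e : ∀ i, C.U (C.st κ (D.X i) γ) → C.U Q} {p : Pt → C.U Q}
    (hQ : Adm (D.stage κ γ) I (pc.stage κ γ) Q e p) :
    CA κ D I pc γ δ Q e p (F.ap Q) (F.eta Q) (fun i x => F.mp (e i) (ρ i x)) := by
  have hk := C.lv_ge hκ
  have htr : ∀ i ∈ I, ∀ a ∈ C.filt κ (D.X i) γ, tr (D.X i) γ δ (pt γ a) = pt δ a :=
    fun i _ a ha => Into.stm_pt ha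
  have hov : ∀ i ∈ I, ∀ x, F.mp (e i) (ρ i (tr (D.X i) γ δ x)) = F.eta Q (e i x) :=
    fun i hi x => by rw [h.eta i hi, F.eta_nat (hQ.hom i hi)]
  refine ⟨F.eta_h Q, ⟨fun i hi => C.comp (h.hom i hi) (F.mp_h (hQ.hom i hi)),
    fun i hi i' hi' a x => ?_, fun j hj i hi a => ?_, fun j hj => ?_⟩, hov⟩
  · change F.mp (e i') (ρ i' (stm (D.ar i i') δ δ x)) = _
    rw [h.nat i hi i' hi' a]
    exact F.mp_eq ((hγ.into i hi i' hi' a).isH (hD.hom i hi i' hi' a)) (hQ.hom i' hi')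
      (hQ.nat i hi i' hi' a) _
  · change F.mp (e i) (ρ i (pt δ (pc.idx i j))) = _
    rw [← htr i hi _ (hγ.idx j hj i hi), hov i hi]
    exact congrArg _ (hQ.idp j hj i hi a)
  · have hi := hP.fc j hj
    refine ((hQ.right j hj).fn hκ (hQ.hom _ hi) (CC.card_st hk (hD.card _ hi) γ) h.bd).mono
      (h.hom _ hi) ?_ fun _ => rfl
    change ρ _ (pt δ (pc.β j)) = F.eta _ (pt γ (pc.β j))
    rw [← htr _ hi _ (hγ.β j hj), h.eta _ hi]

end Pool.Agent.P.MP_860a31_lc.E
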