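import Pool.Agent.P.MP_860a31_lc.E.Stm

/-!
A cocone with a point of the right type extends to the faces containing a new letter.
-/

open Cardinal hiding univ
open Set Order Filter Function

namespace Pool.Agent.P.MP_860a31_lc.E

open PC Sys

namespace ExtMapP

variable {C : AX} {S : Shape C}

/-- the new faces -/
def Nw (S : Shape C) (L : Set S.L) (l : S.L) (v : Finset S.L) : Prop :=
  S.Face v ∧ l ∈ v ∧ ↑v ⊆ insert l L

/-- the relation of a new face with the old top -/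
def Rb (A : Sys S) (L : Set S.L) (l : S.L) {Z : C.Obj} (e : ∀ y, C.U (A.N y) → C.U Z)
    (c : C.U Z) (v : {v // Nw S L l v}) (y : C.U (A.N v.1)) (x : C.U Z) : Prop :=
  (∃ w ∈ S.On L, w ⊆ v.1 ∧ ∃ a, A.i w v.1 a = y ∧ e w a = x) ∨ (A.c l v.1 = y ∧ c = x)

/-- the relation between two new faces -/
def Rl (A : Sys S) (L : Set S.L) (l : S.L) (v v' : {v // Nw S L l v}) (y : C.U (A.N v.1))
    (y' : C.U (A.N v'.1)) : Prop :=
  v'.1 ⊆ v.1 ∧ A.i v'.1 v.1 y' = y

open Classical in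
/-- the family of maps on all faces -/
noncomputable def ext (A : Sys S) (L : Set S.L) (l : S.L) {Z Z' : C.Obj}
    (e : ∀ y, C.U (A.N y) → C.U Z) (b : C.U Z → C.U Z')
    (h : ∀ v : {v // Nw S L l v}, C.U (A.N v.1) → C.U Z') (w : Finset S.L)
    (x : C.U (A.N w)) : C.U Z' :=
  if hw : Nw S L l w then h ⟨w, hw⟩ x else b (e w x)

variable {A : Sys S} {L : Set S.L} {l : S.L} {Z Z' : C.Obj} {e : ∀ y, C.U (A.N y) → C.U Z}
  {c : C.U Z} {b : C.U Z → C.U Z'} {h : ∀ v : {v // Nw S L l v}, C.U (A.N v.1) → C.U Z'}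

theorem ext_new {w : Finset S.L} (hw : Nw S L l w) (x : C.U (A.N w)) :
    ext A L l e b h w x = h ⟨w, hw⟩ x := dif_pos hw

theorem ext_old {w : Finset S.L} (hw : l ∉ w) (x : C.U (A.N w)) :
    ext A L l e b h w x = b (e w x) := dif_neg fun h => hw h.2.1

theorem on_old {w : Finset S.L} (hw : w ∈ S.On (insert l L)) (hl : l ∉ w) : w ∈ S.On L :=
  ⟨hw.1, fun _ hi => (mem_insert_iff.1 (hw.2 hi)).resolve_left fun e => hl (e ▸ hi)⟩

theorem on_univ {M : Set S.L} : S.On M ⊆ S.On univ := fun _ hy => ⟨hy.1, subset_univ _⟩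

theorem dn_univ : S.Dn (S.On univ) := fun _ hy => ⟨hy.1, fun _ hz _ => ⟨hz, subset_univ _⟩⟩

/-- the property produced by the amalgamation at one new face -/
def Ok (A : Sys S) (L : Set S.L) (l : S.L) {Z Z' : C.Obj} (e : ∀ y, C.U (A.N y) → C.U Z)
    (c : C.U Z) (b : C.U Z → C.U Z') (h : ∀ v : {v // Nw S L l v}, C.U (A.N v.1) → C.U Z')
    (v : {v // Nw S L l v}) : Prop :=
  C.IsH (h v) ∧ (∀ y x, Rb A L l e c v y x → h v y = b x) ∧
    ∀ v' y y', v'.1.card < v.1.card → Rl A L l v v' y y' → h v y = h v' y'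

theorem cone_ext {𝒟 : Set (Finset S.L)} (hV : A.Valid (S.On univ) univ)
    (he : A.Cone (S.On L) Z e) (hb : C.IsH b) (hD : 𝒟 ⊆ S.On (insert l L))
    (hok : ∀ v : {v // Nw S L l v}, v.1 ∈ 𝒟 → Ok A L l e c b h v) :
    A.Cone 𝒟 Z' (ext A L l e b h) := by
  refine ⟨fun y hy => ?_, fun y hy z hz hyz x => ?_⟩
  · by_cases hl : l ∈ y
    · have hn : Nw S L l y := ⟨(hD hy).1, hl, (hD hy).2⟩
      exact PC.congr (hok ⟨y, hn⟩ hy).1 fun x => (ext_new hn x).symm
    · exact comp' (he.hom y (on_old (hD hy) hl)) hb fun x => (ext_old hl x).symm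
  · by_cases hl : l ∈ y
    · have hn : Nw S L l y := ⟨(hD hy).1, hl, (hD hy).2⟩
      have hn' : Nw S L l z := ⟨(hD hz).1, hyz hl, (hD hz).2⟩
      rcases hyz.eq_or_ssubset with rfl | hlt
      · rw [hV.id y (on_univ (hD hy))]
      · rw [ext_new hn, ext_new hn']
        exact (hok ⟨z, hn'⟩ hz).2.2 ⟨y, hn⟩ _ _ (Finset.card_lt_card hlt) ⟨hyz, rfl⟩
    · rw [ext_old hl]
      by_cases hl' : l ∈ z
      · have hn' : Nw S L l z := ⟨(hD hz).1, hl', (hD hz).2⟩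
        rw [ext_new hn']
        exact (hok ⟨z, hn'⟩ hz).2.1 _ _ (Or.inl ⟨y, on_old (hD hy) hl, hyz, x, rfl, rfl⟩)
      · rw [ext_old hl', he.nat y (on_old (hD hy) hl) z (on_old (hD hz) hl') hyz]

theorem ext_c {w : Finset S.L} (hw : Nw S L l w) (hok : Ok A L l e c b h ⟨w, hw⟩) :
    ext A L l e b h w (A.c l w) = b c := by
  rw [ext_new hw]
  exact hok.2.1 _ _ (Or.inr ⟨rfl, rfl⟩)

end ExtMapP

open ExtMapP in
theorem extMap (h : S_SeqAmalg) : S_ExtMap := by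
  intro C S μ hUL A hA L l hL hl hpl Z e c he hR
  have nl : ∀ w ∈ S.On L, l ∉ w := fun w hw hlw => hl (hw.2 hlw)
  obtain ⟨Z', b, k, hb, hok⟩ := h C.toAC Z {v // Nw S L l v} (fun v => v.1.card)
    (fun v => A.N v.1) (Rb A L l e c) (Rl A L l) (by
      rintro ⟨v, hv⟩ Z' b k hb hok
      have hmx : S.Mx v l := ⟨hv.2.1, fun l' hl' hp => by
        rcases mem_insert_iff.1 (hv.2.2 hl') with rfl | h'
        · exact S.irr _ hp
        · exact hl (hL l' h' hp)⟩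
      have hD : S.Bd v ⊆ S.On (insert l L) := fun z hz =>
        ⟨hz.1, (Finset.coe_subset.2 hz.2.1).trans hv.2.2⟩
      have hok' : ∀ z : {v // Nw S L l v}, z.1 ∈ S.Bd v → Ok A L l e c b k z := fun z hz =>
        hok z (Finset.card_lt_card hz.2)
      have hT := hA.valid.admT dn_univ (v := v) ⟨hv.1, subset_univ _⟩ (subset_univ _)
      have hw := hv.1.erase_mem_bd hmx
      have hlw : l ∉ v.erase l := Finset.notMem_erase _ _
      have hP : A.Pnt (S.Bd v) v l (ext A L l e b k) (b c) :=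
        ⟨fun z hz hlz => ext_c ⟨hz.1, hlz, (hD hz).2⟩ (hok' _ hz),
          (hR _ (on_old (hD hw) hlw) (hv.1.par_sub_erase hv.2.1)).post hb
            (fun x => (ext_old hlw x).symm) rfl⟩
      refine (hUL v hv.1 A (hA.mono (fun z hz => ⟨hz.1, subset_univ _⟩) (subset_univ _)) l hmx
        _ _ _ _ _ _ hT.cone (hT.pnt l hmx) (cone_ext hA.valid he hb hD hok') hP).mono ?_
      rintro _ _ (⟨_, (⟨w, hw, hwv, a, rfl, rfl⟩ | ⟨rfl, rfl⟩), rfl⟩ |
        ⟨⟨w, hw⟩, a, hc, ⟨hwv, rfl⟩, rfl⟩)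
      · exact Or.inl ⟨w, ⟨hw.1, hwv, fun h' => nl w hw (h' hv.2.1)⟩, a, rfl,
          ext_old (nl w hw) a⟩
      · exact Or.inr ⟨rfl, rfl⟩
      · exact Or.inl ⟨w, ⟨hw.1, hwv, fun h' => hc.not_ge (Finset.card_le_card h')⟩, a, rfl,
          ext_new hw a⟩)
  refine ⟨Z', b, ext A L l e b k, hb, cone_ext hA.valid he hb subset_rfl fun v _ => hok v,
    fun w hw x => ext_old (nl w hw) x, ext_c ⟨Shape.face_sup _, Finset.mem_insert_self _ _,
      fun i hi => ?_⟩ (hok _)⟩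
  exact (Finset.mem_insert.1 hi).imp id fun h3 => hpl h3

end Pool.Agent.P.MP_860a31_lc.E
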