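import Pool.Agent.P.MP_860a31_lc.E.KStm

/-!
The category of families with an atom, and substitution functors.
-/

open Cardinal hiding univ
open Set Order Function

namespace Pool.Agent.P.MP_860a31_lc.E

namespace Fam

section PCpart

variable {C : PC} {P Q R : Fam C} {f : P.El → Q.El} {g : Q.El → R.El}

theorem mk_inj {n : ℕ} {x y : C.U (P.ob n)} (h : (⟨n, x⟩ : P.El) = ⟨n, y⟩) : x = y :=
  sigma_mk_injective (β := fun n => C.U (P.ob n)) h

theorem IsH.fst (hf : IsH f) (p : P.El) : (f p).1 = p.1 := by rw [hf.2]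

/-- elements mapped to level `n` lie at level `n` -/
theorem IsH.back (hf : IsH f) {p : P.El} {n : ℕ} {y : C.U (Q.ob n)} (h : f p = ⟨n, y⟩) :
    ∃ x, p = ⟨n, x⟩ ∧ cp f n x = y := by
  obtain ⟨m, x⟩ := p
  obtain rfl : m = n := (hf.fst _).symm.trans (congrArg Sigma.fst h)
  exact ⟨x, rfl, cp_eq h⟩

theorem IsH.inj (hf : IsH f) : Injective f := by
  rintro p ⟨n, y⟩ h
  rw [hf.2 n y] at h
  obtain ⟨x, rfl, e⟩ := hf.back h
  rw [C.inj (hf.1.hom n) e]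

theorem isH_id (P : Fam C) : IsH (fun x : P.El => x) :=
  isH_of (φ := fun _ x => x) ⟨fun _ => C.idH _, fun _ _ => rfl⟩ fun _ _ => rfl

theorem IsH.comp (hf : IsH f) (hg : IsH g) : IsH (fun x => g (f x)) :=
  isH_of (φ := fun n x => cp g n (cp f n x)) ⟨fun n => C.comp (hf.1.hom n) (hg.1.hom n),
    fun a x => by rw [hf.1.nat, hg.1.nat]⟩ fun n x => by rw [hf.2, hg.2]

theorem IsH.cp_cp (hf : IsH f) (hg : IsH g) {k : P.El → R.El} (e : ∀ p, g (f p) = k p) (n : ℕ)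
    (x : C.U (P.ob n)) : cp g n (cp f n x) = cp k n x :=
  (cp_eq (by rw [← e, hf.2, hg.2])).symm

theorem IsH.coh (hg : IsH g) (h : IsH (fun x => g (f x))) : IsH f := by
  have e : ∀ n x, ∃ y, f ⟨n, x⟩ = ⟨n, y⟩ ∧ cp g n y = cp (fun x => g (f x)) n x :=
    fun n x => hg.back (h.2 n x)
  choose φ h1 h2 using e
  exact isH_of ⟨fun n => PC.coh' (hg.1.hom n) (h.1.hom n) (h2 n), fun a x =>
    C.inj (hg.1.hom _) (by rw [h2, hg.1.nat, h2, h.1.nat])⟩ h1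

theorem Nt.atom_back {φ : ∀ n, C.U (P.ob n) → C.U (Q.ob n)} (h : Nt P Q φ)
    {x : C.U (P.ob 1)} (hx : Q.Atom (φ 1 x)) : P.Atom x := fun k a b e =>
  hx k a b (by rw [← h.nat, ← h.nat, e])

theorem aleph0_le_el (P : Fam C) : ℵ₀ ≤ #P.El :=
  mk_nat ▸ mk_le_of_surjective (f := fun p : P.El => p.1) fun n => ⟨⟨n, Classical.choice (C.ne _)⟩, rfl⟩

end PCpart

variable {C : CC}

theorem ls_fam (P : Fam C.toPC) (S : Set P.El) : ∃ (Q : Fam C.toPC) (f : Q.El → P.El),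
    IsH f ∧ S ⊆ range f ∧ #Q.El ≤ #S + C.k0 := by
  have hθ : ℵ₀ ≤ #S + C.k0 := C.inf.trans (self_le_add_left _ _)
  have hk : C.k0 ≤ #S + C.k0 := self_le_add_left _ _
  choose B0 f0 h1 h2 h3 using C.ls
  let T : ℕ → ∀ n, Set (C.U (P.ob n)) := fun k => Nat.rec
    (fun n => range (f0 _ {x | (⟨n, x⟩ : P.El) ∈ S}))
    (fun _ T n => range (f0 _ (⋃ a : Σ m, Fin m ↪o Fin n, P.mp a.2 '' T a.1))) k
  have hs : ∀ k m n (a : Fin m ↪o Fin n) x, x ∈ T k m → P.mp a x ∈ T (k + 1) n :=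
    fun k m n a x hx => h2 _ _ (mem_iUnion.2 ⟨⟨m, a⟩, x, hx, rfl⟩)
  have hm : ∀ n, Monotone fun k => T k n := fun n => monotone_nat_of_le_succ fun k x hx =>
    P.mp_id n x ▸ hs k n n _ x hx
  have hc : ∀ k n, #↥(T k n) ≤ #S + C.k0 := by
    intro k
    induction k with
    | zero =>
      intro n
      refine mk_range_le.trans ((h3 _ _).trans (add_le_add ?_ le_rfl))
      exact mk_le_of_injective (f := fun x => (⟨⟨n, x.1⟩, x.2⟩ : S))
        fun x y h => Subtype.ext (mk_inj (congrArg Subtype.val h))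
    | succ k ih =>
      intro n
      refine mk_range_le.trans ((h3 _ _).trans (add_le_of_le hθ ((mk_iUnion_le _).trans
        (mul_le_of_le hθ ((card_emb _).trans (add_le_of_le hθ (mk_le_aleph0.trans hθ) hθ))
          (ciSup_le' fun a => mk_image_le.trans (ih _)))) hk))
  have hsub : ∀ n, C.IsSub (P.ob n) (⋃ k, T k n) := fun n => CC.isSub_iUnion _
    (fun k => by cases k <;> exact PC.isSub_range (h1 _ _))
    fun i j => ⟨max i j, hm n (le_max_left _ _), hm n (le_max_right _ _)⟩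
  choose B f hf hr using hsub
  have hfac : ∀ m n (a : Fin m ↪o Fin n), ∃ k : C.U (B m) → C.U (B n), C.IsH k ∧
      ∀ x, f n (k x) = P.mp a (f m x) := fun m n a =>
    PC.factor (C.comp (hf m) (P.hom a)) (hf n) (by
      rintro _ ⟨x, rfl⟩
      obtain ⟨k, hk⟩ := mem_iUnion.1 (hr m ▸ mem_range_self x : f m x ∈ ⋃ k, T k m)
      exact hr n ▸ mem_iUnion.2 ⟨k + 1, hs k m n a _ hk⟩)
  choose t ht hft using hfac
  let Q : Fam C.toPC := ⟨B, fun a => t _ _ a, fun a => ht _ _ a,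
    fun n x => C.inj (hf n) (by rw [hft, P.mp_id]),
    fun a b x => C.inj (hf _) (by rw [hft, hft, hft, P.mp_comp])⟩
  refine ⟨Q, tot f, isH_tot ⟨hf, fun a x => hft _ _ a x⟩, ?_, Q.card_el_le hθ fun n => ?_⟩
  · rintro ⟨n, x⟩ hx
    obtain ⟨y, rfl⟩ : x ∈ range (f n) := hr n ▸ mem_iUnion.2 ⟨0, h2 _ _ hx⟩
    exact ⟨⟨n, y⟩, rfl⟩
  · change #(C.U (B n)) ≤ _
    rw [← mk_range_eq _ (C.inj (hf n)), hr]
    exact (mk_iUnion_le _).trans (mul_le_of_le hθ (mk_le_aleph0.trans hθ) (ciSup_le' fun k => hc k n))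

theorem colim_fam (ι : Type) [Preorder ι] [IsDirected ι (· ≤ ·)] [Nonempty ι] (A : ι → Fam C.toPC)
    (f : ∀ i j, i ≤ j → (A i).El → (A j).El) (hf : ∀ i j h, IsH (f i j h))
    (h1 : ∀ i x, f i i le_rfl x = x)
    (h2 : ∀ i j k (hij : i ≤ j) (hjk : j ≤ k) x,
      f j k hjk (f i j hij x) = f i k (hij.trans hjk) x) :
    ∃ (B : Fam C.toPC) (u : ∀ i, (A i).El → B.El), (∀ i, IsH (u i)) ∧
      (∀ i j h x, u j (f i j h x) = u i x) ∧ ∀ y, ∃ i x, u i x = y := by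
  choose B u k1 k2 k3 using fun n => C.colim ι (fun i => (A i).ob n)
    (fun i j h => cp (f i j h) n) (fun i j h => (hf i j h).1.hom n)
    (fun i x => cp_eq (h1 i _)) fun i j k hij hjk => (hf i j hij).cp_cp (hf j k hjk) (h2 i j k _ _) n
  have hl : ∀ m n (a : Fin m ↪o Fin n), ∃ k : C.U (B m) → C.U (B n), C.IsH k ∧
      ∀ i x, k (u m i x) = u n i ((A i).mp a x) := fun m n a =>
    CC.lift (fun i => (A i).ob m) (u m) (fun i x => u n i ((A i).mp a x)) (k1 m)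
      (fun i => C.comp ((A i).hom a) (k1 n i)) (fun i j => by
        obtain ⟨k, hi, hj⟩ := exists_ge_ge i j
        exact ⟨k, by rintro _ ⟨x, rfl⟩; exact ⟨_, k2 m i k hi x⟩,
          by rintro _ ⟨x, rfl⟩; exact ⟨_, k2 m j k hj x⟩⟩) (k3 m) fun i j x y h => by
        obtain ⟨k, hi, hj⟩ := exists_ge_ge i j
        rw [← k2 m i k hi, ← k2 m j k hj] at h
        rw [← k2 n i k hi, ← k2 n j k hj, (hf i k hi).1.nat, (hf j k hj).1.nat, C.inj (k1 m k) h]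
  choose t ht hut using hl
  let Q : Fam C.toPC := ⟨B, fun a => t _ _ a, fun a => ht _ _ a,
    fun n y => by obtain ⟨i, x, rfl⟩ := k3 n y; rw [hut, (A i).mp_id],
    fun a b y => by obtain ⟨i, x, rfl⟩ := k3 _ y; rw [hut, hut, hut, (A i).mp_comp]⟩
  refine ⟨Q, fun i => tot fun n => u n i, fun i => isH_tot ⟨fun n => k1 n i,
    fun a x => (hut _ _ a i x).symm⟩, ?_, ?_⟩
  · rintro i j h ⟨n, x⟩
    rw [(hf i j h).2]
    exact congrArg (Sigma.mk n) (k2 n i j h x)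
  · rintro ⟨n, y⟩
    obtain ⟨i, x, rfl⟩ := k3 n y
    exact ⟨i, ⟨n, x⟩, rfl⟩

theorem smooth_fam {ι : Type} (A : ι → Fam C.toPC) {B D : Fam C.toPC} (u : ∀ i, (A i).El → B.El)
    (g : B.El → D.El) (hu : ∀ i, IsH (u i))
    (hd : ∀ i j, ∃ k, range (u i) ⊆ range (u k) ∧ range (u j) ⊆ range (u k))
    (hs : ∀ y, ∃ i x, u i x = y) (hg : ∀ i, IsH (fun x => g (u i x))) : IsH g := by
  have hs' : ∀ n y, ∃ i x, cp (u i) n x = y := fun n y => by
    obtain ⟨i, p, h⟩ := hs ⟨n, y⟩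
    obtain ⟨x, -, e⟩ := (hu i).back h
    exact ⟨i, x, e⟩
  have e : ∀ i n x, g ⟨n, cp (u i) n x⟩ = ⟨n, cp (fun x => g (u i x)) n x⟩ := fun i n x => by
    rw [← (hu i).2]; exact (hg i).2 n x
  have hr : ∀ n i k, range (u i) ⊆ range (u k) → range (cp (u i) n) ⊆ range (cp (u k) n) := by
    rintro n i k h _ ⟨x, rfl⟩
    obtain ⟨p, hp⟩ := h ⟨⟨n, x⟩, rfl⟩
    obtain ⟨y, -, e⟩ := (hu k).back (hp.trans ((hu i).2 n x))
    exact ⟨y, e⟩
  refine ⟨⟨fun n => C.smooth (fun i => (A i).ob n) (fun i => cp (u i) n) _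
    (fun i => (hu i).1.hom n) (fun i j => ?_) (hs' n)
    fun i => PC.congr ((hg i).1.hom n) fun x => (cp_eq (e i n x)).symm, fun a y => ?_⟩,
    fun n y => ?_⟩
  · obtain ⟨k, h1, h2⟩ := hd i j
    exact ⟨k, hr n i k h1, hr n j k h2⟩
  · obtain ⟨i, x, rfl⟩ := hs' _ y
    rw [← (hu i).1.nat, cp_eq (e i _ _), cp_eq (e i _ _), (hg i).1.nat]
  · obtain ⟨i, x, rfl⟩ := hs' n y
    rw [cp_eq (e i n x), e]

end Fam

/-- families with an atom -/
@[reducible] def FC (C : CC) : CC where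
  Obj := {P : Fam C.toPC // ∃ x, P.Atom x}
  U P := P.1.El
  IsH f := Fam.IsH f
  k0 := C.k0
  inf := C.inf
  ne P := ⟨⟨0, Classical.choice (C.ne _)⟩⟩
  inj h := h.inj
  idH P := Fam.isH_id P.1
  comp hf hg := hf.comp hg
  coh _ _ hg h := hg.coh h
  ls P S := by
    obtain ⟨x, hx⟩ := P.2
    obtain ⟨Q, f, h1, h2, h3⟩ := P.1.ls_fam (insert ⟨1, x⟩ S)
    obtain ⟨p, hp⟩ := h2 (mem_insert _ _)
    obtain ⟨y, -, rfl⟩ := h1.back hp
    refine ⟨⟨Q, y, h1.1.atom_back hx⟩, f, h1, (subset_insert _ _).trans h2, h3.trans ?_⟩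
    refine (add_le_add mk_insert_le le_rfl).trans_eq ?_
    rw [add_assoc, add_comm 1, add_one_eq C.inf]
  colim ι _ _ _ A f hf h1 h2 := by
    obtain ⟨B, u, k1, k2, k3⟩ := Fam.colim_fam ι (fun i => (A i).1) f hf h1 h2
    obtain ⟨x, hx⟩ := (A (Classical.arbitrary ι)).2
    exact ⟨⟨B, _, (k1 _).1.atom hx⟩, u, k1, k2, k3⟩
  smooth A _ _ u g := Fam.smooth_fam (fun i => (A i).1) u g

namespace Sub

variable (s : Sub) (C : CC)

/-- the substitution functor -/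
@[reducible] noncomputable def fn : Fn (FC C).toPC where
  ap P := ⟨s.fam P.1, P.2.elim fun _ hx => ⟨_, (s.nt_eta P.1).atom hx⟩⟩
  mp f := Fam.tot (P := s.fam _) (Q := s.fam _) fun n => Fam.evh (s.σ n) f
  eta P := Fam.tot (Q := s.fam _) fun n => P.1.evi (s.η n)
  mp_h h := Fam.isH_tot ⟨fun _ => Fam.evh_h h, fun _ => Fam.evh_evmap h _⟩
  mp_comp hf hg p := congrArg (Sigma.mk p.1) (Fam.evh_evh hf hg (hf.comp hg) (fun _ => rfl) p.2)
  mp_id P p := by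
    obtain ⟨n, y⟩ := p
    obtain ⟨m, t, x, rfl⟩ := Fam.evi_surj y
    exact congrArg (Sigma.mk n) ((Fam.evh_evi (Fam.isH_id _) t x).trans (by rw [Fam.cp_eq rfl]))
  eta_h P := Fam.isH_tot (s.nt_eta P.1)
  eta_nat h p := by
    obtain ⟨n, x⟩ := p
    rw [h.2]
    exact congrArg (Sigma.mk n) (Fam.evh_evi h _ x)

theorem fn_bd {κ : Cardinal.{0}} (h : ∀ n, #(s.σ n) ≤ κ) : (s.fn C).Bd κ := fun P => by
  have hθ : ℵ₀ ≤ #P.1.El + κ := P.1.aleph0_le_el.trans (self_le_add_right _ _)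
  exact Fam.card_el_le _ hθ fun n => Fam.card_ev_le _ _ hθ ((h n).trans (self_le_add_left _ _))
    fun m => (P.1.card_ob_le m).trans (self_le_add_right _ _)

theorem fn_fin : (s.fn C).Fin := by
  rintro B ⟨n, y⟩
  obtain ⟨m, t, x, rfl⟩ := Fam.evi_surj y
  refine ⟨⟨m, x⟩, ?_⟩
  rintro A g hg ⟨p, hp⟩
  obtain ⟨x0, -, rfl⟩ := hg.back hp
  exact ⟨⟨n, A.1.evi t x0⟩, congrArg (Sigma.mk n) (Fam.evh_evi hg t x0)⟩

end Sub

end Pool.Agent.P.MP_860a31_lc.E
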