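import Pool.Agent.P.MP_860a31_lc.E.FC

/-!
The category of families over a categorical class satisfies the abstract axioms.
-/

open Cardinal hiding univ
open Set Order Function

namespace Pool.Agent.P.MP_860a31_lc.E

open Fam

theorem G_fst {C : PC} {A P P' : Fam C} {e : A.El → P.El} {e' : A.El → P'.El} (he : IsH e)
    (he' : IsH e') {p : P.El} {q : P'.El} (h : G e e' p q) : p.1 = q.1 := by
  obtain ⟨x, rfl, rfl⟩ := h
  rw [he.fst, he'.fst]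

theorem G_ev {C : CC} {A P P' : Fam C.toPC} {e : A.El → P.El} {e' : A.El → P'.El} (he : IsH e)
    (he' : IsH e') {X : Type} [LinearOrder X] {n : ℕ} (s : Fin n ↪o X) {x : C.U (P.ob n)}
    {x' : C.U (P'.ob n)} (h : G e e' ⟨n, x⟩ ⟨n, x'⟩) :
    G (evh X e) (evh X e') (P.evi s x) (P'.evi s x') := by
  obtain ⟨p, h1, h2⟩ := h
  obtain ⟨y, rfl, rfl⟩ := he.back h1
  exact ⟨A.evi s y, evh_evi he s y, (evh_evi he' s y).trans (by rw [cp_eq h2])⟩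

theorem natF (hN : S_Nat) {C : CC} (hc : C.HasCode) {κ : Cardinal.{0}} (hκ : C.k0 ≤ κ)
    {P P' : (FC C).Obj} {R : P.1.El → P'.1.El → Prop} (hP : #P.1.El ≤ κ) (hP' : #P'.1.El ≤ κ)
    (hl : ∀ p q, R p q → p.1 = q.1)
    (h : ∀ (X : Type) [LinearOrder X], #X + κ < hanf κ →
      C.El (P.1.ev X) (P'.1.ev X) (evR (fun n x x' => R ⟨n, x⟩ ⟨n, x'⟩) X)) :
    (FC C).El P P' R := by
  obtain ⟨Q, φ, φ', h1, h2, -, h3⟩ := hN C hc κ hκ P.1 P'.1 _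
    (fun n => (P.1.card_ob_le n).trans hP) (fun n => (P'.1.card_ob_le n).trans hP')
    fun θ hθ => ⟨W θ, inferInstance, (card_W_lt (C.inf.trans hκ) hθ).1,
      h _ (card_W_lt (C.inf.trans hκ) hθ).2⟩
  obtain ⟨x, hx⟩ := P.2
  refine ⟨⟨Q, _, h1.atom hx⟩, tot φ, tot φ', isH_tot h1, isH_tot h2, ?_⟩
  rintro ⟨n, y⟩ ⟨n', y'⟩ r
  obtain rfl : n = n' := hl _ _ r
  exact congrArg (Sigma.mk n) (h3 n y y' r)

/-- families over a class with amalgamation and joint embedding -/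
@[reducible] def FA (hN : S_Nat) (C : AC) (hc : C.HasCode) : AC where
  toCC := FC C.toCC
  ap {A B D f g} hf hg := by
    obtain ⟨Z, f', g', h1, h2, h3⟩ := natF hN hc (κ := max C.k0 (max #B.1.El #D.1.El))
      (le_max_left _ _) (P := B) (P' := D) (R := G f g)
      ((le_max_left _ _).trans (le_max_right _ _)) ((le_max_right _ _).trans (le_max_right _ _))
      (fun _ _ => G_fst hf hg) fun X _ _ => (PC.El.span (evh_h hf) (evh_h hg)).mono (by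
        rintro _ _ ⟨n, s, x, x', r, rfl, rfl⟩
        exact G_ev hf hg s r)
    exact ⟨Z, f', g', h1, h2, fun x => h3 _ _ (G.mk _ _ x)⟩
  jep A B := by
    obtain ⟨Z, f', g', h1, h2, -⟩ := natF hN hc (κ := max C.k0 (max #A.1.El #B.1.El))
      (le_max_left _ _) (P := A) (P' := B) (R := fun _ _ => False)
      ((le_max_left _ _).trans (le_max_right _ _)) ((le_max_right _ _).trans (le_max_right _ _))
      (fun _ _ h => h.elim) fun X _ _ => (PC.El.empty _ _).mono (by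
        rintro _ _ ⟨n, s, x, x', r, -⟩
        exact r)
    exact ⟨Z, f', g', h1, h2⟩

/-- the empty tuple -/
def pt0 (I : Type) [LinearOrder I] : Fin 0 ↪o I :=
  OrderEmbedding.ofStrictMono Fin.elim0 fun a => a.elim0

theorem pt0_eq {I : Type} [LinearOrder I] (s : Fin 0 ↪o I) : s = pt0 I := by
  ext i; exact i.elim0

/-- an extension of the bottom object extends to an extension of the family -/
theorem const (hN : S_Nat) {C : AC} (hc : C.HasCode) {κ : Cardinal.{0}} (hκ : C.k0 ≤ κ)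
    (P : (FC C.toCC).Obj) {B : C.Obj} {k : C.U (P.1.ob 0) → C.U B} (hk : C.IsH k)
    (hP : #P.1.El ≤ κ) (hB : #(C.U B) ≤ κ) :
    ∃ (Q : (FC C.toCC).Obj) (φ : P.1.El → Q.1.El) (ψ : C.U B → C.U (Q.1.ob 0)), IsH φ ∧
      C.IsH ψ ∧ #Q.1.El ≤ κ ∧ ∀ x, φ ⟨0, x⟩ = ⟨0, ψ (k x)⟩ := by
  let B' : Fam C.toPC := ⟨fun _ => B, fun _ x => x, fun _ => C.idH _, fun _ _ => rfl,
    fun _ _ _ => rfl⟩
  obtain ⟨Q, φ, φ', h1, h2, h3, h4⟩ := hN C.toCC hc κ hκ P.1 B'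
    (fun n x b => ∃ y, P.1.mp (pt0 _) y = x ∧ k y = b) (fun n => (P.1.card_ob_le n).trans hP)
    (fun _ => hB) fun θ _ => ⟨W θ, inferInstance, W.card' θ ▸ le_max_left _ _,
      (PC.El.span (evi_h (P := P.1) (pt0 (W θ))) (C.comp hk (evi_h (P := B') (pt0 (W θ))))).mono (by
        rintro _ _ ⟨n, s, _, _, ⟨y, rfl, rfl⟩, rfl, rfl⟩
        refine ⟨y, by rw [evi_mp, pt0_eq (RelEmbedding.trans _ _)], ?_⟩
        exact ((evi_mp (P := B') (pt0 _) s (k y)).trans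
          (by rw [pt0_eq (RelEmbedding.trans _ _)])).symm)⟩
  obtain ⟨x, hx⟩ := P.2
  exact ⟨⟨Q, _, h1.atom hx⟩, tot φ, φ' 0, isH_tot h1, h2.hom 0, Q.card_el_le (C.inf.trans hκ) h3,
    fun y => congrArg (Sigma.mk 0) (h4 0 y _ ⟨y, P.1.mp_self _ y, rfl⟩)⟩

theorem symF (hN : S_Nat) (hL : S_LongOP) (hO : S_NoOP) (K : KC) {κ : Cardinal.{0}}
    (hκ : K.k0 ≤ κ) (hh : hanf κ ≤ K.lam) {F F' : Fn (FC K.toCC).toPC} (hF : F.Bd κ)
    (hF' : F'.Bd κ) (N : (FC K.toCC).Obj) (hN' : #N.1.El ≤ κ) :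
    (FC K.toCC).El (F'.ap (F.ap N)) (F.ap (F'.ap N)) (SymR F F' N) := by
  have hi := K.inf.trans hκ
  have c1 : #(F.ap N).1.El ≤ κ := hF.le hi le_rfl hN'
  have c2 : #(F'.ap N).1.El ≤ κ := hF'.le hi le_rfl hN'
  have e1 : IsH (F'.eta (F.ap N)) := F'.eta_h _
  have e2 : IsH (F.mp (F'.eta N)) := F.mp_h (F'.eta_h _)
  have e3 : IsH (F'.mp (F.eta N)) := F'.mp_h (F.eta_h _)
  have e4 : IsH (F.eta (F'.ap N)) := F.eta_h _
  refine natF hN K.code hκ (hF'.le hi le_rfl c1) (hF.le hi le_rfl c2)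
    (fun _ _ h => h.elim (G_fst e1 e2) (G_fst e3 e4)) fun X _ hX => ?_
  have hi' : ℵ₀ ≤ #X + κ := hi.trans (self_le_add_left _ _)
  have hc : ∀ P : Fam K.toPC, #P.El ≤ κ → #(K.U (P.ev X)) ≤ #X + κ := fun P hP =>
    card_ev_le P X hi' (self_le_add_right _ _) fun n =>
      (P.card_ob_le n).trans (hP.trans (self_le_add_left _ _))
  refine (hO K (#X + κ) (hκ.trans (self_le_add_left _ _)) ((pow_lt_hanf' hi hX).trans_le hh) _ _ _ _
    (evh X (F'.eta (F.ap N))) (evh X (F'.mp (F.eta N))) (evh X (F.mp (F'.eta N)))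
    (evh X (F.eta (F'.ap N))) (hc _ c1) (hc _ c2) fun θ _ => ?_).mono ?_
  · obtain ⟨T, a, a', h1, h2, h3⟩ := hL (FC K.toCC) F F' N θ
    refine ⟨W θ, inferInstance, T.1.ev X, fun i => evh X (a i), fun i => evh X (a' i),
      W.card' θ ▸ le_max_left _ _, fun i j h => ?_, fun i j h => ?_⟩
    · obtain ⟨k, hk, k1, k2⟩ := h2 i j h
      refine PC.El.of_hom' (evh_h hk) ?_
      rintro _ _ (⟨z, rfl, rfl⟩ | ⟨z, rfl, rfl⟩)
      · exact (evh_evh e1 hk (h1 i).1 k1 z).symm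
      · exact (evh_evh e3 hk (h1 j).2 k2 z).symm
    · obtain ⟨k, hk, k1, k2⟩ := h3 i j h
      refine PC.El.of_hom' (evh_h hk) ?_
      rintro _ _ (⟨z, rfl, rfl⟩ | ⟨z, rfl, rfl⟩)
      · exact (evh_evh e2 hk (h1 i).1 k1 z).symm
      · exact (evh_evh e4 hk (h1 j).2 k2 z).symm
  · rintro _ _ ⟨n, s, x, x', r, rfl, rfl⟩
    exact r.imp (G_ev e1 e2 s) (G_ev e3 e4 s)

open Classical in
/-- the element given by a tuple in a substitution -/
noncomputable def Sub.op (s : Sub) {n m : ℕ} (a : Fin n ↪o s.σ m) {C : CC} (P : Fam C.toPC)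
    (p : P.El) : (s.fam P).El :=
  if h : p.1 = n then ⟨m, P.evi a (h ▸ p.2)⟩ else ⟨p.1, P.evi (s.η p.1) p.2⟩

theorem Sub.op_eq (s : Sub) {n m : ℕ} (a : Fin n ↪o s.σ m) {C : CC} (P : Fam C.toPC)
    (x : C.U (P.ob n)) : s.op a P ⟨n, x⟩ = ⟨m, P.evi a x⟩ := dif_pos rfl

theorem lv_ge {k κ : Cardinal.{0}} (h : ∃ n : ℕ, κ = succ^[n] k) : k ≤ κ := by
  obtain ⟨n, rfl⟩ := h
  exact le_succ_iterate n k

theorem exists_ax (hN : S_Nat) (hL : S_LongOP) (hO : S_NoOP) (hU : S_UU) (hOp : S_OpEx) (K : KC)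
    (hS : ∀ n : ℕ, K.SatH (succ^[n] K.k0)) :
    ∃ X : AX, X.toAC = FA hN K.toAC K.code := by
  choose Op S a h1 h2 h3 using hOp
  refine ⟨{
    toAC := FA hN K.toAC K.code
    Lv := fun κ => ∃ n : ℕ, κ = succ^[n] K.k0
    lv_k0 := ⟨0, rfl⟩
    lv_ge := lv_ge
    lv_succ := fun ⟨n, h⟩ => ⟨n + 1, by rw [iterate_succ_apply', h]⟩
    Op := Σ p : ℕ × ℕ, Op p.1 p.2
    op_card := ?_
    S := fun t => (S _ _ t.2).fn K.toCC
    S_bd := fun t => Sub.fn_bd _ _ fun n => (h2 _ _ t.2 n).trans K.inf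
    op := fun t A => (S _ _ t.2).op (a _ _ t.2) A.1
    op_nat := ?_
    uu := ?_
    sym := ?_ }, rfl⟩
  · have : ∀ n m, Countable (Op n m) := fun n m => mk_le_aleph0_iff.1 (h1 n m)
    exact mk_le_aleph0.trans K.inf
  · rintro ⟨⟨n, m⟩, t⟩ A B g hg ⟨k, x⟩
    rw [hg.2]
    by_cases h : k = n
    · subst h
      rw [Sub.op_eq, Sub.op_eq]
      exact congrArg (Sigma.mk m) (evh_evi hg _ x)
    · rw [Sub.op, Sub.op, dif_neg h, dif_neg h]
      exact congrArg (Sigma.mk k) (evh_evi hg _ x)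
  · rintro _ ⟨j, rfl⟩ N B φ hφ hB
    obtain ⟨x, hx⟩ := N.2
    obtain ⟨s, k1, ψ, k2, k3⟩ := hU K _ (le_succ_iterate j _) (hS j) N.1 B.1 _ x hx hφ.1
      fun n => (B.1.card_ob_le n).trans hB
    refine ⟨s.fn K.toCC, s.fn_bd _ k1, s.fn_fin _, ?_, tot ψ, isH_tot k2, ?_⟩
    · rintro ⟨m, y⟩
      obtain ⟨n, b, z, rfl⟩ := evi_surj y
      obtain ⟨t, w, w1, w2, w3⟩ := h3 n m s b
      refine ⟨⟨(n, m), t⟩, ⟨n, z⟩, PC.El.of_hom' (f := tot (P := (S n m t).fam N.1)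
        (Q := s.fam N.1) fun k => N.1.evmap (w k)) (isH_tot ⟨fun _ => evmap_h _, fun c y => ?_⟩) ?_⟩
      · refine (evmap_evmap _ _ _).trans (Eq.trans ?_ (evmap_evmap _ _ _).symm)
        congr 1
        ext i
        exact w1 _ _ c i
      · rintro _ _ (⟨⟨k, u⟩, rfl, rfl⟩ | ⟨rfl, rfl⟩)
        · refine congrArg (Sigma.mk k) (Eq.trans ?_ (evmap_evi _ _ _).symm)
          exact congrArg (fun r => N.1.evi r u) (RelEmbedding.ext fun i => (w2 k i).symm)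
        · change _ = tot _ (Sub.op _ _ _ _)
          rw [Sub.op_eq]
          refine congrArg (Sigma.mk m) (Eq.trans ?_ (evmap_evi _ _ _).symm)
          congr 1
          ext i
          exact (w3 i).symm
    · rintro ⟨n, y⟩
      rw [hφ.2]
      exact congrArg (Sigma.mk n) (k3 n y)
  · rintro _ ⟨j, rfl⟩ F F' hF hF' N hN'
    exact symF hN hL hO K (le_succ_iterate j _) (hS j).1 hF hF' N hN'

theorem kmain (hN : S_Nat) (hL : S_LongOP) (hO : S_NoOP) (hU : S_UU) (hOp : S_OpEx) (hB : S_Base)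
    (hA : S_AMain) : S_KMain fun K => ∀ n : ℕ, K.SatH (succ^[n] K.k0) := by
  intro K hS θ hθ M hM
  obtain ⟨X, hX⟩ := exists_ax hN hL hO hU hOp K hS
  have hA' : ∀ P : (FC K.toCC).Obj, #P.1.El ≤ θ → ∃ (P' : (FC K.toCC).Obj)
      (g : P.1.El → P'.1.El), IsH g ∧ #P'.1.El ≤ θ ∧ (FC K.toCC).Real g := by
    have := hA X θ
    obtain ⟨X0, _⟩ := X
    obtain rfl : X0 = _ := hX
    exact this ((succ_le_of_lt K.k0_lt).trans hθ)
  have hk : K.k0 ≤ θ := K.k0_lt.le.trans hθ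
  obtain ⟨P0, x0, hx0, h0⟩ := hB K
  obtain ⟨Y, f, g, hf, hg, hY, -⟩ := (PC.El.empty (P0.ob 0) M).small hk ((h0 0).trans hk) hM
  obtain ⟨P, -, ψ, -, hψ, hP, -⟩ := const hN K.code hk ⟨P0, x0, hx0⟩ hf
    (P0.card_el_le (K.inf.trans hk) fun n => (h0 n).trans hk) hY
  obtain ⟨P', Φ, hΦ, hP', hR⟩ := hA' P hP
  refine ⟨P'.1.ob 0, fun x => cp Φ 0 (ψ (g x)), K.comp (K.comp hg hψ) (hΦ.1.hom 0),
    (P'.1.card_ob_le 0).trans hP', fun Z e c he => ?_⟩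
  obtain ⟨Z', e1, e2, k1, k2, k3⟩ := K.ap he (K.comp hg hψ)
  obtain ⟨Q, φ2, ψ2, k4, k5, -, k6⟩ := const hN K.code (κ := max θ #(K.U Z'))
    (hk.trans (le_max_left _ _)) P k2 (hP.trans (le_max_left _ _)) (le_max_right _ _)
  obtain ⟨a', V, f1, f2, l1, l2, l3⟩ := hR Q φ2 ⟨0, ψ2 (e1 c)⟩ k4
  obtain ⟨a0, rfl, l4⟩ := l2.back ((l3 _ _ (Or.inr ⟨rfl, rfl⟩)).symm.trans (l1.2 0 _))
  refine ⟨a0, V.1.ob 0, fun z => cp f1 0 (ψ2 (e1 z)), cp f2 0,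
    K.comp (K.comp k1 k5) (l1.1.hom 0), l2.1.hom 0, ?_⟩
  rintro _ _ (⟨x, rfl, rfl⟩ | ⟨rfl, rfl⟩)
  · have := l3 _ _ (Or.inl (G.mk φ2 Φ ⟨0, ψ (g x)⟩))
    rw [k6, hΦ.2, l1.2, l2.2] at this
    exact (congrArg (fun z => cp f1 0 (ψ2 z)) (k3 x)).trans (mk_inj this)
  · exact l4.symm

end Pool.Agent.P.MP_860a31_lc.E
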