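import Pool.Agent.P.MP_860a31_lc.E.Cat

/-!
Uniform families: functors on the finite linear orders, and their values on arbitrary orders.
-/

open Cardinal hiding univ
open Set Order Function

namespace Pool.Agent.P.MP_860a31_lc.E

section Emb

variable {I : Type} [LinearOrder I] {m n : ℕ}

theorem emb_self (a : Fin n ↪o Fin n) : a = RelEmbedding.refl _ :=
  DFunLike.coe_injective ((a.strictMono.range_inj strictMono_id).1 (by
    rw [(Finite.injective_iff_surjective.1 a.injective).range_eq]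
    exact (surjective_id.range_eq).symm))

/-- an increasing tuple factors through one with larger range -/
theorem exists_fac (s : Fin m ↪o I) (t : Fin n ↪o I) (h : range s ⊆ range t) :
    ∃ a : Fin m ↪o Fin n, a.trans t = s := by
  choose a ha using fun i => h ⟨i, rfl⟩
  refine ⟨OrderEmbedding.ofStrictMono a fun i j hij => t.lt_iff_lt.1 ?_, ?_⟩
  · rw [ha, ha]; exact s.strictMono hij
  · ext i; exact ha i

theorem fac_unique {t : Fin n ↪o I} {a b : Fin m ↪o Fin n} (h : a.trans t = b.trans t) : a = b := by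
  ext i
  exact congrArg Fin.val (t.injective (DFunLike.congr_fun h i))

/-- a finite set is the range of an increasing tuple -/
theorem exists_emb_range (T : Finset I) : ∃ (k : ℕ) (t : Fin k ↪o I), range t = T :=
  ⟨_, T.orderEmbOfFin rfl, T.range_orderEmbOfFin rfl⟩

/-- two increasing tuples have a common refinement -/
theorem exists_ref (s : Fin m ↪o I) (s' : Fin n ↪o I) : ∃ (k : ℕ) (t : Fin k ↪o I)
    (a : Fin m ↪o Fin k) (a' : Fin n ↪o Fin k), a.trans t = s ∧ a'.trans t = s' := by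
  classical
  obtain ⟨k, t, ht⟩ := exists_emb_range (Finset.univ.image s ∪ Finset.univ.image s')
  obtain ⟨a, ha⟩ := exists_fac s t (by rw [ht]; rintro _ ⟨i, rfl⟩; simp)
  obtain ⟨a', ha'⟩ := exists_fac s' t (by rw [ht]; rintro _ ⟨i, rfl⟩; simp)
  exact ⟨k, t, a, a', ha, ha'⟩

theorem card_emb (I : Type) [LinearOrder I] : #(Σ n, Fin n ↪o I) ≤ #I + ℵ₀ := by
  have h : ℵ₀ ≤ #I + ℵ₀ := self_le_add_left _ _
  rw [mk_sigma]
  refine (sum_le_mk_mul_iSup _).trans (mul_le_of_le h (by rw [mk_nat]; exact h)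
    (ciSup_le' fun n => ?_))
  refine (mk_le_of_injective (f := fun s : Fin n ↪o I => (s : Fin n → I))
    DFunLike.coe_injective).trans ?_
  rw [mk_arrow, lift_id, lift_id, mk_fin, power_natCast]
  exact (pow_le_pow_left' (self_le_add_right _ ℵ₀) n).trans (power_nat_le h)

end Emb

/-- a functor from the finite linear orders -/
structure Fam (C : PC) where
  ob : ℕ → C.Obj
  mp : ∀ {m n : ℕ}, (Fin m ↪o Fin n) → C.U (ob m) → C.U (ob n)
  hom : ∀ {m n : ℕ} (a : Fin m ↪o Fin n), C.IsH (mp a)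
  mp_id : ∀ (n : ℕ) (x : C.U (ob n)), mp (RelEmbedding.refl _) x = x
  mp_comp : ∀ {m n k : ℕ} (a : Fin m ↪o Fin n) (b : Fin n ↪o Fin k) (x : C.U (ob m)),
    mp b (mp a x) = mp (a.trans b) x

namespace Fam

variable {C : PC}

theorem mp_self (P : Fam C) {n : ℕ} (a : Fin n ↪o Fin n) (x : C.U (P.ob n)) : P.mp a x = x := by
  rw [emb_self a, P.mp_id]

/-- `x` has different images under different points -/
def Atom (P : Fam C) (x : C.U (P.ob 1)) : Prop :=
  ∀ (k : ℕ) (a b : Fin 1 ↪o Fin k), P.mp a x = P.mp b x → a = b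

/-- natural families of morphisms -/
structure Nt (P Q : Fam C) (φ : ∀ n, C.U (P.ob n) → C.U (Q.ob n)) : Prop where
  hom : ∀ n, C.IsH (φ n)
  nat : ∀ {m n : ℕ} (a : Fin m ↪o Fin n) (x : C.U (P.ob m)), φ n (P.mp a x) = Q.mp a (φ m x)

theorem Nt.atom {P Q : Fam C} {φ : ∀ n, C.U (P.ob n) → C.U (Q.ob n)} (h : Nt P Q φ)
    {x : C.U (P.ob 1)} (hx : P.Atom x) : Q.Atom (φ 1 x) := fun k a b e =>
  hx k a b (C.inj (h.hom k) (by rw [h.nat, h.nat, e]))

/-- all elements of a family -/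
abbrev El (P : Fam C) : Type := Σ n, C.U (P.ob n)

/-- the components of a map between families -/
noncomputable def cp {P Q : Fam C} (f : P.El → Q.El) (n : ℕ) (x : C.U (P.ob n)) : C.U (Q.ob n) :=
  Classical.epsilon fun y => f ⟨n, x⟩ = ⟨n, y⟩

/-- the map with given components -/
def tot {P Q : Fam C} (φ : ∀ n, C.U (P.ob n) → C.U (Q.ob n)) (p : P.El) : Q.El := ⟨p.1, φ p.1 p.2⟩

/-- morphisms of families -/
def IsH {P Q : Fam C} (f : P.El → Q.El) : Prop :=
  Nt P Q (cp f) ∧ ∀ n x, f ⟨n, x⟩ = ⟨n, cp f n x⟩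

theorem cp_eq {P Q : Fam C} {f : P.El → Q.El} {n : ℕ} {x : C.U (P.ob n)} {y : C.U (Q.ob n)}
    (h : f ⟨n, x⟩ = ⟨n, y⟩) : cp f n x = y := by
  have := Classical.epsilon_spec (p := fun y => f ⟨n, x⟩ = ⟨n, y⟩) ⟨y, h⟩
  exact (sigma_mk_injective (β := fun n => C.U (Q.ob n)) (h.symm.trans this)).symm

theorem cp_tot {P Q : Fam C} (φ : ∀ n, C.U (P.ob n) → C.U (Q.ob n)) : cp (tot φ) = φ := by
  funext n x; exact cp_eq rfl

theorem isH_of {P Q : Fam C} {f : P.El → Q.El} {φ : ∀ n, C.U (P.ob n) → C.U (Q.ob n)}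
    (h : Nt P Q φ) (e : ∀ n x, f ⟨n, x⟩ = ⟨n, φ n x⟩) : IsH f := by
  have : cp f = φ := by funext n x; exact cp_eq (e n x)
  exact ⟨this ▸ h, this ▸ e⟩

theorem isH_tot {P Q : Fam C} {φ : ∀ n, C.U (P.ob n) → C.U (Q.ob n)} (h : Nt P Q φ) :
    IsH (tot φ) := isH_of h fun _ _ => rfl

theorem card_ob_le (P : Fam C) (n : ℕ) : #(C.U (P.ob n)) ≤ #P.El :=
  mk_le_of_injective (sigma_mk_injective (β := fun n => C.U (P.ob n)) (i := n))

theorem card_el_le (P : Fam C) {θ : Cardinal.{0}} (hθ : ℵ₀ ≤ θ) (h : ∀ n, #(C.U (P.ob n)) ≤ θ) :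
    #P.El ≤ θ :=
  card_cover (fun n x => (⟨n, x⟩ : P.El)) (fun p => ⟨p.1, p.2, rfl⟩) hθ (by rwa [mk_nat]) h

/-- `Z` is the value of `P` on the order `I` -/
structure EvSpec (P : Fam C) (I : Type) [LinearOrder I] (Z : C.Obj)
    (ι : ∀ n, (Fin n ↪o I) → C.U (P.ob n) → C.U Z) : Prop where
  hom : ∀ n s, C.IsH (ι n s)
  nat : ∀ {m n : ℕ} (a : Fin m ↪o Fin n) (s : Fin n ↪o I) (x : C.U (P.ob m)),
    ι n s (P.mp a x) = ι m (a.trans s) x
  surj : ∀ y, ∃ n s x, ι n s x = y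

/-- the chosen value, with its structure maps -/
noncomputable def evD (P : Fam C) (I : Type) [LinearOrder I] :
    Σ Z : C.Obj, ∀ n, (Fin n ↪o I) → C.U (P.ob n) → C.U Z :=
  haveI : Nonempty (Σ Z : C.Obj, ∀ n, (Fin n ↪o I) → C.U (P.ob n) → C.U Z) :=
    ⟨⟨P.ob 0, fun _ _ _ => Classical.choice (C.ne _)⟩⟩
  Classical.epsilon fun d => P.EvSpec I d.1 d.2

/-- the value of `P` on `I` -/
noncomputable def ev (P : Fam C) (I : Type) [LinearOrder I] : C.Obj := (P.evD I).1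

/-- the structure maps -/
noncomputable def evi (P : Fam C) {I : Type} [LinearOrder I] {n : ℕ} (s : Fin n ↪o I) :
    C.U (P.ob n) → C.U (P.ev I) := (P.evD I).2 n s

/-- the map induced by an embedding of orders -/
noncomputable def evmap (P : Fam C) {I I' : Type} [LinearOrder I] [LinearOrder I'] (w : I ↪o I')
    (y : C.U (P.ev I)) : C.U (P.ev I') :=
  Classical.epsilon fun z => ∃ (n : ℕ) (s : Fin n ↪o I) (x : C.U (P.ob n)),
    P.evi s x = y ∧ P.evi (s.trans w) x = z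

/-- the map induced by a map of families -/
noncomputable def evh {P Q : Fam C} (I : Type) [LinearOrder I] (f : P.El → Q.El)
    (y : C.U (P.ev I)) : C.U (Q.ev I) :=
  Classical.epsilon fun z => ∃ (n : ℕ) (s : Fin n ↪o I) (x : C.U (P.ob n)),
    P.evi s x = y ∧ Q.evi s (cp f n x) = z

end Fam

namespace Fam

variable {C : CC} {P Q R : Fam C.toPC} {I I' I'' : Type} [LinearOrder I] [LinearOrder I']
  [LinearOrder I'']

theorem exists_ev (P : Fam C.toPC) (I : Type) [LinearOrder I] : ∃ Z ι, P.EvSpec I Z ι := by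
  classical
  let oe : ∀ T : Finset I, Fin T.card ↪o I := fun T => T.orderEmbOfFin rfl
  have hoe : ∀ T, range (oe T) = T := fun T => T.range_orderEmbOfFin rfl
  choose fa hfa using fun (T T' : Finset I) (h : T ≤ T') =>
    exists_fac (oe T) (oe T') (by rw [hoe, hoe]; exact h)
  have hc : ∀ T T' T'' (h : T ≤ T') (h' : T' ≤ T''),
      (fa T T' h).trans (fa T' T'' h') = fa T T'' (h.trans h') := fun T T' T'' h h' =>
    fac_unique (t := oe T'') (by rw [RelEmbedding.trans_assoc, hfa, hfa, hfa])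
  obtain ⟨Z, u, h1, h2, h3⟩ := C.colim (Finset I) (fun T => P.ob T.card)
    (fun T T' h => P.mp (fa T T' h)) (fun _ _ _ => P.hom _) (fun T x => P.mp_self _ x)
    (fun T T' T'' h h' x => by rw [P.mp_comp, hc])
  choose fb hfb using fun (n : ℕ) (s : Fin n ↪o I) =>
    exists_fac s (oe (Finset.univ.image s)) (by rw [hoe]; rintro _ ⟨i, rfl⟩; simp)
  have key : ∀ n (s : Fin n ↪o I) (T : Finset I) (a : Fin n ↪o Fin T.card), a.trans (oe T) = s →
      ∀ x, u _ (P.mp (fb n s) x) = u T (P.mp a x) := fun n s T a ha x => by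
    have hle : Finset.univ.image s ≤ T := fun i hi => by
      obtain ⟨j, -, rfl⟩ := Finset.mem_image.1 hi
      rw [← Finset.mem_coe, ← hoe, ← ha]; exact ⟨a j, rfl⟩
    rw [← h2 _ T hle, P.mp_comp]
    congr 2
    exact fac_unique (t := oe T) (by rw [RelEmbedding.trans_assoc, hfa, hfb, ha])
  refine ⟨Z, fun n s x => u _ (P.mp (fb n s) x), fun n s => C.comp (P.hom _) (h1 _),
    fun a s x => ?_, fun y => ?_⟩
  · rw [P.mp_comp]
    exact (key _ _ _ _ (by rw [RelEmbedding.trans_assoc, hfb]) x).symm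
  · obtain ⟨T, x, rfl⟩ := h3 y
    exact ⟨_, oe T, x, (key _ _ T (RelEmbedding.refl _) rfl x).trans (by rw [P.mp_id])⟩

theorem evSpec (P : Fam C.toPC) (I : Type) [LinearOrder I] :
    P.EvSpec I (P.ev I) (fun _ s => P.evi s) := by
  obtain ⟨Z, ι, h⟩ := exists_ev P I
  exact Classical.epsilon_spec (p := fun d : Σ Z : C.Obj, ∀ n, (Fin n ↪o I) → C.U (P.ob n) → C.U Z =>
    P.EvSpec I d.1 d.2) ⟨⟨Z, ι⟩, h⟩

theorem evi_h {n : ℕ} (s : Fin n ↪o I) : C.IsH (P.evi s) := (evSpec P I).hom n s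

theorem evi_mp {m n : ℕ} (a : Fin m ↪o Fin n) (s : Fin n ↪o I) (x : C.U (P.ob m)) :
    P.evi s (P.mp a x) = P.evi (a.trans s) x := (evSpec P I).nat a s x

theorem evi_surj (y : C.U (P.ev I)) : ∃ (n : ℕ) (s : Fin n ↪o I) (x : C.U (P.ob n)),
    P.evi s x = y := (evSpec P I).surj y

/-- the universal property of the value -/
theorem ev_lift {D : C.Obj} (g : ∀ n, (Fin n ↪o I) → C.U (P.ob n) → C.U D)
    (hg : ∀ n s, C.IsH (g n s))
    (hn : ∀ {m n : ℕ} (a : Fin m ↪o Fin n) (s : Fin n ↪o I) x, g n s (P.mp a x) = g m (a.trans s) x) :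
    ∃ k : C.U (P.ev I) → C.U D, C.IsH k ∧ ∀ n (s : Fin n ↪o I) x, k (P.evi s x) = g n s x := by
  obtain ⟨k, h1, h2⟩ := CC.lift (ι := Σ n, Fin n ↪o I) (fun p => P.ob p.1) (fun p => P.evi p.2)
    (fun p => g p.1 p.2) (fun p => evi_h p.2) (fun p => hg _ _) (fun p q => by
      obtain ⟨k, t, a, a', ha, ha'⟩ := exists_ref p.2 q.2
      refine ⟨⟨k, t⟩, ?_, ?_⟩
      · rintro _ ⟨x, rfl⟩; exact ⟨P.mp a x, by rw [evi_mp, ha]⟩
      · rintro _ ⟨x, rfl⟩; exact ⟨P.mp a' x, by rw [evi_mp, ha']⟩)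
    (fun y => by obtain ⟨n, s, x, h⟩ := evi_surj y; exact ⟨⟨n, s⟩, x, h⟩) (fun p q x y h => by
      obtain ⟨k, t, a, a', ha, ha'⟩ := exists_ref p.2 q.2
      rw [← ha, ← ha', ← evi_mp, ← evi_mp] at h
      rw [← ha, ← ha', ← hn, ← hn, C.inj (evi_h t) h])
  exact ⟨k, h1, fun n s x => h2 ⟨n, s⟩ x⟩

theorem evmap_spec (w : I ↪o I') : C.IsH (P.evmap w) ∧
    ∀ n (s : Fin n ↪o I) x, P.evmap w (P.evi s x) = P.evi (s.trans w) x := by
  obtain ⟨k, h1, h2⟩ := ev_lift (P := P) (fun n (s : Fin n ↪o I) => P.evi (s.trans w))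
    (fun _ _ => evi_h _) fun a s x => by rw [evi_mp, RelEmbedding.trans_assoc]
  have : P.evmap w = k := by
    funext y
    obtain ⟨n, s, x, e⟩ := evi_surj y
    obtain ⟨n', s', x', e1, e2⟩ := Classical.epsilon_spec (p := fun z => ∃ (n : ℕ)
      (s : Fin n ↪o I) (x : C.U (P.ob n)), P.evi s x = y ∧ P.evi (s.trans w) x = z)
      ⟨_, n, s, x, e, rfl⟩
    rw [evmap, ← e2, ← h2, e1]
  rw [this]; exact ⟨h1, h2⟩

theorem evmap_h (w : I ↪o I') : C.IsH (P.evmap w) := (evmap_spec w).1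

theorem evmap_evi (w : I ↪o I') {n : ℕ} (s : Fin n ↪o I) (x : C.U (P.ob n)) :
    P.evmap w (P.evi s x) = P.evi (s.trans w) x := (evmap_spec w).2 n s x

theorem evmap_evmap (w : I ↪o I') (w' : I' ↪o I'') (y : C.U (P.ev I)) :
    P.evmap w' (P.evmap w y) = P.evmap (w.trans w') y := by
  obtain ⟨n, s, x, rfl⟩ := evi_surj y
  rw [evmap_evi, evmap_evi, evmap_evi, RelEmbedding.trans_assoc]

theorem evh_spec {f : P.El → Q.El} (hf : IsH f) : C.IsH (evh I f) ∧
    ∀ n (s : Fin n ↪o I) x, evh I f (P.evi s x) = Q.evi s (cp f n x) := by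
  obtain ⟨k, h1, h2⟩ := ev_lift (P := P) (fun n (s : Fin n ↪o I) x => Q.evi s (cp f n x))
    (fun n _ => C.comp (hf.1.hom n) (evi_h _)) fun a s x => by rw [hf.1.nat, evi_mp]
  have : evh I f = k := by
    funext y
    obtain ⟨n, s, x, e⟩ := evi_surj y
    obtain ⟨n', s', x', e1, e2⟩ := Classical.epsilon_spec (p := fun z => ∃ (n : ℕ)
      (s : Fin n ↪o I) (x : C.U (P.ob n)), P.evi s x = y ∧ Q.evi s (cp f n x) = z)
      ⟨_, n, s, x, e, rfl⟩
    rw [evh, ← e2, ← h2, e1]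
  rw [this]; exact ⟨h1, h2⟩

theorem evh_h {f : P.El → Q.El} (hf : IsH f) : C.IsH (evh I f) := (evh_spec hf).1

theorem evh_evi {f : P.El → Q.El} (hf : IsH f) {n : ℕ} (s : Fin n ↪o I) (x : C.U (P.ob n)) :
    evh I f (P.evi s x) = Q.evi s (cp f n x) := (evh_spec hf).2 n s x

theorem evh_evmap {f : P.El → Q.El} (hf : IsH f) (w : I ↪o I') (y : C.U (P.ev I)) :
    evh I' f (P.evmap w y) = Q.evmap w (evh I f y) := by
  obtain ⟨n, s, x, rfl⟩ := evi_surj y
  rw [evmap_evi, evh_evi hf, evh_evi hf, evmap_evi]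

/-- commuting triangles of families give commuting triangles of values -/
theorem evh_evh {f : P.El → Q.El} {g : Q.El → R.El} {k : P.El → R.El} (hf : IsH f) (hg : IsH g)
    (hk : IsH k) (e : ∀ p, g (f p) = k p) (y : C.U (P.ev I)) :
    evh I g (evh I f y) = evh I k y := by
  obtain ⟨n, s, x, rfl⟩ := evi_surj y
  rw [evh_evi hf, evh_evi hg, evh_evi hk]
  congr 1
  exact (cp_eq (by rw [← e, hf.2, hg.2])).symm

theorem card_ev_le (P : Fam C.toPC) (I : Type) [LinearOrder I] {θ : Cardinal.{0}} (hθ : ℵ₀ ≤ θ)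
    (hI : #I ≤ θ) (hP : ∀ n, #(C.U (P.ob n)) ≤ θ) : #(C.U (P.ev I)) ≤ θ :=
  card_cover (ι := Σ n, Fin n ↪o I) (fun p => P.evi p.2)
    (fun y => by obtain ⟨n, s, x, h⟩ := evi_surj y; exact ⟨⟨n, s⟩, x, h⟩) hθ
    ((card_emb I).trans (add_le_of_le hθ hI hθ)) fun p => hP p.1

/-- the one-point tuple -/
def pt1 (i : I) : Fin 1 ↪o I := OrderEmbedding.ofStrictMono (fun _ => i) fun a b h =>
  absurd (Subsingleton.elim a b) h.ne

theorem le_card_ev {x : C.U (P.ob 1)} (hx : P.Atom x) (I : Type) [LinearOrder I] :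
    #I ≤ #(C.U (P.ev I)) := by
  refine mk_le_of_injective (f := fun i : I => P.evi (pt1 i) x) fun i j h => ?_
  obtain ⟨k, t, a, a', ha, ha'⟩ := exists_ref (pt1 i) (pt1 j)
  simp only [← ha, ← ha', ← evi_mp] at h
  obtain rfl := hx k a a' (C.inj (evi_h t) h)
  exact DFunLike.congr_fun (ha.symm.trans ha') 0

end Fam

end Pool.Agent.P.MP_860a31_lc.E
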