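import Pool.Agent.P.MP_860a31_lc.E.KStm
import Pool.Agent.P.MP_860a31_lc.Morley
import Pool.Agent.P.MP_860a31_lc.EndHom

/-!
Morley's method for a family of colourings.
-/

open Cardinal hiding univ
open Set

namespace Pool.Agent.P.MP_860a31_lc.E

namespace FamM

/-- `g` gives the colours of the sets of size below `n` on arbitrarily large subsets -/
def Good (h : Cardinal.{0}) {D : Type 1} {X : D → Type} {Γ : Type} (c : ∀ d, Finset (X d) → Γ)
    (n : ℕ) (g : ℕ → Γ) : Prop :=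
  ∀ θ < h, ∃ (d : D) (Y : Set (X d)), θ ≤ #Y ∧
    ∀ s : Finset (X d), (s : Set (X d)) ⊆ Y → s.card < n → c d s = g s.card

theorem step {h χ : Cardinal.{0}} (hh : Hanf h χ) {D : Type 1} {X : D → Type} {Γ : Type}
    (hΓ : #Γ ≤ χ) {n : ℕ} (H : MorleyP.Arrow h Γ n) {c : ∀ d, Finset (X d) → Γ} {g : ℕ → Γ}
    (hg : Good h c n g) : ∃ γ, Good h c (n + 1) (Function.update g n γ) := by
  by_contra hc
  simp only [Good, not_exists, not_forall, not_and] at hc
  choose f hf hbad using hc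
  obtain ⟨θ, hθ, hb⟩ := hh.2.2.2 Γ f hΓ hf
  obtain ⟨θ', hθ', H'⟩ := MorleyP.arrow_set H hθ
  obtain ⟨d, Z, hZ, hZg⟩ := hg θ' hθ'
  obtain ⟨Y, γ, hYZ, hY, hγ⟩ := H' (X d) Z hZ (c d)
  obtain ⟨s, hs, hcard, hne⟩ := hbad γ d Y ((hb γ).trans hY)
  apply hne
  rcases Nat.lt_succ_iff_lt_or_eq.1 hcard with h1 | h1
  · rw [Function.update_of_ne h1.ne]; exact hZg s (hs.trans hYZ) h1
  · rw [h1, Function.update_self]; exact hγ s hs h1

end FamM

open FamM in
theorem famMorley : S_FamMorley := by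
  intro k χ hh D X Γ hΓ c hX
  obtain ⟨d₀, -⟩ := hX χ hh.2.1
  have h0 : Good k c 0 (fun _ => c d₀ ∅) := fun θ hθ => by
    obtain ⟨d, hd⟩ := hX θ hθ
    exact ⟨d, univ, by rwa [mk_univ], fun s _ hs => absurd hs (Nat.not_lt_zero _)⟩
  choose F hF using fun (n : ℕ) (g : ℕ → Γ) (hg : Good k c n g) =>
    step hh hΓ (MorleyP.arrow endHom hh hΓ n) hg
  let G : ∀ n : ℕ, {g : ℕ → Γ // Good k c n g} := fun n =>
    Nat.rec (motive := fun n => {g : ℕ → Γ // Good k c n g}) ⟨_, h0⟩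
      (fun n g => ⟨_, hF n g.1 g.2⟩) n
  have hG : ∀ n, (G (n + 1)).1 = Function.update (G n).1 n (F n (G n).1 (G n).2) := fun _ => rfl
  have hst : ∀ m j, j < m → (G m).1 j = (G (j + 1)).1 j := by
    intro m
    induction m with
    | zero => intro j hj; exact absurd hj (Nat.not_lt_zero _)
    | succ m ih =>
      intro j hj
      rcases Nat.lt_succ_iff_lt_or_eq.1 hj with h1 | h1
      · rw [hG m, Function.update_of_ne h1.ne, ih j h1]
      · rw [h1]
  refine ⟨fun j => (G (j + 1)).1 j, fun n => ?_⟩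
  obtain ⟨d, Y, hY, hYg⟩ := (G (n + 1)).2 ℵ₀ (hh.1.trans_lt hh.2.1)
  have hinf : Y.Infinite := Set.infinite_coe_iff.1 (infinite_iff.2 hY)
  obtain ⟨t, ht, hcard⟩ := hinf.exists_subset_card_eq n
  refine ⟨d, t, hcard, fun s hs => ?_⟩
  have hlt : s.card < n + 1 := Nat.lt_succ_of_le (hcard ▸ Finset.card_le_card hs)
  rw [hYg s (Subset.trans (Finset.coe_subset.2 hs) ht) hlt, hst _ _ hlt]

end Pool.Agent.P.MP_860a31_lc.E
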