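import Pool.Agent.P.MP_860a31_lc.E.Cat

/-!
Canonical filtrations of objects of size at most `κ⁺` and their stages.
-/

open Cardinal hiding univ
open Set Order Filter Function

namespace Pool.Agent.P.MP_860a31_lc.E

namespace PC

variable (C : PC) (κ : Cardinal.{0})

/-- a continuous increasing exhaustion by small subobjects -/
structure IsFilt (A : C.Obj) (S : J κ → Set (C.U A)) : Prop where
  sub : ∀ γ, C.IsSub A (S γ)
  card : ∀ γ, #(S γ) ≤ κ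
  mono : Monotone S
  cont : ∀ δ, IsSuccLimit δ → ∀ x ∈ S δ, ∃ γ < δ, x ∈ S γ
  cover : ∀ x, ∃ γ, x ∈ S γ

open Classical in
/-- the chosen filtration -/
noncomputable def filt (A : C.Obj) : J κ → Set (C.U A) :=
  if h : ∃ S, C.IsFilt κ A S then h.choose else fun _ => univ

theorem filt_sub (A : C.Obj) (γ : J κ) : C.IsSub A (C.filt κ A γ) := by
  unfold filt
  split_ifs with h
  · exact h.choose_spec.sub γ
  · exact isSub_univ A

/-- the stage object -/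
noncomputable def st (A : C.Obj) (γ : J κ) : C.Obj := (C.filt_sub κ A γ).choose

variable {C κ}

/-- the inclusion of the stage object -/
noncomputable def val {A : C.Obj} {γ : J κ} : C.U (C.st κ A γ) → C.U A :=
  (C.filt_sub κ A γ).choose_spec.choose

theorem val_h {A : C.Obj} {γ : J κ} : C.IsH (val : C.U (C.st κ A γ) → C.U A) :=
  (C.filt_sub κ A γ).choose_spec.choose_spec.1

theorem range_val {A : C.Obj} {γ : J κ} :
    range (val : C.U (C.st κ A γ) → C.U A) = C.filt κ A γ :=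
  (C.filt_sub κ A γ).choose_spec.choose_spec.2

theorem val_mem {A : C.Obj} {γ : J κ} (x : C.U (C.st κ A γ)) : val x ∈ C.filt κ A γ :=
  range_val ▸ ⟨x, rfl⟩

theorem val_inj {A : C.Obj} {γ : J κ} {x y : C.U (C.st κ A γ)} (h : val x = val y) : x = y :=
  C.inj val_h h

/-- the point of the stage object lying over `a` -/
noncomputable def pt {A : C.Obj} (γ : J κ) (a : C.U A) : C.U (C.st κ A γ) := invFun val a

theorem val_pt {A : C.Obj} {γ : J κ} {a : C.U A} (h : a ∈ C.filt κ A γ) : val (pt γ a) = a :=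
  invFun_eq (by rwa [← range_val] at h)

theorem pt_val {A : C.Obj} {γ : J κ} (x : C.U (C.st κ A γ)) : pt γ (val x) = x :=
  val_inj (val_pt (val_mem x))

/-- the map induced on stage objects -/
noncomputable def stm {A B : C.Obj} (g : C.U A → C.U B) (γ δ : J κ) (x : C.U (C.st κ A γ)) :
    C.U (C.st κ B δ) := pt δ (g (val x))

/-- the transition map between stages -/
noncomputable def tr (A : C.Obj) (γ δ : J κ) : C.U (C.st κ A γ) → C.U (C.st κ A δ) :=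
  stm (fun x : C.U A => x) γ δ

/-- `g` maps stage `γ` into stage `δ` -/
def Into {A B : C.Obj} (g : C.U A → C.U B) (γ δ : J κ) : Prop :=
  MapsTo g (C.filt κ A γ) (C.filt κ B δ)

theorem Into.val {A B : C.Obj} {g : C.U A → C.U B} {γ δ : J κ} (h : Into g γ δ)
    (x : C.U (C.st κ A γ)) : val (stm g γ δ x) = g (val x) := val_pt (h (val_mem x))

theorem Into.isH {A B : C.Obj} {g : C.U A → C.U B} {γ δ : J κ} (h : Into g γ δ) (hg : C.IsH g) :
    C.IsH (stm g γ δ) := coh' val_h (C.comp val_h hg) h.val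

theorem Into.stm_pt {A B : C.Obj} {g : C.U A → C.U B} {γ δ : J κ} {a : C.U A}
    (ha : a ∈ C.filt κ A γ) : stm g γ δ (pt γ a) = pt δ (g a) := by rw [stm, val_pt ha]

theorem Into.comp {A B D : C.Obj} {g : C.U A → C.U B} {k : C.U B → C.U D} {γ δ ε : J κ}
    (h : Into g γ δ) (h' : Into k δ ε) : Into (fun x => k (g x)) γ ε := fun _ hx => h' (h hx)

theorem Into.stm_stm {A B D : C.Obj} {g : C.U A → C.U B} {k : C.U B → C.U D} {γ δ ε : J κ}
    (h : Into g γ δ) (x : C.U (C.st κ A γ)) :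
    stm k δ ε (stm g γ δ x) = stm (fun a => k (g a)) γ ε x := by
  rw [stm, h.val]; rfl

theorem stm_congr {A B : C.Obj} {g g' : C.U A → C.U B} {γ δ : J κ} {x : C.U (C.st κ A γ)}
    (h : g (val x) = g' (val x)) : stm g γ δ x = stm g' γ δ x := by rw [stm, stm, h]

theorem tr_self (A : C.Obj) (γ : J κ) (x : C.U (C.st κ A γ)) : tr A γ γ x = x := pt_val x

/-- a morphism with range inside a stage factors through it -/
theorem pt_h {A B : C.Obj} {g : C.U A → C.U B} {γ : J κ} (hg : C.IsH g)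
    (h : ∀ x, g x ∈ C.filt κ B γ) : C.IsH (fun x => pt γ (g x)) :=
  coh' val_h hg fun x => val_pt (h x)

namespace IsFilt

variable {A B : C.Obj} {S : J κ → Set (C.U A)} {T : J κ → Set (C.U B)}

theorem bdd (h : C.IsFilt κ A S) {X : Set (C.U A)} (hX : #X ≤ κ) : ∃ γ, X ⊆ S γ := by
  choose f hf using h.cover
  obtain ⟨b, hb⟩ := J.bdd_fun hX (fun x : X => f x)
  exact ⟨b, fun x hx => h.mono (hb ⟨x, hx⟩).le (hf x)⟩

theorem ev_sub (h : C.IsFilt κ A S) {X : Set (C.U A)} (hX : #X ≤ κ) :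
    ∀ᶠ γ in cf κ, X ⊆ S γ := by
  obtain ⟨b, hb⟩ := h.bdd hX
  exact (ev_ge b).mono fun γ hγ => hb.trans (h.mono hγ)

theorem ev_mem (h : C.IsFilt κ A S) (x : C.U A) : ∀ᶠ γ in cf κ, x ∈ S γ := by
  obtain ⟨b, hb⟩ := h.cover x
  exact (ev_ge b).mono fun γ hγ => h.mono hγ hb

/-- closure under a relation with small values -/
theorem ev_rel (h : C.IsFilt κ A S) (h' : C.IsFilt κ B T) (hκ : ℵ₀ ≤ κ)
    (φ : C.U A → Set (C.U B)) (hφ : ∀ x, #(φ x) ≤ κ) :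
    ∀ᶠ γ in cf κ, ∀ x ∈ S γ, φ x ⊆ T γ := by
  have hb : ∀ γ, ∃ δ, ∀ x ∈ S γ, φ x ⊆ T δ := fun γ => by
    obtain ⟨δ, hδ⟩ := h'.bdd (X := ⋃ x : S γ, φ x) ((mk_iUnion_le _).trans
      (mul_le_of_le hκ (h.card γ) (ciSup_le' fun x => hφ x)))
    exact ⟨δ, fun x hx => (subset_iUnion (fun x : S γ => φ x) ⟨x, hx⟩).trans hδ⟩
  choose g hg using hb
  filter_upwards [ev_closed g, ev_lim] with δ h1 h2 x hx
  obtain ⟨γ, hγ, hx'⟩ := h.cont δ h2 x hx
  exact (hg γ x hx').trans (h'.mono (h1 γ hγ).le)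

theorem ev_maps (h : C.IsFilt κ A S) (h' : C.IsFilt κ B T) (hκ : ℵ₀ ≤ κ) (φ : C.U A → C.U B) :
    ∀ᶠ γ in cf κ, MapsTo φ (S γ) (T γ) :=
  (h.ev_rel h' hκ (fun x => {φ x}) fun _ => by
    rw [mk_singleton]; exact one_le_aleph0.trans hκ).mono fun _ H x hx => H x hx rfl

theorem ev_eq {S' : J κ → Set (C.U A)} (h : C.IsFilt κ A S) (h' : C.IsFilt κ A S') (hκ : ℵ₀ ≤ κ) :
    ∀ᶠ γ in cf κ, S γ = S' γ := by
  filter_upwards [h.ev_maps h' hκ id, h'.ev_maps h hκ id] with γ h1 h2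
  exact Subset.antisymm h1 h2

end IsFilt

end PC

namespace CC

variable {C : CC} {κ : Cardinal.{0}}

theorem exists_filt (hκ : C.k0 ≤ κ) {A : C.Obj} (hA : #(C.U A) ≤ succ κ) :
    ∃ S, C.IsFilt κ A S := by
  have hi : ℵ₀ ≤ κ := C.inf.trans hκ
  obtain ⟨en, hen⟩ : ∃ en : J κ → C.U A, Surjective en := by
    rw [← J.card hi] at hA
    obtain ⟨e⟩ := (Cardinal.le_def _ _).1 hA
    exact ⟨invFun e, invFun_surjective e.injective⟩
  obtain ⟨T, hP, hR⟩ := chain_rec (Λ := J κ) (A := Set (C.U A))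
    (fun γ T => C.IsSub A T ∧ #T ≤ κ ∧ en γ ∈ T) (fun S T => S ⊆ T) (by
      intro γ a ha _
      obtain ⟨B, f, h1, h2, h3⟩ := PC.ls' hκ A (S := insert (en γ) (⋃ k, a k))
        (mk_insert_le.trans (add_le_of_le hi ((mk_iUnion_le _).trans (mul_le_of_le hi (J.iio hi γ)
          (ciSup_le' fun k => (ha k).2.1))) (one_le_aleph0.trans hi)))
      exact ⟨range f, ⟨PC.isSub_range h1, mk_range_le.trans h3, h2 (mem_insert _ _)⟩,
        fun k => (subset_iUnion a k).trans ((subset_insert _ _).trans h2)⟩)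
  have hm : Monotone T := fun a b h => by
    rcases h.eq_or_lt with rfl | h
    · exact le_rfl
    · exact hR a b h
  refine ⟨fun γ => ⋃ β : {β : J κ // β < γ ∨ β = ⊥}, T β, fun γ => ?_, fun γ => ?_, ?_, ?_, ?_⟩
  · have : Nonempty {β : J κ // β < γ ∨ β = ⊥} := ⟨⟨⊥, Or.inr rfl⟩⟩
    exact isSub_iUnion _ (fun β => (hP β).1) fun a b =>
      ⟨max a b, hm (le_max_left a b), hm (le_max_right a b)⟩
  · refine (mk_iUnion_le _).trans (mul_le_of_le hi ?_ (ciSup_le' fun β => (hP β).2.1))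
    refine (mk_le_mk_of_subset (t := Iic γ) ?_).trans (J.iic hi γ)
    rintro β (h | rfl)
    · exact h.le
    · exact mem_Iic.2 bot_le
  · intro a b h x hx
    obtain ⟨⟨β, hβ⟩, hx⟩ := mem_iUnion.1 hx
    exact mem_iUnion.2 ⟨⟨β, hβ.imp_left fun k => k.trans_le h⟩, hx⟩
  · intro δ hδ x hx
    obtain ⟨⟨β, hβ⟩, hx⟩ := mem_iUnion.1 hx
    have : β < δ := hβ.elim id fun e => e ▸ hδ.bot_lt
    exact ⟨succ β, hδ.succ_lt this, mem_iUnion.2 ⟨⟨β, Or.inl (lt_succ β)⟩, hx⟩⟩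
  · intro x
    obtain ⟨γ, rfl⟩ := hen x
    exact ⟨succ γ, mem_iUnion.2 ⟨⟨γ, Or.inl (lt_succ γ)⟩, (hP γ).2.2⟩⟩

theorem isFilt (hκ : C.k0 ≤ κ) {A : C.Obj} (hA : #(C.U A) ≤ succ κ) :
    C.IsFilt κ A (C.filt κ A) := by
  have h := exists_filt hκ hA
  unfold PC.filt
  rw [dif_pos h]
  exact h.choose_spec

theorem card_st (hκ : C.k0 ≤ κ) {A : C.Obj} (hA : #(C.U A) ≤ succ κ) (γ : J κ) :
    #(C.U (C.st κ A γ)) ≤ κ := by
  rw [← mk_range_eq _ (C.inj PC.val_h), PC.range_val]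
  exact (isFilt hκ hA).card γ

theorem into_tr (hκ : C.k0 ≤ κ) {A : C.Obj} (hA : #(C.U A) ≤ succ κ) {γ δ : J κ} (h : γ ≤ δ) :
    PC.Into (fun x : C.U A => x) γ δ := fun _ hx => (isFilt hκ hA).mono h hx

theorem val_tr (hκ : C.k0 ≤ κ) {A : C.Obj} (hA : #(C.U A) ≤ succ κ) {γ δ : J κ} (h : γ ≤ δ)
    (x : C.U (C.st κ A γ)) : PC.val (PC.tr A γ δ x) = PC.val x := (into_tr hκ hA h).val x

theorem tr_h (hκ : C.k0 ≤ κ) {A : C.Obj} (hA : #(C.U A) ≤ succ κ) {γ δ : J κ} (h : γ ≤ δ) :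
    C.IsH (PC.tr A γ δ) := (into_tr hκ hA h).isH (C.idH A)

theorem tr_tr (hκ : C.k0 ≤ κ) {A : C.Obj} (hA : #(C.U A) ≤ succ κ) {γ δ : J κ} (h : γ ≤ δ)
    (ε : J κ) (x : C.U (C.st κ A γ)) : PC.tr A δ ε (PC.tr A γ δ x) = PC.tr A γ ε x :=
  (into_tr hκ hA h).stm_stm x

theorem into_mono (hκ : C.k0 ≤ κ) {A B : C.Obj} (hA : #(C.U A) ≤ succ κ)
    (hB : #(C.U B) ≤ succ κ) {g : C.U A → C.U B} {γ γ' δ δ' : J κ} (h : PC.Into g γ δ)
    (h1 : γ' ≤ γ) (h2 : δ ≤ δ') : PC.Into g γ' δ' :=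
  fun _ hx => (isFilt hκ hB).mono h2 (h ((isFilt hκ hA).mono h1 hx))

theorem ev_into (hκ : C.k0 ≤ κ) {A B : C.Obj} (hA : #(C.U A) ≤ succ κ) (hB : #(C.U B) ≤ succ κ)
    (g : C.U A → C.U B) : ∀ᶠ γ in cf κ, PC.Into g γ γ :=
  (isFilt hκ hA).ev_maps (isFilt hκ hB) (C.inf.trans hκ) g

theorem ev_mem (hκ : C.k0 ≤ κ) {A : C.Obj} (hA : #(C.U A) ≤ succ κ) (a : C.U A) :
    ∀ᶠ γ in cf κ, a ∈ C.filt κ A γ := (isFilt hκ hA).ev_mem a

theorem ev_range (hκ : C.k0 ≤ κ) {A : C.Obj} (hA : #(C.U A) ≤ succ κ) {α : Type} (hα : #α ≤ κ)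
    (g : α → C.U A) : ∀ᶠ γ in cf κ, ∀ x, g x ∈ C.filt κ A γ :=
  ((isFilt hκ hA).ev_sub (X := range g) (mk_range_le.trans hα)).mono fun _ h x => h ⟨x, rfl⟩

/-- a surjection induces surjections on a club of stages -/
theorem ev_surj (hκ : C.k0 ≤ κ) {A B : C.Obj} (hA : #(C.U A) ≤ succ κ) (hB : #(C.U B) ≤ succ κ)
    {g : C.U A → C.U B} (hg : Surjective g) :
    ∀ᶠ γ in cf κ, PC.Into g γ γ ∧ Surjective (PC.stm g γ γ) := by
  filter_upwards [ev_into hκ hA hB g, ev_into hκ hB hA (surjInv hg)] with γ h1 h2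
  refine ⟨h1, fun y => ⟨PC.stm (surjInv hg) γ γ y, PC.val_inj ?_⟩⟩
  rw [h1.val, h2.val, surjInv_eq hg]

/-- the ranges of a continuous chain of small objects form a filtration of its colimit -/
theorem isFilt_chain {F : J κ → C.Obj} {A : C.Obj}
    (t : ∀ a b : J κ, a ≤ b → C.U (F a) → C.U (F b)) (u : ∀ a, C.U (F a) → C.U A)
    (hu : ∀ a, C.IsH (u a)) (hF : ∀ a, #(C.U (F a)) ≤ κ)
    (hut : ∀ a b h x, u b (t a b h x) = u a x)
    (hc : ∀ δ, IsSuccLimit δ → ∀ y, ∃ a, ∃ h : a < δ, ∃ x, t a δ h.le x = y)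
    (hs : ∀ y, ∃ a x, u a x = y) : C.IsFilt κ A (fun a => range (u a)) where
  sub a := PC.isSub_range (hu a)
  card a := mk_range_le.trans (hF a)
  mono a b h := by rintro _ ⟨x, rfl⟩; exact ⟨_, hut a b h x⟩
  cont δ hδ := by
    rintro _ ⟨y, rfl⟩
    obtain ⟨a, h, x, rfl⟩ := hc δ hδ y
    exact ⟨a, h, x, (hut _ _ _ _).symm⟩
  cover := hs

/-- a morphism defined on all earlier stages extends to a limit stage -/
theorem lift_st (hκ : C.k0 ≤ κ) {A D : C.Obj} (hA : #(C.U A) ≤ succ κ) {ι : Type}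
    [LinearOrder ι] (s : ι → J κ) (hs : Monotone s) {δ : J κ} (hδ : IsSuccLimit δ)
    (h1 : ∀ i, s i ≤ δ) (h2 : ∀ γ < δ, ∃ i, γ ≤ s i) (g : ∀ i, C.U (C.st κ A (s i)) → C.U D)
    (hg : ∀ i, C.IsH (g i)) (hc : ∀ i j, i ≤ j → ∀ x, g j (PC.tr A (s i) (s j) x) = g i x) :
    ∃ k : C.U (C.st κ A δ) → C.U D, C.IsH k ∧ ∀ i x, k (PC.tr A (s i) δ x) = g i x := by
  refine lift_chain (fun i => C.st κ A (s i)) (fun i j _ => PC.tr A (s i) (s j))
    (fun i => PC.tr A (s i) δ) g (fun i => tr_h hκ hA (h1 i)) hg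
    (fun i j h x => tr_tr hκ hA (hs h) δ x) hc fun y => ?_
  obtain ⟨γ, hγ, hy⟩ := (isFilt hκ hA).cont δ hδ _ (PC.val_mem y)
  obtain ⟨i, hi⟩ := h2 γ hγ
  refine ⟨i, PC.pt _ (PC.val y), PC.val_inj ?_⟩
  rw [val_tr hκ hA (h1 i), PC.val_pt ((isFilt hκ hA).mono hi hy)]

/-- a morphism defined on cofinally many stages extends to the whole object -/
theorem lift_top (hκ : C.k0 ≤ κ) {A D : C.Obj} (hA : #(C.U A) ≤ succ κ) {ι : Type}
    [LinearOrder ι] (s : ι → J κ) (hs : Monotone s) (h2 : ∀ γ, ∃ i, γ ≤ s i)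
    (g : ∀ i, C.U (C.st κ A (s i)) → C.U D)
    (hg : ∀ i, C.IsH (g i)) (hc : ∀ i j, i ≤ j → ∀ x, g j (PC.tr A (s i) (s j) x) = g i x) :
    ∃ k : C.U A → C.U D, C.IsH k ∧ ∀ i x, k (PC.val x) = g i x := by
  refine lift_chain (fun i => C.st κ A (s i)) (fun i j _ => PC.tr A (s i) (s j))
    (fun i => PC.val) g (fun i => PC.val_h) hg
    (fun i j h x => val_tr hκ hA (hs h) x) hc fun y => ?_
  obtain ⟨γ, hy⟩ := (isFilt hκ hA).cover y
  obtain ⟨i, hi⟩ := h2 γ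
  exact ⟨i, PC.pt _ y, PC.val_pt ((isFilt hκ hA).mono hi hy)⟩

end CC

end Pool.Agent.P.MP_860a31_lc.E
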