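import Pool.Agent.P.MP_860a31_lc.E.KStm
import Pool.Agent.P.MP_860a31_lc.Inst2
import Pool.Agent.P.MP_860a31_lc.Colim
import Pool.Agent.P.MP_860a31_lc.Dir
import Pool.Agent.P.MP_860a31_lc.Iwa

/-!
The categorical class attached to an abstract elementary class.
-/

open FirstOrder FirstOrder.Language
open Cardinal hiding univ
open Set Order Function

namespace Pool.Agent.P.MP_860a31_lc.E

namespace GlueP

variable {L : FirstOrder.Language.{0, 0}} {K : AEC L} {M N P : Type} [L.Structure M]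
  [L.Structure N] [L.Structure P]

/-- the underlying maps of `K`-embeddings -/
def H (K : AEC L) {M N : Type} [L.Structure M] [L.Structure N] (f : M → N) : Prop :=
  ∃ e : M ↪[L] N, K.IsEmb e ∧ ⇑e = f

theorem H.of {e : M ↪[L] N} (h : K.IsEmb e) : H K e := ⟨e, h, rfl⟩

theorem coh (h : M → N) {g : N → P} (hg : H K g) (hk : H K fun x => g (h x)) : H K h := by
  obtain ⟨g, hg, rfl⟩ := hg
  obtain ⟨k, hk, e⟩ := hk
  have e1 : ∀ x, g (h x) = k x := fun x => (congrFun e x).symm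
  have e2 : ∀ {n : ℕ} (x : Fin n → M), g ∘ h ∘ x = k ∘ x := fun x => funext fun i => e1 _
  let f : M ↪[L] N :=
    { toFun := h
      inj' := fun x y hxy => k.injective (by rw [← e1, ← e1, hxy])
      map_fun' := fun F x => g.injective (by
        rw [e1, k.map_fun, g.map_fun, e2])
      map_rel' := fun R x => by
        rw [← g.map_rel, e2, k.map_rel] }
  refine ⟨f, ?_, rfl⟩
  have h1 : k.toHom.range ≤ g.toHom.range := by
    rintro _ ⟨x, rfl⟩
    exact ⟨h x, e1 x⟩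
  have h2 : k.toHom.range.comap g.toHom = f.toHom.range := by
    ext y
    constructor
    · rintro ⟨x, hx⟩
      exact ⟨x, g.injective ((e1 x).trans hx)⟩
    · rintro ⟨x, rfl⟩
      exact ⟨x, (e1 x).symm⟩
  rw [AEC.IsEmb, ← h2]
  exact AEC.emb_comap hg hk h1

theorem smooth [Nonempty N] {ι : Type} (A : ι → Type) [∀ i, L.Structure (A i)]
    (u : ∀ i, A i → N) (g : N → P) (hu : ∀ i, H K (u i))
    (hd : ∀ i j, ∃ k, range (u i) ⊆ range (u k) ∧ range (u j) ⊆ range (u k))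
    (hs : ∀ y, ∃ i x, u i x = y) (hg : ∀ i, H K fun x => g (u i x)) : H K g := by
  choose u' _ hu' using hu
  obtain rfl : u = fun i => ⇑(u' i) := funext fun i => (hu' i).symm
  choose v hv hv' using hg
  have e1 : ∀ i x, g (u' i x) = v i x := fun i x => (congrFun (hv' i) x).symm
  have : Nonempty ι := ⟨(hs (Classical.arbitrary N)).choose⟩
  have fin : ∀ {n : ℕ} (x : Fin n → N), ∃ (i : ι) (a : Fin n → A i), x = u' i ∘ a := by
    intro n x
    choose j a ha using fun t => hs (x t)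
    obtain ⟨i, hi⟩ := Directed.finite_le (r := (· ≤ · : Set N → Set N → Prop))
      (f := fun i => range (u' i)) hd j
    choose b hb using fun t => hi t ⟨a t, rfl⟩
    exact ⟨i, b, funext fun t => ((hb t).trans (ha t)).symm⟩
  have e2 : ∀ {n : ℕ} (i : ι) (a : Fin n → A i), g ∘ u' i ∘ a = v i ∘ a :=
    fun i a => funext fun t => e1 _ _
  let f : N ↪[L] P :=
    { toFun := g
      inj' := fun x y hxy => by
        obtain ⟨i, a, ha⟩ := fin ![x, y]
        have hx : x = u' i (a 0) := congrFun ha 0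
        have hy : y = u' i (a 1) := congrFun ha 1
        rw [hx, hy, e1, e1] at hxy
        rw [hx, hy, (v i).injective hxy]
      map_fun' := fun F x => by
        obtain ⟨i, a, rfl⟩ := fin x
        change g _ = Structure.funMap F (g ∘ u' i ∘ a)
        rw [← (u' i).map_fun, e1, (v i).map_fun, e2]
      map_rel' := fun R x => by
        obtain ⟨i, a, rfl⟩ := fin x
        change Structure.RelMap R (g ∘ u' i ∘ a) ↔ _
        rw [e2, (v i).map_rel, (u' i).map_rel] }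
  refine ⟨f, ?_, rfl⟩
  let _ : Preorder ι := Preorder.lift fun i => range (u' i)
  have : IsDirected ι (· ≤ ·) := ⟨hd⟩
  have h1 : ⨆ i, (v i).toHom.range = f.toHom.range := by
    refine le_antisymm (iSup_le fun i => ?_) ?_
    · rintro _ ⟨x, rfl⟩
      exact ⟨u' i x, e1 i x⟩
    · rintro _ ⟨y, rfl⟩
      obtain ⟨i, x, rfl⟩ := hs y
      exact le_iSup (fun i => (v i).toHom.range) i ⟨x, (e1 i x).symm⟩
  rw [AEC.IsEmb, ← h1]
  refine dirS iwa L K P ι _ (fun i j hij => ?_) hv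
  rintro _ ⟨x, rfl⟩
  obtain ⟨y, hy⟩ := (hij : range (u' i) ⊆ range (u' j)) ⟨x, rfl⟩
  exact ⟨y, (e1 j y).symm.trans ((congrArg g hy).trans (e1 i x))⟩

theorem code {ι : Type} (hN : K.Mem N) {e : ι → M} {e' : ι → N} (he : Surjective e)
    (he' : Surjective e') (k1 : ∀ i j, e i = e j ↔ e' i = e' j)
    (k2 : ∀ (n : ℕ) (F : L.Functions n) (x : Fin n → ι) (j : ι),
      Structure.funMap F (e ∘ x) = e j ↔ Structure.funMap F (e' ∘ x) = e' j)
    (k3 : ∀ (n : ℕ) (R : L.Relations n) (x : Fin n → ι),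
      Structure.RelMap R (e ∘ x) ↔ Structure.RelMap R (e' ∘ x)) :
    ∃ f : M → N, H K f ∧ ∀ i, f (e i) = e' i := by
  have e1 : ∀ x, e (surjInv he x) = x := surjInv_eq he
  have e2 : ∀ {n : ℕ} (x : Fin n → M), e ∘ surjInv he ∘ x = x := fun x => funext fun t => e1 _
  let f : M ↪[L] N :=
    { toFun := fun x => e' (surjInv he x)
      inj' := fun x y hxy => by rw [← e1 x, ← e1 y]; exact (k1 _ _).2 hxy
      map_fun' := fun {n} F x => ((k2 n F (surjInv he ∘ x) _).1 (by rw [e1, e2])).symm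
      map_rel' := fun {n} R x => (k3 n R (surjInv he ∘ x)).symm.trans (by rw [e2]) }
  have e3 : ∀ i, f (e i) = e' i := fun i => (k1 _ _).1 (e1 _)
  refine ⟨f, ⟨f, ?_, rfl⟩, e3⟩
  have : f.toHom.range = ⊤ := by
    refine top_le_iff.1 fun y _ => ?_
    obtain ⟨i, rfl⟩ := he' y
    exact ⟨e i, e3 i⟩
  rw [AEC.IsEmb, this]
  exact K.refl N hN

/-- a large member of the class -/
def big {lam : Cardinal.{0}} (hlam : K.LS ≤ lam) (hM : K.Mem M) (h : lam ≤ #M) : K.Mod lam where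
  car := M
  mem := hM
  ne := mk_ne_zero_iff.1 (aleph0_pos.trans_le (K.ls_spec.1.trans (hlam.trans h))).ne'
  big := ⟨M, _, Embedding.refl L M, AEC.isEmb_equiv (Language.Equiv.refl L M) hM, h⟩

/-- the categorical class of `K` -/
noncomputable def kc (hAP : K.AP) {lam : Cardinal.{0}} (hlam : K.LS ≤ lam)
    (hl : hanf K.LS ≤ lam) (hcat : K.Categorical lam) : KC where
  Obj := K.Mod lam
  U A := A.car
  IsH := H K
  k0 := K.LS
  inf := K.ls_spec.1
  ne A := A.ne
  inj := by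
    rintro A B _ ⟨e, -, rfl⟩
    exact e.injective
  idH A := ⟨Embedding.refl L _, AEC.isEmb_equiv (Language.Equiv.refl L _) A.mem, rfl⟩
  comp := by
    rintro A B D _ _ ⟨e, he, rfl⟩ ⟨e', he', rfl⟩
    exact ⟨e'.comp e, AEC.isEmb_comp he he', rfl⟩
  coh := coh
  ls A S := by
    obtain ⟨a⟩ := A.ne
    obtain ⟨T, hT, h1, h2⟩ := K.ls_spec.2.2 A.car A.mem (insert a S)
    refine ⟨⟨T, (K.strong_mem _ hT).2, ⟨⟨a, h1 (mem_insert _ _)⟩⟩, ?_⟩, T.subtype,
      H.of (AEC.isEmb_subtype hT), fun x hx => ⟨⟨x, h1 (mem_insert_of_mem _ hx)⟩, rfl⟩,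
      h2.trans ?_⟩
    · obtain ⟨P, _, f, hf, hP⟩ := A.big
      exact ⟨P, _, f.comp T.subtype, AEC.isEmb_comp (AEC.isEmb_subtype hT) hf, hP⟩
    · calc #(insert a S : Set A.car) + K.LS ≤ #S + 1 + K.LS := add_le_add mk_insert_le le_rfl
        _ = #S + K.LS := by rw [add_assoc, add_comm 1, add_one_eq K.ls_spec.1]
  colim ι _ _ _ A f hf h1 h2 := by
    choose e he hef using hf
    obtain ⟨P, _, g, hg, k1, k2⟩ := colimK (dirU iwa) L K ι (fun i => (A i).car) e he
      (fun i x => by rw [hef]; exact h1 i x)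
      (fun i j k hij hjk x => by rw [hef, hef, hef]; exact h2 i j k hij hjk x)
    let i0 : ι := Classical.arbitrary ι
    exact ⟨(A i0).ext hAP (g i0) (hg i0), fun i => g i, fun i => H.of (hg i),
      fun i j h x => by rw [← hef]; exact k1 i j h x, k2⟩
  smooth A B _ := haveI := B.ne; smooth fun i => (A i).car
  ap := by
    rintro A B D _ _ ⟨e, he, rfl⟩ ⟨e', he', rfl⟩
    obtain ⟨Q, _, g1, g2, h1, h2, h3⟩ := hAP _ _ _ e e' he he'
    exact ⟨B.ext hAP g1 h1, g1, g2, H.of h1, H.of h2, h3⟩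
  jep A B := by
    obtain ⟨Q, _, f, g, hf, hg⟩ := AEC.jep hAP hlam hcat A B
    exact ⟨A.ext hAP f hf, f, g, H.of hf, H.of hg⟩
  lam := lam
  code ι := by
    obtain ⟨Cd, cd, hc, h⟩ := codeK L K.LS K.ls_spec.1 K.ls_spec.2.1 ι
    refine ⟨Cd, fun A => cd A.car, hc, fun A B e e' h0 he he' => ?_⟩
    obtain ⟨k1, k2, k3⟩ := h _ _ e e' h0
    exact code B.mem he he' k1 k2 k3
  cat_ex := by
    obtain ⟨M, _, hM, hc⟩ := hcat.1
    exact ⟨big hlam hM hc.ge, hc⟩
  cat A B hA hB := by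
    obtain ⟨e⟩ := hcat.2 A.car B.car A.mem B.mem hA hB
    exact ⟨e.toEmbedding, H.of (AEC.isEmb_equiv e B.mem), e.surjective⟩
  hl := hl

end GlueP

theorem glue {Q : Cardinal.{0} → Cardinal.{0} → Prop} (h : S_KMain fun K => Q K.k0 K.lam) :
    Goal2 Q := by
  intro L K hAP lam hl hQ hcat θ hθ M _ hM hc
  have hlam : K.LS ≤ lam := ((lt_hanf K.ls_spec.1).trans_le hl).le
  let A : K.Mod lam := GlueP.big hlam hM (hθ.trans hc.ge)
  obtain ⟨P, g, ⟨e, he, rfl⟩, hP, hg⟩ := h (GlueP.kc hAP hlam hl hcat) hQ θ hθ A hc.le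
  let φ : AEC.Mod.car P → K.GType M := fun b => Quot.mk _ ⟨AEC.Mod.car P, e, he, b⟩
  have hφ : Surjective φ := by
    rintro ⟨p⟩
    obtain ⟨b, Y, _, _, ⟨f, hf, rfl⟩, ⟨f', hf', rfl⟩, H⟩ :=
      hg (A.ext hAP p.emb p.isEmb) p.emb p.pt (GlueP.H.of p.isEmb)
    exact ⟨b, Quot.sound ⟨AEC.Mod.car Y, _, f', f, hf', hf,
      fun x => (H _ _ (Or.inl ⟨x, rfl, rfl⟩)).symm, (H _ _ (Or.inr ⟨rfl, rfl⟩)).symm⟩⟩
  have h1 := lift_mk_le_lift_mk_of_surjective hφ
  rw [lift_uzero] at h1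
  exact h1.trans (lift_le.2 hP)

end Pool.Agent.P.MP_860a31_lc.E
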