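import Pool.Agent.P.MP_860a31_lc.E.Stm

/-!
Good tops and good systems pass along isomorphisms.
-/

open Cardinal hiding univ
open Set Order Filter Function

namespace Pool.Agent.P.MP_860a31_lc.E

open PC Sys

theorem goodT : S_GoodT := by
  intro C S κ hκ v hv A B ρ Z Z' e e' p p' k hB hZ' hρ hk hs he hp hG
  have h0 := C.lv_ge hκ
  have hA : A.Small (succ κ) (S.Bd v) := fun y hy =>
    (mk_le_of_injective (C.inj (hρ.hom y hy))).trans (hB y hy)
  have hZ : #(C.U Z) ≤ succ κ := (mk_le_of_injective (C.inj hk)).trans hZ'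
  filter_upwards [hG, ev_cl hκ (S.cx_bd v) hA, ev_cl hκ (S.cx_bd v) hB,
    Sys.ev_into hκ (S.fin_bd v) hB hA ρ, CC.ev_surj h0 hZ hZ' hs,
    (eventually_all_finite (S.fin_bd v)).2 fun y hy => CC.ev_into h0 (hA y hy) hZ (e y),
    (eventually_all_finite (S.fin_mx v)).2 fun j _ => CC.ev_mem h0 hZ (p j)]
    with γ h1 h2 h3 h4 h5 h6 h7
  refine h1.transfer hv (h2.mor_stm h3 hρ h4) (h5.1.isH hk) h5.2 (fun y hy x => ?_)
    fun j hj => ?_
  · exact ((h4 y hy).stm_stm x).trans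
      ((stm_congr (he y hy _)).trans ((h6 y hy).stm_stm x).symm)
  · rw [Into.stm_pt (h7 j hj), hp j hj]

theorem goodIso (h : S_GoodT) : S_GoodIso := by
  intro C S κ hκ 𝒟 E hd hE A B ρ hρ hs hA
  obtain ⟨σ, hσ, -, -⟩ := hρ.inverse hs
  have hB : B.Small (succ κ) 𝒟 := fun y hy =>
    (mk_le_of_surjective (hs y hy)).trans (hA.small y hy)
  refine ⟨hB, hA.valid.of_mor hσ hd hE, fun y hy => (hA.sat y hy).iso (hρ.hom y hy) (hs y hy),
    fun y hy => ?_⟩
  have hf := (hd y hy).1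
  have key := h C S κ hκ y hf A B ρ (A.N y) (B.N y) (fun z => A.i z y) (fun z => B.i z y)
    (fun j => A.c j y) (fun j => B.c j y) (ρ y) (hB.mono (hd.bd_sub hy)) (hB y hy)
    (hρ.mono (hd.bd_sub hy) (hE y hy)) (hρ.hom y hy) (hs y hy)
    (fun z hz x => (hρ.nat z (hd.bd_sub hy hz) y hy hz.2.1 x).symm)
    (fun j hj => hρ.c (hE y hy hj.1) hy hf hj.1)
    ((hA.uq y hy).mono fun _ H => uq_iff.1 H)
  exact key.mono fun _ H => uq_iff.2 H

end Pool.Agent.P.MP_860a31_lc.E
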