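import Pool.Agent.P.MP_860a31_lc.E.Stm

/-!
Uniqueness of admissible cocones for the diagram of a morphism of systems.
-/

open Cardinal hiding univ
open Set Order Filter Function

namespace Pool.Agent.P.MP_860a31_lc.E

open PC Sys

namespace HUpP

variable {C : AX} {S : Shape C} {V M : Sys S} {σ : ∀ y, C.U (V.N y) → C.U (M.N y)}
  {v : Finset S.L} {𝒟 𝒟' : Set (Finset S.L)}

theorem mem_l {y : Finset S.L} (hy : y ∈ 𝒟) : Sum.inl y ∈ pairI 𝒟 𝒟' := Or.inl ⟨y, hy, rfl⟩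

theorem mem_r {y : Finset S.L} (hy : y ∈ 𝒟') : Sum.inr y ∈ pairI 𝒟 𝒟' := Or.inr ⟨y, hy, rfl⟩

theorem cone_l {E : Set S.L} {pc : Pc (pairDg V M σ) S.L} {Z : C.Obj}
    {e : ∀ i, C.U ((pairDg V M σ).X i) → C.U Z} {p : S.L → C.U Z}
    (h : Adm (pairDg V M σ) (pairI 𝒟 𝒟') pc Z e p) (hV : V.Valid 𝒟 E) :
    V.Cone 𝒟 Z (fun y => e (.inl y)) := by
  refine ⟨fun y hy => h.hom _ (mem_l hy), fun y hy z hz hyz x => ?_⟩
  rcases hyz.eq_or_ssubset with rfl | hyz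
  · exact congrArg (e (.inl y)) (hV.id y hy x)
  · exact h.nat _ (mem_l hy) _ (mem_l hz) hyz x

theorem cone_r {E : Set S.L} {pc : Pc (pairDg V M σ) S.L} {Z : C.Obj}
    {e : ∀ i, C.U ((pairDg V M σ).X i) → C.U Z} {p : S.L → C.U Z}
    (h : Adm (pairDg V M σ) (pairI 𝒟 𝒟') pc Z e p) (hM : M.Valid 𝒟' E) :
    M.Cone 𝒟' Z (fun y => e (.inr y)) := by
  refine ⟨fun y hy => h.hom _ (mem_r hy), fun y hy z hz hyz x => ?_⟩
  rcases hyz.eq_or_ssubset with rfl | hyz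
  · exact congrArg (e (.inr y)) (hM.id y hy x)
  · exact h.nat _ (mem_r hy) _ (mem_r hz) hyz x

theorem pnt_bd {Z : C.Obj} {e : ∀ i, C.U ((pairDg V M σ).X i) → C.U Z} {p : S.L → C.U Z}
    (h : Adm (pairDg V M σ) (pairI (S.Bd v) 𝒟') (bdPc V M σ v) Z e p) {j : S.L}
    (hj : S.Mx v j) : V.Pnt (S.Bd v) v j (fun y => e (.inl y)) (p j) :=
  ⟨fun _ hz hjz => h.idp j hj _ (mem_l hz) hjz, h.right j hj⟩

theorem aa_mix (hv : S.Face v) (hM : M.Valid (S.Bd v) v) {Z : C.Obj}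
    {e : ∀ i, C.U ((pairDg V M σ).X i) → C.U Z} {p : S.L → C.U Z}
    (h : Adm (pairDg V M σ) (pairI (S.Le v) (S.Bd v)) (mixPc V M σ v) Z e p) :
    AA V v (V.N v) (fun y => V.i y v) (fun j => V.c j v) M σ Z (e (.inl v))
      (fun y => e (.inr y)) := by
  have hp : ∀ j, S.Mx v j → e (.inl v) (V.c j v) = p j := fun j hj =>
    h.idp j hj _ (mem_l hv.mem_le) hj.1
  refine ⟨h.hom _ (mem_l hv.mem_le), ⟨cone_r h hM, fun j hj => ⟨fun z hz hjz => ?_, ?_⟩⟩,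
    fun z hz x => ?_⟩
  · exact (h.idp j hj _ (mem_r hz) hjz).trans (hp j hj).symm
  · have := h.right j hj
    rw [← hp j hj] at this
    exact this
  · have h1 := h.nat _ (mem_l (S.bd_sub_le v hz)) _ (mem_r hz) (subset_refl z) x
    have h2 := h.nat _ (mem_l (S.bd_sub_le v hz)) _ (mem_l hv.mem_le) hz.2 x
    exact (congrArg (e (.inr z)) (hM.id z hz (σ z x)).symm).trans (h1.trans h2.symm)

end HUpP

open HUpP

theorem huBd : S_HUbd := by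
  intro C S μ v _ hU V M σ hV Z e p Z' e' p' h h'
  rcases v.eq_empty_or_nonempty with rfl | hne
  · refine (El.empty Z Z').mono ?_
    rintro a b ⟨i, ⟨y, hy, -⟩ | ⟨y, hy, -⟩, -⟩
    · exact Finset.not_ssubset_empty y hy.2
    · exact hy
  · obtain ⟨j, hj⟩ := S.exists_mx hne
    refine (hU V hV j hj Z _ _ Z' _ _ (cone_l h hV.valid) (pnt_bd h hj) (cone_l h' hV.valid)
      (pnt_bd h' hj)).mono ?_
    rintro a b ⟨i, ⟨y, hy, rfl⟩ | ⟨y, hy, -⟩, hg⟩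
    · exact Or.inl ⟨y, hy, hg⟩
    · exact hy.elim

theorem huMix : S_HUmix := by
  intro C S μ v hv V M σ hU hV hM hσ Z e p Z' e' p' h h'
  refine (uq_iff.1 hU M σ hM hσ Z _ _ Z' _ _ (aa_mix hv hM.valid h)
    (aa_mix hv hM.valid h')).mono ?_
  rintro a b ⟨i, ⟨y, hy, rfl⟩ | ⟨y, hy, rfl⟩, x, rfl, rfl⟩
  · exact Or.inl ⟨V.i y v x, (cone_l h hV).nat y hy v hv.mem_le hy.2 x,
      (cone_l h' hV).nat y hy v hv.mem_le hy.2 x⟩
  · exact Or.inr ⟨y, hy, x, rfl, rfl⟩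

end Pool.Agent.P.MP_860a31_lc.E
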