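import Pool.Agent.P.MP_860a31_lc.Basic

/-!
Index well-orders, the club filter, and recursion along continuous chains.
-/

open Cardinal hiding univ
open Set Order Filter

namespace Pool.Agent.P.MP_860a31_lc.E

/-- the initial well-order of size `max θ ℵ₀` -/
def W (θ : Cardinal.{0}) : Type := (max θ ℵ₀).ord.ToType

noncomputable instance (θ : Cardinal.{0}) : LinearOrder (W θ) :=
  inferInstanceAs (LinearOrder (max θ ℵ₀).ord.ToType)
instance (θ : Cardinal.{0}) : WellFoundedLT (W θ) :=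
  inferInstanceAs (WellFoundedLT (max θ ℵ₀).ord.ToType)
noncomputable instance (θ : Cardinal.{0}) : SuccOrder (W θ) :=
  inferInstanceAs (SuccOrder (max θ ℵ₀).ord.ToType)
instance (θ : Cardinal.{0}) : NoMaxOrder (W θ) := Cardinal.noMaxOrder (le_max_right θ ℵ₀)
noncomputable instance (θ : Cardinal.{0}) : OrderBot (W θ) :=
  haveI : Nonempty (W θ) := Ordinal.nonempty_toType_iff.2 (by
    rw [Ne, Cardinal.ord_eq_zero]; exact (aleph0_pos.trans_le (le_max_right θ ℵ₀)).ne')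
  WellFoundedLT.toOrderBot (W θ)

theorem W.card' (θ : Cardinal.{0}) : #(W θ) = max θ ℵ₀ := by
  change #((max θ ℵ₀).ord.ToType) = _
  rw [mk_ord_toType]

theorem W.card {θ : Cardinal.{0}} (h : ℵ₀ ≤ θ) : #(W θ) = θ := by rw [W.card', max_eq_left h]

theorem W.iio' {θ : Cardinal.{0}} (a : W θ) : #(Iio a) < max θ ℵ₀ := mk_Iio_toType_ord_lt a

theorem W.iio {θ : Cardinal.{0}} (h : ℵ₀ ≤ θ) (a : W θ) : #(Iio a) < θ := by
  have := W.iio' a; rwa [max_eq_left h] at this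

theorem W.cof' (θ : Cardinal.{0}) : Order.cof (W θ) = (max θ ℵ₀).ord.cof := by
  change Order.cof ((max θ ℵ₀).ord.ToType) = _
  rw [Ordinal.cof_toType]

/-- sets smaller than the cofinality are strictly bounded -/
theorem W.bdd {θ : Cardinal.{0}} (h : ℵ₀ ≤ θ) {s : Set (W θ)} (hs : #s < θ.ord.cof) :
    ∃ b, ∀ a ∈ s, a < b := by
  have h1 : ¬ IsCofinal s := fun hc => by
    have := Order.cof_le hc
    rw [W.cof', max_eq_left h] at this
    exact this.not_gt hs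
  obtain ⟨b, hb⟩ := not_isCofinal_iff.1 h1
  exact ⟨b, hb⟩

/-- every smaller cardinal is the size of an initial segment, up to `≤` -/
theorem W.exists_iio {θ χ : Cardinal.{0}} (h : ℵ₀ ≤ θ) (hχ : χ < θ) :
    ∃ a : W θ, χ ≤ #(Iio a) := by
  obtain ⟨e, he⟩ := (show S_WO from by
    intro S Y _ _ _ _ h
    rcases InitialSeg.total ((· < ·) : S → S → Prop) ((· < ·) : Y → Y → Prop) with ⟨e⟩ | ⟨e⟩
    · exact ⟨e, fun a b hab => e.map_rel_iff.2 hab⟩
    · exact absurd (mk_le_of_injective e.injective) h.not_ge) (WithTop χ.ord.ToType) (W θ) (by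
      rw [W.card h]
      change #(Option χ.ord.ToType) < θ
      rw [mk_option, mk_ord_toType]
      exact add_lt_of_lt h hχ (one_lt_aleph0.trans_le h))
  refine ⟨e ⊤, ?_⟩
  refine (mk_ord_toType χ).ge.trans ?_
  exact mk_le_of_injective (f := fun x => (⟨e (x : WithTop _), he (WithTop.coe_lt_top x)⟩ : Iio _))
    fun x y hxy => WithTop.coe_injective (he.injective (congrArg Subtype.val hxy))

/-- the initial well-order of the successor of `max κ ℵ₀` -/
abbrev J (κ : Cardinal.{0}) : Type := W (succ (max κ ℵ₀))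

theorem J.inf (κ : Cardinal.{0}) : ℵ₀ ≤ succ (max κ ℵ₀) := (le_max_right _ _).trans (le_succ _)

theorem J.card {κ : Cardinal.{0}} (h : ℵ₀ ≤ κ) : #(J κ) = succ κ := by
  rw [W.card (J.inf κ), max_eq_left h]

theorem J.iio {κ : Cardinal.{0}} (h : ℵ₀ ≤ κ) (a : J κ) : #(Iio a) ≤ κ := by
  exact (lt_succ_iff.1 (W.iio (J.inf κ) a)).trans_eq (max_eq_left h)

theorem J.iic {κ : Cardinal.{0}} (h : ℵ₀ ≤ κ) (a : J κ) : #(Iic a) ≤ κ := by
  rw [← Iio_succ]; exact J.iio h _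

theorem J.cof (κ : Cardinal.{0}) : Order.cof (J κ) = succ (max κ ℵ₀) := by
  rw [W.cof', max_eq_left (J.inf κ), (isRegular_succ (le_max_right κ ℵ₀)).cof_ord]

theorem J.cof_ne (κ : Cardinal.{0}) : Order.cof (J κ) ≠ ℵ₀ := by
  rw [J.cof]; exact ((le_max_right _ _).trans_lt (lt_succ _)).ne'

theorem J.bdd' {κ : Cardinal.{0}} {s : Set (J κ)} (hs : #s ≤ max κ ℵ₀) : ∃ b, ∀ a ∈ s, a < b :=
  W.bdd (J.inf κ) (by
    rw [(isRegular_succ (le_max_right κ ℵ₀)).cof_ord]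
    exact hs.trans_lt (lt_succ _))

theorem J.bdd {κ : Cardinal.{0}} {s : Set (J κ)} (hs : #s ≤ κ) : ∃ b, ∀ a ∈ s, a < b :=
  J.bdd' (hs.trans (le_max_left _ _))

theorem J.bdd_fun' {κ : Cardinal.{0}} {ι : Type} (hι : #ι ≤ max κ ℵ₀) (f : ι → J κ) :
    ∃ b, ∀ i, f i < b := by
  obtain ⟨b, hb⟩ := J.bdd' (s := range f) (mk_range_le.trans hι)
  exact ⟨b, fun i => hb _ ⟨i, rfl⟩⟩

theorem J.bdd_fun {κ : Cardinal.{0}} {ι : Type} (hι : #ι ≤ κ) (f : ι → J κ) :
    ∃ b, ∀ i, f i < b := by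
  obtain ⟨b, hb⟩ := J.bdd (s := range f) (mk_range_le.trans hι)
  exact ⟨b, fun i => hb _ ⟨i, rfl⟩⟩

/-- least upper bounds of bounded sets in a well-order -/
theorem exists_lub {Λ : Type} [LinearOrder Λ] [WellFoundedLT Λ] {s : Set Λ} (h : BddAbove s) :
    ∃ δ, IsLUB s δ :=
  ⟨wellFounded_lt.min _ h, wellFounded_lt.min_mem _ h,
    fun _ hb => not_lt.1 (wellFounded_lt.not_lt_min _ hb)⟩

/-- the supremum of a family without largest member is a limit and is approached by it -/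
theorem exists_sup {Λ ι : Type} [LinearOrder Λ] [WellFoundedLT Λ] [Nonempty ι] (f : ι → Λ)
    (hb : ∃ b, ∀ i, f i < b) (hf : ∀ i, ∃ j, f i < f j) :
    ∃ δ, IsLUB (range f) δ ∧ IsSuccLimit δ ∧ (∀ i, f i < δ) ∧ ∀ γ < δ, ∃ i, γ < f i := by
  obtain ⟨b, hb⟩ := hb
  obtain ⟨δ, hδ⟩ := exists_lub (s := range f) ⟨b, by rintro _ ⟨i, rfl⟩; exact (hb i).le⟩
  have h1 : ∀ i, f i < δ := fun i => by
    obtain ⟨j, hj⟩ := hf i
    exact hj.trans_le (hδ.1 ⟨j, rfl⟩)
  have h2 : ∀ γ < δ, ∃ i, γ < f i := fun γ hγ => by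
    by_contra hc
    push Not at hc
    exact hγ.not_ge (hδ.2 (by rintro _ ⟨i, rfl⟩; exact hc i))
  refine ⟨δ, hδ, ⟨fun hm => (h1 (Classical.arbitrary ι)).not_ge (hm (h1 _).le), ?_⟩, h1, h2⟩
  intro γ hγ
  obtain ⟨i, hi⟩ := h2 γ hγ.lt
  exact hγ.2 hi (h1 i)

/-- the club filter -/
def cf (κ : Cardinal.{0}) : Filter (J κ) where
  sets := {s | ∃ D, IsClub D ∧ D ⊆ s}
  univ_sets := ⟨univ, IsClub.univ, subset_rfl⟩
  sets_of_superset := fun ⟨D, hD, h⟩ h' => ⟨D, hD, h.trans h'⟩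
  inter_sets := fun ⟨D, hD, h⟩ ⟨D', hD', h'⟩ =>
    ⟨D ∩ D', hD.inter (J.cof_ne κ) hD', inter_subset_inter h h'⟩

variable {κ : Cardinal.{0}}

theorem ev_iff {P : J κ → Prop} : (∀ᶠ γ in cf κ, P γ) ↔ ∃ D, IsClub D ∧ ∀ γ ∈ D, P γ := Iff.rfl

theorem ev_club {D : Set (J κ)} (h : IsClub D) : ∀ᶠ γ in cf κ, γ ∈ D := ⟨D, h, subset_rfl⟩

instance : (cf κ).NeBot := ⟨fun h => by
  have : (∅ : Set (J κ)) ∈ cf κ := by rw [h]; exact mem_bot
  obtain ⟨D, hD, h⟩ := this
  exact hD.nonempty.elim fun x hx => h hx⟩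

theorem club_inter {D D' : Set (J κ)} (h : IsClub D) (h' : IsClub D') : IsClub (D ∩ D') :=
  h.inter (J.cof_ne κ) h'

theorem club_Ici (a : J κ) : IsClub (Ici a) :=
  ⟨fun _ hd ⟨_, hx⟩ _ _ hl => (hd hx).trans (hl.1 hx), fun b => ⟨max a b, mem_Ici.2 (le_max_left _ _),
    le_max_right _ _⟩⟩

theorem ev_ge (a : J κ) : ∀ᶠ γ in cf κ, a ≤ γ := ev_club (club_Ici a)

theorem ev_gt (a : J κ) : ∀ᶠ γ in cf κ, a < γ :=
  (ev_ge (succ a)).mono fun _ h => (lt_succ a).trans_le h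

theorem ev_exists_gt {P : J κ → Prop} (h : ∀ᶠ γ in cf κ, P γ) (a : J κ) : ∃ γ, a < γ ∧ P γ :=
  ((ev_gt a).and h).exists

/-- the club filter is closed under intersections of `κ` sets -/
theorem ev_all {ι : Type} (hι : #ι ≤ κ) {P : ι → J κ → Prop} (h : ∀ i, ∀ᶠ γ in cf κ, P i γ) :
    ∀ᶠ γ in cf κ, ∀ i, P i γ := by
  choose D hD hP using h
  refine ⟨⋂ i, D i, IsClub.iInter (J.cof_ne κ) ?_ hD, fun γ hγ i => hP i (mem_iInter.1 hγ i)⟩
  rw [lift_id, lift_id, J.cof]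
  exact (hι.trans (le_max_left _ _)).trans_lt (lt_succ _)

/-- the points closed under a function form a club -/
theorem ev_closed (g : J κ → J κ) : ∀ᶠ δ in cf κ, ∀ γ < δ, g γ < δ := by
  refine ⟨{δ | ∀ γ < δ, g γ < δ}, ⟨?_, ?_⟩, subset_rfl⟩
  · intro d hd hne _ a ha γ hγ
    obtain ⟨b, hb, hγb⟩ : ∃ b ∈ d, γ < b := by
      by_contra hc
      push Not at hc
      exact hγ.not_ge (ha.2 hc)
    exact (hd hb γ hγb).trans_le (ha.1 hb)
  · intro a
    have hb : ∀ b : J κ, ∃ c, b < c ∧ ∀ γ ≤ b, g γ < c := fun b => by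
      obtain ⟨c, hc⟩ := J.bdd_fun' (ι := Iio (succ b)) (lt_succ_iff.1 (W.iio (J.inf κ) (succ b)))
        (fun x => g x)
      exact ⟨max c (succ b), (lt_succ b).trans_le (le_max_right _ _), fun γ hγ =>
        (hc ⟨γ, lt_succ_iff.2 hγ⟩).trans_le (le_max_left _ _)⟩
    choose F hF hF' using hb
    let s : ℕ → J κ := fun n => F^[n] a
    have hs : ∀ n, s (n + 1) = F (s n) := fun n => Function.iterate_succ_apply' F n a
    obtain ⟨δ, -, -, h1, h2⟩ := exists_sup s (J.bdd_fun' (by simp) s) (fun n => ⟨n + 1, by rw [hs]; exact hF _⟩)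
    refine ⟨δ, fun γ hγ => ?_, (h1 0).le⟩
    obtain ⟨n, hn⟩ := h2 γ hγ
    exact ((hF' _ γ hn.le).trans_eq (hs n).symm).trans (h1 _)

theorem ev_lim : ∀ᶠ δ in cf κ, IsSuccLimit δ := by
  filter_upwards [ev_closed succ, ev_gt ⊥] with δ h h'
  exact ⟨not_isMin_of_lt h', isSuccPrelimit_of_succ_lt h⟩

/-- A chain of states with transition maps, indexed by a subset `D` of the index order. -/
structure Chn {Λ : Type} [LinearOrder Λ] {St : Type 1} {ι : Type} (X : St → ι → Type)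
    (Hom : ∀ S S' : St, (∀ i, X S i → X S' i) → Prop) (D : Set Λ) where
  F : D → St
  t : ∀ a b : D, a ≤ b → ∀ i, X (F a) i → X (F b) i
  hom : ∀ a b h, Hom (F a) (F b) (t a b h)
  t_id : ∀ a i x, t a a le_rfl i x = x
  t_comp : ∀ a b c (h : a ≤ b) (h' : b ≤ c) i x, t b c h' i (t a b h i x) = t a c (h.trans h') i x

/-- auxiliary record for `gchain` -/
structure GRec (Λ : Type) {St : Type 1} {ι : Type} (X : St → ι → Type) where
  idx : Λ
  S : St
  H : Λ → St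
  m : Λ → ∀ S' : St, ∀ i, X S' i → Option (X S i)

/-- Recursion along continuous chains.  `Inv` holds at every index, `Step` at successor steps,
and every element at a limit index comes from an earlier index. -/
theorem gchain {Λ : Type} [LinearOrder Λ] [WellFoundedLT Λ] [SuccOrder Λ] [OrderBot Λ]
    [NoMaxOrder Λ] {St : Type 1} {ι : Type} (X : St → ι → Type)
    (Hom : ∀ S S' : St, (∀ i, X S i → X S' i) → Prop)
    (hid : ∀ S, Hom S S (fun _ x => x))
    (hcomp : ∀ S S' S'' f g, Hom S S' f → Hom S' S'' g → Hom S S'' (fun i x => g i (f i x)))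
    (Inv : Λ → St → Prop) (Step : Λ → ∀ S S' : St, (∀ i, X S i → X S' i) → Prop)
    (S0 : St) (h0 : Inv ⊥ S0)
    (hstep : ∀ γ S, Inv γ S → ∃ S' f, Hom S S' f ∧ Inv (succ γ) S' ∧ Step γ S S' f)
    (hlim : ∀ δ, IsSuccLimit δ → ∀ c : Chn X Hom (Iio δ), (∀ a : Iio δ, Inv a (c.F a)) →
      (∀ a b : Iio δ, ∀ h : a ≤ b, b.1 = succ a.1 → Step a (c.F a) (c.F b) (c.t a b h)) →
      ∃ S, ∃ u : ∀ a i, X (c.F a) i → X S i, Inv δ S ∧ (∀ a, Hom (c.F a) S (u a)) ∧
        (∀ a b h i x, u b i (c.t a b h i x) = u a i x) ∧ ∀ i y, ∃ a x, u a i x = y) :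
    ∃ (F : Λ → St) (t : ∀ a b : Λ, a ≤ b → ∀ i, X (F a) i → X (F b) i), F ⊥ = S0 ∧
      (∀ a, Inv a (F a)) ∧ (∀ a b h, Hom (F a) (F b) (t a b h)) ∧
      (∀ a i x, t a a le_rfl i x = x) ∧
      (∀ a b c (h : a ≤ b) (h' : b ≤ c) i x, t b c h' i (t a b h i x) = t a c (h.trans h') i x) ∧
      (∀ a, Step a (F a) (F (succ a)) (t a (succ a) (le_succ a))) ∧
      ∀ δ, IsSuccLimit δ → ∀ i y, ∃ a, ∃ h : a < δ, ∃ x, t a δ h.le i x = y := by
  classical
  let P : Λ → GRec Λ X → Prop := fun k a => a.idx = k ∧ a.H k = a.S ∧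
    (∀ i x, a.m k a.S i x = some x) ∧ (∀ l S' i x y, a.m l S' i x = some y → S' = a.H l) ∧
    Inv k a.S ∧ (k = ⊥ → a.S = S0) ∧
    (∀ γ, k = succ γ → ∃ f, Step γ (a.H γ) a.S f ∧ ∀ i x, a.m γ (a.H γ) i x = some (f i x)) ∧
    (IsSuccLimit k → ∀ i y, ∃ l < k, ∃ x, a.m l (a.H l) i x = some y)
  let R : GRec Λ X → GRec Λ X → Prop := fun a b => b.H a.idx = a.S ∧ ∃ f, Hom a.S b.S f ∧
    ∀ l ≤ a.idx, ∀ S' i x, b.m l S' i x = (a.m l S' i x).map (f i)
  have mk : ∀ (D : Set Λ) (a : D → GRec Λ X), (∀ k : D, P k (a k)) →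
      (∀ k l : D, k < l → R (a k) (a l)) →
      ∃ t : ∀ k l : D, k ≤ l → ∀ i, X (a k).S i → X (a l).S i,
        (∀ (k l : D) h i x, (a l).m k (a k).S i x = some (t k l h i x)) ∧
        (∀ k l h, Hom (a k).S (a l).S (t k l h)) ∧ (∀ k i x, t k k le_rfl i x = x) ∧
        (∀ k l n (h : k ≤ l) (h' : l ≤ n) i x,
          t l n h' i (t k l h i x) = t k n (h.trans h') i x) ∧
        (∀ k l : D, k ≤ l → (a l).H k = (a k).S) ∧
        ∀ (k l : D) (h : k ≤ l) (j : Λ), j ≤ k → ∀ S' i x,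
          (a l).m j S' i x = ((a k).m j S' i x).map (t k l h i) := by
    intro D a hP hR
    have ex : ∀ k l : D, k ≤ l → ∃ f, Hom (a k).S (a l).S f ∧
        ∀ j ≤ k.1, ∀ S' i x, (a l).m j S' i x = ((a k).m j S' i x).map (f i) := by
      intro k l h
      rcases h.eq_or_lt with rfl | h
      · exact ⟨fun _ x => x, hid _, fun j _ S' i x => by simp⟩
      · obtain ⟨-, f, hf, hm⟩ := hR k l h
        exact ⟨f, hf, fun j hj => hm j ((hP k).1.symm ▸ hj)⟩
    choose t ht hm using ex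
    have h1 : ∀ (k l : D) h i x, (a l).m k (a k).S i x = some (t k l h i x) := fun k l h i x => by
      rw [hm k l h k le_rfl, (hP k).2.2.1]; rfl
    refine ⟨t, h1, ht, fun k i x => ?_, fun k l n h h' i x => ?_, fun k l h => ?_, hm⟩
    · exact Option.some_injective _ ((h1 k k le_rfl i x).symm.trans ((hP k).2.2.1 i x))
    · apply Option.some_injective
      rw [← h1 k n, hm l n h' k h, h1 k l h]; rfl
    · rcases h.eq_or_lt with rfl | h
      · exact (hP k).2.1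
      · have := (hR k l h).1
        rwa [(hP k).1] at this
  obtain ⟨a, hP, hR⟩ := chain_rec (Λ := Λ) P R (by
    intro k a hP hR
    obtain ⟨t, h1, h2, h3, h4, h5, h6⟩ := mk (Iio k) a hP hR
    let c : Chn X Hom (Iio k) := ⟨fun l => (a l).S, t, h2, h3, h4⟩
    have key : ∃ S, ∃ u : ∀ l : Iio k, ∀ i, X (a l).S i → X S i, Inv k S ∧
        (∀ l, Hom (a l).S S (u l)) ∧ (∀ l n h i x, u n i (t l n h i x) = u l i x) ∧
        (k = ⊥ → S = S0) ∧ (∀ γ (h : γ < k), k = succ γ → Step γ (a ⟨γ, h⟩).S S (u ⟨γ, h⟩)) ∧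
        (IsSuccLimit k → ∀ i y, ∃ l x, u l i x = y) := by
      rcases eq_or_ne k ⊥ with rfl | hk
      · exact ⟨S0, fun l => absurd l.2 not_lt_bot, h0, fun l => absurd l.2 not_lt_bot,
          fun l => absurd l.2 not_lt_bot, fun _ => rfl, fun γ h => absurd h not_lt_bot,
          fun h => absurd isMin_bot h.not_isMin⟩
      by_cases hl : IsSuccLimit k
      · obtain ⟨S, u, k1, k2, k3, k4⟩ := hlim k hl c (fun l => (hP l).2.2.2.2.1) (by
          intro l n h e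
          obtain ⟨f, hf, hf'⟩ := (hP n).2.2.2.2.2.2.1 l e
          have e2 := h5 l n h
          have : ∀ S' (e : S' = (a l).S) (f : ∀ i, X S' i → X (a n).S i), Step l S' (a n).S f →
              (∀ i x, (a n).m l S' i x = some (f i x)) → Step l (a l).S (a n).S (t l n h) := by
            rintro _ rfl f hf hf'
            have : f = t l n h := by
              funext i x; exact Option.some_injective _ ((hf' i x).symm.trans (h1 l n h i x))
            exact this ▸ hf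
          exact this _ e2 f hf hf')
        exact ⟨S, u, k1, k2, k3, fun h => absurd h hk,
          fun γ _ e => absurd (e ▸ hl) (not_isSuccLimit_succ γ), fun _ => k4⟩
      · obtain ⟨γ, rfl⟩ : ∃ γ, succ γ = k := by
          rcases not_isSuccLimit_iff.1 hl with h | h
          · exact absurd h.eq_bot hk
          · obtain ⟨γ, -, h⟩ := not_isSuccPrelimit_iff_succ_eq.1 h
            exact ⟨γ, h⟩
        let g : Iio (succ γ) := ⟨γ, lt_succ γ⟩
        have hg : ∀ l : Iio (succ γ), l ≤ g := fun l => (lt_succ_iff (a := l.1) (b := γ)).1 l.2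
        obtain ⟨S, f, k1, k2, k3⟩ := hstep γ (a g).S (hP g).2.2.2.2.1
        refine ⟨S, fun l i x => f i (t l g (hg l) i x), k2,
          fun l => hcomp _ _ _ _ _ (h2 l g (hg l)) k1, fun l n h i x => congrArg (f i) (h4 _ _ _ _ _ _ _),
          fun h => absurd h hk, fun γ' h e => ?_, fun h => absurd h hl⟩
        obtain rfl : γ = γ' := succ_injective e
        have : (fun i x => f i (t g g (hg g) i x)) = f := by funext i x; rw [h3]
        change Step γ (a g).S S (fun i x => f i (t g g (hg g) i x))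
        rw [this]; exact k3
    obtain ⟨S, u, k1, k2, k3, k4, k5, k6⟩ := key
    let H : Λ → St := fun l => if h : l < k then (a ⟨l, h⟩).S else S
    have hH : ∀ l (h : l < k), H l = (a ⟨l, h⟩).S := fun l h => dif_pos h
    have hHk : H k = S := dif_neg (lt_irrefl k)
    let m : Λ → ∀ S' : St, ∀ i, X S' i → Option (X S i) := fun l S' i x =>
      if h : l < k then (if e : S' = (a ⟨l, h⟩).S then some (u ⟨l, h⟩ i (e ▸ x)) else none)
      else if e : l = k ∧ S' = S then some (e.2 ▸ x) else none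
    have hm : ∀ l (h : l < k) i x, m l (a ⟨l, h⟩).S i x = some (u ⟨l, h⟩ i x) := fun l h i x => by
      simp only [m, dif_pos h, dif_pos]
    have hm' : ∀ l (h : l < k) S' (e : S' = (a ⟨l, h⟩).S) (f : ∀ i, X (a ⟨l, h⟩).S i → X S i),
        Step l (a ⟨l, h⟩).S S (u ⟨l, h⟩) →
        ∃ f, Step l S' S f ∧ ∀ i x, m l S' i x = some (f i x) := by
      rintro l h _ rfl f hf
      exact ⟨_, hf, hm l h⟩
    refine ⟨⟨k, S, H, m⟩, ⟨rfl, hHk, fun i x => ?_, fun l S' i x y hy => ?_, k1, k4,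
      fun γ e => ?_, fun hl i y => ?_⟩, fun l => ⟨?_, u l, k2 l, fun j hj S' i x => ?_⟩⟩
    · simp only [m, dif_neg (lt_irrefl k), and_self, dif_pos]
    · change S' = H l
      by_cases h : l < k
      · rw [hH l h]
        by_contra e
        simp only [m, dif_pos h, dif_neg e] at hy
        cases hy
      · by_cases e : l = k ∧ S' = S
        · rw [e.1, hHk]; exact e.2
        · simp only [m, dif_neg h, dif_neg e] at hy
          cases hy
    · have h : γ < k := e ▸ lt_succ γ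
      exact hm' γ h _ (hH γ h) (u ⟨γ, h⟩) (k5 γ h e)
    · obtain ⟨l, x, hx⟩ := k6 hl i y
      refine ⟨l, l.2, ?_⟩
      have : ∀ S' (e : S' = (a l).S), ∃ x, m l S' i x = some y := by
        rintro _ rfl
        exact ⟨x, by rw [hm l l.2, hx]⟩
      exact this _ (hH l l.2)
    · change H (a l).idx = _
      rw [(hP l).1]; exact hH l l.2
    · rw [(hP l).1] at hj
      have hjk : j < k := hj.trans_lt l.2
      change m j S' i x = _
      by_cases e : S' = (a ⟨j, hjk⟩).S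
      · subst e
        rw [hm j hjk, h1 ⟨j, hjk⟩ l hj, Option.map_some, k3]
      · have : (a l).m j S' i x = none := by
          rcases hc : (a l).m j S' i x with _ | y
          · rfl
          · exact absurd (((hP l).2.2.2.1 _ _ _ _ _ hc).trans (h5 ⟨j, hjk⟩ l hj)) e
        rw [this]
        simp only [m, dif_pos hjk, dif_neg e, Option.map_none])
  obtain ⟨t, h1, h2, h3, h4, h5, -⟩ := mk univ (fun k => a k) (fun k => hP k)
    (fun k l h => hR k l h)
  refine ⟨fun k => (a k).S, fun k l h => t ⟨k, trivial⟩ ⟨l, trivial⟩ h,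
    (hP ⊥).2.2.2.2.2.1 rfl, fun k => (hP k).2.2.2.2.1, fun k l h => h2 ⟨k, trivial⟩ ⟨l, trivial⟩ h,
    fun k => h3 ⟨k, trivial⟩, fun k l n h h' => h4 ⟨k, trivial⟩ ⟨l, trivial⟩ ⟨n, trivial⟩ h h',
    fun γ => ?_, fun δ hδ i y => ?_⟩
  · obtain ⟨f, hf, hf'⟩ := (hP (succ γ)).2.2.2.2.2.2.1 γ rfl
    have : ∀ S' (e : S' = (a γ).S) (f : ∀ i, X S' i → X (a (succ γ)).S i),
        Step γ S' (a (succ γ)).S f → (∀ i x, (a (succ γ)).m γ S' i x = some (f i x)) →
        Step γ (a γ).S (a (succ γ)).S (t ⟨γ, trivial⟩ ⟨succ γ, trivial⟩ (le_succ γ)) := by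
      rintro _ rfl f hf hf'
      have : f = t ⟨γ, trivial⟩ ⟨succ γ, trivial⟩ (le_succ γ) := by
        funext i x
        exact Option.some_injective _ ((hf' i x).symm.trans (h1 ⟨γ, trivial⟩ ⟨succ γ, trivial⟩ _ i x))
      exact this ▸ hf
    exact this _ (h5 ⟨γ, trivial⟩ ⟨succ γ, trivial⟩ (le_succ γ)) f hf hf'
  · obtain ⟨l, hl, hx⟩ := (hP δ).2.2.2.2.2.2.2 hδ i y
    refine ⟨l, hl, ?_⟩
    have : ∀ S' (e : S' = (a l).S), (∃ x, (a δ).m l S' i x = some y) →
        ∃ x, t ⟨l, trivial⟩ ⟨δ, trivial⟩ hl.le i x = y := by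
      rintro _ rfl ⟨x, hx⟩
      exact ⟨x, Option.some_injective _ ((h1 ⟨l, trivial⟩ ⟨δ, trivial⟩ _ i x).symm.trans hx)⟩
    exact this _ (h5 ⟨l, trivial⟩ ⟨δ, trivial⟩ hl.le) hx

end Pool.Agent.P.MP_860a31_lc.E
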