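import Pool.Agent.P.MP_860a31_lc.E.KStm

/-!
The object in the categoricity cardinal is saturated.
-/

open Cardinal hiding univ
open Set Order Filter Function

namespace Pool.Agent.P.MP_860a31_lc.E

open PC

namespace KSatP

/-- a proper universal extension of the same size -/
theorem step (h1 : S_KStab) (h2 : S_UnivExt) (K : KC) {θ : Cardinal.{0}} (hk : K.k0 ≤ θ)
    (hθ : θ < K.lam) (A : K.Obj) (hA : #(K.U A) ≤ θ) :
    ∃ (A' : K.Obj) (g : K.U A → K.U A'), K.IsH g ∧ #(K.U A') ≤ θ ∧ K.Univ θ g ∧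
      ∃ b, b ∉ range g := by
  have hi := K.inf.trans hk
  obtain ⟨B, f, b, hf, hb⟩ := KC.proper (hA.trans_lt hθ)
  obtain ⟨B0, k, l1, l2, l3⟩ := ls' hk B (S := insert b (range f))
    (mk_insert_le.trans (add_le_of_le hi (mk_range_le.trans hA) (one_le_aleph0.trans hi)))
  obtain ⟨f0, m1, m2⟩ := factor hf l1 ((subset_insert _ _).trans l2)
  obtain ⟨b0, rfl⟩ := l2 (mem_insert _ _)
  obtain ⟨A', g, n1, n2, n3⟩ := h2 K.toAC θ hk (h1 K θ Unit hk hθ (by simp)) B0 l3
  refine ⟨A', fun x => g (f0 x), K.comp m1 n1, n2, Univ.pre n3 m1, g b0, ?_⟩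
  rintro ⟨x, hx⟩
  exact hb ⟨x, by rw [← m2, K.inj n1 hx]⟩

end KSatP

theorem kSat (h1 : S_KStab) (h2 : S_UnivExt) : S_KSat := by
  intro K A hA χ hχ
  have hl := K.lam_inf
  have hmono : ∀ a b : W K.lam, a ≤ b → #(Iio a) + K.k0 ≤ #(Iio b) + K.k0 := fun a b h =>
    add_le_add (mk_le_mk_of_subset (Iio_subset_Iio h)) le_rfl
  have hk : ∀ a : W K.lam, K.k0 ≤ #(Iio a) + K.k0 := fun a => self_le_add_left _ _
  have hlt : ∀ a : W K.lam, #(Iio a) + K.k0 < K.lam := fun a =>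
    add_lt_of_lt hl (W.iio hl a) K.k0_lt
  obtain ⟨A0, -, -, -, h0⟩ := ls' (hk ⊥) A (S := ∅) (by simp)
  obtain ⟨F, t, -, k1, k2, k3, k4, k5, -⟩ := gchain (Λ := W K.lam) (St := K.Obj) (ι := Unit)
    (fun S _ => K.U S) (fun S S' f => K.IsH (f ())) (fun S => K.idH _)
    (fun _ _ _ f g hf hg => K.comp hf hg) (fun a S => #(K.U S) ≤ #(Iio a) + K.k0)
    (fun a S S' f => K.Univ (#(Iio a) + K.k0) (f ()) ∧ ∃ b, b ∉ range (f ())) A0 h0
    (by
      intro a S hS
      obtain ⟨A', g, n1, n2, n3⟩ := KSatP.step h1 h2 K (hk a) (hlt a) S hS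
      exact ⟨A', fun _ => g, n1, n2.trans (hmono _ _ (le_succ a)), n3⟩)
    (by
      intro δ hδ c hc _
      have : Nonempty (Iio δ) := ⟨⟨⊥, hδ.bot_lt⟩⟩
      obtain ⟨B, u, l1, l2, l3⟩ := K.colim (Iio δ) c.F
        (fun a b h => c.t a b h ()) (fun a b h => c.hom a b h) (fun a => c.t_id a ())
        (fun a b d h h' => c.t_comp a b d h h' ())
      exact ⟨B, fun a _ => u a, card_cover u l3 (K.inf.trans (hk δ)) (self_le_add_right _ _)
        fun a => (hc a).trans (hmono _ _ a.2.le), l1, fun a b h _ => l2 a b h, fun _ => l3⟩)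
  obtain ⟨T, u, l1, l2, l3⟩ := K.colim (W K.lam) F (fun a b h => t a b h ())
    (fun a b h => k2 a b h) (fun a => k3 a ()) (fun a b d h h' => k4 a b d h h' ())
  choose k6 p hp using k5
  have hT : #(K.U T) = K.lam := by
    refine le_antisymm (card_cover u l3 hl (W.card hl).le fun a => (k1 a).trans (hlt a).le) ?_
    refine (W.card hl).ge.trans (mk_le_of_injective (f := fun a => u (succ a) (p a)) ?_)
    have key : ∀ a b, a < b → u (succ a) (p a) ≠ u (succ b) (p b) := fun a b h e => by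
      refine hp b ⟨t _ b (succ_le_of_lt h) () (p a), K.inj (l1 (succ b)) ?_⟩
      rw [l2, l2, e]
    intro a b e
    by_contra hne
    rcases lt_or_gt_of_ne hne with h | h
    · exact key a b h e
    · exact key b a h e.symm
  have hS : K.Sat χ T := by
    refine PC.sat_union F u l1 (fun a b h => ?_) l3 (fun s hs => ?_) fun a => ?_
    · rintro _ ⟨x, rfl⟩
      exact ⟨_, l2 a b h x⟩
    · obtain ⟨b, hb⟩ := W.bdd hl (hs.trans_lt hχ)
      exact ⟨b, fun a ha => (hb a ha).le⟩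
    · obtain ⟨c, hc⟩ := W.exists_iio hl (hχ.trans_le K.cof_le)
      refine ⟨succ (max a c), fun x => t _ _ (le_succ _) () (t a _ (le_max_left a c) () x),
        (Univ.pre (k6 (max a c)) (k2 a _ (le_max_left a c))).mono ?_, fun x => by rw [l2, l2]⟩
      exact hc.trans ((self_le_add_right _ _).trans (hmono _ _ (le_max_right a c)))
  obtain ⟨f, hf, hs⟩ := K.cat T A hT hA
  exact Sat.iso hS hf hs

end Pool.Agent.P.MP_860a31_lc.E
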