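import Pool.Agent.P.MP_860a31_lc.E.KStm

/-!
Stability below the categoricity cardinal.
-/

open Cardinal hiding univ
open Set Order Function

namespace Pool.Agent.P.MP_860a31_lc.E

namespace KStabP

theorem pi_le {ι : Type} {α : ι → Type} {θ : Cardinal.{0}} (h : θ ^ #ι ≤ θ)
    (hα : ∀ i, #(α i) ≤ θ) : #(∀ i, α i) ≤ θ := by
  rw [mk_pi]
  refine (prod_le_prod _ (fun _ : ι => θ) hα).trans ?_
  rw [prod_const']
  exact h

theorem fin_le {θ : Cardinal.{0}} (hθ : ℵ₀ ≤ θ) (n : ℕ) : θ ^ #(Fin n) ≤ θ := by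
  rw [mk_fin, power_natCast]
  exact power_nat_le hθ

theorem sigma_le {ι : Type} {α : ι → Type} {θ : Cardinal.{0}} (hθ : ℵ₀ ≤ θ) (h : #ι ≤ θ)
    (hα : ∀ i, #(α i) ≤ θ) : #(Σ i, α i) ≤ θ :=
  card_cover (fun i x => (⟨i, x⟩ : Σ i, α i)) (fun p => ⟨p.1, p.2, rfl⟩) hθ h hα

theorem prod_le {α β : Type} {θ : Cardinal.{0}} (hθ : ℵ₀ ≤ θ) (h : #α ≤ θ) (h' : #β ≤ θ) :
    #(α × β) ≤ θ := by
  rw [mk_prod, lift_id, lift_id]
  exact mul_le_of_le hθ h h'

/-- few cuts over a small subset of a well-order -/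
theorem exists_cut {Λ : Type} [LinearOrder Λ] [WellFoundedLT Λ] (S : Set Λ) {θ : Cardinal.{0}}
    (hθ : ℵ₀ ≤ θ) (hS : #S ≤ θ) : ∃ (C : Type) (ct : Λ → C), #C ≤ θ ∧ ∀ p p', ct p = ct p' →
      ∀ q ∈ S, (q < p ↔ q < p') ∧ (p < q ↔ p' < q) := by
  classical
  have hw : WellFounded ((· < ·) : Λ → Λ → Prop) := wellFounded_lt
  let m : Λ → Option S := fun p => if h : ({q | q ∈ S ∧ p ≤ q} : Set Λ).Nonempty then
    some ⟨hw.min _ h, (hw.min_mem _ h).1⟩ else none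
  have hm : ∀ p, ∀ q ∈ S, p ≤ q ↔ ∃ r, m p = some r ∧ (r : Λ) ≤ q := fun p q hq => by
    constructor
    · intro hpq
      have h : ({q | q ∈ S ∧ p ≤ q} : Set Λ).Nonempty := ⟨q, hq, hpq⟩
      exact ⟨_, dif_pos h, not_lt.1 (hw.not_lt_min _ (show q ∈ {q | q ∈ S ∧ p ≤ q} from ⟨hq, hpq⟩))⟩
    · rintro ⟨r, hr, hrq⟩
      by_cases h : ({q | q ∈ S ∧ p ≤ q} : Set Λ).Nonempty
      · simp only [m, dif_pos h, Option.some.injEq] at hr
        subst hr
        exact (hw.min_mem _ h).2.trans hrq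
      · simp [m, dif_neg h] at hr
  have hle : ∀ p p', m p = m p' → ∀ q ∈ S, (p ≤ q ↔ p' ≤ q) := fun p p' h q hq => by
    rw [hm p q hq, hm p' q hq, h]
  refine ⟨Option S × Prop, fun p => (m p, p ∈ S), prod_le hθ ?_ ?_, fun p p' h q hq => ?_⟩
  · rw [mk_option]
    exact add_le_of_le hθ hS (one_le_aleph0.trans hθ)
  · exact (mk_le_aleph0).trans hθ
  · obtain ⟨h1, h2⟩ := Prod.mk.inj h
    have h3 := hle p p' h1
    refine ⟨by rw [← not_le, ← not_le, h3 q hq], ?_⟩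
    by_cases hp : p ∈ S
    · have hp' : p' ∈ S := h2 ▸ hp
      rw [le_antisymm ((h3 p' hp').2 le_rfl) ((h3 p hp).1 le_rfl)]
    · have hp' : p' ∉ S := h2 ▸ hp
      rw [lt_iff_le_and_ne, lt_iff_le_and_ne, h3 q hq]
      exact and_congr_right fun _ => iff_of_true (fun e => hp (e ▸ hq)) fun e => hp' (e ▸ hq)

/-- two families of the same order type come from a span of embeddings -/
theorem exists_span {Λ X : Type} [LinearOrder Λ] (e e' : X → Λ)
    (h : ∀ a b, e a < e b ↔ e' a < e' b) :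
    ∃ (T : Type) (_ : LinearOrder T) (w w' : T ↪o Λ), ∀ a, ∃ t, w t = e a ∧ w' t = e' a := by
  choose c hc using fun t : range e => t.2
  refine ⟨range e, inferInstance, OrderEmbedding.subtype _,
    OrderEmbedding.ofStrictMono (fun t => e' (c t)) fun t t' htt => ?_, fun a => ?_⟩
  · rw [← h, hc, hc]; exact htt
  · refine ⟨⟨e a, a, rfl⟩, rfl, ?_⟩
    change e' (c _) = _
    have := hc ⟨e a, a, rfl⟩
    refine le_antisymm (not_lt.1 fun k => ?_) (not_lt.1 fun k => ?_)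
    · rw [← h, this] at k; exact lt_irrefl _ k
    · rw [← h, this] at k; exact lt_irrefl _ k

theorem g_evi {C : CC} (P : Fam C.toPC) {Λ T : Type} [LinearOrder Λ] [LinearOrder T]
    (w w' : T ↪o Λ) {n : ℕ} (s s' : Fin n ↪o Λ) (h : ∀ j, ∃ t, w t = s j ∧ w' t = s' j)
    (x : C.U (P.ob n)) : G (P.evmap w) (P.evmap w') (P.evi s x) (P.evi s' x) := by
  choose t ht ht' using h
  let r : Fin n ↪o T := OrderEmbedding.ofStrictMono t fun i j hij =>
    w.lt_iff_lt.1 (by rw [ht, ht]; exact s.strictMono hij)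
  refine ⟨P.evi r x, ?_, ?_⟩
  · rw [Fam.evmap_evi]; congr 1; ext j; exact ht j
  · rw [Fam.evmap_evi]; congr 1; ext j; exact ht' j

/-- the pigeonhole argument inside the value on a well-order -/
theorem core {C : AC} (P : Fam C.toPC) {Λ : Type} [LinearOrder Λ] [WellFoundedLT Λ]
    {θ : Cardinal.{0}} (hθ : ℵ₀ ≤ θ) (hP : ∀ n, #(C.U (P.ob n)) ≤ θ) {ι : Type} (hι : θ ^ #ι ≤ θ)
    {A : Type} (f : A → C.U (P.ev Λ)) (hA : #A ≤ θ) {Y : Type} (a : Y → ι → C.U (P.ev Λ))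
    (hY : θ < #Y) : ∃ y y', y ≠ y' ∧
      C.El (P.ev Λ) (P.ev Λ) (fun p q => G f f p q ∨ G (a y) (a y') p q) := by
  choose nA sA xA hA' using fun z => Fam.evi_surj (C := C.toCC) (f z)
  have hfin : ∀ n : ℕ, #(Fin n) ≤ θ := fun n => mk_le_aleph0.trans hθ
  obtain ⟨Ct, ct, hC, hct⟩ := exists_cut (range fun p : Σ z, Fin (nA z) => sA p.1 p.2) hθ
    (mk_range_le.trans (sigma_le hθ hA fun z => hfin _))
  let D : Type := Σ n : ι → ℕ, ∀ i, (Fin (n i) ↪o Λ) × C.U (P.ob (n i))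
  let Col : Type := Σ n : ι → ℕ, (∀ i, C.U (P.ob (n i)) × (Fin (n i) → Ct)) ×
    ∀ i i', Fin (n i) → Fin (n i') → Prop
  let col : D → Col := fun d => ⟨d.1, fun i => ((d.2 i).2, fun j => ct ((d.2 i).1 j)),
    fun i i' j j' => (d.2 i).1 j < (d.2 i').1 j'⟩
  let val : D → ι → C.U (P.ev Λ) := fun d i => P.evi (d.2 i).1 (d.2 i).2
  have hCol : #Col ≤ θ := sigma_le hθ (pi_le hι fun _ => mk_le_aleph0.trans hθ) fun n =>
    prod_le hθ (pi_le hι fun i => prod_le hθ (hP _) (pi_le (fin_le hθ _) fun _ => hC))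
      (pi_le hι fun i => pi_le hι fun i' => mk_le_aleph0.trans hθ)
  have key : ∀ d d' : D, col d = col d' →
      C.El (P.ev Λ) (P.ev Λ) (fun p q => G f f p q ∨ G (val d) (val d') p q) := by
    rintro ⟨n, d⟩ ⟨n', d'⟩ h
    obtain ⟨rfl, h⟩ := Sigma.mk.inj_iff.1 h
    obtain ⟨h1, h2⟩ := Prod.mk.inj (eq_of_heq h)
    have hx : ∀ i, (d i).2 = (d' i).2 := fun i => (Prod.mk.inj (congrFun h1 i)).1
    have hc : ∀ i j, ct ((d i).1 j) = ct ((d' i).1 j) := fun i j =>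
      congrFun (Prod.mk.inj (congrFun h1 i)).2 j
    have hl : ∀ i i' j j', (d i).1 j < (d i').1 j' ↔ (d' i).1 j < (d' i').1 j' :=
      fun i i' j j' => iff_of_eq (congrFun (congrFun (congrFun (congrFun h2 i) i') j) j')
    obtain ⟨T, _, w, w', hw⟩ := exists_span (X := (Σ z, Fin (nA z)) ⊕ Σ i, Fin (n i))
      (Sum.elim (fun p => sA p.1 p.2) fun p => (d p.1).1 p.2)
      (Sum.elim (fun p => sA p.1 p.2) fun p => (d' p.1).1 p.2) (by
        rintro (p | p) (q | q)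
        · exact Iff.rfl
        · exact (hct _ _ (hc q.1 q.2) _ ⟨p, rfl⟩).1
        · exact (hct _ _ (hc p.1 p.2) _ ⟨q, rfl⟩).2
        · exact hl _ _ _ _)
    refine (PC.El.span (C := C) (Fam.evmap_h (C := C.toCC) w)
      (Fam.evmap_h (C := C.toCC) w')).mono ?_
    rintro _ _ (⟨z, rfl, rfl⟩ | ⟨i, rfl, rfl⟩)
    · rw [← hA' z]
      exact g_evi (C := C.toCC) P w w' _ _ (fun j => hw (Sum.inl ⟨z, j⟩)) _
    · change G _ _ (P.evi (d i).1 (d i).2) (P.evi (d' i).1 (d' i).2)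
      rw [← hx i]
      exact g_evi (C := C.toCC) P w w' _ _ (fun j => hw (Sum.inr ⟨i, j⟩)) _
  choose n s x hs using fun y i => Fam.evi_surj (C := C.toCC) (a y i)
  let dd : Y → D := fun y => ⟨n y, fun i => (s y i, x y i)⟩
  have hv : ∀ y, val (dd y) = a y := fun y => funext (hs y)
  by_contra hc
  push Not at hc
  refine (hCol.trans_lt hY).not_ge (mk_le_of_injective (f := fun y => col (dd y)) fun y y' e => ?_)
  by_contra hne
  refine hc y y' hne ?_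
  rw [← hv y, ← hv y']
  exact key _ _ e

end KStabP

theorem kStab (h : S_Base) : S_KStab := by
  intro K θ ι h0 hl hι A M f hf hA Y a hY
  obtain ⟨P, x, hx, hP⟩ := h K
  have hθ : ℵ₀ ≤ θ := K.inf.trans h0
  have hι' : #ι ≤ θ := ((cantor _).le.trans
    (power_le_power_right ((natCast_lt_aleph0 (n := 2)).le.trans hθ))).trans hι
  obtain ⟨Y', hY'⟩ := le_mk_iff_exists_set.1 (succ_le_of_lt hY)
  obtain ⟨M', k, hk, hsub, hM'⟩ := PC.ls' K.k0_lt.le M
    (S := range f ∪ range fun p : Y' × ι => a p.1 p.2) ((mk_union_le _ _).trans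
      (add_le_of_le K.lam_inf (mk_range_le.trans (hA.trans hl.le)) (mk_range_le.trans
        (KStabP.prod_le K.lam_inf (hY'.le.trans (succ_le_of_lt hl)) (hι'.trans hl.le)))))
  have hW : #(W K.lam) = K.lam := W.card K.lam_inf
  obtain ⟨g, hg⟩ := KC.univ_lam (B := P.ev (W K.lam)) hM' (le_antisymm
    (Fam.card_ev_le (C := K.toCC) P _ K.lam_inf hW.le fun n => (hP n).trans K.k0_lt.le)
    (hW.ge.trans (Fam.le_card_ev (C := K.toCC) hx _)))
  choose f' hf' using fun z => hsub (Or.inl ⟨z, rfl⟩ : f z ∈ _)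
  choose a' ha' using fun (y : Y') (i : ι) => hsub (Or.inr ⟨(y, i), rfl⟩ : a y i ∈ _)
  obtain ⟨y, y', hne, H⟩ := KStabP.core (C := K.toAC) P hθ (fun n => (hP n).trans h0) hι
    (fun z => g (f' z)) hA (fun y i => g (a' y i)) (hY'.symm ▸ lt_succ θ)
  refine ⟨y, y', fun e => hne (Subtype.ext e), PC.El.push (C := K.toAC) hk hk
    (H.pull hg hg (S := fun p q => G f' f' p q ∨ G (a' y) (a' y') p q) ?_) ?_⟩
  · rintro _ _ (⟨z, rfl, rfl⟩ | ⟨i, rfl, rfl⟩)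
    · exact Or.inl ⟨z, rfl, rfl⟩
    · exact Or.inr ⟨i, rfl, rfl⟩
  · rintro _ _ (⟨z, rfl, rfl⟩ | ⟨i, rfl, rfl⟩)
    · exact ⟨_, _, Or.inl ⟨z, rfl, rfl⟩, hf' z, hf' z⟩
    · exact ⟨_, _, Or.inr ⟨i, rfl, rfl⟩, ha' y i, ha' y' i⟩

end Pool.Agent.P.MP_860a31_lc.E
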