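import Pool.Agent.P.MP_860a31_lc.E.Sys

/-!
Statements of the packages about the abstract axioms.
-/

open Cardinal hiding univ
open Set Order Filter Function

namespace Pool.Agent.P.MP_860a31_lc.E

open PC Sys

/-! ### generic statements -/

/-- simultaneous amalgamation of a family -/
def S_AmalgFam : Prop :=
  ∀ (C : AC) (θ : Cardinal.{0}), C.k0 ≤ θ → ∀ (B : C.Obj) (T : Type) (Y : T → C.Obj)
    (R : ∀ τ, C.U (Y τ) → C.U B → Prop), #(C.U B) ≤ θ → #T ≤ θ → (∀ τ, #(C.U (Y τ)) ≤ θ) →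
    (∀ τ, C.El (Y τ) B (R τ)) →
    ∃ (Z : C.Obj) (b : C.U B → C.U Z) (h : ∀ τ, C.U (Y τ) → C.U Z), #(C.U Z) ≤ θ ∧ C.IsH b ∧
      ∀ τ, C.IsH (h τ) ∧ ∀ y x, R τ y x → h τ y = b x

/-- amalgamation of a ranked family, each member over the base and the members of lower rank -/
def S_SeqAmalg : Prop :=
  ∀ (C : AC) (B : C.Obj) (T : Type) (rk : T → ℕ) (Y : T → C.Obj)
    (Rb : ∀ τ, C.U (Y τ) → C.U B → Prop) (Rl : ∀ τ τ', C.U (Y τ) → C.U (Y τ') → Prop),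
    (∀ (τ : T) (Z : C.Obj) (b : C.U B → C.U Z) (h : ∀ τ, C.U (Y τ) → C.U Z), C.IsH b →
      (∀ τ', rk τ' < rk τ → C.IsH (h τ') ∧ (∀ y x, Rb τ' y x → h τ' y = b x) ∧
        ∀ τ'' y y', rk τ'' < rk τ' → Rl τ' τ'' y y' → h τ' y = h τ'' y') →
      C.El (Y τ) Z (fun y w => (∃ x, Rb τ y x ∧ b x = w) ∨
        ∃ τ' y', rk τ' < rk τ ∧ Rl τ τ' y y' ∧ h τ' y' = w)) →
    ∃ (Z : C.Obj) (b : C.U B → C.U Z) (h : ∀ τ, C.U (Y τ) → C.U Z), C.IsH b ∧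
      ∀ τ, C.IsH (h τ) ∧ (∀ y x, Rb τ y x → h τ y = b x) ∧
        ∀ τ' y y', rk τ' < rk τ → Rl τ τ' y y' → h τ y = h τ' y'

/-- an extension of the same size realising all types -/
def S_RealExt : Prop :=
  ∀ (C : AC) (θ : Cardinal.{0}), C.k0 ≤ θ → C.PStab θ Unit → ∀ A : C.Obj, #(C.U A) ≤ θ →
    ∃ (A' : C.Obj) (g : C.U A → C.U A'), C.IsH g ∧ #(C.U A') ≤ θ ∧ C.Real g

/-- a continuous chain of length `θ` realising types at each step has a universal union -/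
def S_RealChain : Prop :=
  ∀ (C : AC) (θ : Cardinal.{0}), ℵ₀ ≤ θ → ∀ (A : W θ → C.Obj) (T : C.Obj)
    (u : ∀ a, C.U (A a) → C.U T), (∀ a, C.IsH (u a)) → (∀ a b, a ≤ b → range (u a) ⊆ range (u b)) →
    (∀ δ, IsSuccLimit δ → ∀ y ∈ range (u δ), ∃ a < δ, y ∈ range (u a)) →
    (∀ y, ∃ a x, u a x = y) →
    (∀ (a : W θ) (Z : C.Obj) (e : C.U (A a) → C.U Z) (c : C.U Z), C.IsH e →
      ∃ a' : C.U (A (succ a)), C.El Z T (G1 e (u a) c (u (succ a) a'))) →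
    C.Univ θ (u ⊥)

/-- a universal extension of the same size -/
def S_UnivExt : Prop :=
  ∀ (C : AC) (θ : Cardinal.{0}), C.k0 ≤ θ → C.PStab θ Unit → ∀ A : C.Obj, #(C.U A) ≤ θ →
    ∃ (A' : C.Obj) (g : C.U A → C.U A'), C.IsH g ∧ #(C.U A') ≤ θ ∧ C.Univ θ g

/-- universality reflects to a club of stages -/
def S_UnivRefl : Prop :=
  ∀ (C : AX) (κ : Cardinal.{0}), C.Lv κ → ∀ (A B : C.Obj) (g : C.U A → C.U B), C.IsH g →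
    #(C.U B) ≤ succ κ → C.Univ (succ κ) g → ∀ᶠ γ in cf κ, C.Univ κ (stm g γ γ)

/-! ### diagrams -/

/-- on a club, a stage of the larger object is free from the smaller object -/
def S_Closure : Prop :=
  ∀ (C : AX) (κ : Cardinal.{0}), C.Lv κ → ∀ (T V : C.Obj) (h : C.U T → C.U V), C.IsH h →
    #(C.U V) ≤ succ κ → ∀ᶠ γ in cf κ, Into h γ γ ∧
      ∀ (B : C.Obj) (k : C.U B → C.U T) (j : C.U (C.st κ T γ) → C.U B) (F : Fn C.toPC)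
        (ψ : C.U B → C.U (F.ap (C.st κ T γ))), C.IsH k → C.IsH j → (∀ x, k (j x) = val x) →
        F.Bd (succ κ) → C.IsH ψ → (∀ x, ψ (j x) = F.eta _ x) →
        C.El V (F.ap (C.st κ V γ)) (fun a b => G val (F.eta (C.st κ V γ)) a b ∨
          G (fun x => h (k x)) (fun x => F.mp (stm h γ γ) (ψ x)) a b)

/-- the trap: a saturated top with chain uniqueness on a club -/
def S_DTrap : Prop :=
  ∀ (C : AX) (κ : Cardinal.{0}), C.Lv κ → ∀ (ι Pt : Type) (D : Dg C ι) (I : Set ι) (pc : Pc D Pt),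
    D.Ok I (succ κ) → pc.Ok I → SRc κ D I → HU D I pc →
    ∃ D0 : Set (J κ), IsClub D0 ∧ ∀ γ0 ∈ D0, ∀ (Q : C.Obj)
      (e0 : ∀ i, C.U (C.st κ (D.X i) γ0) → C.U Q) (p0 : Pt → C.U Q), #(C.U Q) ≤ κ →
      Adm (D.stage κ γ0) I (pc.stage κ γ0) Q e0 p0 →
      ∃ (V : C.Obj) (k : C.U Q → C.U V) (e : ∀ i, C.U (D.X i) → C.U V), C.IsH k ∧
        #(C.U V) ≤ succ κ ∧ C.Sat κ V ∧ Adm D I pc V e (fun j => k (p0 j)) ∧
        (∀ i ∈ I, ∀ x, e i (val x) = k (e0 i x)) ∧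
        ∀ᶠ γ in cf κ, CU κ D I pc D0 γ (C.st κ V γ) (fun i => stm (e i) γ γ)
          (fun j => pt γ (k (p0 j)))

/-- every top is, on a club, a canonical amalgam of its stage with the later stages -/
def S_SRext : Prop :=
  ∀ (C : AX) (κ : Cardinal.{0}), C.Lv κ → ∀ (ι Pt : Type) (D : Dg C ι) (I : Set ι) (pc : Pc D Pt),
    D.Ok I (succ κ) → pc.Ok I → SRc κ D I → HU D I pc →
    ∀ (M : C.Obj) (e : ∀ i, C.U (D.X i) → C.U M) (p : Pt → C.U M), #(C.U M) ≤ succ κ →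
      Adm D I pc M e p → ∃ D1 : Set (J κ), IsClub D1 ∧ ∀ γ ∈ D1, ∀ δ ∈ D1, γ ≤ δ →
        ∀ (F : Fn C.toPC) (ρ : ∀ i, C.U (C.st κ (D.X i) δ) → C.U (F.ap (C.st κ (D.X i) γ))),
          IsSR κ D I γ δ F ρ →
          C.El M (F.ap (C.st κ M γ)) (fun a b => G val (F.eta (C.st κ M γ)) a b ∨
            GI I (fun i (x : C.U (C.st κ (D.X i) δ)) => e i (val x))
              (fun i x => F.mp (stm (e i) γ γ) (ρ i x)) a b)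

/-- adding a vertex that is an admissible top over a subdiagram with uniqueness -/
def S_SRadd : Prop :=
  ∀ (C : AX) (κ : Cardinal.{0}), C.Lv κ → ∀ (ι Pt : Type) (D : Dg C ι) (I I0 : Set ι) (i0 : ι)
    (pc : Pc D Pt) (p : Pt → C.U (D.X i0)), I0 ⊆ I → i0 ∉ I → D.Ok (insert i0 I) (succ κ) →
    pc.Ok I0 → (∀ i ∈ insert i0 I, ¬ D.Ar i0 i) → (∀ i ∈ I, D.Ar i i0 → i ∈ I0) →
    Adm D I0 pc (D.X i0) (fun i => D.ar i i0) p → HU D I0 pc → SRc κ D I →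
    SRc κ D (insert i0 I)

/-! ### systems -/

variable {C : AX} {S : Shape C}

/-- extension to a good system -/
def TEat (κ : Cardinal.{0}) (𝒟 : Set (Finset S.L)) (E : Finset S.L) : Prop :=
  ∀ A : Sys S, A.Small κ 𝒟 → A.Valid 𝒟 E → (∀ z ∈ 𝒟, (∃ z' ∈ 𝒟, z ⊂ z') → Uq κ z A) →
    ∃ (V : Sys S) (g : ∀ y, C.U (A.N y) → C.U (V.N y)), Good κ 𝒟 E V ∧ SMor 𝒟 E A V g

/-- uniqueness of tops over the boundary of `v` -/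
def ULat (κ : Cardinal.{0}) (v : Finset S.L) : Prop :=
  ∀ A : Sys S, InU κ (S.Bd v) v A → ∀ j, S.Mx v j →
    ∀ (Z : C.Obj) (e : ∀ y, C.U (A.N y) → C.U Z) (p : C.U Z) (Z' : C.Obj)
      (e' : ∀ y, C.U (A.N y) → C.U Z') (p' : C.U Z'), A.Cone (S.Bd v) Z e →
      A.Pnt (S.Bd v) v j e p → A.Cone (S.Bd v) Z' e' → A.Pnt (S.Bd v) v j e' p' →
      C.El Z Z' (fun a b => GI (S.Bd v) e e' a b ∨ (p = a ∧ p' = b))

/-- good tops over good boundaries -/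
def Dat (κ : Cardinal.{0}) (v : Finset S.L) : Prop :=
  ∀ V : Sys S, Good κ (S.Bd v) v V → ∀ (A : Sys S) (g : ∀ y, C.U (A.N y) → C.U (V.N y)),
    InU κ (S.Bd v) v A → SMor (S.Bd v) v A V g →
    ∀ (Q : C.Obj) (e : ∀ y, C.U (A.N y) → C.U Q) (p : S.L → C.U Q), #(C.U Q) ≤ κ →
      A.AdmT v Q e p → ∃ (Z : C.Obj) (k : C.U Q → C.U Z) (e' : ∀ y, C.U (V.N y) → C.U Z),
        C.IsH k ∧ #(C.U Z) ≤ succ κ ∧ C.Sat κ Z ∧ V.AdmT v Z e' (fun j => k (p j)) ∧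
        (∀ z ∈ S.Bd v, ∀ x, e' z (g z x) = k (e z x)) ∧ GoodT κ V v Z e' (fun j => k (p j))

/-- small uniqueness subsystems are cofinal -/
def CofAt (κ : Cardinal.{0}) (𝒟 : Set (Finset S.L)) (E : Finset S.L) (V : Sys S) : Prop :=
  ∀ X : ∀ y, Set (C.U (V.N y)), (∀ y ∈ 𝒟, #(X y) ≤ κ) →
    ∃ (A : Sys S) (f : ∀ y, C.U (A.N y) → C.U (V.N y)), InU κ 𝒟 E A ∧ SMor 𝒟 E A V f ∧
      ∀ y ∈ 𝒟, X y ⊆ range (f y)

/-- absorption of the faces in `𝒞` into a system on the faces `𝒟0` of `y` -/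
structure Ab (𝒞 𝒟0 : Set (Finset S.L)) (y : Finset S.L) (A M : Sys S)
    (ρ : ∀ w z, C.U (A.N w) → C.U (M.N z)) : Prop where
  hom : ∀ w ∈ 𝒞, ∀ z ∈ 𝒟0, w ∩ y ⊆ z → C.IsH (ρ w z)
  up : ∀ w ∈ 𝒞, ∀ z ∈ 𝒟0, ∀ z' ∈ 𝒟0, w ∩ y ⊆ z → z ⊆ z' → ∀ x, M.i z z' (ρ w z x) = ρ w z' x
  dn : ∀ w ∈ 𝒞, ∀ w' ∈ 𝒞, ∀ z ∈ 𝒟0, w ⊆ w' → w' ∩ y ⊆ z → ∀ x, ρ w' z (A.i w w' x) = ρ w z x
  el : ∀ k : S.L × Bool, k.1 ∈ y → ∀ z ∈ 𝒟0, S.sup k ⊆ z → ρ z z (A.el k z) = M.el k z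

/-- the diagram of a morphism of systems -/
noncomputable def pairDg (V M : Sys S) (σ : ∀ y, C.U (V.N y) → C.U (M.N y)) :
    Dg C (Finset S.L ⊕ Finset S.L) where
  X := Sum.elim V.N M.N
  Ar
    | .inl y, .inl z => y ⊂ z
    | .inl y, .inr z => y ⊆ z
    | .inr y, .inr z => y ⊂ z
    | .inr _, .inl _ => False
  ar
    | .inl y, .inl z => V.i y z
    | .inl y, .inr z => fun x => M.i y z (σ y x)
    | .inr y, .inr z => M.i y z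
    | .inr _, .inl z => fun _ => Classical.choice (C.ne (V.N z))

/-- points for tops over the boundary of `v` in the first system -/
noncomputable def bdPc (V M : Sys S) (σ : ∀ y, C.U (V.N y) → C.U (M.N y)) (v : Finset S.L) :
    Pc (pairDg V M σ) S.L where
  Act := {j | S.Mx v j}
  Idr
    | .inl z, j => j ∈ z
    | .inr _, _ => False
  idx
    | .inl z, j => V.c j z
    | .inr z, j => M.c j z
  t := S.opn
  fc j := .inl (v.erase j)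
  β j := V.b j (v.erase j)

/-- points for amalgams of the face `v` of the first system with the boundary in the second -/
noncomputable def mixPc (V M : Sys S) (σ : ∀ y, C.U (V.N y) → C.U (M.N y)) (v : Finset S.L) :
    Pc (pairDg V M σ) S.L where
  Act := {j | S.Mx v j}
  Idr
    | .inl z, j => j ∈ z
    | .inr z, j => j ∈ z
  idx
    | .inl z, j => V.c j z
    | .inr z, j => M.c j z
  t := S.opn
  fc j := .inr (v.erase j)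
  β j := M.b j (v.erase j)

/-- the active vertices of the diagram of a morphism -/
def pairI (𝒟 𝒟' : Set (Finset S.L)) : Set (Finset S.L ⊕ Finset S.L) :=
  Sum.inl '' 𝒟 ∪ Sum.inr '' 𝒟'

/-- all faces with letters in `L` -/
def Shape.On (S : Shape C) (L : Set S.L) : Set (Finset S.L) := {y | S.Face y ∧ ↑y ⊆ L}

/-- the letters all of whose ancestors carry tags in `T` -/
def Shape.Tg (S : Shape C) {Tag : Type} (tag : S.L → Tag) (T : Set Tag) : Set S.L :=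
  {l | ∀ l' ∈ S.sup (l, true), tag l' ∈ T}

/-- every element of a face in `𝒟` is the parameter of the letters with a suitable code -/
def Coded {Cd : Type} (code : S.L → Cd) (𝒟 : Set (Finset S.L)) (A : Sys S) : Prop :=
  ∀ u ∈ 𝒟, ∀ β : C.U (A.N u), ∃ j : Cd, ∀ l, S.par l = u → code l = j → A.b l u = β

def S_SigRho : Prop :=
  ∀ (C : AX) (S : Shape C) (κ : Cardinal.{0}), C.Lv κ → ∀ (𝒟 : Set (Finset S.L)) (E : Finset S.L),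
    S.Cx 𝒟 E → ∀ (A B : Sys S) (σ : ∀ y, C.U (A.N y) → C.U (B.N y)), InU κ 𝒟 E A →
    InU κ 𝒟 E B → SMor 𝒟 E A B σ → ∃ F r, Sig κ 𝒟 A B σ F r

def S_TopExt : Prop :=
  ∀ (C : AX) (S : Shape C) (κ : Cardinal.{0}), C.Lv κ → ∀ v : Finset S.L, S.Face v →
    ∀ (A B : Sys S) (σ : ∀ y, C.U (A.N y) → C.U (B.N y)), InU κ (S.Bd v) v A →
    InU κ (S.Bd v) v B → SMor (S.Bd v) v A B σ →
    ∀ (Z : C.Obj) (e : ∀ y, C.U (A.N y) → C.U Z) (p : S.L → C.U Z), A.AdmT v Z e p →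
      ∃ (Z' : C.Obj) (k : C.U Z → C.U Z') (e' : ∀ y, C.U (B.N y) → C.U Z'),
        #(C.U Z') ≤ #(C.U Z) + κ ∧ AA A v Z e p B σ Z' k e'

/-- absorption along a tower of subsets -/
def S_Abs : Prop :=
  ∀ (C : AX) (S : Shape C) (κ : Cardinal.{0}) (𝒟 : Set (Finset S.L)) (E : Finset S.L),
    S.Cx 𝒟 E → ∀ (A B M : Sys S) (τ : ∀ y, C.U (A.N y) → C.U (B.N y))
    (g : ∀ y, C.U (A.N y) → C.U (M.N y)) (T : ℕ → ∀ y, Set (C.U (M.N y))), InU κ 𝒟 E A →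
    InU κ 𝒟 E B → SMor 𝒟 E A B τ → M.Valid 𝒟 E → SMor 𝒟 E A M g →
    (∀ k < 𝒟.ncard, ∀ y ∈ 𝒟, T k y ⊆ T (k + 1) y) →
    (∀ k < 𝒟.ncard, ∀ y ∈ 𝒟, ∀ z ∈ 𝒟, y ⊆ z → MapsTo (M.i y z) (T k y) (T k z)) →
    (∀ y ∈ 𝒟, ∀ x, g y x ∈ T 0 y) →
    (∀ k < 𝒟.ncard, ∀ y ∈ 𝒟, ∀ (B' : C.Obj) (R : C.U B' → C.U (M.N y) → Prop), #(C.U B') ≤ κ →
      C.El B' (M.N y) R → (∀ b a, R b a → a ∈ T k y) → ∃ f : C.U B' → C.U (M.N y), C.IsH f ∧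
        (∀ b a, R b a → f b = a) ∧ ∀ b, f b ∈ T (k + 1) y) →
    ∃ f, SMor 𝒟 E B M f ∧ ∀ y ∈ 𝒟, ∀ x, f y (τ y x) = g y x

/-- absorption into a system of saturated objects -/
def S_AbsSat : Prop :=
  ∀ (C : AX) (S : Shape C) (κ : Cardinal.{0}) (𝒟 : Set (Finset S.L)) (E : Finset S.L),
    S.Cx 𝒟 E → ∀ (A B M : Sys S) (τ : ∀ y, C.U (A.N y) → C.U (B.N y))
    (g : ∀ y, C.U (A.N y) → C.U (M.N y)), InU κ 𝒟 E A → InU κ 𝒟 E B → SMor 𝒟 E A B τ →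
    M.Valid 𝒟 E → SMor 𝒟 E A M g → (∀ y ∈ 𝒟, C.Sat κ (M.N y)) →
    ∃ f, SMor 𝒟 E B M f ∧ ∀ y ∈ 𝒟, ∀ x, f y (τ y x) = g y x

/-- absorption of one new letter -/
def S_Abs1 : Prop :=
  ∀ (C : AX) (S : Shape C) (κ : Cardinal.{0}), C.Lv κ → ∀ (𝒞 : Set (Finset S.L))
    (E y : Finset S.L) (l : S.L), S.Cx 𝒞 E → S.Face y → l ∉ y → (∀ w ∈ 𝒞, l ∈ w → S.Mx w l) →
    (∀ w ∈ 𝒞, ULat κ w) → ∀ (A M : Sys S) (ρ : ∀ w z, C.U (A.N w) → C.U (M.N z)),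
    InU κ 𝒞 E A → Good κ {z ∈ 𝒞 | z ⊆ y} y M → Ab {w ∈ 𝒞 | l ∉ w} {z ∈ 𝒞 | z ⊆ y} y A M ρ →
    ∃ ρ', Ab 𝒞 {z ∈ 𝒞 | z ⊆ y} y A M ρ' ∧ (∀ w, l ∉ w → ρ' w = ρ w) ∧
      ∀ w ∈ 𝒞, l ∈ w → ∀ w' ∈ 𝒞, l ∉ w' → S.par l ⊆ w' → ∀ z ∈ 𝒞, z ⊆ y → w ∩ y ⊆ z →
        w' ∩ y ⊆ z → C.Right (S.opn l) (A.N w') (A.b l w') (ρ' w' z) (ρ' w z (A.c l w))

/-- absorption of all letters outside `y` -/
def S_AbsP : Prop :=
  ∀ (C : AX) (S : Shape C) (κ : Cardinal.{0}), C.Lv κ → ∀ (𝒞 : Set (Finset S.L))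
    (E y : Finset S.L), S.Cx 𝒞 E → S.Face y → y ⊆ E → (∀ w ∈ 𝒞, ULat κ w) →
    TEat κ {z ∈ 𝒞 | z ⊆ y} y → ∀ A : Sys S, InU κ 𝒞 E A →
    ∃ (M : Sys S) (ρ : ∀ w z, C.U (A.N w) → C.U (M.N z)), InU κ {z ∈ 𝒞 | z ⊆ y} y M ∧
      Ab 𝒞 {z ∈ 𝒞 | z ⊆ y} y A M ρ

def S_UL1 : Prop :=
  ∀ (C : AX) (S : Shape C) (κ : Cardinal.{0}), C.Lv κ → ∀ v : Finset S.L, S.Face v →
    (∀ w ∈ S.Bd v, ULat κ w) → (∀ y ∈ S.Bd v, TEat κ (S.Bd y) y) → ULat κ v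

/-- existence of a small admissible top -/
def S_AAex : Prop :=
  ∀ (C : AX) (S : Shape C) (κ : Cardinal.{0}), C.Lv κ → ∀ v : Finset S.L, S.Face v →
    (∀ w ∈ S.Bd v, ULat κ w) → (∀ u ∈ S.Bd v, TEat κ (S.Le u) u) →
    ∀ A : Sys S, InU κ (S.Bd v) v A →
      ∃ (Q : C.Obj) (e : ∀ y, C.U (A.N y) → C.U Q) (p : S.L → C.U Q), #(C.U Q) ≤ κ ∧
        A.AdmT v Q e p

def S_HUbd : Prop :=
  ∀ (C : AX) (S : Shape C) (μ : Cardinal.{0}) (v : Finset S.L), S.Face v → ULat μ v →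
    ∀ (V M : Sys S) (σ : ∀ y, C.U (V.N y) → C.U (M.N y)), InU μ (S.Bd v) v V →
      HU (pairDg V M σ) (pairI (S.Bd v) ∅) (bdPc V M σ v)

def S_HUmix : Prop :=
  ∀ (C : AX) (S : Shape C) (μ : Cardinal.{0}) (v : Finset S.L), S.Face v →
    ∀ (V M : Sys S) (σ : ∀ y, C.U (V.N y) → C.U (M.N y)), Uq μ v V → V.Valid (S.Le v) v →
      InU μ (S.Bd v) v M → SMor (S.Bd v) v V M σ →
      HU (pairDg V M σ) (pairI (S.Le v) (S.Bd v)) (mixPc V M σ v)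

def S_SRpair : Prop :=
  ∀ (C : AX) (S : Shape C) (κ : Cardinal.{0}), C.Lv κ → ∀ (𝒟 𝒟' : Set (Finset S.L))
    (E : Finset S.L), S.Cx 𝒟 E → S.Dn 𝒟' → 𝒟' ⊆ 𝒟 → (∀ w ∈ 𝒟, ULat (succ κ) w) →
    ∀ (V M : Sys S) (σ : ∀ y, C.U (V.N y) → C.U (M.N y)), InU (succ κ) 𝒟 E V →
      InU (succ κ) 𝒟' E M → SMor 𝒟' E V M σ → SRc κ (pairDg V M σ) (pairI 𝒟 𝒟')

/-- the trap for the boundary of a face -/
def S_TrapBd : Prop :=
  ∀ (C : AX) (S : Shape C) (κ : Cardinal.{0}), C.Lv κ → ∀ v : Finset S.L, S.Face v →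
    (∀ w ∈ S.Le v, ULat (succ κ) w) → ∀ V : Sys S, InU (succ κ) (S.Bd v) v V →
    ∃ D0 : Set (J κ), IsClub D0 ∧ ∀ γ0 ∈ D0, ∀ (Q : C.Obj)
      (e0 : ∀ y, C.U (C.st κ (V.N y) γ0) → C.U Q) (p0 : S.L → C.U Q), #(C.U Q) ≤ κ →
      (V.stage κ γ0).AdmT v Q e0 p0 →
      ∃ (Z : C.Obj) (k : C.U Q → C.U Z) (e : ∀ y, C.U (V.N y) → C.U Z), C.IsH k ∧
        #(C.U Z) ≤ succ κ ∧ C.Sat κ Z ∧ V.AdmT v Z e (fun j => k (p0 j)) ∧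
        (∀ y ∈ S.Bd v, ∀ x, e y (val x) = k (e0 y x)) ∧
        ∀ᶠ γ in cf κ, ∀ δ ∈ D0, γ ≤ δ → UqM (V.stage κ γ) v (C.st κ Z γ) (fun y => stm (e y) γ γ)
          (fun j => pt γ (k (p0 j))) (V.stage κ δ) (fun y => tr (V.N y) γ δ)

/-- small amalgams of stages are compatible with every amalgam of the whole -/
def S_LiftMix : Prop :=
  ∀ (C : AX) (S : Shape C) (κ : Cardinal.{0}), C.Lv κ → ∀ v : Finset S.L, S.Face v →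
    (∀ w ∈ S.Le v, ULat (succ κ) w) → ∀ (V M : Sys S) (σ : ∀ y, C.U (V.N y) → C.U (M.N y)),
    InU (succ κ) (S.Le v) v V → InU (succ κ) (S.Bd v) v M → SMor (S.Bd v) v V M σ →
    ∀ᶠ γ in cf κ, ∀ (Z0 : C.Obj) (h0 : C.U (C.st κ (V.N v) γ) → C.U Z0)
      (e0 : ∀ y, C.U (C.st κ (M.N y) γ) → C.U Z0), #(C.U Z0) ≤ κ →
      AA (V.stage κ γ) v (C.st κ (V.N v) γ) (fun y => (V.stage κ γ).i y v)
        (fun j => (V.stage κ γ).c j v) (M.stage κ γ) (fun y => stm (σ y) γ γ) Z0 h0 e0 →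
      ∀ (Z : C.Obj) (h : C.U (V.N v) → C.U Z) (e : ∀ y, C.U (M.N y) → C.U Z),
        AA V v (V.N v) (fun y => V.i y v) (fun j => V.c j v) M σ Z h e →
        C.El Z0 Z (fun a b => G h0 (fun x => h (val x)) a b ∨
          GI (S.Bd v) e0 (fun y x => e y (val x)) a b)

def S_D : Prop :=
  ∀ (C : AX) (S : Shape C) (κ : Cardinal.{0}), C.Lv κ → ∀ v : Finset S.L, S.Face v →
    (∀ w ∈ S.Le v, ULat (succ κ) w) →
    (∀ V : Sys S, Good κ (S.Bd v) v V → InU (succ κ) (S.Bd v) v V) → Dat κ v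

/-- goodness of tops passes along morphisms that are onto at the top -/
def S_GoodT : Prop :=
  ∀ (C : AX) (S : Shape C) (κ : Cardinal.{0}), C.Lv κ → ∀ v : Finset S.L, S.Face v →
    ∀ (A B : Sys S) (ρ : ∀ y, C.U (A.N y) → C.U (B.N y)) (Z Z' : C.Obj)
      (e : ∀ y, C.U (A.N y) → C.U Z) (e' : ∀ y, C.U (B.N y) → C.U Z') (p : S.L → C.U Z)
      (p' : S.L → C.U Z') (k : C.U Z → C.U Z'), B.Small (succ κ) (S.Bd v) → #(C.U Z') ≤ succ κ →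
      SMor (S.Bd v) v A B ρ → C.IsH k → Surjective k →
      (∀ y ∈ S.Bd v, ∀ x, e' y (ρ y x) = k (e y x)) → (∀ j, S.Mx v j → k (p j) = p' j) →
      GoodT κ A v Z e p → GoodT κ B v Z' e' p'

def S_GoodIso : Prop :=
  ∀ (C : AX) (S : Shape C) (κ : Cardinal.{0}), C.Lv κ → ∀ (𝒟 : Set (Finset S.L)) (E : Set S.L),
    S.Dn 𝒟 → (∀ y ∈ 𝒟, ↑y ⊆ E) → ∀ (A B : Sys S) (ρ : ∀ y, C.U (A.N y) → C.U (B.N y)),
    SMor 𝒟 E A B ρ → (∀ y ∈ 𝒟, Surjective (ρ y)) → Good κ 𝒟 E A → Good κ 𝒟 E B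

/-- adding tops for a set `T` of new faces -/
def S_Upd : Prop :=
  ∀ (C : AX) (S : Shape C) (𝒟 T : Set (Finset S.L)) (E : Set S.L), S.Dn 𝒟 →
    (∀ v ∈ T, S.Face v ∧ v ∉ 𝒟 ∧ S.Bd v ⊆ 𝒟) → ∀ (A : Sys S) (Z : Finset S.L → C.Obj)
    (e : ∀ v y, C.U (A.N y) → C.U (Z v)) (q : ∀ v, S.L × Bool → C.U (Z v)), A.Valid 𝒟 E →
    (∀ y ∈ 𝒟, ↑y ⊆ E) → (∀ v ∈ T, ↑v ⊆ E) →
    (∀ v ∈ T, A.AdmT v (Z v) (e v) (fun j => q v (j, true))) →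
    (∀ v ∈ T, ∀ k : S.L × Bool, k.1 ∈ E → ∀ y ∈ S.Bd v, S.sup k ⊆ y → e v y (A.el k y) = q v k) →
    ∃ (B : Sys S) (ρ : ∀ y, C.U (A.N y) → C.U (B.N y)) (k : ∀ v, C.U (Z v) → C.U (B.N v)),
      B.Valid (𝒟 ∪ T) E ∧ SMor 𝒟 E A B ρ ∧ (∀ y ∈ 𝒟, Surjective (ρ y)) ∧
      ∀ v ∈ T, C.IsH (k v) ∧ Surjective (k v) ∧
        (∀ y ∈ S.Bd v, ∀ x, B.i y v (ρ y x) = k v (e v y x)) ∧ ∀ a, B.el a v = k v (q v a)

/-- adding good tops gives a good system -/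
def S_UpdGood : Prop :=
  ∀ (C : AX) (S : Shape C) (κ : Cardinal.{0}), C.Lv κ → ∀ (𝒟 T : Set (Finset S.L)) (E : Set S.L),
    S.Dn 𝒟 → (∀ v ∈ T, S.Face v ∧ v ∉ 𝒟 ∧ S.Bd v ⊆ 𝒟) → ∀ (A : Sys S) (Z : Finset S.L → C.Obj)
    (e : ∀ v y, C.U (A.N y) → C.U (Z v)) (q : ∀ v, S.L × Bool → C.U (Z v)), Good κ 𝒟 E A →
    (∀ y ∈ 𝒟, ↑y ⊆ E) → (∀ v ∈ T, ↑v ⊆ E) →
    (∀ v ∈ T, A.AdmT v (Z v) (e v) (fun j => q v (j, true))) →
    (∀ v ∈ T, ∀ k : S.L × Bool, k.1 ∈ E → ∀ y ∈ S.Bd v, S.sup k ⊆ y → e v y (A.el k y) = q v k) →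
    (∀ v ∈ T, #(C.U (Z v)) ≤ succ κ ∧ C.Sat κ (Z v) ∧
      GoodT κ A v (Z v) (e v) (fun j => q v (j, true))) →
    ∃ (B : Sys S) (ρ : ∀ y, C.U (A.N y) → C.U (B.N y)) (k : ∀ v, C.U (Z v) → C.U (B.N v)),
      Good κ (𝒟 ∪ T) E B ∧ SMor 𝒟 E A B ρ ∧ (∀ y ∈ 𝒟, Surjective (ρ y)) ∧
      ∀ v ∈ T, C.IsH (k v) ∧ Surjective (k v) ∧
        (∀ y ∈ S.Bd v, ∀ x, B.i y v (ρ y x) = k v (e v y x)) ∧ ∀ a, B.el a v = k v (q v a)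

def S_TE1 : Prop :=
  ∀ (C : AX) (S : Shape C) (κ : Cardinal.{0}), C.Lv κ → ∀ (𝒟 : Set (Finset S.L)) (E : Finset S.L),
    S.Cx 𝒟 E → (∀ v ∈ 𝒟, Dat κ v) → TEat κ 𝒟 E

/-- a good system is isomorphic to a stage of a good system of the next level -/
def S_StageIso : Prop :=
  ∀ (C : AX) (S : Shape C) (κ : Cardinal.{0}), C.Lv κ → ∀ (𝒟 : Set (Finset S.L)) (E : Finset S.L),
    S.Cx 𝒟 E → ∀ (A V V' : Sys S) (a : ∀ y, C.U (A.N y) → C.U (V.N y))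
    (g : ∀ y, C.U (A.N y) → C.U (V'.N y)), InU κ 𝒟 E A → Good κ 𝒟 E V → Good (succ κ) 𝒟 E V' →
    CofAt κ 𝒟 E V' → SMor 𝒟 E A V a → SMor 𝒟 E A V' g → ∀ D0 : Set (J (succ κ)), IsClub D0 →
    ∃ ξ ∈ D0, ∃ f, SMor 𝒟 E V V' f ∧ ∀ y ∈ 𝒟, range (f y) = C.filt (succ κ) (V'.N y) ξ

/-- system form of the reflection of universality -/
def S_UnivSys : Prop :=
  ∀ (C : AX) (S : Shape C) (κ : Cardinal.{0}), C.Lv κ → ∀ (𝒟 : Set (Finset S.L)) (E : Finset S.L),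
    S.Cx 𝒟 E → ∀ V : Sys S, V.Small (succ (succ κ)) 𝒟 → V.Valid 𝒟 E →
    (∀ y ∈ 𝒟, C.Sat (succ κ) (V.N y)) → ∀ ξ : J (succ κ), Cl (succ κ) V 𝒟 E ξ →
    ∀ᶠ ξ' in cf (succ κ), ∀ᶠ γ in cf κ, InU κ 𝒟 E ((V.stage (succ κ) ξ).stage κ γ) →
      ∀ (B : Sys S) (τ : ∀ y, C.U (((V.stage (succ κ) ξ).stage κ γ).N y) → C.U (B.N y)),
        InU κ 𝒟 E B → SMor 𝒟 E ((V.stage (succ κ) ξ).stage κ γ) B τ →
        ∃ g, SMor 𝒟 E B ((V.stage (succ κ) ξ').stage κ γ) g ∧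
          ∀ y ∈ 𝒟, ∀ x, g y (τ y x) = stm (tr (V.N y) ξ ξ') γ γ x

def S_CofStep : Prop :=
  ∀ (C : AX) (S : Shape C) (κ : Cardinal.{0}), C.Lv κ → ∀ (𝒟 : Set (Finset S.L))
    (E v : Finset S.L), S.Cx 𝒟 E → S.Face v → v ⊆ E → v ∉ 𝒟 → S.Bd v ⊆ 𝒟 →
    (∀ w ∈ S.Le v, ULat (succ κ) w) → TEat κ (insert v 𝒟) E → ∀ V : Sys S,
    Good (succ κ) (insert v 𝒟) E V →
    (∀ D0 : Set (J (succ κ)), IsClub D0 → ∃ ξ ∈ D0, Good κ 𝒟 E (V.stage (succ κ) ξ)) →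
    CofAt κ (insert v 𝒟) E V

def S_Cof : Prop :=
  ∀ (C : AX) (S : Shape C) (κ : Cardinal.{0}), C.Lv κ → ∀ (𝒟 : Set (Finset S.L)) (E : Finset S.L),
    S.Cx 𝒟 E → (∀ w ∈ 𝒟, ULat (succ κ) w) → (∀ 𝒟' ⊆ 𝒟, S.Dn 𝒟' → TEat κ 𝒟' E) →
    ∀ V : Sys S, Good (succ κ) 𝒟 E V → CofAt κ 𝒟 E V

def S_G1 : Prop :=
  ∀ (C : AX) (S : Shape C) (κ : Cardinal.{0}), C.Lv κ → ∀ v : Finset S.L, S.Face v →
    TEat (succ κ) (S.Le v) v → (∀ V : Sys S, Good (succ κ) (S.Le v) v V → CofAt κ (S.Le v) v V) →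
    ∀ V : Sys S, Good κ (S.Le v) v V → (∀ z ∈ S.Bd v, Uq (succ κ) z V) → Uq (succ κ) v V

/-- the conclusions of the main induction -/
structure Master (S : Shape C) (κ : Cardinal.{0}) : Prop where
  te : ∀ (𝒟 : Set (Finset S.L)) (E : Finset S.L), S.Cx 𝒟 E → TEat κ 𝒟 E
  ul : ∀ v : Finset S.L, S.Face v → ULat κ v
  d : ∀ v : Finset S.L, S.Face v → Dat κ v
  g : ∀ (𝒟 : Set (Finset S.L)) (E : Set S.L), S.Dn 𝒟 → (∀ y ∈ 𝒟, ↑y ⊆ E) → ∀ V : Sys S,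
    Good κ 𝒟 E V → InU (succ κ) 𝒟 E V

def S_Master : Prop := ∀ (C : AX) (S : Shape C) (κ : Cardinal.{0}), C.Lv κ → Master S κ

/-- a free shape with codes and tags -/
def S_ShapeEx : Prop :=
  ∀ (C : AX) (Cd Tag : Type), ∃ (S : Shape C) (code : S.L → Cd) (tag : S.L → Tag),
    #S.L ≤ #Cd + #Tag + C.k0 ∧ ∀ u, S.Face u → ∀ (t : C.Op) (j : Cd) (τ : Tag),
      ∃ l, S.par l = u ∧ S.opn l = t ∧ code l = j ∧ tag l = τ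

/-- adding all faces of the next size -/
def S_BigStep : Prop :=
  ∀ (C : AX) (S : Shape C) (κ : Cardinal.{0}), C.Lv κ → Master S κ → ∀ (code : S.L → J κ) (n : ℕ)
    (A : Sys S), Good κ {y | S.Face y ∧ y.card < n} univ A →
    Coded code {y | S.Face y ∧ y.card < n} A →
    ∃ (B : Sys S) (ρ : ∀ y, C.U (A.N y) → C.U (B.N y)),
      Good κ {y | S.Face y ∧ y.card < n + 1} univ B ∧
      Coded code {y | S.Face y ∧ y.card < n + 1} B ∧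
      SMor {y | S.Face y ∧ y.card < n} univ A B ρ ∧ ∀ y, S.Face y → y.card < n → Surjective (ρ y)

/-- a good system on all faces -/
def S_BigSys : Prop :=
  ∀ (C : AX) (S : Shape C) (κ : Cardinal.{0}), C.Lv κ → Master S κ → ∀ (_ : C.Obj)
    (code : S.L → J κ), ∃ A : Sys S, Good κ (S.On univ) univ A ∧ Coded code (S.On univ) A

/-- a type over a system is based on one face -/
def S_OneB : Prop :=
  ∀ (C : AX) (S : Shape C) (μ : Cardinal.{0}), C.Lv μ → ∀ (L : Set S.L) (A : Sys S),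
    A.Small μ (S.On L) → A.Valid (S.On L) ∅ → ∀ (Z : C.Obj) (e : ∀ y, C.U (A.N y) → C.U Z)
    (c : C.U Z), A.Cone (S.On L) Z e → ∃ u ∈ S.On L, ∃ (t : C.Op) (β : C.U (A.N u)),
      ∀ w ∈ S.On L, u ⊆ w → C.Right t (A.N w) (A.i u w β) (e w) c

/-- a cocone with a point of the right type extends to the faces containing a new letter -/
def S_ExtMap : Prop :=
  ∀ (C : AX) (S : Shape C) (μ : Cardinal.{0}), (∀ v : Finset S.L, S.Face v → ULat μ v) →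
    ∀ (A : Sys S), InU μ (S.On univ) univ A → ∀ (L : Set S.L) (l : S.L),
    (∀ l' ∈ L, ↑(S.par l') ⊆ L) → l ∉ L → ↑(S.par l) ⊆ L →
    ∀ (Z : C.Obj) (e : ∀ y, C.U (A.N y) → C.U Z) (c : C.U Z), A.Cone (S.On L) Z e →
      (∀ w ∈ S.On L, S.par l ⊆ w → C.Right (S.opn l) (A.N w) (A.b l w) (e w) c) →
      ∃ (Z' : C.Obj) (b : C.U Z → C.U Z') (h : ∀ y, C.U (A.N y) → C.U Z'), C.IsH b ∧
        A.Cone (S.On (insert l L)) Z' h ∧ (∀ w ∈ S.On L, ∀ x, h w x = b (e w x)) ∧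
        h (S.sup (l, true)) (A.c l (S.sup (l, true))) = b c

/-- one more tag realises all types -/
def S_RealStep : Prop :=
  ∀ (C : AX) (S : Shape C) (μ : Cardinal.{0}), C.Lv μ → (∀ v : Finset S.L, S.Face v → ULat μ v) →
    ∀ (Cd Tag : Type) (code : S.L → Cd) (tag : S.L → Tag),
    (∀ u, S.Face u → ∀ (t : C.Op) (j : Cd) (τ : Tag),
      ∃ l, S.par l = u ∧ S.opn l = t ∧ code l = j ∧ tag l = τ) →
    ∀ A : Sys S, InU μ (S.On univ) univ A → Coded code (S.On univ) A →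
    ∀ (N : C.Obj) (ι : ∀ y, C.U (A.N y) → C.U N), A.Cone (S.On univ) N ι →
    ∀ (T : Set Tag) (τ : Tag), τ ∉ T → ∀ (B : C.Obj) (u : C.U B → C.U N), C.IsH u →
    range u = (⋃ w ∈ S.On (S.Tg tag T), range (ι w)) →
    ∀ (Z : C.Obj) (e : C.U B → C.U Z) (c : C.U Z), C.IsH e →
      ∃ w ∈ S.On (S.Tg tag (insert τ T)), ∃ a : C.U (A.N w), C.El Z N (G1 e u c (ι w a))

/-- the abstract main theorem -/
def S_AMain : Prop :=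
  ∀ (C : AX) (θ : Cardinal.{0}), succ C.k0 ≤ θ → ∀ M : C.Obj, #(C.U M) ≤ θ →
    ∃ (M' : C.Obj) (g : C.U M → C.U M'), C.IsH g ∧ #(C.U M') ≤ θ ∧ C.Real g

end Pool.Agent.P.MP_860a31_lc.E
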