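import Pool.Agent.P.MP_860a31_lc.E.Fam
import Pool.Agent.P.MP_860a31_lc.E.Stm
import Pool.Agent.P.MP_860a31_lc.Blk

/-!
Categorical classes, substitutions, and the statements of the packages about them.
-/

open Cardinal hiding univ
open Set Order Function

namespace Pool.Agent.P.MP_860a31_lc.E

/-- a class categorical in a cardinal above its Hanf number -/
structure KC extends AC where
  lam : Cardinal.{0}
  code : toPC.HasCode
  cat_ex : ∃ A, #(U A) = lam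
  cat : ∀ A B : Obj, #(U A) = lam → #(U B) = lam → ∃ f : U A → U B, IsH f ∧ Surjective f
  hl : hanf k0 ≤ lam

theorem pow_lt_hanf {κ : Cardinal.{0}} (h : ℵ₀ ≤ κ) : 2 ^ κ < hanf κ := (hanfSpec κ h).2.1

theorem lt_hanf {κ : Cardinal.{0}} (h : ℵ₀ ≤ κ) : κ < hanf κ := (cantor κ).trans (pow_lt_hanf h)

theorem pow_lt_hanf' {κ θ : Cardinal.{0}} (h : ℵ₀ ≤ κ) (hθ : θ < hanf κ) : 2 ^ θ < hanf κ :=
  (hanfSpec κ h).2.2.1 θ hθ

theorem card_W_lt {κ θ : Cardinal.{0}} (h : ℵ₀ ≤ κ) (hθ : θ < hanf κ) :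
    θ ≤ #(W θ) ∧ #(W θ) + κ < hanf κ := by
  rw [W.card']
  exact ⟨le_max_left _ _, add_lt_of_lt (h.trans (lt_hanf h).le)
    (max_lt hθ (h.trans_lt (lt_hanf h))) (lt_hanf h)⟩

namespace KC

variable (K : KC)

theorem cof_le : K.lam.ord.cof ≤ K.lam := Ordinal.cof_ord_le _

theorem hanf_le : hanf K.k0 ≤ K.lam := K.hl

theorem k0_lt : K.k0 < K.lam := (lt_hanf K.inf).trans_le K.hanf_le

theorem lam_inf : ℵ₀ ≤ K.lam := K.inf.trans K.k0_lt.le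

/-- objects of size `lam` are saturated below the Hanf number of `κ` -/
def SatH (κ : Cardinal.{0}) : Prop :=
  hanf κ ≤ K.lam ∧ ∀ A : K.Obj, #(K.U A) = K.lam → ∀ χ < hanf κ, K.Sat χ A

variable {K}

/-- objects of size `lam` are universal -/
theorem univ_lam {A B : K.Obj} (hA : #(K.U A) ≤ K.lam) (hB : #(K.U B) = K.lam) :
    ∃ f : K.U A → K.U B, K.IsH f := by
  obtain ⟨Y, f, g, hf, hg, hY, -⟩ := (PC.El.empty A B).small K.k0_lt.le hA hB.le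
  obtain ⟨k, hk, -⟩ := K.cat Y B (le_antisymm hY (hB.ge.trans (PC.card_le hg))) hB
  exact ⟨_, K.comp hf hk⟩

/-- small objects have proper extensions -/
theorem proper {A : K.Obj} (hA : #(K.U A) < K.lam) :
    ∃ (B : K.Obj) (f : K.U A → K.U B) (b : K.U B), K.IsH f ∧ b ∉ range f := by
  obtain ⟨B, hB⟩ := K.cat_ex
  obtain ⟨f, hf⟩ := univ_lam hA.le hB
  by_contra hc
  push Not at hc
  exact hA.not_ge (hB.ge.trans (mk_le_of_surjective (f := f) fun b => hc B f b hf))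

end KC

/-- a functor from finite linear orders to linear orders, with a natural map from the inclusion -/
structure Sub where
  σ : ℕ → Type
  [lo : ∀ n, LinearOrder (σ n)]
  mp : ∀ {m n : ℕ}, (Fin m ↪o Fin n) → σ m ↪o σ n
  mp_id : ∀ (n : ℕ) (x : σ n), mp (RelEmbedding.refl _) x = x
  mp_comp : ∀ {m n k : ℕ} (a : Fin m ↪o Fin n) (b : Fin n ↪o Fin k) (x : σ m),
    mp b (mp a x) = mp (a.trans b) x
  η : ∀ n, Fin n ↪o σ n
  nat : ∀ {m n : ℕ} (a : Fin m ↪o Fin n) (i : Fin m), mp a (η m i) = η n (a i)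

attribute [instance] Sub.lo

/-- substitution into a family -/
@[reducible] noncomputable def Sub.fam (s : Sub) {C : CC} (P : Fam C.toPC) : Fam C.toPC where
  ob n := P.ev (s.σ n)
  mp a := P.evmap (s.mp a)
  hom _ := Fam.evmap_h _
  mp_id n y := by
    obtain ⟨k, t, x, rfl⟩ := Fam.evi_surj y
    rw [Fam.evmap_evi]
    congr 1
    ext i
    exact s.mp_id n _
  mp_comp a b y := by
    rw [Fam.evmap_evmap]
    congr 1
    ext i
    exact s.mp_comp a b _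

theorem Sub.nt_eta (s : Sub) {C : CC} (P : Fam C.toPC) :
    Fam.Nt P (s.fam P) (fun n => P.evi (s.η n)) where
  hom _ := Fam.evi_h _
  nat a x := by
    change _ = P.evmap _ _
    rw [Fam.evi_mp, Fam.evmap_evi]
    congr 1
    ext i
    exact (s.nat a i).symm

/-- the relation induced on the values of two families -/
def evR {C : PC} {P P' : Fam C} (R : ∀ n, C.U (P.ob n) → C.U (P'.ob n) → Prop) (X : Type)
    [LinearOrder X] (p : C.U (P.ev X)) (q : C.U (P'.ev X)) : Prop :=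
  ∃ (n : ℕ) (s : Fin n ↪o X) (x : C.U (P.ob n)) (x' : C.U (P'.ob n)),
    R n x x' ∧ P.evi s x = p ∧ P'.evi s x' = q

/-- Morley's method for a family of colourings -/
def S_FamMorley : Prop :=
  ∀ (h χ : Cardinal.{0}), Hanf h χ → ∀ (D : Type 1) (X : D → Type) (Γ : Type), #Γ ≤ χ →
    ∀ c : ∀ d, Finset (X d) → Γ, (∀ θ < h, ∃ d, θ ≤ #(X d)) →
      ∃ γ : ℕ → Γ, ∀ n, ∃ (d : D) (t : Finset (X d)), t.card = n ∧ ∀ s ⊆ t, c d s = γ s.card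

/-- uniformisation: a family that is locally like given data -/
def S_Unif : Prop :=
  ∀ (C : PC), C.HasCode → ∀ κ : Cardinal.{0}, C.k0 ≤ κ → ∀ (D : Type 1) (X : D → Type)
    [∀ d, LinearOrder (X d)] (Z : D → C.Obj) (Γ Col : ℕ → Type)
    (g : ∀ d n, (Fin n ↪o X d) → Γ n → C.U (Z d)) (c : ∀ d n, (Fin n ↪o X d) → Col n),
    (∀ n, #(Γ n) ≤ κ) → (∀ n, #(Col n) ≤ 2 ^ κ) → (∀ θ < hanf κ, ∃ d, θ ≤ #(X d)) →
    ∃ (Q : Fam C) (γ : ∀ n, Γ n → C.U (Q.ob n)) (γ' : ∀ n, Col n),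
      (∀ n, #(C.U (Q.ob n)) ≤ κ) ∧ ∀ n, ∃ (d : D) (t : Fin n ↪o X d)
        (h : C.U (Q.ob n) → C.U (Z d)), C.IsH h ∧ ∀ (m : ℕ) (a : Fin m ↪o Fin n),
          (∀ u, h (Q.mp a (γ m u)) = g d m (a.trans t) u) ∧ c d m (a.trans t) = γ' m

/-- joint embeddings of values on large orders give joint embeddings of families -/
def S_Nat : Prop :=
  ∀ (C : CC), C.HasCode → ∀ κ : Cardinal.{0}, C.k0 ≤ κ → ∀ (P P' : Fam C.toPC)
    (R : ∀ n, C.U (P.ob n) → C.U (P'.ob n) → Prop), (∀ n, #(C.U (P.ob n)) ≤ κ) →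
    (∀ n, #(C.U (P'.ob n)) ≤ κ) →
    (∀ θ < hanf κ, ∃ (X : Type) (_ : LinearOrder X), θ ≤ #X ∧
      C.El (P.ev X) (P'.ev X) (evR R X)) →
    ∃ (Q : Fam C.toPC) (φ : ∀ n, C.U (P.ob n) → C.U (Q.ob n))
      (φ' : ∀ n, C.U (P'.ob n) → C.U (Q.ob n)), Fam.Nt P Q φ ∧ Fam.Nt P' Q φ' ∧
      (∀ n, #(C.U (Q.ob n)) ≤ κ) ∧ ∀ n x x', R n x x' → φ n x = φ' n x'

/-- a small family with an atom -/
def S_Base : Prop :=
  ∀ K : KC, ∃ (P : Fam K.toPC) (x : K.U (P.ob 1)), P.Atom x ∧ ∀ n, #(K.U (P.ob n)) ≤ K.k0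

/-- stability below the categoricity cardinal -/
def S_KStab : Prop :=
  ∀ (K : KC) (θ : Cardinal.{0}) (ι : Type), K.k0 ≤ θ → θ < K.lam → θ ^ #ι ≤ θ → K.PStab θ ι

/-- saturation of the object of size `lam` -/
def S_KSat : Prop :=
  ∀ (K : KC) (A : K.Obj), #(K.U A) = K.lam → ∀ χ < K.lam.ord.cof, K.Sat χ A

/-- no order property -/
def S_NoOP : Prop :=
  ∀ (K : KC) (κ : Cardinal.{0}), K.k0 ≤ κ → 2 ^ κ < K.lam → ∀ (Z1 Z2 : K.Obj) (I I' : Type)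
    (p1 : I → K.U Z1) (q1 : I' → K.U Z1) (p2 : I → K.U Z2) (q2 : I' → K.U Z2), #I ≤ κ → #I' ≤ κ →
    (∀ θ < hanf κ, ∃ (Λ : Type) (_ : LinearOrder Λ) (T : K.Obj) (a : Λ → I → K.U T)
      (a' : Λ → I' → K.U T), θ ≤ #Λ ∧
      (∀ i j, i < j → K.El T Z1 (fun x y => G (a i) p1 x y ∨ G (a' j) q1 x y)) ∧
      ∀ i j, j ≤ i → K.El T Z2 (fun x y => G (a i) p2 x y ∨ G (a' j) q2 x y)) →
    K.El Z1 Z2 (fun x y => G p1 p2 x y ∨ G q1 q2 x y)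

/-- uniformisation for linear orders -/
def S_SubEx : Prop :=
  ∀ κ : Cardinal.{0}, ℵ₀ ≤ κ → ∀ (D : Type 1) (X Λ : D → Type) [∀ d, LinearOrder (X d)]
    [∀ d, LinearOrder (Λ d)] [∀ d, Nonempty (Λ d)] (w : ∀ d, X d ↪o Λ d) (Γ Col : ℕ → Type)
    (g : ∀ d n, (Fin n ↪o X d) → Γ n → Λ d) (c : ∀ d n, (Fin n ↪o X d) → Col n),
    (∀ n, #(Γ n) ≤ κ) → (∀ n, #(Col n) ≤ 2 ^ κ) → (∀ θ < hanf κ, ∃ d, θ ≤ #(X d)) →
    ∃ (s : Sub) (γ : ∀ n, Γ n → s.σ n) (γ' : ∀ n, Col n), (∀ n, #(s.σ n) ≤ κ) ∧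
      ∀ n, ∃ (d : D) (t : Fin n ↪o X d) (h : s.σ n ↪o Λ d), (∀ i, h (s.η n i) = w d (t i)) ∧
        ∀ (m : ℕ) (a : Fin m ↪o Fin n),
          (∀ u, h (s.mp a (γ m u)) = g d m (a.trans t) u) ∧ c d m (a.trans t) = γ' m

/-- countably many substitutions contain all finite tuples -/
def S_OpEx : Prop :=
  ∀ n m : ℕ, ∃ (Op : Type) (S : Op → Sub) (a : ∀ t, Fin n ↪o (S t).σ m), #Op ≤ ℵ₀ ∧
    (∀ t k, #((S t).σ k) ≤ ℵ₀) ∧ ∀ (s : Sub) (b : Fin n ↪o s.σ m),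
      ∃ (t : Op) (w : ∀ k, (S t).σ k ↪o s.σ k),
        (∀ k l (c : Fin k ↪o Fin l) x, w l ((S t).mp c x) = s.mp c (w k x)) ∧
        (∀ k i, w k ((S t).η k i) = s.η k i) ∧ ∀ i, w m (a t i) = b i

/-- small extensions of a family embed into a substitution instance -/
def S_UU : Prop :=
  ∀ (K : KC) (κ : Cardinal.{0}), K.k0 ≤ κ → K.SatH κ →
    ∀ (N B : Fam K.toPC) (φ : ∀ n, K.U (N.ob n) → K.U (B.ob n)) (x : K.U (N.ob 1)), N.Atom x →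
      Fam.Nt N B φ → (∀ n, #(K.U (B.ob n)) ≤ κ) →
      ∃ s : Sub, (∀ n, #(s.σ n) ≤ κ) ∧ ∃ ψ : ∀ n, K.U (B.ob n) → K.U ((s.fam N).ob n),
        Fam.Nt B (s.fam N) ψ ∧ ∀ n y, ψ n (φ n y) = N.evi (s.η n) y

/-- long sequences ordered by two functors -/
def S_LongOP : Prop :=
  ∀ (C : CC) (F F' : Fn C.toPC) (N : C.Obj) (θ : Cardinal.{0}),
    ∃ (T : C.Obj) (a : W θ → C.U (F.ap N) → C.U T) (a' : W θ → C.U (F'.ap N) → C.U T),
      (∀ i, C.IsH (a i) ∧ C.IsH (a' i)) ∧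
      (∀ i j, i < j → ∃ k : C.U (F'.ap (F.ap N)) → C.U T, C.IsH k ∧
        (∀ x, k (F'.eta _ x) = a i x) ∧ ∀ y, k (F'.mp (F.eta N) y) = a' j y) ∧
      ∀ i j, j ≤ i → ∃ k : C.U (F.ap (F'.ap N)) → C.U T, C.IsH k ∧
        (∀ x, k (F.mp (F'.eta N) x) = a i x) ∧ ∀ y, k (F.eta _ y) = a' j y

/-- the main theorem for categorical classes -/
def S_KMain (Q : KC → Prop) : Prop :=
  ∀ (K : KC), Q K → ∀ (θ : Cardinal.{0}), K.lam ≤ θ → ∀ M : K.Obj, #(K.U M) ≤ θ →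
    ∃ (M' : K.Obj) (g : K.U M → K.U M'), K.IsH g ∧ #(K.U M') ≤ θ ∧ K.Real g

/-- the target statement -/
def Goal2 (Q : Cardinal.{0} → Cardinal.{0} → Prop) : Prop :=
  ∀ (L : FirstOrder.Language.{0, 0}) (K : AEC L), K.AP → ∀ lam : Cardinal.{0},
    hanf K.LS ≤ lam → Q K.LS lam → K.Categorical lam →
      ∀ θ : Cardinal.{0}, lam ≤ θ → K.Stable θ

end Pool.Agent.P.MP_860a31_lc.E
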