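import Pool.Agent.P.MP_860a31_lc.E.Stm

/-!
Small amalgams of stages are compatible with every amalgam of the whole systems.
-/

open Cardinal hiding univ
open Set Order Filter Function

namespace Pool.Agent.P.MP_860a31_lc.E

open PC Sys

namespace LiftMixP

variable {C : AX} {S : Shape C} {v : Finset S.L} {V M : Sys S}
  {σ : ∀ y, C.U (V.N y) → C.U (M.N y)}

theorem ok {μ : Cardinal.{0}} (hV : InU μ (S.Le v) v V) (hM : InU μ (S.Bd v) v M)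
    (hσ : SMor (S.Bd v) v V M σ) : (pairDg V M σ).Ok (pairI (S.Le v) (S.Bd v)) μ where
  fin := ((S.fin_le v).image _).union ((S.fin_bd v).image _)
  card := by
    rintro _ (⟨y, hy, rfl⟩ | ⟨y, hy, rfl⟩)
    · exact hV.small y hy
    · exact hM.small y hy
  hom := by
    rintro _ (⟨y, hy, rfl⟩ | ⟨y, hy, rfl⟩) _ (⟨z, hz, rfl⟩ | ⟨z, hz, rfl⟩) a
    · exact hV.valid.hom y hy z hz a.1
    · have hy' : y ∈ S.Bd v := ⟨hy.1, lt_of_le_of_lt a hz.2⟩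
      exact comp' (hσ.hom y hy') (hM.valid.hom y hy' z hz a) fun _ => rfl
    · exact a.elim
    · exact hM.valid.hom y hy z hz a.1

theorem okP (hv : S.Face v) : (mixPc V M σ v).Ok (pairI (S.Le v) (S.Bd v)) where
  fin := S.fin_mx v
  fc _ hj := Or.inr ⟨_, hv.erase_mem_bd hj, rfl⟩

/-- the cocone given by an amalgam -/
def co {Z : C.Obj} (h : C.U (V.N v) → C.U Z) (e : ∀ y, C.U (M.N y) → C.U Z) :
    ∀ i, C.U ((pairDg V M σ).X i) → C.U Z
  | .inl z => fun x => h (V.i z v x)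
  | .inr z => e z

/-- the cocone given by an amalgam of stages -/
noncomputable def coS {κ : Cardinal.{0}} {γ : J κ} {Z : C.Obj}
    (h : C.U (C.st κ (V.N v) γ) → C.U Z) (e : ∀ y, C.U (C.st κ (M.N y) γ) → C.U Z) :
    ∀ i, C.U (C.st κ ((pairDg V M σ).X i) γ) → C.U Z
  | .inl z => fun x => h (stm (V.i z v) γ γ x)
  | .inr z => e z

theorem adm (hv : S.Face v) (hV : V.Valid (S.Le v) v) {Z : C.Obj} {h : C.U (V.N v) → C.U Z}
    {e : ∀ y, C.U (M.N y) → C.U Z}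
    (a0 : AA V v (V.N v) (fun y => V.i y v) (fun j => V.c j v) M σ Z h e) :
    Adm (pairDg V M σ) (pairI (S.Le v) (S.Bd v)) (mixPc V M σ v) Z (co h e)
      (fun j => h (V.c j v)) where
  hom := by
    rintro _ (⟨y, hy, rfl⟩ | ⟨y, hy, rfl⟩)
    · exact comp' (hV.hom y hy v hv.mem_le hy.2) a0.hom fun _ => rfl
    · exact a0.adm.cone.hom y hy
  nat := by
    rintro _ (⟨y, hy, rfl⟩ | ⟨y, hy, rfl⟩) _ (⟨z, hz, rfl⟩ | ⟨z, hz, rfl⟩) a x
    · exact congrArg h (hV.comp y hy z hz v hv.mem_le a.1 hz.2 x)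
    · have hy' : y ∈ S.Bd v := ⟨hy.1, lt_of_le_of_lt a hz.2⟩
      exact (a0.adm.cone.nat y hy' z hz a _).trans (a0.ov y hy' x)
    · exact a.elim
    · exact a0.adm.cone.nat y hy z hz a.1 x
  idp := by
    rintro j hj _ (⟨z, hz, rfl⟩ | ⟨z, hz, rfl⟩) a
    · exact congrArg h (hV.c hj.1 hz hv.mem_le hz.1 a hz.2)
    · exact (a0.adm.pnt j hj).idp z hz a
  right j hj := (a0.adm.pnt j hj).right

theorem admS (hv : S.Face v) {κ : Cardinal.{0}} {γ : J κ} (hV : (V.stage κ γ).Valid (S.Le v) v)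
    (hi : ∀ y ∈ S.Bd v, Into (σ y) γ γ) {Z : C.Obj} {h : C.U (C.st κ (V.N v) γ) → C.U Z}
    {e : ∀ y, C.U (C.st κ (M.N y) γ) → C.U Z}
    (a0 : AA (V.stage κ γ) v (C.st κ (V.N v) γ) (fun y => (V.stage κ γ).i y v)
      (fun j => (V.stage κ γ).c j v) (M.stage κ γ) (fun y => stm (σ y) γ γ) Z h e) :
    Adm ((pairDg V M σ).stage κ γ) (pairI (S.Le v) (S.Bd v)) ((mixPc V M σ v).stage κ γ) Z
      (coS h e) (fun j => h ((V.stage κ γ).c j v)) where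
  hom := by
    rintro _ (⟨y, hy, rfl⟩ | ⟨y, hy, rfl⟩)
    · exact comp' (hV.hom y hy v hv.mem_le hy.2) a0.hom fun _ => rfl
    · exact a0.adm.cone.hom y hy
  nat := by
    rintro _ (⟨y, hy, rfl⟩ | ⟨y, hy, rfl⟩) _ (⟨z, hz, rfl⟩ | ⟨z, hz, rfl⟩) a x
    · exact congrArg h (hV.comp y hy z hz v hv.mem_le a.1 hz.2 x)
    · have hy' : y ∈ S.Bd v := ⟨hy.1, lt_of_le_of_lt a hz.2⟩
      exact (congrArg (e z) ((hi y hy').stm_stm (k := M.i y z) (ε := γ) x).symm).trans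
        ((a0.adm.cone.nat y hy' z hz a _).trans (a0.ov y hy' x))
    · exact a.elim
    · exact a0.adm.cone.nat y hy z hz a.1 x
  idp := by
    rintro j hj _ (⟨z, hz, rfl⟩ | ⟨z, hz, rfl⟩) a
    · exact congrArg h (hV.c hj.1 hz hv.mem_le hz.1 a hz.2)
    · exact (a0.adm.pnt j hj).idp z hz a
  right j hj := (a0.adm.pnt j hj).right

end LiftMixP

theorem liftMix (h1 : S_DTrap) (h2 : S_SRpair) (h3 : S_HUmix) : S_LiftMix := by
  intro C S κ hκ v hv hUL V M σ hV hM hσ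
  have hHU := h3 C S (succ κ) v hv V M σ (hV.uq v hv.mem_le) hV.valid hM hσ
  obtain ⟨D0, hD0, H⟩ := h1 C κ hκ _ _ (pairDg V M σ) (pairI (S.Le v) (S.Bd v)) (mixPc V M σ v)
    (LiftMixP.ok hV hM hσ) (LiftMixP.okP hv)
    (h2 C S κ hκ _ _ v (S.cx_le v) (S.dn_bd v) (S.bd_sub_le v) hUL V M σ hV hM hσ) hHU
  filter_upwards [ev_club hD0, ev_cl hκ (S.cx_le v) hV.small,
    Sys.ev_into hκ (S.fin_bd v) hM.small (hV.small.mono (S.bd_sub_le v)) σ] with γ g1 g2 g3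
  intro Z0 h0 e0 hZ0 a0 Z h e a
  have hVγ := g2.valid (S.cx_le v) hV.valid
  obtain ⟨T, k, e', hk, -, -, hT, hov, -⟩ := H γ g1 Z0 _ _ hZ0 (LiftMixP.admS hv hVγ g3 a0)
  refine (hHU _ _ _ _ _ _ hT (LiftMixP.adm hv hV.valid a)).pull_left hk ?_
  rintro _ _ (⟨x, rfl, rfl⟩ | ⟨y, hy, x, rfl, rfl⟩)
  · have hi : (Sum.inl v : Finset S.L ⊕ Finset S.L) ∈ pairI (S.Le v) (S.Bd v) :=
      Or.inl ⟨v, hv.mem_le, rfl⟩
    exact ⟨_, hi, val x, (hov _ hi x).trans (congrArg k (congrArg h0 (hVγ.id v hv.mem_le x))),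
      congrArg h (hV.valid.id v hv.mem_le _)⟩
  · have hi : (Sum.inr y : Finset S.L ⊕ Finset S.L) ∈ pairI (S.Le v) (S.Bd v) :=
      Or.inr ⟨y, hy, rfl⟩
    exact ⟨_, hi, val x, hov _ hi x, rfl⟩

end Pool.Agent.P.MP_860a31_lc.E
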