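import Pool.Agent.P.MP_860a31_lc.E.KStm

/-!
Long sequences ordered by two functors.
-/

open Cardinal hiding univ
open Set Order Function

namespace Pool.Agent.P.MP_860a31_lc.E

theorem longOP : S_LongOP := by
  intro C F F' N θ
  obtain ⟨Y, t, h0, -, ht, tid, tc, hst, -⟩ := gchain (Λ := W θ) (St := C.Obj) (ι := Unit)
    (fun S _ => C.U S) (fun _ _ f => C.IsH (f ())) (fun S => C.idH S)
    (fun _ _ _ _ _ hf hg => C.comp hf hg) (fun _ _ => True)
    (fun _ S S' w => ∃ m : C.U (F.ap (F'.ap S)) → C.U S', C.IsH m ∧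
      ∀ y, m (F.eta _ (F'.eta _ y)) = w () y) N trivial
    (fun _ S _ => ⟨F.ap (F'.ap S), fun _ y => F.eta _ (F'.eta _ y),
      C.comp (F'.eta_h _) (F.eta_h _), trivial, fun x => x, C.idH _, fun _ => rfl⟩)
    (fun δ hδ c _ _ => by
      have : Nonempty (Iio δ) := ⟨⟨⊥, hδ.bot_lt⟩⟩
      obtain ⟨B, u, h1, h2, h3⟩ := C.colim (Iio δ) c.F (fun a b h => c.t a b h ()) c.hom
        (fun a x => c.t_id a () x) (fun a b d h h' x => c.t_comp a b d h h' () x)
      exact ⟨B, fun a _ => u a, trivial, h1, fun a b h _ x => h2 a b h x, fun _ y => h3 y⟩)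
  subst h0
  choose m hm em using hst
  obtain ⟨T, u, hu, uc, -⟩ := C.colim (W θ) Y (fun a b h => t a b h ()) ht
    (fun a x => tid a () x) (fun a b d h h' x => tc a b d h h' () x)
  have hn : ∀ i, C.IsH (t ⊥ i bot_le ()) := fun i => ht _ _ _
  have hg : ∀ i, C.IsH (fun x => m i (F.mp (fun z => F'.eta _ (t ⊥ i bot_le () z)) x)) :=
    fun i => C.comp (F.mp_h (C.comp (hn i) (F'.eta_h _))) (hm i)
  have hg' : ∀ j, C.IsH (fun y => m j (F.eta _ (F'.mp (t ⊥ j bot_le ()) y))) :=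
    fun j => C.comp (C.comp (F'.mp_h (hn j)) (F.eta_h _)) (hm j)
  refine ⟨T, fun i x => u (succ i) (m i (F.mp (fun z => F'.eta _ (t ⊥ i bot_le () z)) x)),
    fun j y => u (succ j) (m j (F.eta _ (F'.mp (t ⊥ j bot_le ()) y))),
    fun i => ⟨C.comp (hg i) (hu _), C.comp (hg' i) (hu _)⟩, fun i j hij => ?_, fun i j hji => ?_⟩
  · have hs : succ i ≤ j := succ_le_of_lt hij
    have h1 := C.comp (hg i) (ht _ _ hs)
    refine ⟨fun x => u (succ j) (m j (F.eta _ (F'.mp (fun x => t _ _ hs () (m i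
      (F.mp (fun z => F'.eta _ (t ⊥ i bot_le () z)) x))) x))),
      C.comp (C.comp (C.comp (F'.mp_h h1) (F.eta_h _)) (hm j)) (hu _), fun x => ?_, fun y => ?_⟩
    · simp only [F'.eta_nat h1, em, uc]
    · simp only [F'.mp_comp (F.eta_h _) h1, F.eta_nat (C.comp (hn i) (F'.eta_h _)), em, tc]
  · rcases hji.eq_or_lt with rfl | hji
    · refine ⟨fun x => u (succ j) (m j (F.mp (F'.mp (t ⊥ j bot_le ())) x)),
        C.comp (C.comp (F.mp_h (F'.mp_h (hn j))) (hm j)) (hu _), fun x => ?_, fun y => ?_⟩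
      · simp only [F.mp_comp (F'.eta_h _) (F'.mp_h (hn j)), F'.eta_nat (hn j)]
      · simp only [F.eta_nat (F'.mp_h (hn j))]
    · have hs : succ j ≤ i := succ_le_of_lt hji
      have h1 := C.comp (C.comp (hg' j) (ht _ _ hs)) (F'.eta_h _)
      refine ⟨fun x => u (succ i) (m i (F.mp (fun y => F'.eta _ (t _ _ hs () (m j
        (F.eta _ (F'.mp (t ⊥ j bot_le ()) y))))) x)),
        C.comp (C.comp (F.mp_h h1) (hm i)) (hu _), fun x => ?_, fun y => ?_⟩
      · simp only [F.mp_comp (F'.eta_h _) h1, F'.eta_nat (hn j), em, tc]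
      · simp only [F.eta_nat h1, em, uc]

end Pool.Agent.P.MP_860a31_lc.E
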