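import Pool.Agent.P.MP_860a31_lc.E.Stm

/-!
The main induction on the size of faces.
-/

open Cardinal hiding univ
open Set Order Filter Function

namespace Pool.Agent.P.MP_860a31_lc.E

open PC Sys

theorem master (hUL : S_UL1) (hD : S_D) (hTE : S_TE1) (hCof : S_Cof) (hG : S_G1) : S_Master := by
  intro C S
  have ul : ∀ n, (∀ κ, C.Lv κ → ∀ (𝒟 : Set (Finset S.L)) (E : Finset S.L), S.Cx 𝒟 E →
      (∀ y ∈ 𝒟, y.card < n) → TEat κ 𝒟 E) → ∀ κ, C.Lv κ → ∀ v : Finset S.L, S.Face v →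
      v.card < n + 1 → ULat κ v := by
    intro n te κ hκ v
    induction v using Finset.strongInduction with
    | H v ih =>
      intro hv hc
      refine hUL C S κ hκ v hv (fun w hw => ih w hw.2 hw.1 ?_) fun y hy =>
        te κ hκ _ _ (S.cx_bd y) fun z hz => ?_
      · have := Finset.card_lt_card hw.2; omega
      · have := Finset.card_lt_card hy.2
        have := Finset.card_lt_card hz.2
        omega
  have dd : ∀ n, (∀ κ, C.Lv κ → ∀ v : Finset S.L, S.Face v → v.card < n + 1 → ULat κ v) →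
      (∀ κ, C.Lv κ → ∀ v : Finset S.L, S.Face v → v.card < n → ∀ V : Sys S,
        Good κ (S.Le v) v V → Uq (succ κ) v V) →
      ∀ κ, C.Lv κ → ∀ v : Finset S.L, S.Face v → v.card < n + 1 → Dat κ v := by
    intro n u g κ hκ v hv hc
    refine hD C S κ hκ v hv (fun w hw => u _ (C.lv_succ hκ) w hw.1
      ((Finset.card_le_card hw.2).trans_lt hc)) fun V hV => ⟨hV.small, hV.valid, fun z hz => ?_⟩
    refine g κ hκ z hz.1 ?_ V (hV.mono ((S.dn_bd v).le_sub hz) (Finset.coe_subset.2 hz.2.1))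
    have := Finset.card_lt_card hz.2
    omega
  have key : ∀ n, (∀ κ, C.Lv κ → ∀ (𝒟 : Set (Finset S.L)) (E : Finset S.L), S.Cx 𝒟 E →
      (∀ y ∈ 𝒟, y.card < n) → TEat κ 𝒟 E) ∧ ∀ κ, C.Lv κ → ∀ v : Finset S.L, S.Face v →
      v.card < n → ∀ V : Sys S, Good κ (S.Le v) v V → Uq (succ κ) v V := by
    intro n
    induction n with
    | zero =>
      refine ⟨fun κ hκ 𝒟 E h hc => hTE C S κ hκ 𝒟 E h fun v hv => absurd (hc v hv) (by omega),
        fun κ _ v _ hc => absurd hc (by omega)⟩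
    | succ n ih =>
      have u := ul n ih.1
      have d := dd n u ih.2
      have te : ∀ κ, C.Lv κ → ∀ (𝒟 : Set (Finset S.L)) (E : Finset S.L), S.Cx 𝒟 E →
          (∀ y ∈ 𝒟, y.card < n + 1) → TEat κ 𝒟 E := fun κ hκ 𝒟 E h hc =>
        hTE C S κ hκ 𝒟 E h fun v hv => d κ hκ v (h.dn v hv).1 (hc v hv)
      refine ⟨te, fun κ hκ v hv hc V hV => ?_⟩
      have hle : ∀ w ∈ S.Le v, w.card < n + 1 := fun w hw =>
        (Finset.card_le_card hw.2).trans_lt hc
      refine hG C S κ hκ v hv (te _ (C.lv_succ hκ) _ _ (S.cx_le v) hle)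
        (fun V' hV' => hCof C S κ hκ _ _ (S.cx_le v)
          (fun w hw => u _ (C.lv_succ hκ) w hw.1 (hle w hw))
          (fun 𝒟' h1 h2 => te κ hκ _ _ ⟨h2, fun y hy => (h1 hy).2⟩ fun y hy => hle y (h1 hy))
          V' hV') V hV fun z hz => ?_
      refine ih.2 κ hκ z hz.1 ?_ V
        (hV.mono ((S.dn_le v).le_sub (S.bd_sub_le v hz)) (Finset.coe_subset.2 hz.2.1))
      have := Finset.card_lt_card hz.2
      omega
  intro κ hκ
  refine ⟨fun 𝒟 E h => (key (E.card + 1)).1 κ hκ 𝒟 E h fun y hy =>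
      Nat.lt_succ_of_le (Finset.card_le_card (h.sub y hy)),
    fun v hv => ul _ (key v.card).1 κ hκ v hv (Nat.lt_succ_self _),
    fun v hv => dd _ (ul _ (key v.card).1) (key v.card).2 κ hκ v hv (Nat.lt_succ_self _),
    fun 𝒟 E h1 h2 V hV => ⟨hV.small, hV.valid, fun y hy => (key (y.card + 1)).2 κ hκ y (h1 y hy).1
      (Nat.lt_succ_self _) V (hV.mono (h1.le_sub hy) (h2 y hy))⟩⟩

end Pool.Agent.P.MP_860a31_lc.E
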