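import Pool.Agent.P.MP_860a31_lc.E.KStm

/-!
Joint embeddings of families from joint embeddings of their values, and a small family with an atom.
-/

open Cardinal hiding univ
open Set Order Function

namespace Pool.Agent.P.MP_860a31_lc.E

namespace NatP

theorem refl_trans' {n : ℕ} {I : Type} [LinearOrder I] (t : Fin n ↪o I) :
    (RelEmbedding.refl _ : Fin n ↪o Fin n).trans t = t := by
  ext i; rfl

/-- a family of maps that is locally given by structure maps is natural -/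
theorem nt {C : CC} {P Q : Fam C.toPC} (φ : ∀ n, C.U (P.ob n) → C.U (Q.ob n))
    (H : ∀ n, ∃ (X : Type) (_ : LinearOrder X) (Y : C.Obj) (f : C.U (P.ev X) → C.U Y)
      (t : Fin n ↪o X) (h : C.U (Q.ob n) → C.U Y), C.IsH f ∧ C.IsH h ∧
      ∀ (m : ℕ) (a : Fin m ↪o Fin n) x, h (Q.mp a (φ m x)) = f (P.evi (a.trans t) x)) :
    Fam.Nt P Q φ := by
  refine ⟨fun n => ?_, fun {m n} a x => ?_⟩
  · obtain ⟨X, _, Y, f, t, h, hf, hh, e⟩ := H n
    refine PC.coh' hh (C.comp (Fam.evi_h t) hf) fun x => ?_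
    have := e n (RelEmbedding.refl _) x
    rwa [Q.mp_id, refl_trans'] at this
  · obtain ⟨X, _, Y, f, t, h, hf, hh, e⟩ := H n
    have := e n (RelEmbedding.refl _) (P.mp a x)
    rw [Q.mp_id, refl_trans', Fam.evi_mp, ← e] at this
    exact C.inj hh this

end NatP

open NatP

theorem nat (h : S_Unif) : S_Nat := by
  intro C hC κ hκ P P' R hP hP' H
  have hi := C.inf.trans hκ
  choose X lo hX Y f f' hf hf' hR using fun d : {θ // θ < hanf κ} => H d.1 d.2
  obtain ⟨Q, γ, _, hQ, hl⟩ := h C.toPC hC κ hκ _ X Y (fun n => C.U (P.ob n) ⊕ C.U (P'.ob n))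
    (fun _ => Unit) (fun d n s => Sum.elim (fun x => f d (P.evi s x)) fun x => f' d (P'.evi s x))
    (fun _ _ _ => ()) (fun n => by
      rw [mk_sum, lift_id, lift_id]; exact add_le_of_le hi (hP n) (hP' n))
    (fun _ => by
      rw [mk_unit]; exact one_le_aleph0.trans (hi.trans (cantor κ).le))
    (fun θ hθ => ⟨⟨θ, hθ⟩, hX _⟩)
  refine ⟨Q, fun n x => γ n (.inl x), fun n x => γ n (.inr x), nt _ fun n => ?_, nt _ fun n => ?_,
    hQ, fun n x x' r => ?_⟩
  · obtain ⟨d, t, k, hk, e⟩ := hl n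
    exact ⟨X d, lo d, Y d, f d, t, k, hf d, hk, fun m a x => (e m a).1 (.inl x)⟩
  · obtain ⟨d, t, k, hk, e⟩ := hl n
    exact ⟨X d, lo d, Y d, f' d, t, k, hf' d, hk, fun m a x => (e m a).1 (.inr x)⟩
  · obtain ⟨d, t, k, hk, e⟩ := hl n
    have h1 := (e n (RelEmbedding.refl _)).1 (.inl x)
    have h2 := (e n (RelEmbedding.refl _)).1 (.inr x')
    rw [Q.mp_id] at h1 h2
    exact C.inj hk (h1.trans ((hR d _ _ ⟨n, _, x, x', r, rfl, rfl⟩).trans h2.symm))

theorem base (h : S_Unif) : S_Base := by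
  intro K
  obtain ⟨A, hA⟩ := K.cat_ex
  letI : LinearOrder (K.U A) := IsWellOrder.linearOrder WellOrderingRel
  obtain ⟨Q, γ, _, hQ, hl⟩ := h K.toPC K.code K.k0 le_rfl PUnit (fun _ => K.U A) (fun _ => A)
    (fun n => Fin n) (fun _ => Unit) (fun _ _ s i => s i) (fun _ _ _ => ())
    (fun n => (lt_aleph0_of_finite _).le.trans K.inf)
    (fun _ => by
      rw [mk_unit]; exact one_le_aleph0.trans (K.inf.trans (cantor _).le))
    (fun θ hθ => ⟨PUnit.unit, (hθ.le.trans K.hanf_le).trans hA.ge⟩)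
  refine ⟨Q, γ 1 0, fun k a b e => ?_, hQ⟩
  obtain ⟨_, t, w, -, e'⟩ := hl k
  have h1 := (e' 1 a).1 0
  have h2 := (e' 1 b).1 0
  rw [e, h2] at h1
  have h3 : b 0 = a 0 := t.injective h1
  ext i
  rw [Subsingleton.elim i 0, h3]

end Pool.Agent.P.MP_860a31_lc.E
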