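import Pool.Agent.P.MP_860a31_lc.E.KStm
import Pool.Agent.P.MP_860a31_lc.Ded

/-!
Stability excludes the order property.
-/

open Cardinal hiding univ
open Set Order Function

namespace Pool.Agent.P.MP_860a31_lc.E

open PC Fam

theorem noOP (h1 : S_Unif) (h2 : S_KStab) : S_NoOP := by
  intro K κ hκ hl Z1 Z2 I I' p1 q1 p2 q2 hI hI' H
  have hi : ℵ₀ ≤ κ := K.inf.trans hκ
  have hc : κ ≤ 2 ^ κ := (cantor κ).le
  choose Λ lo T a a' hθ k1 k2 using fun d : {θ : Cardinal.{0} // θ < hanf κ} => H d.1 d.2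
  obtain ⟨Q, γ, γ', hQ, hn⟩ := h1 K.toPC K.code κ hκ _ Λ T (fun n => Fin n × (I ⊕ I'))
    (fun _ => Unit) (fun d _ s u => Sum.elim (a d (s u.1)) (a' d (s u.1)) u.2) (fun _ _ _ => ())
    (fun n => by
      rw [mk_prod, mk_sum, lift_id, lift_id, lift_id, lift_id, mk_fin]
      exact mul_le_of_le hi (natCast_lt_aleph0.le.trans hi) (add_le_of_le hi hI hI'))
    (fun _ => by rw [mk_unit]; exact one_le_aleph0.trans (hi.trans hc))
    fun θ h => ⟨⟨θ, h⟩, hθ _⟩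
  obtain ⟨Y, _, Y0, hY0, hY, hd⟩ := ded (2 ^ κ) (hi.trans hc)
  let b : Y → I → K.U (Q.ev Y) := fun y r => Q.evi (pt1 y) (γ 1 (0, Sum.inl r))
  let b' : Y → I' → K.U (Q.ev Y) := fun y r => Q.evi (pt1 y) (γ 1 (0, Sum.inr r))
  have key : ∀ y y' : Y, ∃ (d : _) (i j : Λ d), (y < y' → i < j) ∧ (y' ≤ y → j ≤ i) ∧
      ∀ (Z : K.Obj) (p : I → K.U Z) (q : I' → K.U Z),
        K.El (T d) Z (fun x z => G (a d i) p x z ∨ G (a' d j) q x z) →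
        K.El (Q.ev Y) Z (fun x z => G (b y) p x z ∨ G (b' y') q x z) := by
    intro y y'
    obtain ⟨k, s, e, e', he, he'⟩ := exists_ref (pt1 y) (pt1 y')
    obtain ⟨d, t, h, hh, ht⟩ := hn k
    have e1 : s (e 0) = y := DFunLike.congr_fun he 0
    have e2 : s (e' 0) = y' := DFunLike.congr_fun he' 0
    refine ⟨d, t (e 0), t (e' 0), fun l => ?_, fun l => ?_, fun Z p q E => ?_⟩
    · rw [← e1, ← e2] at l
      exact t.lt_iff_lt.2 (s.lt_iff_lt.1 l)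
    · rw [← e1, ← e2] at l
      exact t.le_iff_le.2 (s.le_iff_le.1 l)
    · refine El.push (C := K.toAC) (evi_h (C := K.toCC) s) (K.idH Z)
        (E.pull_left hh fun _ _ r => r) ?_
      rintro _ _ (⟨r, rfl, rfl⟩ | ⟨r, rfl, rfl⟩)
      · exact ⟨Q.mp e (γ 1 (0, Sum.inl r)), _, Or.inl ⟨r, ((ht 1 e).1 (0, Sum.inl r)).symm, rfl⟩,
          by rw [evi_mp (C := K.toCC), he], rfl⟩
      · exact ⟨Q.mp e' (γ 1 (0, Sum.inr r)), _, Or.inr ⟨r, ((ht 1 e').1 (0, Sum.inr r)).symm, rfl⟩,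
          by rw [evi_mp (C := K.toCC), he'], rfl⟩
  have st := h2 K (2 ^ κ) I (hκ.trans hc) hl (by
    rw [← power_mul]
    exact power_le_power_left two_ne_zero (mul_le_of_le hi le_rfl hI))
  have fin : ∀ y y' : Y, y < y' → K.El (Q.ev Y) (Q.ev Y) (fun p q =>
      G (Q.evmap (OrderEmbedding.subtype (· ∈ Y0))) (Q.evmap (OrderEmbedding.subtype (· ∈ Y0))) p q ∨
        G (b y) (b y') p q) → K.El Z1 Z2 (fun x y => G p1 p2 x y ∨ G q1 q2 x y) := by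
    intro y y' l E
    obtain ⟨η, hη, l1, l2⟩ := hd y y' l
    obtain ⟨d, i, j, m1, -, E1⟩ := key y η
    obtain ⟨d', i', j', -, m2, E2⟩ := key y' η
    refine El.trans (C := K.toAC) (E1 _ _ _ (k1 d i j (m1 l1))).symm
      (El.trans (C := K.toAC) E (E2 _ _ _ (k2 d' i' j' (m2 l2))) fun _ _ r => r) ?_
    rintro _ _ (⟨r, rfl, rfl⟩ | ⟨r, rfl, rfl⟩)
    · exact ⟨b y r, Or.inl ⟨r, rfl, rfl⟩, b y' r, Or.inr ⟨r, rfl, rfl⟩, Or.inl ⟨r, rfl, rfl⟩⟩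
    · have e : Q.evmap (OrderEmbedding.subtype (· ∈ Y0))
          (Q.evi (pt1 (⟨η, hη⟩ : Y0)) (γ 1 (0, Sum.inr r))) = b' η r :=
        evmap_evi (C := K.toCC) _ _ _
      exact ⟨b' η r, Or.inr ⟨r, rfl, rfl⟩, b' η r, Or.inl ⟨_, e, e⟩, Or.inr ⟨r, rfl, rfl⟩⟩
  obtain ⟨y, y', ne, E⟩ := st (Q.ev Y0) (Q.ev Y) (Q.evmap (OrderEmbedding.subtype (· ∈ Y0)))
    (evmap_h (C := K.toCC) _)
    (card_ev_le (C := K.toCC) Q Y0 (hi.trans hc) hY0 fun n => (hQ n).trans hc) Y b hY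
  rcases ne.lt_or_gt with l | l
  · exact fin y y' l E
  · refine fin y' y l (E.symm' ?_)
    rintro _ _ (⟨r, rfl, rfl⟩ | ⟨r, rfl, rfl⟩)
    · exact Or.inl ⟨r, rfl, rfl⟩
    · exact Or.inr ⟨r, rfl, rfl⟩

end Pool.Agent.P.MP_860a31_lc.E
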