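import Pool.Agent.P.MP_860a31_lc.E.Stm

/-!
A type over a system is based on one face.
-/

open Cardinal hiding univ
open Set Order Filter Function

namespace Pool.Agent.P.MP_860a31_lc.E

open PC Sys

theorem oneB : S_OneB := by
  intro C S μ hμ L A hs hv Z e c hc
  by_contra hn
  have hn' : ∀ u : S.On L, ∀ (t : C.Op) (β : C.U (A.N u)), ∃ w : S.On L, u.1 ⊆ w.1 ∧
      ¬ C.Right t (A.N w) (A.i u w β) (e w) c := by
    intro u t β
    by_contra h
    refine hn ⟨u, u.2, t, β, fun w hw huw => ?_⟩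
    by_contra h'
    exact h ⟨⟨w, hw⟩, huw, h'⟩
  choose t β hβ using fun u : S.On L => AX.exists_right hμ (hc.hom u u.2) (hs u u.2) c
  choose nx hnx hbad using fun u : S.On L => hn' u (t u) (β u)
  let u0 : S.On L := ⟨∅, Shape.face_empty, by simp⟩
  let u : ℕ → S.On L := fun n => nx^[n] u0
  have hu : ∀ n, u (n + 1) = nx (u n) := fun n => Function.iterate_succ_apply' nx n u0
  have hm : Monotone fun n => (u n).1 := monotone_nat_of_le_succ fun n => by
    change (u n).1 ⊆ (u (n + 1)).1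
    rw [hu]; exact hnx _
  obtain ⟨B, v, v1, v2, v3⟩ := C.colim ℕ (fun n => A.N (u n)) (fun i j _ => A.i (u i) (u j))
    (fun i j h => hv.hom _ (u i).2 _ (u j).2 (hm h)) (fun i x => hv.id _ (u i).2 x)
    (fun i j k hij hjk x => hv.comp _ (u i).2 _ (u j).2 _ (u k).2 (hm hij) (hm hjk) x)
  obtain ⟨g, g1, g2⟩ := CC.lift_chain (C := C.toCC) (fun n => A.N (u n))
    (fun i j _ => A.i (u i) (u j)) v (fun n => e (u n)) v1 (fun n => hc.hom _ (u n).2) v2
    (fun i j h x => hc.nat _ (u i).2 _ (u j).2 (hm h) x) v3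
  have hB : #(C.U B) ≤ μ := card_cover v v3 (AX.lv_inf hμ)
    (by rw [mk_nat]; exact AX.lv_inf hμ) fun n => hs _ (u n).2
  obtain ⟨t', β', h'⟩ := AX.exists_right hμ g1 hB c
  obtain ⟨k, α, rfl⟩ := v3 β'
  have h1 : C.Right t' (A.N (u k)) α (e (u k)) c := h'.mono (v1 k) rfl (g2 k)
  have h2 : C.Right t' (A.N (u (k + 1))) (A.i (u k) (u (k + 1)) α) (e (u (k + 1))) c :=
    h'.mono (v1 (k + 1)) (v2 k (k + 1) (Nat.le_succ k) α) (g2 (k + 1))
  have h3 := AX.Right.swap hμ h1 (hβ (u k))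
    (hv.hom _ (u k).2 _ (u (k + 1)).2 (hm (Nat.le_succ k))) (hs _ (u (k + 1)).2) h2
  have h4 := hbad (u k)
  rw [← hu] at h4
  exact h4 h3

end Pool.Agent.P.MP_860a31_lc.E
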