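import Pool.Agent.P.MP_860a31_lc.E.KStm

/-!
Countably many substitutions contain all finite tuples.
-/

open Cardinal hiding univ
open Set Order Function

namespace Pool.Agent.P.MP_860a31_lc.E

namespace OpExP

variable {n m : ℕ}

/-- names for the generated points -/
abbrev Gen (n m k : ℕ) : Type := Fin k ⊕ ((Fin m ↪o Fin k) × Fin n)

instance (m k : ℕ) : Finite (Fin m ↪o Fin k) :=
  Finite.of_injective (fun e : Fin m ↪o Fin k => (e : Fin m → Fin k)) DFunLike.coe_injective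

def gmap {k l : ℕ} (c : Fin k ↪o Fin l) : Gen n m k → Gen n m l
  | Sum.inl i => Sum.inl (c i)
  | Sum.inr p => Sum.inr (p.1.trans c, p.2)

theorem gmap_comp {j k l : ℕ} (c : Fin j ↪o Fin k) (d : Fin k ↪o Fin l) (p : Gen n m j) :
    gmap d (gmap c p) = gmap (c.trans d) p := by
  rcases p with i | p <;> rfl

def v (s : Sub) (b : Fin n ↪o s.σ m) (k : ℕ) : Gen n m k → s.σ k
  | Sum.inl i => s.η k i
  | Sum.inr p => s.mp p.1 (b p.2)

theorem v_gmap (s : Sub) (b : Fin n ↪o s.σ m) {k l : ℕ} (c : Fin k ↪o Fin l) (p : Gen n m k) :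
    v s b l (gmap c p) = s.mp c (v s b k p) := by
  rcases p with i | p
  · exact (s.nat c i).symm
  · exact (s.mp_comp p.1 c _).symm

theorem one_supp {k : ℕ} (p : Gen n m k) :
    ∃ j ≤ m + 1, ∃ (c : Fin j ↪o Fin k) (p' : Gen n m j), gmap c p' = p := by
  rcases p with i | p
  · exact ⟨1, by omega, Fam.pt1 i, Sum.inl 0, rfl⟩
  · exact ⟨m, by omega, p.1, Sum.inr (RelEmbedding.refl _, p.2), rfl⟩

theorem two_supp {k : ℕ} (p q : Gen n m k) :
    ∃ j ≤ 2 * m + 2, ∃ (c : Fin j ↪o Fin k) (p' q' : Gen n m j), gmap c p' = p ∧ gmap c q' = q := by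
  classical
  obtain ⟨j1, h1, c1, p1, rfl⟩ := one_supp p
  obtain ⟨j2, h2, c2, q1, rfl⟩ := one_supp q
  let T : Finset (Fin k) := Finset.univ.image c1 ∪ Finset.univ.image c2
  have hT : T.card ≤ j1 + j2 := (Finset.card_union_le _ _).trans
    (add_le_add (Finset.card_image_le.trans (by simp)) (Finset.card_image_le.trans (by simp)))
  have ht := T.range_orderEmbOfFin rfl
  obtain ⟨a1, ha1⟩ := exists_fac c1 _ (by rw [ht]; rintro _ ⟨i, rfl⟩; simp [T])
  obtain ⟨a2, ha2⟩ := exists_fac c2 _ (by rw [ht]; rintro _ ⟨i, rfl⟩; simp [T])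
  exact ⟨T.card, by omega, T.orderEmbOfFin rfl, gmap a1 p1, gmap a2 q1,
    by rw [gmap_comp, ha1], by rw [gmap_comp, ha2]⟩

/-- the finite table that determines the generated substitution -/
def r (s : Sub) (b : Fin n ↪o s.σ m) (p q : Gen n m (2 * m + 2)) : Prop := v s b _ p ≤ v s b _ q

theorem le_iff {s s' : Sub} {b : Fin n ↪o s.σ m} {b' : Fin n ↪o s'.σ m} (h : r s b = r s' b')
    {k : ℕ} (p q : Gen n m k) : v s b k p ≤ v s b k q ↔ v s' b' k p ≤ v s' b' k q := by
  obtain ⟨j, hj, c, p, q, rfl, rfl⟩ := two_supp p q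
  have e := congrFun (congrFun h (gmap (Fin.castLEOrderEmb hj) p)) (gmap (Fin.castLEOrderEmb hj) q)
  simp only [r, v_gmap, OrderEmbedding.le_iff_le] at e ⊢
  exact e.to_iff

/-- the generated substitution -/
def sub (s : Sub) (b : Fin n ↪o s.σ m) : Sub where
  σ k := range (v s b k)
  mp {k l} c := OrderEmbedding.ofMapLEIff (fun x => ⟨s.mp c x.1, by
    obtain ⟨_, p, rfl⟩ := x
    exact ⟨gmap c p, v_gmap s b c p⟩⟩) fun _ _ => (s.mp c).le_iff_le
  mp_id k x := Subtype.ext (s.mp_id k x.1)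
  mp_comp c d x := Subtype.ext (s.mp_comp c d x.1)
  η k := OrderEmbedding.ofMapLEIff (fun i => ⟨s.η k i, Sum.inl i, rfl⟩)
    fun _ _ => (s.η k).le_iff_le
  nat c i := Subtype.ext (s.nat c i)

/-- the given tuple inside the generated substitution -/
def tup (s : Sub) (b : Fin n ↪o s.σ m) : Fin n ↪o (sub s b).σ m :=
  OrderEmbedding.ofMapLEIff (fun i => ⟨b i, Sum.inr (RelEmbedding.refl _, i), s.mp_id m _⟩)
    fun _ _ => b.le_iff_le

theorem exists_w {s s' : Sub} {b : Fin n ↪o s.σ m} {b' : Fin n ↪o s'.σ m} (h : r s b = r s' b')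
    (k : ℕ) : ∃ w : (sub s b).σ k ↪o s'.σ k, ∀ (p : Gen n m k) (x : (sub s b).σ k),
      x.1 = v s b k p → w x = v s' b' k p := by
  choose g hg using fun x : (sub s b).σ k => (x.2 : ∃ p, v s b k p = x.1)
  refine ⟨OrderEmbedding.ofMapLEIff (fun x => v s' b' k (g x)) fun x y => ?_, fun p x hx => ?_⟩
  · rw [← le_iff h, hg x, hg y]
    rfl
  · have e : v s b k (g x) = v s b k p := (hg x).trans hx
    exact le_antisymm ((le_iff h _ _).1 e.le) ((le_iff h _ _).1 e.ge)

end OpExP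

open OpExP in
theorem opEx : S_OpEx := by
  intro n m
  let Op := {ρ : Gen n m (2 * m + 2) → Gen n m (2 * m + 2) → Prop //
    ∃ (s : Sub) (b : Fin n ↪o s.σ m), r s b = ρ}
  choose s b h using fun t : Op => t.2
  refine ⟨Op, fun t => sub (s t) (b t), fun t => tup (s t) (b t), mk_le_aleph0, fun t k => ?_,
    fun s' b' => ?_⟩
  · exact mk_range_le.trans mk_le_aleph0
  · let t : Op := ⟨r s' b', s', b', rfl⟩
    choose w hw using exists_w (h t : r (s t) (b t) = r s' b')
    refine ⟨t, w, fun k l c x => ?_, fun k i => hw k (Sum.inl i) _ rfl, fun i => ?_⟩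
    · obtain ⟨p, hp⟩ : ∃ p, v (s t) (b t) k p = x.1 := x.2
      rw [hw k p x hp.symm, ← v_gmap]
      refine hw l (gmap c p) _ ?_
      rw [v_gmap, hp]
      rfl
    · exact (hw m (Sum.inr (RelEmbedding.refl _, i)) _ ((s t).mp_id m _).symm).trans (s'.mp_id m _)

end Pool.Agent.P.MP_860a31_lc.E
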