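import Pool.Agent.P.MP_860a31_lc.E.Stm

/-!
A continuous chain realising types at each step has a universal union.
-/

open Cardinal hiding univ
open Set Order Filter Function

namespace Pool.Agent.P.MP_860a31_lc.E

open PC

namespace RealChainP

/-- an index, an object, a map from `B` and a function from `T` -/
structure St (C : AC) (Λ : Type) (B T : C.Obj) : Type 1 where
  a : Λ
  Z : C.Obj
  b : C.U B → C.U Z
  f : C.U T → C.U Z

/-- morphisms of states, compatible with the functions on the part `P` of the first index -/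
def Hm {C : AC} {Λ : Type} [Preorder Λ] {B T : C.Obj} (P : Λ → Set (C.U T)) (S S' : St C Λ B T)
    (w : Unit → C.U S.Z → C.U S'.Z) : Prop :=
  C.IsH (w ()) ∧ (∀ x, w () (S.b x) = S'.b x) ∧ S.a ≤ S'.a ∧ ∀ y ∈ P S.a, w () (S.f y) = S'.f y

/-- colimits of chains of states -/
theorem lim {C : AC} {Λ : Type} [Preorder Λ] {B T : C.Obj} (P : Λ → Set (C.U T)) (ι : Type)
    [LinearOrder ι] [Nonempty ι] (F : ι → St C Λ B T)
    (t : ∀ a b : ι, a ≤ b → Unit → C.U (F a).Z → C.U (F b).Z)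
    (ht : ∀ a b h, Hm P (F a) (F b) (t a b h)) (hid : ∀ a i x, t a a le_rfl i x = x)
    (hc : ∀ a b c (h : a ≤ b) (h' : b ≤ c) i x,
      t b c h' i (t a b h i x) = t a c (h.trans h') i x) :
    ∃ (D : C.Obj) (v : ∀ a, C.U (F a).Z → C.U D) (b : C.U B → C.U D) (f : C.U T → C.U D),
      (∀ a, C.IsH (v a)) ∧ (∀ a x, v a ((F a).b x) = b x) ∧
      (∀ a, ∀ y ∈ P (F a).a, v a ((F a).f y) = f y) ∧
      (∀ a b h x, v b (t a b h () x) = v a x) ∧ ∀ y, ∃ a x, v a x = y := by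
  classical
  obtain ⟨D, v, h1, h2, h3⟩ := C.colim ι (fun a => (F a).Z) (fun a b h => t a b h ())
    (fun a b h => (ht a b h).1) (fun a x => hid a () x) (fun a b c h h' x => hc a b c h h' () x)
  let o : ι := Classical.arbitrary ι
  let e : C.U T → ι := fun y => Classical.epsilon fun a => y ∈ P (F a).a
  refine ⟨D, v, fun x => v o ((F o).b x), fun y => v (e y) ((F (e y)).f y), h1, fun a x => ?_,
    fun a y hy => ?_, h2, h3⟩
  · rcases le_total a o with h | h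
    · exact (h2 a o h _).symm.trans (congrArg (v o) ((ht a o h).2.1 x))
    · exact (congrArg (v a) ((ht o a h).2.1 x)).symm.trans (h2 o a h _)
  · have he : y ∈ P (F (e y)).a := Classical.epsilon_spec (p := fun a => y ∈ P (F a).a) ⟨a, hy⟩
    rcases le_total a (e y) with h | h
    · exact (h2 a _ h _).symm.trans (congrArg (v _) ((ht a _ h).2.2.2 y hy))
    · exact (congrArg (v a) ((ht _ a h).2.2.2 y he)).symm.trans (h2 _ a h _)

end RealChainP

open RealChainP in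
theorem realChain : S_RealChain := by
  intro C θ hθ A T u hu hm hl hs hR B R hB hE
  obtain ⟨en, hen⟩ : ∃ en : W θ → C.U B, Surjective en := by
    obtain ⟨e⟩ := (Cardinal.le_def _ _).1 (hB.trans_eq (W.card hθ).symm)
    exact ⟨invFun e, invFun_surjective e.injective⟩
  obtain ⟨Y0, p, p', hp, hp', hpp⟩ := hE
  have l0 : ∀ x, invFun (u ⊥) (u ⊥ x) = x := leftInverse_invFun (C.inj (hu ⊥))
  obtain ⟨F, t, -, hI, ht, hid, hc, hS, -⟩ := gchain (Λ := W θ) (St := St C (W θ) B T) (ι := Unit)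
    (fun S _ => C.U S.Z) (Hm fun a => range (u a))
    (fun S => ⟨C.idH _, fun _ => rfl, le_rfl, fun _ _ => rfl⟩)
    (fun S S' S'' f g hf hg => ⟨C.comp hf.1 hg.1,
      fun x => (congrArg (g ()) (hf.2.1 x)).trans (hg.2.1 x), hf.2.2.1.trans hg.2.2.1,
      fun y hy => (congrArg (g ()) (hf.2.2.2 y hy)).trans (hg.2.2.2 y (hm _ _ hf.2.2.1 hy))⟩)
    (fun γ S => S.a = γ ∧ C.IsH S.b ∧ C.IsH (fun x => S.f (u γ x)) ∧
      ∀ y x, R y x → S.b y = S.f (u ⊥ x))
    (fun γ _ S' _ => ∃ x, S'.f (u (succ γ) x) = S'.b (en γ))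
    ⟨⊥, Y0, p, fun y => p' (invFun (u ⊥) y)⟩
    ⟨rfl, hp, PC.congr hp' fun x => congrArg p' (l0 x).symm,
      fun y x r => (hpp y x r).trans (congrArg p' (l0 x).symm)⟩
    (by
      rintro γ S ⟨k0, k1, k2, k3⟩
      obtain ⟨a', Y, g, g', hg, hg', H⟩ := hR γ S.Z _ (S.b (en γ)) k2
      have e : ∀ y ∈ range (u γ), g (S.f y) = g' y := by
        rintro _ ⟨x, rfl⟩
        exact H _ _ (Or.inl ⟨x, rfl, rfl⟩)
      exact ⟨⟨succ γ, Y, fun x => g (S.b x), g'⟩, fun _ => g,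
        ⟨hg, fun _ => rfl, k0.le.trans (le_succ γ), fun y hy => e y (k0 ▸ hy)⟩,
        ⟨rfl, comp' k1 hg fun _ => rfl, comp' (hu _) hg' fun _ => rfl,
          fun y x r => (congrArg g (k3 y x r)).trans (e _ (hm _ _ bot_le ⟨x, rfl⟩))⟩,
        a', (H _ _ (Or.inr ⟨rfl, rfl⟩)).symm⟩)
    (by
      intro δ hδ c hI _
      let o : Iio δ := ⟨⊥, hδ.bot_lt⟩
      have : Nonempty (Iio δ) := ⟨o⟩
      obtain ⟨D, v, b, f, k1, k2, k3, k4, k5⟩ :=
        lim (fun a => range (u a)) (Iio δ) c.F c.t c.hom c.t_id c.t_comp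
      have k6 : ∀ a : Iio δ, ∀ x, v a ((c.F a).f (u a x)) = f (u a x) := fun a x =>
        k3 a _ ((hI a).1.symm ▸ ⟨x, rfl⟩)
      choose k hk hkk using fun a : Iio δ => factor (hu a) (hu δ) (hm _ _ (le_of_lt a.2))
      have k7 : ∀ a a' : Iio δ, a ≤ a' → range (k a) ⊆ range (k a') := by
        rintro a a' h _ ⟨x, rfl⟩
        obtain ⟨x', hx⟩ := hm _ _ (show a.1 ≤ a'.1 from h) ⟨x, rfl⟩
        exact ⟨x', C.inj (hu δ) (by rw [hkk, hkk, hx])⟩
      refine ⟨⟨δ, D, b, f⟩, fun a _ => v a, ⟨rfl, comp' (hI o).2.1 (k1 o) (k2 o), ?_,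
        fun y x r => ?_⟩, fun a => ⟨k1 a, k2 a, (hI a).1.le.trans (le_of_lt a.2), k3 a⟩,
        fun a b h _ => k4 a b h, fun _ => k5⟩
      · refine C.smooth (fun a : Iio δ => A a) k _ hk (fun i j => ⟨max i j,
          k7 _ _ (le_max_left _ _), k7 _ _ (le_max_right _ _)⟩) (fun y => ?_) fun a =>
            comp' (hI a).2.2.1 (k1 a) fun x => (k6 a x).trans (congrArg f (hkk a x).symm)
        obtain ⟨a, ha, x, hx⟩ := hl δ hδ _ ⟨y, rfl⟩
        exact ⟨⟨a, ha⟩, x, C.inj (hu δ) ((hkk _ _).trans hx)⟩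
      · exact (k2 o y).symm.trans ((congrArg (v o) ((hI o).2.2.2 y x r)).trans (k6 o x)))
  obtain ⟨D, v, b, f, k1, k2, k3, -, -⟩ := lim (fun a => range (u a)) (W θ) F t ht hid hc
  have k6 : ∀ a x, v a ((F a).f (u a x)) = f (u a x) := fun a x =>
    k3 a _ ((hI a).1.symm ▸ ⟨x, rfl⟩)
  have hf : C.IsH f := C.smooth A u f hu
    (fun i j => ⟨max i j, hm _ _ (le_max_left _ _), hm _ _ (le_max_right _ _)⟩) hs
    fun a => comp' (hI a).2.2.1 (k1 a) (k6 a)
  obtain ⟨k, hk, hkk⟩ := factor (comp' (hI ⊥).2.1 (k1 ⊥) (k2 ⊥)) hf (by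
    rintro _ ⟨y, rfl⟩
    obtain ⟨γ, rfl⟩ := hen y
    obtain ⟨x, hx⟩ := hS γ
    exact ⟨_, (k6 _ x).symm.trans ((congrArg (v _) hx).trans (k2 _ _))⟩)
  exact ⟨k, hk, fun y x r => C.inj hf ((hkk y).trans ((k2 ⊥ y).symm.trans
    ((congrArg (v ⊥) ((hI ⊥).2.2.2 y x r)).trans (k6 ⊥ x))))⟩

end Pool.Agent.P.MP_860a31_lc.E
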