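import Pool.Agent.P.MP_860a31_lc.E.Stm

/-!
An extension of the same size realising all types.
-/

open Cardinal hiding univ
open Set Order Filter Function

namespace Pool.Agent.P.MP_860a31_lc.E

open PC Sys

namespace RealExtP

/-- an object with a map from `A` -/
structure St (C : AC) (A : C.Obj) : Type 1 where
  Y : C.Obj
  n : C.U A → C.U Y

end RealExtP

open RealExtP in
theorem realExt (_h : S_AmalgFam) : S_RealExt := by
  intro C θ hθ hst A hA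
  have hi := C.inf.trans hθ
  by_contra hn
  have hn' : ∀ (Y : C.Obj) (n : C.U A → C.U Y), C.IsH n → #(C.U Y) ≤ θ →
      ∃ (Z : C.Obj) (e : C.U A → C.U Z) (c : C.U Z), C.IsH e ∧ ∀ a, ¬ C.El Z Y (G1 e n c a) := by
    intro Y n h1 h2
    by_contra hc
    push Not at hc
    exact hn ⟨Y, n, h1, h2, hc⟩
  obtain ⟨F, t, -, h1, h2, h3, h4, h5, -⟩ := gchain (Λ := J θ) (St := St C A) (ι := Unit)
    (fun S _ => C.U S.Y) (fun S S' f => C.IsH (f ()) ∧ ∀ x, f () (S.n x) = S'.n x)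
    (fun S => ⟨C.idH _, fun _ => rfl⟩)
    (fun _ _ _ f g hf hg => ⟨C.comp hf.1 hg.1, fun x => (congrArg (g ()) (hf.2 x)).trans (hg.2 x)⟩)
    (fun _ S => C.IsH S.n ∧ #(C.U S.Y) ≤ θ)
    (fun _ S S' _ => ∃ p, ∀ a, ¬ C.El S'.Y S.Y (G1 S'.n S.n p a))
    ⟨A, fun x => x⟩ ⟨C.idH _, hA⟩
    (by
      rintro - S ⟨k1, k2⟩
      obtain ⟨Z, e, c, he, hc⟩ := hn' S.Y S.n k1 k2
      obtain ⟨Z0, k, l1, l2, l3⟩ := ls' hθ Z (S := insert c (range e))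
        (mk_insert_le.trans (add_le_of_le hi (mk_range_le.trans hA) (one_le_aleph0.trans hi)))
      obtain ⟨e0, m1, m2⟩ := factor he l1 ((subset_insert _ _).trans l2)
      obtain ⟨c0, rfl⟩ := l2 (mem_insert _ _)
      obtain ⟨Y, f, f', n1, n2, n3, n4⟩ := (El.span m1 k1).small hθ l3 k2
      refine ⟨⟨Y, fun x => f' (S.n x)⟩, fun _ => f', ⟨n2, fun _ => rfl⟩, ⟨comp' k1 n2 fun _ => rfl, n3⟩,
        f c0, fun a ha => hc a ?_⟩
      refine El.push l1 (C.idH _) (ha.pull_left n1 (S := G1 e0 S.n c0 a) ?_) ?_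
      · rintro _ _ (⟨x, rfl, rfl⟩ | ⟨rfl, rfl⟩)
        · exact Or.inl ⟨x, (n4 _ _ (G.mk _ _ x)).symm, rfl⟩
        · exact Or.inr ⟨rfl, rfl⟩
      · rintro _ _ (⟨x, rfl, rfl⟩ | ⟨rfl, rfl⟩)
        · exact ⟨_, _, Or.inl (G.mk _ _ x), m2 x, rfl⟩
        · exact ⟨_, _, Or.inr ⟨rfl, rfl⟩, rfl, rfl⟩)
    (by
      intro δ hδ c hc _
      let o : Iio δ := ⟨⊥, hδ.bot_lt⟩
      have : Nonempty (Iio δ) := ⟨o⟩
      obtain ⟨B, u, k1, k2, k3⟩ := C.colim (Iio δ) (fun a => (c.F a).Y)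
        (fun a b h => c.t a b h ()) (fun a b h => (c.hom a b h).1) (fun a => c.t_id a ())
        (fun a b d h h' => c.t_comp a b d h h' ())
      refine ⟨⟨B, fun x => u o ((c.F o).n x)⟩, fun a _ => u a, ⟨comp' (hc o).1 (k1 o) fun _ => rfl,
        card_cover u k3 hi (J.iio hi δ) fun a => (hc a).2⟩, fun a => ⟨k1 a, fun x => ?_⟩,
        fun a b h _ => k2 a b h, fun _ => k3⟩
      have ho : o ≤ a := (bot_le : (⊥ : J θ) ≤ a)
      exact ((congrArg (u a) ((c.hom o a ho).2 x)).symm.trans (k2 o a ho _)))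
  obtain ⟨M, u, k1, k2, -⟩ := C.colim (J θ) (fun a => (F a).Y) (fun a b h => t a b h ())
    (fun a b h => (h2 a b h).1) (fun a => h3 a ()) (fun a b d h h' => h4 a b d h h' ())
  choose p hp using h5
  have hu : ∀ a x, u ⊥ ((F ⊥).n x) = u a ((F a).n x) := fun a x => by
    rw [← (h2 ⊥ a bot_le).2 x, k2]
  have key : ∀ y y', y < y' → ¬ C.El M M (G1 (fun x => u ⊥ ((F ⊥).n x)) (fun x => u ⊥ ((F ⊥).n x))
      (u _ (p y')) (u _ (p y))) := fun y y' h e => by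
    refine hp y' (t _ y' (succ_le_of_lt h) () (p y)) (e.pull (k1 _) (k1 _) ?_)
    rintro _ _ (⟨x, rfl, rfl⟩ | ⟨rfl, rfl⟩)
    · exact Or.inl ⟨x, hu _ x, hu _ x⟩
    · exact Or.inr ⟨rfl, (k2 _ _ _ _).symm⟩
  obtain ⟨y, y', hy, e⟩ := hst A M _ (C.comp (h1 ⊥).1 (k1 ⊥)) hA (J θ) (fun a _ => u _ (p a))
    (by rw [J.card hi]; exact lt_succ θ)
  rcases hy.lt_or_gt with h | h
  · refine key y y' h (e.symm' ?_)
    rintro _ _ (⟨x, rfl, rfl⟩ | ⟨rfl, rfl⟩)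
    · exact Or.inl ⟨x, rfl, rfl⟩
    · exact Or.inr ⟨(), rfl, rfl⟩
  · refine key y' y h (e.mono ?_)
    rintro _ _ (⟨x, rfl, rfl⟩ | ⟨rfl, rfl⟩)
    · exact Or.inl ⟨x, rfl, rfl⟩
    · exact Or.inr ⟨(), rfl, rfl⟩

end Pool.Agent.P.MP_860a31_lc.E
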