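import Pool.Agent.P.MP_860a31_lc.E.Stm

/-!
One more tag realises all types.
-/

open Cardinal hiding univ
open Set Order Filter Function

namespace Pool.Agent.P.MP_860a31_lc.E

open PC Sys

namespace RealStepP

variable {C : AX} {S : Shape C}

theorem on_union {L : Set S.L} {y z : Finset S.L} (hy : y ∈ S.On L) (hz : z ∈ S.On L) :
    y ∪ z ∈ S.On L :=
  ⟨hy.1.union hz.1, by rw [Finset.coe_union]; exact union_subset hy.2 hz.2⟩

theorem cone_dir {L : Set S.L} {A : Sys S} {N : C.Obj} {ι : ∀ y, C.U (A.N y) → C.U N}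
    (h : A.Cone (S.On L) N ι) (i j : S.On L) :
    ∃ k : S.On L, range (ι i) ⊆ range (ι k) ∧ range (ι j) ⊆ range (ι k) :=
  ⟨⟨_, on_union i.2 j.2⟩, by
    rintro _ ⟨x, rfl⟩
    exact ⟨_, h.nat _ i.2 _ (on_union i.2 j.2) Finset.subset_union_left x⟩, by
    rintro _ ⟨x, rfl⟩
    exact ⟨_, h.nat _ j.2 _ (on_union i.2 j.2) Finset.subset_union_right x⟩⟩

/-- two cocones over all faces with letters in `L` embed jointly -/
theorem cone_el {L : Set S.L} {A : Sys S} {N Z : C.Obj} {ι : ∀ y, C.U (A.N y) → C.U N}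
    {h : ∀ y, C.U (A.N y) → C.U Z} (hι : A.Cone (S.On L) N ι) (hh : A.Cone (S.On L) Z h) :
    C.El Z N fun a b => ∃ w ∈ S.On L, ∃ x, h w x = a ∧ ι w x = b := by
  have : Nonempty (S.On L) := ⟨⟨∅, Shape.face_empty, by simp⟩⟩
  obtain ⟨B, u, hu, hr⟩ := CC.isSub_iUnion (fun i : S.On L => range (ι i))
    (fun i => isSub_range (hι.hom _ i.2)) (cone_dir hι)
  have hm : ∀ w ∈ S.On L, ∀ x, u (invFun u (ι w x)) = ι w x := fun w hw x =>
    invFun_eq (hr.ge (mem_iUnion.2 ⟨⟨w, hw⟩, x, rfl⟩))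
  have c0 := hι.pre hu hm
  obtain ⟨k, hk, hkm⟩ := CC.lift (fun i : S.On L => A.N i) (fun i x => invFun u (ι i x))
    (fun i => h i) (fun i => c0.hom _ i.2) (fun i => hh.hom _ i.2) (cone_dir c0) (fun y => by
      obtain ⟨i, x, e⟩ := mem_iUnion.1 (hr.le ⟨y, rfl⟩)
      exact ⟨i, x, C.inj hu ((hm _ i.2 x).trans e)⟩) fun i j x y e => by
      have k0 := on_union i.2 j.2
      rw [← hh.nat _ i.2 _ k0 Finset.subset_union_left, ← hh.nat _ j.2 _ k0
        Finset.subset_union_right]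
      congr 1
      refine C.inj (c0.hom _ k0) ?_
      exact (c0.nat _ i.2 _ k0 Finset.subset_union_left x).trans
        (e.trans (c0.nat _ j.2 _ k0 Finset.subset_union_right y).symm)
  refine (El.span hk hu).mono ?_
  rintro _ _ ⟨w, hw, x, rfl, rfl⟩
  exact ⟨_, hkm ⟨w, hw⟩ x, hm w hw x⟩

end RealStepP

theorem realStep (h1 : S_OneB) (h2 : S_ExtMap) : S_RealStep := by
  intro C S μ hμ hUL Cd Tag code tag hfree A hA hcode N ι hι T τ hτ B u hu hr Z e c he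
  have sub : ∀ L : Set S.L, S.On L ⊆ S.On univ := fun L y hy => ⟨hy.1, subset_univ _⟩
  have self : ∀ l : S.L, l ∈ S.sup (l, true) := fun l => Finset.mem_insert_self _ _
  have hm : ∀ w ∈ S.On (S.Tg tag T), ∀ x, u (invFun u (ι w x)) = ι w x := fun w hw x =>
    invFun_eq (hr.ge (mem_biUnion hw ⟨x, rfl⟩))
  have c1 : A.Cone (S.On (S.Tg tag T)) Z fun w x => e (invFun u (ι w x)) :=
    ((hι.mono (sub _)).pre hu hm).post he fun _ _ _ => rfl
  obtain ⟨u0, hu0, t, β, hR⟩ := h1 C S μ hμ _ A (hA.small.mono (sub _))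
    (hA.valid.mono (sub _) (empty_subset _)) Z _ c c1
  obtain ⟨j, hj⟩ := hcode u0 (sub _ hu0) β
  obtain ⟨l, rfl, rfl, l3, l4⟩ := hfree u0 hu0.1 t j τ
  obtain ⟨Z', b, h, hb, c2, e1, e2⟩ := h2 C S μ hUL A hA (S.Tg tag T) l
    (fun l' hl' i hi i' hi' => hl' i'
      (Finset.mem_insert_of_mem ((Shape.face_par l').sup_true.2 hi hi')))
    (fun hl => hτ (l4 ▸ hl l (self l))) hu0.2 Z _ c c1 fun w hw hlw => by
      rw [← hA.valid.b (mem_univ l) (sub _ hu0) (sub _ hw) subset_rfl hlw, hj l rfl l3]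
      exact hR w hw hlw
  refine ⟨S.sup (l, true), ⟨Shape.face_sup _, fun l' hl' i hi => ?_⟩, A.c l _,
    (RealStepP.cone_el (hι.mono (sub _)) c2).pull_left hb ?_⟩
  · rcases Finset.mem_insert.1 ((Shape.face_sup _).sup_true.2 hl' hi) with rfl | h3
    · exact Or.inl l4
    · exact Or.inr (hu0.2 h3 i (self i))
  · rintro _ _ (⟨x, rfl, rfl⟩ | ⟨rfl, rfl⟩)
    · obtain ⟨w, hw, y, hy⟩ := mem_iUnion₂.1 (hr.le ⟨x, rfl⟩)
      refine ⟨w, ⟨hw.1, hw.2.trans (subset_insert _ _)⟩, y, ?_, hy⟩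
      rw [e1 w hw, C.inj hu ((hm w hw y).trans hy)]
    · refine ⟨S.sup (l, true), ⟨Shape.face_sup _, fun i hi => ?_⟩, _, e2, rfl⟩
      exact (Finset.mem_insert.1 hi).imp id fun h3 => hu0.2 h3

end Pool.Agent.P.MP_860a31_lc.E
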