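import Pool.Agent.P.MP_860a31_lc.E.Stm

/-!
Adding a vertex that is an admissible top over a subdiagram with uniqueness.
-/

open Cardinal hiding univ
open Set Order Filter Function

namespace Pool.Agent.P.MP_860a31_lc.E

open PC

theorem sradd (h : S_SRext) : S_SRadd := by
  classical
  intro C κ hκ ι Pt D I I0 i0 pc p hI0 hi0 hD hP hno hin hadm hHU hSR
  have hk := C.lv_ge hκ
  have hsub : I0 ⊆ insert i0 I := hI0.trans (subset_insert _ _)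
  have hD0 : D.Ok I0 (succ κ) :=
    ⟨hD.fin.subset hsub, fun i hi => hD.card i (hsub hi),
      fun i hi i' hi' => hD.hom i (hsub hi) i' (hsub hi')⟩
  have hc0 : #(C.U (D.X i0)) ≤ succ κ := hD.card i0 (mem_insert _ _)
  obtain ⟨D1, hD1, H1⟩ := h C κ hκ ι Pt D I0 pc hD0 hP (hSR.mono hI0) hHU (D.X i0)
    (fun i => D.ar i i0) p hc0 hadm
  obtain ⟨D0, hD0c, H0⟩ := hSR
  obtain ⟨D2, hD2, H2⟩ := ev_iff.1 (ev_into_all hκ hD)
  refine ⟨D0 ∩ (D1 ∩ D2), club_inter hD0c (club_inter hD1 hD2), ?_⟩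
  rintro γ ⟨g0, g1, g2⟩ δ ⟨d0, d1, d2⟩ hγδ
  obtain ⟨F, ρ, hρ⟩ := H0 γ g0 δ d0 hγδ
  have hE := H1 γ g1 δ d1 hγδ F ρ (hρ.mono hI0)
  have hE' : C.El (C.st κ (D.X i0) δ) (F.ap (C.st κ (D.X i0) γ))
      (fun a b => G (tr (D.X i0) γ δ) (F.eta (C.st κ (D.X i0) γ)) a b ∨
        GI I0 (fun i (x : C.U (C.st κ (D.X i) δ)) => stm (D.ar i i0) δ δ x)
          (fun i x => F.mp (stm (D.ar i i0) γ γ) (ρ i x)) a b) := by
    refine PC.El.pull_left val_h hE ?_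
    rintro _ _ (⟨x, rfl, rfl⟩ | ⟨i, hi, x, rfl, rfl⟩)
    · exact Or.inl ⟨x, (CC.val_tr hk hc0 hγδ x).symm, rfl⟩
    · exact Or.inr ⟨i, hi, x, ((H2 δ d2 i (hsub hi) i0 (mem_insert _ _)).val x).symm, rfl⟩
  obtain ⟨F', hF', ψ, hψ, hψR⟩ := AX.el_fn hκ hE' (CC.card_st hk hc0 δ)
    (hρ.bd.le (C.lv_inf hκ) le_rfl (CC.card_st hk hc0 γ))
  let ρ0 : ∀ i, C.U (C.st κ (D.X i) δ) → C.U ((F'.comp F).ap (C.st κ (D.X i) γ)) :=
    fun i x => F'.eta _ (ρ i x)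
  let ρ' : ∀ i, C.U (C.st κ (D.X i) δ) → C.U ((F'.comp F).ap (C.st κ (D.X i) γ)) :=
    Function.update ρ0 i0 ψ
  have e0 : ρ' i0 = ψ := Function.update_self ..
  have e1 : ∀ i ∈ I, ρ' i = ρ0 i := fun i hi =>
    Function.update_of_ne (fun e : i = i0 => hi0 (e ▸ hi)) _ _
  refine ⟨F'.comp F, ρ', Fn.Bd.comp (C.lv_inf hκ) hF' hρ.bd, ?_, ?_, ?_⟩
  · rintro i (rfl | hi)
    · rw [e0]; exact hψ
    · rw [e1 i hi]; exact C.comp (hρ.hom i hi) (F'.eta_h _)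
  · rintro i (rfl | hi) x
    · rw [e0]; exact hψR _ _ (Or.inl (G.mk _ _ x))
    · rw [e1 i hi]
      exact congrArg (F'.eta _) (hρ.eta i hi x)
  · rintro i (rfl | hi) i' hi' a u
    · exact absurd a (hno i' hi')
    · have hs : C.IsH (stm (D.ar i i') γ γ) :=
        (H2 γ g2 i (mem_insert_of_mem _ hi) i' hi').isH
          (hD.hom i (mem_insert_of_mem _ hi) i' hi' a)
      have hn : (F'.comp F).mp (stm (D.ar i i') γ γ) (ρ0 i u) =
          F'.eta _ (F.mp (stm (D.ar i i') γ γ) (ρ i u)) := F'.eta_nat (F.mp_h hs) _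
      rw [e1 i hi, hn]
      rcases hi' with rfl | hi'
      · rw [e0]
        exact hψR _ _ (Or.inr ⟨i, hin i hi a, u, rfl, rfl⟩)
      · rw [e1 i' hi']
        exact congrArg (F'.eta _) (hρ.nat i hi i' hi' a u)

end Pool.Agent.P.MP_860a31_lc.E
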