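import Pool.Agent.P.MP_860a31_lc.E.Stm

/-!
Every top is, on a club, a canonical amalgam of its stage with the later stages.
-/

open Cardinal hiding univ
open Set Order Filter Function

namespace Pool.Agent.P.MP_860a31_lc.E

open PC

theorem srext (h1 : S_DTrap) (h2 : S_Closure) : S_SRext := by
  intro C κ hκ ι Pt D I pc hD hP hS hU M e p hM hA
  have hk0 := C.lv_ge hκ
  have hi := AX.lv_inf hκ
  obtain ⟨D0, hD0, hT⟩ := h1 C κ hκ ι Pt D I pc hD hP hS hU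
  obtain ⟨γ0, hγ0, -, -, hA0⟩ := ((ev_club hD0).and (hA.ev_stage hκ hD hP hM)).exists
  obtain ⟨V, k, eV, -, hV, -, hAV, -, hCU⟩ := hT γ0 hγ0 _ _ _ (CC.card_st hk0 hM γ0) hA0
  obtain ⟨W, f, f', hf, hf', hW, hff⟩ :=
    (hU V eV _ M e p hAV hA).small (hk0.trans (le_succ κ)) hV hM
  obtain ⟨D1, hD1, H⟩ := ev_iff.1 ((ev_club hD0).and (hCU.and ((hAV.ev_stage hκ hD hP hV).and
    ((ev_dcl hκ hD hP).and ((h2 C κ hκ V W f hf hW).and ((CC.ev_into hk0 hM hW f').and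
      (hA.ev_stage hκ hD hP hM)))))))
  refine ⟨D1, hD1, fun γ hγ δ hδ hle F ρ hF => ?_⟩
  obtain ⟨-, cu, ⟨iV, mV, aV⟩, dcl, ⟨i1, clo⟩, i2, i3, -, -⟩ := H γ hγ
  obtain ⟨d0, -, ⟨iV', -, aV'⟩, -⟩ := H δ hδ
  have ca1 : CA κ D I pc γ δ (C.st κ V γ) (fun i => stm (eV i) γ γ)
      (fun j => pt γ (k (pt γ0 (p j)))) (C.st κ V δ) (tr V γ δ) (fun i => stm (eV i) δ δ) :=
    ⟨CC.tr_h hk0 hV hle,
      aV'.post (hP.stage κ δ) (C.idH _) (fun _ _ _ => rfl)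
        (fun j hj => (Into.stm_pt (g := fun x : C.U V => x) (mV j hj)).symm),
      fun i hi' x => ((CC.into_tr hk0 (hD.card i hi') hle).stm_stm x).trans
        ((iV i hi').stm_stm (k := fun x : C.U V => x) x).symm⟩
  have el1 := cu δ d0 hle _ _ _ _ _ _ ca1 (hF.ca hκ hD hP dcl aV)
  obtain ⟨F', hF', ψ, hψ, hR⟩ := AX.el_fn hκ el1 (CC.card_st hk0 hV δ)
    (hF.bd.le hi le_rfl (CC.card_st hk0 hV γ))
  have el2 := clo (C.st κ V δ) val (tr V γ δ) (F'.comp F) ψ val_h (CC.tr_h hk0 hV hle)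
    (CC.val_tr hk0 hV hle) ((hF'.comp hi hF.bd).mono (le_succ κ)) hψ
    (fun x => hR _ _ (Or.inl (G.mk _ _ x)))
  refine el2.pull (k' := fun y => F'.eta _ (F.mp (stm f' γ γ) y)) hf'
    (C.comp (F.mp_h (i2.isH hf')) (F'.eta_h _)) ?_
  rintro _ _ (⟨x, rfl, rfl⟩ | ⟨i, hi', x, rfl, rfl⟩)
  · refine Or.inl ⟨stm f' γ γ x, i2.val x, ?_⟩
    change F'.eta _ (F.eta _ _) = F'.eta _ (F.mp _ (F.eta _ x))
    rw [F.eta_nat (i2.isH hf')]
  · refine Or.inr ⟨stm (eV i) δ δ x, ?_, ?_⟩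
    · change f (val (stm (eV i) δ δ x)) = f' (e i (val x))
      rw [(iV' i hi').val]
      exact hff _ _ (GI.mk eV e hi' _)
    · have e1 := hR _ _ (Or.inr (GI.mk (fun i => stm (eV i) δ δ)
        (fun i x => F.mp (stm (eV i) γ γ) (ρ i x)) hi' x))
      change F'.mp (F.mp (stm f γ γ)) (ψ (stm (eV i) δ δ x)) =
        F'.eta _ (F.mp (stm f' γ γ) (F.mp (stm (e i) γ γ) (ρ i x)))
      rw [e1, F'.eta_nat (F.mp_h (i1.isH hf))]
      refine congrArg _ (F.mp_sq ((iV i hi').isH (hAV.hom i hi')) (i1.isH hf)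
        ((i3 i hi').isH (hA.hom i hi')) (i2.isH hf') (fun a => ?_) _)
      rw [(iV i hi').stm_stm, (i3 i hi').stm_stm]
      exact stm_congr (hff _ _ (GI.mk eV e hi' _))

end Pool.Agent.P.MP_860a31_lc.E
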