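import Pool.Agent.P.MP_860a31_lc.E.Stm

/-!
Natural maps between stages for the diagram of a morphism of systems.
-/

open Cardinal hiding univ
open Set Order Filter Function

namespace Pool.Agent.P.MP_860a31_lc.E

open PC Sys

namespace SRpairP

variable {C : AX} {S : Shape C} {𝒟 𝒟' 𝒟1 𝒟1' : Set (Finset S.L)} {y : Finset S.L}

theorem inl_mem : Sum.inl y ∈ pairI 𝒟 𝒟' ↔ y ∈ 𝒟 := by simp [pairI]

theorem inr_mem : Sum.inr y ∈ pairI 𝒟 𝒟' ↔ y ∈ 𝒟' := by simp [pairI]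

theorem mono (h : 𝒟1 ⊆ 𝒟) (h' : 𝒟1' ⊆ 𝒟') : pairI 𝒟1 𝒟1' ⊆ pairI 𝒟 𝒟' := by
  rintro (z | z) hz
  · exact inl_mem.2 (h (inl_mem.1 hz))
  · exact inr_mem.2 (h' (inr_mem.1 hz))

theorem ins_l : pairI (insert y 𝒟) 𝒟' = insert (Sum.inl y) (pairI 𝒟 𝒟') := by
  ext (z | z) <;> simp [inl_mem, inr_mem]

theorem ins_r : pairI 𝒟 (insert y 𝒟') = insert (Sum.inr y) (pairI 𝒟 𝒟') := by
  ext (z | z) <;> simp [inl_mem, inr_mem]

theorem ok_mono {ι : Type} {D : Dg C ι} {I I' : Set ι} {μ : Cardinal.{0}} (h : D.Ok I μ)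
    (h' : I' ⊆ I) : D.Ok I' μ :=
  ⟨h.fin.subset h', fun i hi => h.card i (h' hi), fun i hi j hj => h.hom i (h' hi) j (h' hj)⟩

theorem ok {μ : Cardinal.{0}} {E : Finset S.L} (hF : S.Cx 𝒟 E) (hd : S.Dn 𝒟') (hs : 𝒟' ⊆ 𝒟)
    {V M : Sys S} {σ : ∀ y, C.U (V.N y) → C.U (M.N y)} (hV : InU μ 𝒟 E V) (hM : InU μ 𝒟' E M)
    (hσ : SMor 𝒟' E V M σ) : (pairDg V M σ).Ok (pairI 𝒟 𝒟') μ := by
  refine ⟨(hF.fin.image _).union ((hF.fin.subset hs).image _), ?_, ?_⟩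
  · rintro (y | y) hy
    · exact hV.small y (inl_mem.1 hy)
    · exact hM.small y (inr_mem.1 hy)
  · rintro (y | y) hy (z | z) hz a
    · exact hV.valid.hom y (inl_mem.1 hy) z (inl_mem.1 hz) (subset_of_ssubset a)
    · have hy' : y ∈ 𝒟' := (hd z (inr_mem.1 hz)).2 y (hF.dn y (inl_mem.1 hy)).1 a
      have := C.comp (hσ.hom y hy') (hM.valid.hom y hy' z (inr_mem.1 hz) a)
      exact this
    · exact a.elim
    · exact hM.valid.hom y (inr_mem.1 hy) z (inr_mem.1 hz) (subset_of_ssubset a)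

theorem adm_bd {E v : Finset S.L} (hF : S.Cx 𝒟 E) (hv : v ∈ 𝒟)
    {V M : Sys S} {σ : ∀ y, C.U (V.N y) → C.U (M.N y)} (hV : V.Valid 𝒟 E) :
    Adm (pairDg V M σ) (pairI (S.Bd v) ∅) (bdPc V M σ v) ((pairDg V M σ).X (.inl v))
      (fun i => (pairDg V M σ).ar i (.inl v)) (fun j => V.c j v) := by
  have hb := hF.dn.bd_sub hv
  refine ⟨?_, ?_, ?_, fun j hj => hV.right v hv j hj⟩
  · rintro (y | y) hy
    · exact hV.hom y (hb (inl_mem.1 hy)) v hv (inl_mem.1 hy).2.1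
    · exact (inr_mem.1 hy).elim
  · rintro (y | y) hy (z | z) hz a x
    · exact hV.comp y (hb (inl_mem.1 hy)) z (hb (inl_mem.1 hz)) v hv (subset_of_ssubset a)
        (inl_mem.1 hz).2.1 x
    · exact (inr_mem.1 hz).elim
    · exact (inr_mem.1 hy).elim
    · exact (inr_mem.1 hy).elim
  · rintro j hj (y | y) hy a
    · exact hV.c (hF.sub v hv hj.1) (hb (inl_mem.1 hy)) hv (inl_mem.1 hy).1 a (inl_mem.1 hy).2.1
    · exact (inr_mem.1 hy).elim

theorem adm_mix {E v : Finset S.L} (hF : S.Cx 𝒟 E) (hv : v ∈ 𝒟)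
    {V M : Sys S} {σ : ∀ y, C.U (V.N y) → C.U (M.N y)} (hM : M.Valid 𝒟 E)
    (hσ : SMor 𝒟 E V M σ) :
    Adm (pairDg V M σ) (pairI (S.Le v) (S.Bd v)) (mixPc V M σ v) ((pairDg V M σ).X (.inr v))
      (fun i => (pairDg V M σ).ar i (.inr v)) (fun j => M.c j v) := by
  have hb := hF.dn.bd_sub hv
  have hl := hF.dn.le_sub hv
  refine ⟨?_, ?_, ?_, fun j hj => hM.right v hv j hj⟩
  · rintro (y | y) hy
    · have := C.comp (hσ.hom y (hl (inl_mem.1 hy)))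
        (hM.hom y (hl (inl_mem.1 hy)) v hv (inl_mem.1 hy).2)
      exact this
    · exact hM.hom y (hb (inr_mem.1 hy)) v hv (inr_mem.1 hy).2.1
  · rintro (y | y) hy (z | z) hz a x
    · have hy' := hl (inl_mem.1 hy)
      have hz' := hl (inl_mem.1 hz)
      exact (congrArg (M.i z v) (hσ.nat y hy' z hz' (subset_of_ssubset a) x)).trans
        (hM.comp y hy' z hz' v hv (subset_of_ssubset a) (inl_mem.1 hz).2 _)
    · exact hM.comp y (hl (inl_mem.1 hy)) z (hb (inr_mem.1 hz)) v hv a (inr_mem.1 hz).2.1 _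
    · exact a.elim
    · exact hM.comp y (hb (inr_mem.1 hy)) z (hb (inr_mem.1 hz)) v hv (subset_of_ssubset a)
        (inr_mem.1 hz).2.1 x
  · rintro j hj (y | y) hy a
    · have hy' := hl (inl_mem.1 hy)
      change M.i y v (σ y (V.c j y)) = M.c j v
      rw [hσ.c (hF.sub v hv hj.1) hy' (inl_mem.1 hy).1 a]
      exact hM.c (hF.sub v hv hj.1) hy' hv (inl_mem.1 hy).1 a (inl_mem.1 hy).2
    · exact hM.c (hF.sub v hv hj.1) (hb (inr_mem.1 hy)) hv (inr_mem.1 hy).1 a (inr_mem.1 hy).2.1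

end SRpairP

open SRpairP in
theorem srpair (h1 : S_SRadd) (h2 : S_HUbd) (h3 : S_HUmix) : S_SRpair := by
  intro C S κ hκ 𝒟 𝒟' E hF hd hs hU V M σ hV hM hσ
  have hF' : S.Cx 𝒟' E := ⟨hd, fun y hy => hF.sub y (hs hy)⟩
  have hok := ok hF hd hs hV hM hσ
  have s1 : 𝒟 ⊆ 𝒟 → SRc κ (pairDg V M σ) (pairI 𝒟 ∅) := by
    refine Shape.Cx.induction (P := fun 𝒟1 => 𝒟1 ⊆ 𝒟 → SRc κ (pairDg V M σ) (pairI 𝒟1 ∅))
      (fun _ => ?_) (fun 𝒟1 v hc hv hE hn hb ih hsub => ?_) hF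
    · have : pairI (∅ : Set (Finset S.L)) ∅ = ∅ := by simp [pairI]
      rw [this]
      exact srC_empty _
    · have hv' : v ∈ 𝒟 := hsub (mem_insert _ _)
      have hE' : (↑v : Set S.L) ⊆ ↑E := Finset.coe_subset.2 hE
      rw [ins_l]
      refine h1 C κ hκ _ _ _ _ (pairI (S.Bd v) ∅) _ (bdPc V M σ v) (fun j => V.c j v)
        (mono hb subset_rfl) (fun h => hn (inl_mem.1 h)) ?_
        ⟨S.fin_mx v, fun j hj => inl_mem.2 (hv.erase_mem_bd hj)⟩ ?_ ?_ (adm_bd hF hv' hV.valid)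
        (h2 C S _ v hv (hU v hv') V M σ (hV.mono (hF.dn.bd_sub hv') hE'))
        (ih ((subset_insert _ _).trans hsub))
      · rw [← ins_l]
        exact ok_mono hok (mono hsub (empty_subset _))
      · rw [← ins_l]
        rintro (z | z) hz a
        · rcases inl_mem.1 hz with rfl | hz
          · exact lt_irrefl _ a
          · exact hn ((hc.dn z hz).2 v hv (subset_of_ssubset a))
        · exact (inr_mem.1 hz).elim
      · rintro (z | z) hz a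
        · exact inl_mem.2 ⟨(hc.dn z (inl_mem.1 hz)).1, a⟩
        · exact a.elim
  refine Shape.Cx.induction (P := fun 𝒟1 => 𝒟1 ⊆ 𝒟' → SRc κ (pairDg V M σ) (pairI 𝒟 𝒟1))
    (fun _ => s1 subset_rfl) (fun 𝒟1 v hc hv hE hn hb ih hsub => ?_) hF' subset_rfl
  have hv' : v ∈ 𝒟' := hsub (mem_insert _ _)
  have hE' : (↑v : Set S.L) ⊆ ↑E := Finset.coe_subset.2 hE
  have hl := hF.dn.le_sub (hs hv')
  rw [ins_r]
  refine h1 C κ hκ _ _ _ _ (pairI (S.Le v) (S.Bd v)) _ (mixPc V M σ v) (fun j => M.c j v)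
    (mono hl hb) (fun h => hn (inr_mem.1 h)) ?_
    ⟨S.fin_mx v, fun j hj => inr_mem.2 (hv.erase_mem_bd hj)⟩ ?_ ?_ (adm_mix hF' hv' hM.valid hσ)
    (h3 C S _ v hv V M σ (hV.uq v (hs hv')) (hV.valid.mono hl hE')
      (hM.mono (hd.bd_sub hv') hE') (hσ.mono (hd.bd_sub hv') hE'))
    (ih ((subset_insert _ _).trans hsub))
  · rw [← ins_r]
    exact ok_mono hok (mono subset_rfl hsub)
  · rw [← ins_r]
    rintro (z | z) hz a
    · exact a.elim
    · rcases inr_mem.1 hz with rfl | hz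
      · exact lt_irrefl _ a
      · exact hn ((hc.dn z hz).2 v hv (subset_of_ssubset a))
  · rintro (z | z) hz a
    · exact inl_mem.2 ⟨(hF.dn z (inl_mem.1 hz)).1, a⟩
    · exact inr_mem.2 ⟨(hc.dn z (inr_mem.1 hz)).1, a⟩

end Pool.Agent.P.MP_860a31_lc.E
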