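import Pool.Agent.P.MP_860a31_lc.E.Stm

/-!
Amalgamation of a ranked family in `ω` rounds.
-/

open Cardinal hiding univ
open Set Order Filter Function

namespace Pool.Agent.P.MP_860a31_lc.E

open PC Sys

namespace SeqAmalgP

/-- the state after some rounds -/
structure St (C : AC) (B : C.Obj) (T : Type) (Y : T → C.Obj) where
  Z : C.Obj
  b : C.U B → C.U Z
  h : ∀ τ, C.U (Y τ) → C.U Z

variable {C : AC} {B : C.Obj} {T : Type} {Y : T → C.Obj}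

/-- the state is correct for all ranks below `n` -/
def Ok (rk : T → ℕ) (Rb : ∀ τ, C.U (Y τ) → C.U B → Prop)
    (Rl : ∀ τ τ', C.U (Y τ) → C.U (Y τ') → Prop) (n : ℕ) (S : St C B T Y) : Prop :=
  C.IsH S.b ∧ ∀ τ', rk τ' < n → C.IsH (S.h τ') ∧ (∀ y x, Rb τ' y x → S.h τ' y = S.b x) ∧
    ∀ τ'' y y', rk τ'' < rk τ' → Rl τ' τ'' y y' → S.h τ' y = S.h τ'' y'

theorem step (hA : S_AmalgFam) {rk : T → ℕ} {Rb : ∀ τ, C.U (Y τ) → C.U B → Prop}
    {Rl : ∀ τ τ', C.U (Y τ) → C.U (Y τ') → Prop}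
    (H : ∀ (τ : T) (Z : C.Obj) (b : C.U B → C.U Z) (h : ∀ τ, C.U (Y τ) → C.U Z), C.IsH b →
      (∀ τ', rk τ' < rk τ → C.IsH (h τ') ∧ (∀ y x, Rb τ' y x → h τ' y = b x) ∧
        ∀ τ'' y y', rk τ'' < rk τ' → Rl τ' τ'' y y' → h τ' y = h τ'' y') →
      C.El (Y τ) Z (fun y w => (∃ x, Rb τ y x ∧ b x = w) ∨
        ∃ τ' y', rk τ' < rk τ ∧ Rl τ τ' y y' ∧ h τ' y' = w))
    (n : ℕ) (S : St C B T Y) (hS : Ok rk Rb Rl n S) :
    ∃ (S' : St C B T Y) (f : C.U S.Z → C.U S'.Z), Ok rk Rb Rl (n + 1) S' ∧ C.IsH f ∧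
      (∀ x, f (S.b x) = S'.b x) ∧ ∀ τ, rk τ < n → ∀ y, f (S.h τ y) = S'.h τ y := by
  classical
  let θ : Cardinal.{0} := C.k0 + #(C.U S.Z) + #T + Cardinal.sum fun τ => #(C.U (Y τ))
  obtain ⟨Z, f, g, -, hf, hg⟩ := hA C θ
    (le_self_add.trans (le_self_add.trans le_self_add)) S.Z {τ // rk τ = n} (fun τ => Y τ.1)
    (fun τ y w => (∃ x, Rb τ.1 y x ∧ S.b x = w) ∨
      ∃ τ' y', rk τ' < rk τ.1 ∧ Rl τ.1 τ' y y' ∧ S.h τ' y' = w)
    (le_add_self.trans (le_self_add.trans le_self_add))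
    ((mk_subtype_le _).trans (le_add_self.trans le_self_add))
    (fun τ => (Cardinal.le_sum (fun τ => #(C.U (Y τ))) τ.1).trans le_add_self)
    (fun τ => H τ.1 S.Z S.b S.h hS.1 fun τ' h' => hS.2 τ' (τ.2 ▸ h'))
  let h' : ∀ τ, C.U (Y τ) → C.U Z := fun τ y =>
    if e : rk τ = n then g ⟨τ, e⟩ y else f (S.h τ y)
  have h1 : ∀ τ, rk τ < n → ∀ y, h' τ y = f (S.h τ y) := fun τ hτ y => dif_neg hτ.ne
  have h2 : ∀ τ (e : rk τ = n) y, h' τ y = g ⟨τ, e⟩ y := fun τ e y => dif_pos e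
  refine ⟨⟨Z, fun x => f (S.b x), h'⟩, f, ⟨C.comp (f := S.b) (g := f) hS.1 hf, fun τ hτ => ?_⟩, hf, fun _ => rfl,
    fun τ hτ y => (h1 τ hτ y).symm⟩
  rcases (Nat.lt_succ_iff.1 hτ).eq_or_lt with e | hlt
  · obtain ⟨k1, k2⟩ := hg ⟨τ, e⟩
    refine ⟨PC.congr k1 fun y => (h2 τ e y).symm, fun y x r => ?_, fun τ' y y' l r => ?_⟩
    · exact (h2 τ e y).trans (k2 y _ (Or.inl ⟨x, r, rfl⟩))
    · exact ((h2 τ e y).trans (k2 y _ (Or.inr ⟨τ', y', l, r, rfl⟩))).trans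
        (h1 τ' (e ▸ l) y').symm
  · obtain ⟨k1, k2, k3⟩ := hS.2 τ hlt
    refine ⟨PC.congr (C.comp k1 hf) fun y => (h1 τ hlt y).symm, fun y x r => ?_,
      fun τ' y y' l r => ?_⟩
    · exact (h1 τ hlt y).trans (congrArg f (k2 y x r))
    · exact ((h1 τ hlt y).trans (congrArg f (k3 τ' y y' l r))).trans
        (h1 τ' (l.trans hlt) y').symm

end SeqAmalgP

open SeqAmalgP in
theorem seqAmalg (h : S_AmalgFam) : S_SeqAmalg := by
  intro C B T rk Y Rb Rl H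
  choose nx f h1 h2 h3 h4 using step h H
  let S0 : St C B T Y := ⟨B, fun x => x, fun _ _ => Classical.choice (C.ne B)⟩
  have h0 : Ok rk Rb Rl 0 S0 := ⟨C.idH B, fun _ h => absurd h (Nat.not_lt_zero _)⟩
  let S : ∀ n : ℕ, {S : St C B T Y // Ok rk Rb Rl n S} := fun n =>
    Nat.rec ⟨S0, h0⟩ (fun n S => ⟨nx n S.1 S.2, h1 n S.1 S.2⟩) n
  let s : ∀ n, C.U (S n).1.Z → C.U (S (n + 1)).1.Z := fun n => f n (S n).1 (S n).2
  let t : ∀ i j : ℕ, i ≤ j → C.U (S i).1.Z → C.U (S j).1.Z := fun i j hij x =>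
    Nat.leRecOn (C := fun k => C.U (S k).1.Z) hij (fun {k} => s k) x
  have t0 : ∀ i x, t i i le_rfl x = x := fun i x =>
    Nat.leRecOn_self (C := fun k => C.U (S k).1.Z) (next := fun {k} => s k) x
  have t1 : ∀ i j (hij : i ≤ j) x, t i (j + 1) (hij.trans (Nat.le_succ j)) x = s j (t i j hij x) :=
    fun i j hij x =>
      Nat.leRecOn_succ (C := fun k => C.U (S k).1.Z) hij (next := fun {k} => s k) x
  have t2 : ∀ i j k (hij : i ≤ j) (hjk : j ≤ k) x,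
      t j k hjk (t i j hij x) = t i k (hij.trans hjk) x :=
    fun i j k hij hjk x =>
      (Nat.leRecOn_trans (C := fun k => C.U (S k).1.Z) hij hjk (next := fun {k} => s k) x).symm
  have t3 : ∀ i j (hij : i ≤ j), C.IsH (t i j hij) ∧ (∀ x, t i j hij ((S i).1.b x) = (S j).1.b x) ∧
      ∀ τ, rk τ < i → ∀ y, t i j hij ((S i).1.h τ y) = (S j).1.h τ y := by
    intro i j hij
    induction j, hij using Nat.le_induction with
    | base => exact ⟨PC.congr (C.idH _) fun x => (t0 i x).symm, fun x => t0 i _,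
        fun τ _ y => t0 i _⟩
    | succ j hij ih =>
      refine ⟨PC.congr (C.comp ih.1 (h2 j (S j).1 (S j).2)) fun x => (t1 i j hij x).symm,
        fun x => ?_, fun τ hτ y => ?_⟩
      · rw [t1 i j hij, ih.2.1]; exact h3 j (S j).1 (S j).2 x
      · rw [t1 i j hij, ih.2.2 τ hτ]; exact h4 j (S j).1 (S j).2 τ (hτ.trans_le hij) y
  obtain ⟨Z, u, k1, k2, -⟩ := C.colim ℕ (fun n => (S n).1.Z) t (fun i j h => (t3 i j h).1) t0 t2
  have hb : ∀ n x, u n ((S n).1.b x) = u 0 ((S 0).1.b x) := fun n x => by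
    rw [← (t3 0 n (Nat.zero_le n)).2.1, k2]
  refine ⟨Z, fun x => u 0 ((S 0).1.b x), fun τ y => u (rk τ + 1) ((S (rk τ + 1)).1.h τ y),
    C.comp (S 0).2.1 (k1 0), fun τ => ?_⟩
  obtain ⟨j1, j2, j3⟩ := (S (rk τ + 1)).2.2 τ (Nat.lt_succ_self _)
  refine ⟨C.comp j1 (k1 _), fun y x r => ?_, fun τ' y y' l r => ?_⟩
  · exact (congrArg _ (j2 y x r)).trans (hb _ x)
  · have hle : rk τ' + 1 ≤ rk τ + 1 := Nat.succ_le_succ l.le
    refine (congrArg _ (j3 τ' y y' l r)).trans ?_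
    rw [← (t3 _ _ hle).2.2 τ' (Nat.lt_succ_self _), k2]

end Pool.Agent.P.MP_860a31_lc.E
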