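import Pool.Agent.P.MP_860a31_lc.E.Stm

/-!
A shape in which every face is the set of ancestors of letters with any prescribed data.
-/

open Cardinal hiding univ
open Set Order Filter Function

namespace Pool.Agent.P.MP_860a31_lc.E

open PC Sys

namespace ShapeExP

variable {A : Type}

/-- finitely branching trees with labels in `A` -/
abbrev T (A : Type) : Type := WType (fun a : ℕ × A => Fin a.1)

open Classical in
/-- the proper subtrees -/
noncomputable def par : T A → Finset (T A)
  | ⟨_, f⟩ => Finset.univ.biUnion fun i => insert (f i) (par (f i))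

/-- the label of the root -/
def lab : T A → A
  | ⟨a, _⟩ => a.2

theorem mem_par {a : ℕ × A} {f : Fin a.1 → T A} {x : T A} :
    x ∈ par (WType.mk a f : T A) ↔ ∃ i, x = f i ∨ x ∈ par (f i) := by
  rw [par]
  simp only [Finset.mem_biUnion, Finset.mem_univ, true_and, Finset.mem_insert]

theorem depth_lt (l : T A) : ∀ x ∈ par l, WType.depth x < WType.depth l := by
  induction l with
  | mk a f ih =>
    intro x hx
    obtain ⟨i, h | h⟩ := mem_par.1 hx
    · rw [h]
      exact WType.depth_lt_depth_mk (β := fun a : ℕ × A => Fin a.1) a f i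
    · exact (ih i x h).trans (WType.depth_lt_depth_mk (β := fun a : ℕ × A => Fin a.1) a f i)

theorem cls (l : T A) : ∀ x ∈ par l, par x ⊆ par l := by
  induction l with
  | mk a f ih =>
    intro x hx y hy
    obtain ⟨i, h | h⟩ := mem_par.1 hx
    · rw [h] at hy
      exact mem_par.2 ⟨i, Or.inr hy⟩
    · exact mem_par.2 ⟨i, Or.inr (ih i x h hy)⟩

theorem exists_par (u : Finset (T A)) (hu : ∀ l ∈ u, par l ⊆ u) (a : A) :
    ∃ l : T A, par l = u ∧ lab l = a := by
  refine ⟨WType.mk (u.card, a) fun i => (u.equivFin.symm i).1, ?_, rfl⟩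
  ext x
  rw [mem_par]
  constructor
  · rintro ⟨i, h | h⟩
    · rw [h]
      exact (u.equivFin.symm i).2
    · exact hu _ (u.equivFin.symm i).2 h
  · intro hx
    exact ⟨u.equivFin ⟨x, hx⟩, Or.inl (by simp)⟩

theorem card_le {θ : Cardinal.{0}} (hθ : ℵ₀ ≤ θ) (hA : #A ≤ θ) : #(T A) ≤ θ := by
  refine WType.cardinalMk_le_max_aleph0_of_finite.trans (max_le ?_ hθ)
  rw [mk_prod, lift_id, lift_id, mk_nat]
  exact (mul_le_mul' hθ hA).trans (mul_eq_self hθ).le

end ShapeExP

theorem shapeEx : S_ShapeEx := by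
  intro C Cd Tag
  classical
  refine ⟨⟨ShapeExP.T (C.Op × Cd × Tag), Classical.decEq _, ShapeExP.par,
    fun l => (ShapeExP.lab l).1, fun l h => lt_irrefl _ (ShapeExP.depth_lt l l h),
    fun {i l} h => ShapeExP.cls l i h⟩, fun l => (ShapeExP.lab l).2.1,
    fun l => (ShapeExP.lab l).2.2, ?_, ?_⟩
  · have hθ : ℵ₀ ≤ #Cd + #Tag + C.k0 := C.inf.trans le_add_self
    refine ShapeExP.card_le hθ ?_
    rw [mk_prod, mk_prod, lift_id, lift_id, lift_id, lift_id]
    have h1 : #C.Op ≤ #Cd + #Tag + C.k0 := C.op_card.trans le_add_self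
    have h2 : #Cd ≤ #Cd + #Tag + C.k0 := le_self_add.trans le_self_add
    have h3 : #Tag ≤ #Cd + #Tag + C.k0 := le_add_self.trans le_self_add
    exact (mul_le_mul' h1 ((mul_le_mul' h2 h3).trans (mul_eq_self hθ).le)).trans
      (mul_eq_self hθ).le
  · intro u hu t j τ
    obtain ⟨l, h1, h2⟩ := ShapeExP.exists_par u hu (t, j, τ)
    exact ⟨l, h1, by simp only [h2], by simp only [h2], by simp only [h2]⟩

end Pool.Agent.P.MP_860a31_lc.E
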