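import Pool.Agent.P.MP_860a31_lc.E.Stm

/-!
A small extension of a uniqueness system maps naturally into a functor of the system.
-/

open Cardinal hiding univ
open Set Order Filter Function

namespace Pool.Agent.P.MP_860a31_lc.E

open PC Sys

namespace SigRhoP

theorem sig_mono {C : AX} {S : Shape C} {κ : Cardinal.{0}} {𝒟 𝒟' : Set (Finset S.L)}
    {A B : Sys S} {σ : ∀ y, C.U (A.N y) → C.U (B.N y)} {F : Fn C.toPC}
    {r : ∀ y, C.U (B.N y) → C.U (F.ap (A.N y))} (h : Sig κ 𝒟 A B σ F r) (h' : 𝒟' ⊆ 𝒟) :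
    Sig κ 𝒟' A B σ F r :=
  ⟨h.bd, fun y hy => h.hom y (h' hy), fun y hy => h.eta y (h' hy),
    fun y hy z hz => h.nat y (h' hy) z (h' hz)⟩

end SigRhoP

theorem sigRho : S_SigRho := by
  intro C S κ hκ 𝒟 E hD A B σ hA hB hσ
  refine Shape.Cx.induction (E := E) (P := fun D1 => D1 ⊆ 𝒟 → ∃ F r, Sig κ D1 A B σ F r)
    (fun _ => ⟨Fn.idF _, fun y _ => Classical.choice (C.ne _), Fn.bd_id κ,
      fun _ h => h.elim, fun _ h => h.elim, fun _ h => h.elim⟩) ?_ hD subset_rfl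
  intro D1 v hc hv hvE hvn hb ih hsub
  have h1 : D1 ⊆ 𝒟 := (subset_insert _ _).trans hsub
  obtain ⟨F, r, hr⟩ := ih h1
  have hvD : v ∈ 𝒟 := hsub (mem_insert _ _)
  have hE : (↑v : Set S.L) ⊆ ↑E := Finset.coe_subset.2 hvE
  have hbd : S.Bd v ⊆ 𝒟 := hb.trans h1
  have a1 := hσ.aa hB.valid hD hvD
  have a2 := (hA.valid.admT hD.dn hvD hE).fn hκ hv (hA.small.mono hbd) (hA.valid.mono hbd hE)
    (hσ.mono hbd hE) (SigRhoP.sig_mono hr hb)
  have el := uq_iff.1 (hA.uq v hvD) B σ (hB.mono hbd hE) (hσ.mono hbd hE) _ _ _ _ _ _ a1 a2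
  obtain ⟨F', hF', ψ, hψ, hR⟩ := AX.el_fn hκ el (hB.small v hvD)
    (hr.bd.le (AX.lv_inf hκ) le_rfl (hA.small v hvD))
  have hne : ∀ y ∈ D1, y ≠ v := fun y hy e => hvn (e ▸ hy)
  refine ⟨F'.comp F, update (fun y x => F'.eta _ (r y x)) v ψ, hF'.comp (AX.lv_inf hκ) hr.bd,
    ?_, ?_, ?_⟩
  · rintro y (rfl | hy)
    · rw [update_self]; exact hψ
    · rw [update_of_ne (hne y hy)]; exact C.comp (hr.hom y hy) (F'.eta_h _)
  · rintro y (rfl | hy) x
    · rw [update_self]; exact hR _ _ (Or.inl (G.mk _ _ x))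
    · rw [update_of_ne (hne y hy)]; exact congrArg (F'.eta _) (hr.eta y hy x)
  · rintro y (rfl | hy) z (rfl | hz) hyz u
    · rw [hB.valid.id z hvD, (funext (hA.valid.id z hvD) : A.i z z = fun a => a), Fn.mp_id]
    · exact (hvn ((hc.dn z hz).2 y hv hyz)).elim
    · have hy' : y ∈ S.Bd z := ⟨(hc.dn y hy).1, hyz.ssubset_of_ne (hne y hy)⟩
      rw [update_self, update_of_ne (hne y hy)]
      exact (hR _ _ (Or.inr ⟨y, hy', G.mk _ _ u⟩)).trans
        (F'.eta_nat (F.mp_h (hA.valid.hom y (h1 hy) z hvD hyz)) _).symm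
    · rw [update_of_ne (hne y hy), update_of_ne (hne z hz)]
      exact (congrArg (F'.eta _) (hr.nat y hy z hz hyz u)).trans
        (F'.eta_nat (F.mp_h (hA.valid.hom y (h1 hy) z (h1 hz) hyz)) _).symm

theorem topExt (h : S_SigRho) : S_TopExt := by
  intro C S κ hκ v hv A B σ hA hB hσ Z e p hp
  obtain ⟨F, r, hr⟩ := h C S κ hκ (S.Bd v) v (Shape.cx_bd v) A B σ hA hB hσ
  exact ⟨F.ap Z, F.eta Z, _, hr.bd Z, hp.fn hκ hv hA.small hA.valid hσ hr⟩

end Pool.Agent.P.MP_860a31_lc.E
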