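import Pool.Agent.P.MP_860a31_lc.E.Stm

/-!
A good system is isomorphic to a stage of a good system of the next level.
-/

open Cardinal hiding univ
open Set Order Filter Function

namespace Pool.Agent.P.MP_860a31_lc.E

open PC Sys

namespace StageIsoP

variable {C : AX} {S : Shape C} {κ : Cardinal.{0}} {𝒟 : Set (Finset S.L)}

/-- a family of maps that restricts to morphisms along a covering family is a morphism -/
theorem of_cover {E : Set S.L} {ι : Type} [Nonempty ι] {B : ι → Sys S} {N M : Sys S}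
    {t : ∀ k y, C.U ((B k).N y) → C.U (N.N y)} {g : ∀ k y, C.U ((B k).N y) → C.U (M.N y)}
    {F : ∀ y, C.U (N.N y) → C.U (M.N y)} (ht : ∀ k, SMor 𝒟 E (B k) N (t k))
    (hg : ∀ k, SMor 𝒟 E (B k) M (g k)) (hF : ∀ y ∈ 𝒟, C.IsH (F y))
    (he : ∀ y ∈ 𝒟, ∀ k x, F y (t k y x) = g k y x)
    (hc : ∀ y ∈ 𝒟, ∀ x, ∃ k x', t k y x' = x) : SMor 𝒟 E N M F where
  hom := hF
  nat y hy z hz hyz x := by
    obtain ⟨k, x, rfl⟩ := hc y hy x
    rw [← (ht k).nat y hy z hz hyz, he z hz, he y hy, (hg k).nat y hy z hz hyz]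
  el a ha y hy hs := by
    have k : ι := Classical.arbitrary ι
    rw [← (ht k).el a ha y hy hs, he y hy, (hg k).el a ha y hy hs]

/-- states of the back and forth construction -/
structure St (κ : Cardinal.{0}) (V V' : Sys S) where
  idx : J κ
  s : J κ
  ξ : J (succ κ)
  f : ∀ y, C.U (V.N y) → C.U (V'.N y)

/-- one step of the back and forth construction -/
theorem step (h : S_AbsSat) (hκ : C.Lv κ) {E : Finset S.L} (hF : S.Cx 𝒟 E) {V V' : Sys S}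
    (hV : Good κ 𝒟 E V) (hV' : Good (succ κ) 𝒟 E V') (hc : CofAt κ 𝒟 E V') {D1 : Set (J κ)}
    (hD1 : IsClub D1) (hD : ∀ γ ∈ D1, Cl κ V 𝒟 E γ ∧ InU κ 𝒟 E (V.stage κ γ)) {s : J κ}
    (hs : s ∈ D1) {F : ∀ y, C.U ((V.stage κ s).N y) → C.U (V'.N y)}
    (hF' : SMor 𝒟 E (V.stage κ s) V' F) (X : ∀ y, Set (C.U (V'.N y)))
    (hX : ∀ y ∈ 𝒟, #(X y) ≤ κ) (i : J κ) :
    ∃ s' ∈ D1, s < s' ∧ i ≤ s' ∧ ∃ f : ∀ y, C.U (V.N y) → C.U (V'.N y),
      SMor 𝒟 E (V.stage κ s') V' (fun y x => f y (val x)) ∧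
      (∀ y ∈ 𝒟, ∀ x : C.U ((V.stage κ s).N y), f y (val x) = F y x) ∧
      ∀ y ∈ 𝒟, X y ⊆ f y '' C.filt κ (V.N y) s' := by
  have hi := AX.lv_inf hκ
  obtain ⟨A', f', hA', hf', hr⟩ := hc (fun y => range (F y) ∪ X y) fun y hy =>
    (mk_union_le _ _).trans (add_le_of_le hi (mk_range_le.trans ((hD s hs).2.small y hy)) (hX y hy))
  obtain ⟨m, hm, hm'⟩ := hf'.factor hF' fun y hy => subset_union_left.trans (hr y hy)
  obtain ⟨k, hk, hk'⟩ := h C S κ 𝒟 E hF _ A' V m (fun _ => val) (hD s hs).2 hA' hm hV.valid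
    (hD s hs).1.mor hV.sat
  obtain ⟨s', ⟨⟨h1, h2⟩, h3⟩, h4⟩ := ((((ev_club hD1).and (ev_gt s)).and (ev_ge i)).and
    (Sys.ev_range hκ hF.fin hV.small hA'.small k)).exists
  have hn := (hD s' h1).1.mor_pt hk h4
  obtain ⟨F', hF1, hF2⟩ := h C S κ 𝒟 E hF A' _ V' _ f' hA' (hD s' h1).2 hn hV'.valid hf'
    fun y hy => (hV'.sat y hy).mono (le_succ κ)
  refine ⟨s', h1, h2, h3, fun y x => F' y (pt s' x), hF1.congr fun y _ x => congrArg (F' y) (pt_val x).symm,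
    fun y hy x => ?_, fun y hy w hw => ?_⟩
  · rw [← hm' y hy, ← hF2 y hy, hk' y hy]
  · obtain ⟨u, rfl⟩ := hr y hy (Or.inr hw)
    exact ⟨k y u, h4 y hy u, hF2 y hy u⟩

/-- the common extension of a chain of morphisms defined on stages -/
theorem base (h : S_AbsSat) (hκ : C.Lv κ) {E : Finset S.L} (hF : S.Cx 𝒟 E) {A V V' : Sys S}
    {a : ∀ y, C.U (A.N y) → C.U (V.N y)} {g : ∀ y, C.U (A.N y) → C.U (V'.N y)}
    (hA : InU κ 𝒟 E A) (hV : Good κ 𝒟 E V) (hV' : Good (succ κ) 𝒟 E V')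
    (ha : SMor 𝒟 E A V a) (hg : SMor 𝒟 E A V' g) {D1 : Set (J κ)}
    (hD1 : IsClub D1) (hD : ∀ γ ∈ D1, Cl κ V 𝒟 E γ ∧ InU κ 𝒟 E (V.stage κ γ))
    {ι : Type} [LinearOrder ι] (hι : #ι ≤ κ) (s : ι → J κ) (hs : StrictMono s)
    (hsD : ∀ k, s k ∈ D1) (f : ι → ∀ y, C.U (V.N y) → C.U (V'.N y))
    (hf : ∀ k, SMor 𝒟 E (V.stage κ (s k)) V' (fun y x => f k y (val x)))
    (hfe : ∀ k l, k < l → ∀ y ∈ 𝒟, ∀ x ∈ C.filt κ (V.N y) (s k), f l y x = f k y x) :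
    ∃ s0 ∈ D1, (∀ k, s k ≤ s0) ∧ ∃ F : ∀ y, C.U ((V.stage κ s0).N y) → C.U (V'.N y),
      SMor 𝒟 E (V.stage κ s0) V' F ∧ ∀ k, ∀ y ∈ 𝒟, ∀ x ∈ C.filt κ (V.N y) (s k),
        F y (pt s0 x) = f k y x := by
  have hk := C.lv_ge hκ
  have hfe' : ∀ k l, k ≤ l → ∀ y ∈ 𝒟, ∀ x ∈ C.filt κ (V.N y) (s k), f l y x = f k y x := by
    intro k l hkl y hy x hx
    rcases hkl.eq_or_lt with rfl | hkl
    · rfl
    · exact hfe k l hkl y hy x hx
  rcases isEmpty_or_nonempty ι with hE | hE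
  · obtain ⟨s0, h1, h2⟩ := ((ev_club hD1).and (Sys.ev_range hκ hF.fin hV.small hA.small a)).exists
    obtain ⟨F, hF1, -⟩ := h C S κ 𝒟 E hF A _ V' _ g hA (hD s0 h1).2
      ((hD s0 h1).1.mor_pt ha h2) hV'.valid hg fun y hy => (hV'.sat y hy).mono (le_succ κ)
    exact ⟨s0, h1, fun k => isEmptyElim k, F, hF1, fun k => isEmptyElim k⟩
  by_cases hm : ∃ k0 : ι, ∀ k, k ≤ k0
  · obtain ⟨k0, hk0⟩ := hm
    refine ⟨s k0, hsD k0, fun k => hs.monotone (hk0 k), _, hf k0, fun k y hy x hx => ?_⟩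
    have hx' : x ∈ C.filt κ (V.N y) (s k0) :=
      (CC.isFilt hk (hV.small y hy)).mono (hs.monotone (hk0 k)) hx
    rw [val_pt hx']
    exact hfe' k k0 (hk0 k) y hy x hx
  · push Not at hm
    obtain ⟨δ, h1, h2, h3, h4⟩ := exists_sup s (J.bdd_fun hι s) fun k => by
      obtain ⟨l, hl⟩ := hm k
      exact ⟨l, hs hl⟩
    have hδ : δ ∈ D1 := hD1.isLUB_mem (by rintro _ ⟨k, rfl⟩; exact hsD k) (range_nonempty s) h1
    have key : ∀ y, ∃ F : C.U (C.st κ (V.N y) δ) → C.U (V'.N y), y ∈ 𝒟 → C.IsH F ∧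
        ∀ k x, F (tr (V.N y) (s k) δ x) = f k y (val x) := by
      intro y
      by_cases hy : y ∈ 𝒟
      · obtain ⟨F, hF1, hF2⟩ := CC.lift_st hk (hV.small y hy) s hs.monotone h2
          (fun k => (h3 k).le) (fun γ hγ => (h4 γ hγ).imp fun _ h => h.le)
          (fun k x => f k y (val x)) (fun k => (hf k).hom y hy) fun k l hkl x => by
            rw [CC.val_tr hk (hV.small y hy) (hs.monotone hkl)]
            exact hfe' k l hkl y hy _ (val_mem x)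
        exact ⟨F, fun _ => ⟨hF1, hF2⟩⟩
      · exact ⟨fun _ => Classical.choice (C.ne _), fun h => absurd h hy⟩
    choose F hF1 using key
    refine ⟨δ, hδ, fun k => (h3 k).le, F, ?_, fun k y hy x hx => ?_⟩
    · refine of_cover (B := fun k => V.stage κ (s k)) (t := fun k y => tr (V.N y) (s k) δ)
        (fun k => (hD _ (hsD k)).1.mor_tr hκ hV.small (hD δ hδ).1 (h3 k).le) hf
        (fun y hy => (hF1 y hy).1) (fun y hy => (hF1 y hy).2) fun y hy x => ?_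
      obtain ⟨γ, hγ, hx⟩ := (CC.isFilt hk (hV.small y hy)).cont δ h2 _ (val_mem x)
      obtain ⟨k, hk'⟩ := h4 γ hγ
      refine ⟨k, pt _ (val x), val_inj ?_⟩
      rw [CC.val_tr hk (hV.small y hy) (h3 k).le,
        val_pt ((CC.isFilt hk (hV.small y hy)).mono hk'.le hx)]
    · have := (hF1 y hy).2 k (pt (s k) x)
      rw [val_pt hx, tr, Into.stm_pt hx] at this
      exact this

end StageIsoP

open StageIsoP in
theorem stageIso (h : S_AbsSat) : S_StageIso := by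
  intro C S κ hκ 𝒟 E hF A V V' a g hA hV hV' hc ha hg D0 hD0
  have hi := AX.lv_inf hκ
  have hk := C.lv_ge hκ
  have hμ := C.lv_succ hκ
  have hk' := C.lv_ge hμ
  obtain ⟨D1, hD1, hD⟩ := ev_iff.1 (hV.ev_inU hκ hF)
  have hen : ∀ (ξ : J (succ κ)) (y : Finset S.L), ∃ en : J κ → C.U (V'.N y), y ∈ 𝒟 →
      C.filt (succ κ) (V'.N y) ξ ⊆ range en := by
    intro ξ y
    by_cases hy : y ∈ 𝒟
    · have h1 := ((CC.isFilt hk' (hV'.small y hy)).card ξ).trans (J.card hi).ge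
      obtain ⟨e⟩ := (Cardinal.le_def _ _).1 h1
      have : Nonempty (C.U (V'.N y)) := C.ne _
      refine ⟨extend e Subtype.val (fun _ => Classical.arbitrary _), fun _ w hw => ⟨e ⟨w, hw⟩, ?_⟩⟩
      exact e.injective.extend_apply _ _ _
    · exact ⟨fun _ => Classical.choice (C.ne _), fun h => absurd h hy⟩
  choose en hen using hen
  obtain ⟨T, hP, hR⟩ := chain_rec (Λ := J κ) (A := St κ V V')
    (fun i T => T.idx = i ∧ i ≤ T.s ∧ T.s ∈ D1 ∧ T.ξ ∈ D0 ∧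
      SMor 𝒟 E (V.stage κ T.s) V' (fun y x => T.f y (val x)) ∧
      ∀ y ∈ 𝒟, ∀ x ∈ C.filt κ (V.N y) T.s, T.f y x ∈ C.filt (succ κ) (V'.N y) T.ξ)
    (fun T T' => T.s < T'.s ∧ T.ξ < T'.ξ ∧
      (∀ y ∈ 𝒟, ∀ x ∈ C.filt κ (V.N y) T.s, T'.f y x = T.f y x) ∧
      ∀ y ∈ 𝒟, ∀ α ≤ T'.idx, en T.ξ y α ∈ T'.f y '' C.filt κ (V.N y) T'.s) (by
    intro i T hP hR
    obtain ⟨s0, hs0, h1, F, hF1, hF2⟩ := base h hκ hF hA hV hV' ha hg hD1 hD (J.iio hi i)
      (fun k => (T k).s) (fun k l hkl => (hR k l hkl).1) (fun k => (hP k).2.2.1)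
      (fun k => (T k).f) (fun k => (hP k).2.2.2.2.1) fun k l hkl => (hR k l hkl).2.2.1
    obtain ⟨s', h2, h3, h4, f, hf1, hf2, hf3⟩ := step h hκ hF hV hV' hc hD1 hD hs0 hF1
      (fun y => range fun p : Iio i × Iic i => en (T p.1).ξ y p.2) (fun y _ => by
        refine mk_range_le.trans ?_
        rw [mk_prod, lift_id, lift_id]
        exact mul_le_of_le hi (J.iio hi i) (J.iic hi i)) i
    obtain ⟨b, hb⟩ := J.bdd_fun ((J.iio hi i).trans (le_succ κ)) fun k => (T k).ξ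
    obtain ⟨ξ', ⟨h5, h6⟩, h7⟩ := (((ev_club hD0).and (ev_ge b)).and
      (Sys.ev_range hμ hF.fin hV'.small ((hD s' h2).2.small.le (le_succ κ))
        (fun y x => f y (val x)))).exists
    refine ⟨⟨i, s', ξ', f⟩, ⟨rfl, h4, h2, h5, hf1, fun y hy x hx => ?_⟩, fun k =>
      ⟨(h1 k).trans_lt h3, (hb k).trans_le h6, fun y hy x hx => ?_, fun y hy α hα =>
        hf3 y hy ⟨(k, ⟨α, hα⟩), rfl⟩⟩⟩
    · have := h7 y hy (pt s' x)
      rwa [val_pt hx] at this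
    · have hx' : x ∈ C.filt κ (V.N y) s0 := (CC.isFilt hk (hV.small y hy)).mono (h1 k) hx
      have := hf2 y hy (pt s0 x)
      rw [val_pt hx', hF2 k y hy x hx] at this
      exact this)
  have hs : StrictMono fun i => (T i).s := fun k l hkl => (hR k l hkl).1
  have hfe : ∀ k l, k ≤ l → ∀ y ∈ 𝒟, ∀ x ∈ C.filt κ (V.N y) (T k).s,
      (T l).f y x = (T k).f y x := by
    intro k l hkl y hy x hx
    rcases hkl.eq_or_lt with rfl | hkl
    · rfl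
    · exact (hR k l hkl).2.2.1 y hy x hx
  have key : ∀ y, ∃ f : C.U (V.N y) → C.U (V'.N y), y ∈ 𝒟 → C.IsH f ∧
      ∀ k (x : C.U (C.st κ (V.N y) (T k).s)), f (val x) = (T k).f y (val x) := by
    intro y
    by_cases hy : y ∈ 𝒟
    · obtain ⟨F, hF1, hF2⟩ := CC.lift_top hk (hV.small y hy) (fun i => (T i).s) hs.monotone
        (fun γ => ⟨γ, (hP γ).2.1⟩) (fun k x => (T k).f y (val x))
        (fun k => (hP k).2.2.2.2.1.hom y hy) fun k l hkl x => by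
          rw [CC.val_tr hk (hV.small y hy) (hs.monotone hkl)]
          exact hfe k l hkl y hy _ (val_mem x)
      exact ⟨F, fun _ => ⟨hF1, hF2⟩⟩
    · exact ⟨fun _ => Classical.choice (C.ne _), fun h => absurd h hy⟩
  choose f hf using key
  have hf' : ∀ y ∈ 𝒟, ∀ k, ∀ x ∈ C.filt κ (V.N y) (T k).s, f y x = (T k).f y x := by
    intro y hy k x hx
    have := (hf y hy).2 k (pt _ x)
    rwa [val_pt hx] at this
  have hcov : ∀ y ∈ 𝒟, ∀ x, ∃ k, x ∈ C.filt κ (V.N y) (T k).s := by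
    intro y hy x
    obtain ⟨γ, hγ⟩ := (CC.isFilt hk (hV.small y hy)).cover x
    exact ⟨γ, (CC.isFilt hk (hV.small y hy)).mono (hP γ).2.1 hγ⟩
  obtain ⟨ξ, h1, h2, h3, h4⟩ := exists_sup (fun i => (T i).ξ) (J.bdd_fun (J.card hi).le _)
    fun i => ⟨succ i, (hR i _ (lt_succ i)).2.1⟩
  refine ⟨ξ, hD0.isLUB_mem (by rintro _ ⟨k, rfl⟩; exact (hP k).2.2.2.1) (range_nonempty _) h1,
    f, ?_, fun y hy => Subset.antisymm ?_ fun w hw => ?_⟩
  · refine of_cover (B := fun k => V.stage κ (T k).s) (t := fun k _ => val)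
      (fun k => (hD _ (hP k).2.2.1).1.mor) (fun k => (hP k).2.2.2.2.1)
      (fun y hy => (hf y hy).1) (fun y hy => (hf y hy).2) fun y hy x => ?_
    obtain ⟨k, hk⟩ := hcov y hy x
    exact ⟨k, pt _ x, val_pt hk⟩
  · rintro _ ⟨x, rfl⟩
    obtain ⟨k, hk⟩ := hcov y hy x
    rw [hf' y hy k x hk]
    exact (CC.isFilt hk' (hV'.small y hy)).mono (h3 k).le ((hP k).2.2.2.2.2 y hy x hk)
  · obtain ⟨γ, hγ, hw'⟩ := (CC.isFilt hk' (hV'.small y hy)).cont ξ h2 w hw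
    obtain ⟨k, hk⟩ := h4 γ hγ
    obtain ⟨α, rfl⟩ := hen (T k).ξ y hy ((CC.isFilt hk' (hV'.small y hy)).mono hk.le hw')
    obtain ⟨x, hx, e⟩ := (hR k (max (succ k) α) ((lt_succ k).trans_le (le_max_left _ _))).2.2.2 y hy
      α (by rw [(hP _).1]; exact le_max_right _ _)
    exact ⟨x, (hf' y hy _ x hx).trans e⟩

end Pool.Agent.P.MP_860a31_lc.E
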