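import Pool.Agent.P.MP_860a31_lc.E.KStm

/-!
Uniformisation for linear orders.
-/

open Cardinal hiding univ
open Set Order Function

namespace Pool.Agent.P.MP_860a31_lc.E

namespace SubExP

/-- nonempty linear orders -/
structure LO where
  car : Type
  [lo : LinearOrder car]
  ne : Nonempty car

attribute [instance] LO.lo

/-- the category of nonempty linear orders -/
@[reducible] def pc : PC where
  Obj := LO
  U A := A.car
  IsH f := StrictMono f
  k0 := ℵ₀
  inf := le_rfl
  ne A := A.ne
  inj h := h.injective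
  idH _ := strictMono_id
  comp hf hg := hg.comp hf
  coh _ _ hg h := fun _ _ hab => hg.lt_iff_lt.1 (h hab)
  ls A S := by
    obtain ⟨a⟩ := A.ne
    refine ⟨⟨(insert a S : Set A.car), ⟨⟨a, mem_insert a S⟩⟩⟩, Subtype.val,
      Subtype.strictMono_coe _, ?_, ?_⟩
    · rw [Subtype.range_coe]; exact subset_insert a S
    · exact mk_insert_le.trans (add_le_add le_rfl one_le_aleph0)

theorem code : pc.HasCode := by
  intro ι
  refine ⟨ι × ι → Prop, fun A e p => e p.1 ≤ e p.2, ?_, fun A B e e' h he _ => ?_⟩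
  · rw [mk_arrow, lift_id, lift_id, mk_Prop, mk_prod, lift_id]
    have h0 : ℵ₀ ≤ #ι + ℵ₀ := self_le_add_left _ _
    exact power_le_power_left two_ne_zero
      (mul_le_of_le h0 (self_le_add_right _ _) (self_le_add_right _ _))
  · have h1 : ∀ i j, e i ≤ e j ↔ e' i ≤ e' j := fun i j => (congrFun h (i, j)).to_iff
    have h2 : ∀ i, e' (surjInv he (e i)) = e' i := fun i =>
      le_antisymm ((h1 _ _).1 (surjInv_eq he _).le) ((h1 _ _).1 (surjInv_eq he _).ge)
    refine ⟨fun a => e' (surjInv he a), fun a b hab => ?_, h2⟩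
    obtain ⟨i, rfl⟩ := he a
    obtain ⟨j, rfl⟩ := he b
    simp only [h2]
    exact not_le.1 fun hc => hab.not_ge ((h1 _ _).2 hc)

end SubExP

open SubExP in
theorem subEx (h : S_Unif) : S_SubEx := by
  intro κ hκ D X Λ _ _ hne w Γ Col g c hΓ hC hX
  obtain ⟨Q, γ, γ', h1, h2⟩ := h pc code κ hκ D X (fun d => ⟨Λ d, hne d⟩)
    (fun n => Fin n ⊕ Γ n) Col
    (fun d n s => Sum.elim (fun i => w d (s i)) (g d n s)) c (fun n => by
      rw [mk_sum, lift_id, lift_id]
      exact add_le_of_le hκ ((mk_le_aleph0 (α := Fin n)).trans hκ) (hΓ n)) hC hX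
  choose d t k hk hq using h2
  have e0 : ∀ n i, k n (γ n (Sum.inl i)) = w (d n) (t n i) := fun n i => by
    have := (hq n n (RelEmbedding.refl _)).1 (Sum.inl i)
    rwa [Q.mp_id] at this
  have hs : ∀ n, StrictMono fun i => γ n (Sum.inl i) := fun n i j hij =>
    (StrictMono.lt_iff_lt (hk n)).1 (by
      simp only [e0]
      exact (w (d n)).strictMono ((t n).strictMono hij))
  refine ⟨{ σ := fun n => (Q.ob n).car
            mp := fun a => OrderEmbedding.ofStrictMono (Q.mp a) (Q.hom a)
            mp_id := Q.mp_id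
            mp_comp := Q.mp_comp
            η := fun n => OrderEmbedding.ofStrictMono _ (hs n)
            nat := fun {m n} a i => StrictMono.injective (hk n) ?_ },
    fun n u => γ n (Sum.inr u), γ', h1, fun n => ⟨d n, t n,
      OrderEmbedding.ofStrictMono (k n) (hk n), e0 n, fun m a =>
        ⟨fun u => (hq n m a).1 (Sum.inr u), (hq n m a).2⟩⟩⟩
  exact ((hq n m a).1 (Sum.inl i)).trans (e0 n (a i)).symm

end Pool.Agent.P.MP_860a31_lc.E
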