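import Pool.Agent.P.MP_860a31_lc.E.Dia

/-!
Systems indexed by finite closed sets of letters, uniqueness faces and good systems.
-/

open Cardinal hiding univ
open Set Order Filter Function

namespace Pool.Agent.P.MP_860a31_lc.E

open PC

/-- letters with finite sets of ancestors and an operation -/
structure Shape (C : AX) where
  L : Type
  dec : DecidableEq L
  par : L → Finset L
  opn : L → C.Op
  irr : ∀ l, l ∉ par l
  cls : ∀ {i l}, i ∈ par l → par i ⊆ par l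

attribute [instance] Shape.dec

namespace Shape

variable {C : AX} (S : Shape C)

/-- closed finite sets of letters -/
def Face (y : Finset S.L) : Prop := ∀ l ∈ y, S.par l ⊆ y

/-- `j` is a maximal letter of `y` -/
def Mx (y : Finset S.L) (j : S.L) : Prop := j ∈ y ∧ ∀ l ∈ y, j ∉ S.par l

/-- the proper faces of `y` -/
def Bd (y : Finset S.L) : Set (Finset S.L) := {z | S.Face z ∧ z ⊂ y}

/-- the faces of `y` -/
def Le (y : Finset S.L) : Set (Finset S.L) := {z | S.Face z ∧ z ⊆ y}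

/-- a family of faces closed under subfaces -/
def Dn (𝒟 : Set (Finset S.L)) : Prop := ∀ y ∈ 𝒟, S.Face y ∧ ∀ z, S.Face z → z ⊆ y → z ∈ 𝒟

/-- the least face carrying the constant `k`: `(l, true)` is the letter, `(l, false)` its
parameter -/
def sup : S.L × Bool → Finset S.L
  | (l, true) => insert l (S.par l)
  | (l, false) => S.par l

/-- a finite family of faces with letters in the finite set `E` -/
structure Cx (𝒟 : Set (Finset S.L)) (E : Finset S.L) : Prop where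
  dn : S.Dn 𝒟
  sub : ∀ y ∈ 𝒟, y ⊆ E

variable {S} {y z v : Finset S.L} {j l : S.L} {𝒟 : Set (Finset S.L)}

theorem face_empty : S.Face ∅ := fun _ h => absurd h (Finset.notMem_empty _)

theorem face_par (l : S.L) : S.Face (S.par l) := fun _ h => S.cls h

theorem Face.inter (hy : S.Face y) (hz : S.Face z) : S.Face (y ∩ z) := fun l hl =>
  Finset.subset_inter (hy l (Finset.mem_inter.1 hl).1) (hz l (Finset.mem_inter.1 hl).2)

theorem Face.union (hy : S.Face y) (hz : S.Face z) : S.Face (y ∪ z) := fun l hl =>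
  (Finset.mem_union.1 hl).elim (fun h => (hy l h).trans Finset.subset_union_left)
    fun h => (hz l h).trans Finset.subset_union_right

theorem Face.insert (hy : S.Face y) (h : S.par l ⊆ y) : S.Face (insert l y) := fun i hi =>
  (Finset.mem_insert.1 hi).elim (fun e => by rw [e]; exact h.trans (Finset.subset_insert _ _))
    fun h' => (hy i h').trans (Finset.subset_insert _ _)

theorem face_sup (k : S.L × Bool) : S.Face (S.sup k) := by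
  rcases k with ⟨l, _ | _⟩
  · exact face_par l
  · exact (face_par l).insert subset_rfl

theorem Face.sup_true (hy : S.Face y) : S.sup (l, true) ⊆ y ↔ l ∈ y :=
  ⟨fun h => h (Finset.mem_insert_self _ _), fun h => Finset.insert_subset h (hy l h)⟩

theorem sup_false : S.sup (l, false) = S.par l := rfl

theorem Face.erase (hy : S.Face y) (hj : S.Mx y j) : S.Face (y.erase j) := fun l hl _ hi =>
  Finset.mem_erase.2 ⟨fun e => hj.2 l (Finset.mem_of_mem_erase hl) (e ▸ hi),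
    hy l (Finset.mem_of_mem_erase hl) hi⟩

theorem Face.erase_mem_bd (hy : S.Face y) (hj : S.Mx y j) : y.erase j ∈ S.Bd y :=
  ⟨hy.erase hj, Finset.erase_ssubset hj.1⟩

theorem Face.par_sub_erase (hy : S.Face y) (hj : j ∈ y) : S.par j ⊆ y.erase j := fun _ hi =>
  Finset.mem_erase.2 ⟨fun e => S.irr j (e ▸ hi), hy j hj hi⟩

theorem Mx.mono (hj : S.Mx v j) (h : y ⊆ v) (hy : j ∈ y) : S.Mx y j :=
  ⟨hy, fun l hl => hj.2 l (h hl)⟩

theorem card_par_lt {i : S.L} (h : i ∈ S.par l) : (S.par i).card < (S.par l).card :=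
  Finset.card_lt_card ⟨S.cls h, fun h' => S.irr i (h' h)⟩

/-- a nonempty finite set has a maximal letter -/
theorem exists_mx (h : y.Nonempty) : ∃ j, S.Mx y j := by
  obtain ⟨j, hj, hm⟩ := y.exists_max_image (fun l => (S.par l).card) h
  exact ⟨j, hj, fun l hl h' => (card_par_lt h').not_ge (hm l hl)⟩

/-- if `v` has a letter outside the face `y`, it has a maximal letter outside `y` -/
theorem exists_mx_not (hy : S.Face y) (h : ¬ v ⊆ y) : ∃ j, S.Mx v j ∧ j ∉ y := by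
  obtain ⟨j, hj⟩ := exists_mx (y := v \ y) (Finset.sdiff_nonempty.2 h)
  obtain ⟨h1, h2⟩ := Finset.mem_sdiff.1 hj.1
  refine ⟨j, ⟨h1, fun l hl h' => ?_⟩, h2⟩
  by_cases hly : l ∈ y
  · exact h2 (hy l hly h')
  · exact hj.2 l (Finset.mem_sdiff.2 ⟨hl, hly⟩) h'

theorem dn_bd (v : Finset S.L) : S.Dn (S.Bd v) := fun _ hy =>
  ⟨hy.1, fun _ hz h => ⟨hz, lt_of_le_of_lt h hy.2⟩⟩

theorem dn_le (v : Finset S.L) : S.Dn (S.Le v) := fun _ hy =>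
  ⟨hy.1, fun _ hz h => ⟨hz, h.trans hy.2⟩⟩

theorem cx_bd (v : Finset S.L) : S.Cx (S.Bd v) v := ⟨dn_bd v, fun _ h => h.2.1⟩

theorem cx_le (v : Finset S.L) : S.Cx (S.Le v) v := ⟨dn_le v, fun _ h => h.2⟩

theorem bd_sub_le (v : Finset S.L) : S.Bd v ⊆ S.Le v := fun _ h => ⟨h.1, h.2.1⟩

theorem Face.mem_le (hv : S.Face v) : v ∈ S.Le v := ⟨hv, subset_rfl⟩

theorem not_mem_bd (v : Finset S.L) : v ∉ S.Bd v := fun h => h.2.2 subset_rfl

theorem Face.le_eq (hv : S.Face v) : S.Le v = Insert.insert v (S.Bd v) := by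
  ext z
  refine ⟨fun h => ?_, ?_⟩
  · rcases h.2.eq_or_ssubset with e | e
    · exact Or.inl e
    · exact Or.inr ⟨h.1, e⟩
  · rintro (rfl | h)
    · exact hv.mem_le
    · exact bd_sub_le v h

theorem Dn.le_sub (h : S.Dn 𝒟) (hy : y ∈ 𝒟) : S.Le y ⊆ 𝒟 := fun z hz => (h y hy).2 z hz.1 hz.2

theorem Dn.bd_sub (h : S.Dn 𝒟) (hy : y ∈ 𝒟) : S.Bd y ⊆ 𝒟 := (bd_sub_le y).trans (h.le_sub hy)

theorem Cx.fin {E : Finset S.L} (h : S.Cx 𝒟 E) : 𝒟.Finite :=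
  (E.powerset.finite_toSet).subset fun y hy => by simpa using h.sub y hy

theorem fin_bd (v : Finset S.L) : (S.Bd v).Finite := (cx_bd v).fin

theorem fin_le (v : Finset S.L) : (S.Le v).Finite := (cx_le v).fin

theorem fin_mx (v : Finset S.L) : {j | S.Mx v j}.Finite := v.finite_toSet.subset fun _ h => h.1

/-- removing a maximal face -/
theorem Dn.diff (h : S.Dn 𝒟) (hm : ∀ z ∈ 𝒟, ¬ v ⊂ z) : S.Dn (𝒟 \ {v}) := fun y hy =>
  ⟨(h y hy.1).1, fun z hz hzy => ⟨(h y hy.1).2 z hz hzy, fun e => by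
    rw [mem_singleton_iff] at e
    subst e
    exact hm y hy.1 (hzy.ssubset_of_ne fun e => hy.2 e.symm)⟩⟩

/-- induction over finite families of faces, adding a maximal face -/
theorem Cx.induction {E : Finset S.L} {P : Set (Finset S.L) → Prop} (h0 : P ∅)
    (hs : ∀ 𝒟 v, S.Cx 𝒟 E → S.Face v → v ⊆ E → v ∉ 𝒟 → S.Bd v ⊆ 𝒟 → P 𝒟 →
      P (Insert.insert v 𝒟)) (h : S.Cx 𝒟 E) : P 𝒟 := by
  generalize hn : 𝒟.ncard = n
  induction n generalizing 𝒟 with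
  | zero => rw [(ncard_eq_zero h.fin).1 hn]; exact h0
  | succ n ih =>
    obtain ⟨v, hv, hm⟩ := exists_max_image 𝒟 Finset.card h.fin
      (nonempty_of_ncard_ne_zero (by omega))
    have hm' : ∀ z ∈ 𝒟, ¬ v ⊂ z := fun z hz hvz => (Finset.card_lt_card hvz).not_ge (hm z hz)
    have h' : S.Cx (𝒟 \ {v}) E := ⟨h.dn.diff hm', fun y hy => h.sub y hy.1⟩
    have := hs _ v h' (h.dn v hv).1 (h.sub v hv) (fun h => h.2 rfl)
      (fun z hz => ⟨h.dn.bd_sub hv hz, fun e => not_mem_bd v (mem_singleton_iff.1 e ▸ hz)⟩)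
      (ih h' (by rw [ncard_sdiff_singleton_of_mem hv]; omega))
    rwa [insert_sdiff_singleton, insert_eq_of_mem hv] at this

theorem Cx.insert {E : Finset S.L} (h : S.Cx 𝒟 E) (hv : S.Face v) (hE : v ⊆ E)
    (hb : S.Bd v ⊆ 𝒟) : S.Cx (Insert.insert v 𝒟) E := by
  refine ⟨?_, ?_⟩
  · rintro y (rfl | hy)
    · exact ⟨hv, fun z hz hzy => by
        rcases hzy.eq_or_ssubset with e | e
        · exact Or.inl e
        · exact Or.inr (hb ⟨hz, e⟩)⟩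
    · exact ⟨(h.dn y hy).1, fun z hz hzy => Or.inr ((h.dn y hy).2 z hz hzy)⟩
  · rintro y (rfl | hy)
    · exact hE
    · exact h.sub y hy

end Shape

/-- a system: objects, maps and constants, given on all finite sets of letters -/
structure Sys {C : AX} (S : Shape C) where
  N : Finset S.L → C.Obj
  i : ∀ y z, C.U (N y) → C.U (N z)
  el : S.L × Bool → ∀ y, C.U (N y)

namespace Sys

variable {C : AX} {S : Shape C}

/-- the letter `l` -/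
abbrev c (A : Sys S) (l : S.L) (y : Finset S.L) : C.U (A.N y) := A.el (l, true) y

/-- the parameter of the letter `l` -/
abbrev b (A : Sys S) (l : S.L) (y : Finset S.L) : C.U (A.N y) := A.el (l, false) y

def Small (A : Sys S) (κ : Cardinal.{0}) (𝒟 : Set (Finset S.L)) : Prop :=
  ∀ y ∈ 𝒟, #(C.U (A.N y)) ≤ κ

/-- validity on the faces in `𝒟`, tracking the constants of the letters in `E` -/
structure Valid (A : Sys S) (𝒟 : Set (Finset S.L)) (E : Set S.L) : Prop where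
  id : ∀ y ∈ 𝒟, ∀ x, A.i y y x = x
  hom : ∀ y ∈ 𝒟, ∀ z ∈ 𝒟, y ⊆ z → C.IsH (A.i y z)
  comp : ∀ y ∈ 𝒟, ∀ z ∈ 𝒟, ∀ w ∈ 𝒟, y ⊆ z → z ⊆ w → ∀ x, A.i z w (A.i y z x) = A.i y w x
  el : ∀ k : S.L × Bool, k.1 ∈ E → ∀ y ∈ 𝒟, ∀ z ∈ 𝒟, S.sup k ⊆ y → y ⊆ z →
    A.i y z (A.el k y) = A.el k z
  right : ∀ z ∈ 𝒟, ∀ j, S.Mx z j →
    C.Right (S.opn j) (A.N (z.erase j)) (A.b j (z.erase j)) (A.i (z.erase j) z) (A.c j z)

/-- morphisms of systems -/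
structure SMor (𝒟 : Set (Finset S.L)) (E : Set S.L) (A B : Sys S)
    (ρ : ∀ y, C.U (A.N y) → C.U (B.N y)) : Prop where
  hom : ∀ y ∈ 𝒟, C.IsH (ρ y)
  nat : ∀ y ∈ 𝒟, ∀ z ∈ 𝒟, y ⊆ z → ∀ x, ρ z (A.i y z x) = B.i y z (ρ y x)
  el : ∀ k : S.L × Bool, k.1 ∈ E → ∀ y ∈ 𝒟, S.sup k ⊆ y → ρ y (A.el k y) = B.el k y

/-- a cocone over the faces in `𝒟` -/
structure Cone (A : Sys S) (𝒟 : Set (Finset S.L)) (Z : C.Obj) (e : ∀ y, C.U (A.N y) → C.U Z) :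
    Prop where
  hom : ∀ y ∈ 𝒟, C.IsH (e y)
  nat : ∀ y ∈ 𝒟, ∀ z ∈ 𝒟, y ⊆ z → ∀ x, e z (A.i y z x) = e y x

/-- the point `p` plays the role of the letter `j` of `v` in a cocone over `𝒟` -/
structure Pnt (A : Sys S) (𝒟 : Set (Finset S.L)) (v : Finset S.L) (j : S.L) {Z : C.Obj}
    (e : ∀ y, C.U (A.N y) → C.U Z) (p : C.U Z) : Prop where
  idp : ∀ z ∈ 𝒟, j ∈ z → e z (A.c j z) = p
  right : C.Right (S.opn j) (A.N (v.erase j)) (A.b j (v.erase j)) (e (v.erase j)) p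

/-- an admissible top for the face `v` -/
structure AdmT (A : Sys S) (v : Finset S.L) (Z : C.Obj) (e : ∀ y, C.U (A.N y) → C.U Z)
    (p : S.L → C.U Z) : Prop where
  cone : A.Cone (S.Bd v) Z e
  pnt : ∀ j, S.Mx v j → A.Pnt (S.Bd v) v j e (p j)

/-- an admissible amalgam of the top `(Q, eQ, pQ)` of `A` with the extension `σ : A → M` of the
boundary -/
structure AA (A : Sys S) (v : Finset S.L) (Q : C.Obj) (eQ : ∀ y, C.U (A.N y) → C.U Q)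
    (pQ : S.L → C.U Q) (M : Sys S) (σ : ∀ y, C.U (A.N y) → C.U (M.N y)) (Z : C.Obj)
    (h : C.U Q → C.U Z) (e : ∀ y, C.U (M.N y) → C.U Z) : Prop where
  hom : C.IsH h
  adm : M.AdmT v Z e (fun j => h (pQ j))
  ov : ∀ z ∈ S.Bd v, ∀ x, e z (σ z x) = h (eQ z x)

/-- any two admissible amalgams with `M` embed jointly -/
def UqM (A : Sys S) (v : Finset S.L) (Q : C.Obj) (eQ : ∀ y, C.U (A.N y) → C.U Q)
    (pQ : S.L → C.U Q) (M : Sys S) (σ : ∀ y, C.U (A.N y) → C.U (M.N y)) : Prop :=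
  ∀ (Z : C.Obj) (h : C.U Q → C.U Z) (e : ∀ y, C.U (M.N y) → C.U Z) (Z' : C.Obj)
    (h' : C.U Q → C.U Z') (e' : ∀ y, C.U (M.N y) → C.U Z'),
    AA A v Q eQ pQ M σ Z h e → AA A v Q eQ pQ M σ Z' h' e' →
    C.El Z Z' (fun a b => G h h' a b ∨ GI (S.Bd v) e e' a b)

/-- `v` is a uniqueness face of `A` at level `κ` -/
def Uq (κ : Cardinal.{0}) : Finset S.L → Sys S → Prop :=
  Finset.strongInduction (p := fun _ => Sys S → Prop) fun v R A =>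
    ∀ (M : Sys S) (σ : ∀ y, C.U (A.N y) → C.U (M.N y)), M.Small κ (S.Bd v) →
      M.Valid (S.Bd v) v → (∀ z (h : z ⊂ v), S.Face z → R z h M) → SMor (S.Bd v) v A M σ →
      UqM A v (A.N v) (fun y => A.i y v) (fun j => A.c j v) M σ

/-- small valid systems all of whose faces are uniqueness faces -/
structure InU (κ : Cardinal.{0}) (𝒟 : Set (Finset S.L)) (E : Set S.L) (A : Sys S) : Prop where
  small : A.Small κ 𝒟
  valid : A.Valid 𝒟 E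
  uq : ∀ y ∈ 𝒟, Uq κ y A

/-- uniqueness for a top given separately -/
def UqT (κ : Cardinal.{0}) (A : Sys S) (v : Finset S.L) (Q : C.Obj)
    (eQ : ∀ y, C.U (A.N y) → C.U Q) (pQ : S.L → C.U Q) : Prop :=
  ∀ (M : Sys S) (σ : ∀ y, C.U (A.N y) → C.U (M.N y)), InU κ (S.Bd v) v M →
    SMor (S.Bd v) v A M σ → UqM A v Q eQ pQ M σ

theorem uq_iff {κ : Cardinal.{0}} {v : Finset S.L} {A : Sys S} :
    Uq κ v A ↔ UqT κ A v (A.N v) (fun y => A.i y v) (fun j => A.c j v) := by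
  rw [Uq, Finset.strongInduction_eq]
  exact ⟨fun h M σ hM => h M σ hM.small hM.valid fun z hz hf => hM.uq z ⟨hf, hz⟩,
    fun h M σ h1 h2 h3 => h M σ ⟨h1, h2, fun z hz => h3 z hz.2 hz.1⟩⟩

/-- the stage `γ` of a system -/
@[reducible] noncomputable def stage (A : Sys S) (κ : Cardinal.{0}) (γ : J κ) : Sys S where
  N y := C.st κ (A.N y) γ
  i y z := stm (A.i y z) γ γ
  el k y := pt γ (A.el k y)

/-- the top has the uniqueness property on a club of stages -/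
def GoodT (κ : Cardinal.{0}) (A : Sys S) (v : Finset S.L) (V : C.Obj)
    (e : ∀ y, C.U (A.N y) → C.U V) (p : S.L → C.U V) : Prop :=
  ∀ᶠ γ in cf κ, UqT κ (A.stage κ γ) v (C.st κ V γ) (fun y => stm (e y) γ γ) (fun j => pt γ (p j))

/-- valid systems of saturated objects of size `≤ κ⁺` with uniqueness on a club of stages -/
structure Good (κ : Cardinal.{0}) (𝒟 : Set (Finset S.L)) (E : Set S.L) (A : Sys S) : Prop where
  small : A.Small (succ κ) 𝒟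
  valid : A.Valid 𝒟 E
  sat : ∀ y ∈ 𝒟, C.Sat κ (A.N y)
  uq : ∀ y ∈ 𝒟, ∀ᶠ γ in cf κ, Uq κ y (A.stage κ γ)

variable {κ : Cardinal.{0}} {𝒟 𝒟' : Set (Finset S.L)} {E E' : Set S.L} {A B M : Sys S}
  {v : Finset S.L}

theorem Small.mono (h : A.Small κ 𝒟) (h' : 𝒟' ⊆ 𝒟) : A.Small κ 𝒟' := fun y hy => h y (h' hy)

theorem Small.le {κ' : Cardinal.{0}} (h : A.Small κ 𝒟) (h' : κ ≤ κ') : A.Small κ' 𝒟 :=
  fun y hy => (h y hy).trans h'

theorem Valid.mono (h : A.Valid 𝒟 E) (h' : 𝒟' ⊆ 𝒟) (hE : E' ⊆ E) : A.Valid 𝒟' E' :=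
  ⟨fun y hy => h.id y (h' hy), fun y hy z hz => h.hom y (h' hy) z (h' hz),
    fun y hy z hz w hw => h.comp y (h' hy) z (h' hz) w (h' hw),
    fun k hk y hy z hz => h.el k (hE hk) y (h' hy) z (h' hz), fun z hz => h.right z (h' hz)⟩

theorem SMor.mono {ρ : ∀ y, C.U (A.N y) → C.U (B.N y)} (h : SMor 𝒟 E A B ρ) (h' : 𝒟' ⊆ 𝒟)
    (hE : E' ⊆ E) : SMor 𝒟' E' A B ρ :=
  ⟨fun y hy => h.hom y (h' hy), fun y hy z hz => h.nat y (h' hy) z (h' hz),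
    fun k hk y hy => h.el k (hE hk) y (h' hy)⟩

theorem InU.mono (h : InU κ 𝒟 E A) (h' : 𝒟' ⊆ 𝒟) (hE : E' ⊆ E) : InU κ 𝒟' E' A :=
  ⟨h.small.mono h', h.valid.mono h' hE, fun y hy => h.uq y (h' hy)⟩

theorem Good.mono (h : Good κ 𝒟 E A) (h' : 𝒟' ⊆ 𝒟) (hE : E' ⊆ E) : Good κ 𝒟' E' A :=
  ⟨h.small.mono h', h.valid.mono h' hE, fun y hy => h.sat y (h' hy), fun y hy => h.uq y (h' hy)⟩

theorem SMor.c {ρ : ∀ y, C.U (A.N y) → C.U (B.N y)} (h : SMor 𝒟 E A B ρ) {j : S.L} (hj : j ∈ E)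
    {y : Finset S.L} (hy : y ∈ 𝒟) (hf : S.Face y) (hjy : j ∈ y) : ρ y (A.c j y) = B.c j y :=
  h.el (j, true) hj y hy (hf.sup_true.2 hjy)

theorem SMor.b {ρ : ∀ y, C.U (A.N y) → C.U (B.N y)} (h : SMor 𝒟 E A B ρ) {j : S.L} (hj : j ∈ E)
    {y : Finset S.L} (hy : y ∈ 𝒟) (hjy : S.par j ⊆ y) : ρ y (A.b j y) = B.b j y :=
  h.el (j, false) hj y hy hjy

theorem Valid.c (h : A.Valid 𝒟 E) {j : S.L} (hj : j ∈ E) {y z : Finset S.L} (hy : y ∈ 𝒟)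
    (hz : z ∈ 𝒟) (hf : S.Face y) (hjy : j ∈ y) (hyz : y ⊆ z) : A.i y z (A.c j y) = A.c j z :=
  h.el (j, true) hj y hy z hz (hf.sup_true.2 hjy) hyz

theorem Valid.b (h : A.Valid 𝒟 E) {j : S.L} (hj : j ∈ E) {y z : Finset S.L} (hy : y ∈ 𝒟)
    (hz : z ∈ 𝒟) (hjy : S.par j ⊆ y) (hyz : y ⊆ z) : A.i y z (A.b j y) = A.b j z :=
  h.el (j, false) hj y hy z hz hjy hyz

theorem SMor.id (A : Sys S) : SMor 𝒟 E A A (fun _ x => x) :=
  ⟨fun _ _ => C.idH _, fun _ _ _ _ _ _ => rfl, fun _ _ _ _ _ => rfl⟩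

theorem SMor.comp {ρ : ∀ y, C.U (A.N y) → C.U (B.N y)} {σ : ∀ y, C.U (B.N y) → C.U (M.N y)}
    (h : SMor 𝒟 E A B ρ) (h' : SMor 𝒟 E B M σ) : SMor 𝒟 E A M (fun y x => σ y (ρ y x)) :=
  ⟨fun y hy => C.comp (h.hom y hy) (h'.hom y hy),
    fun y hy z hz hyz x => by rw [h.nat y hy z hz hyz, h'.nat y hy z hz hyz],
    fun k hk y hy hs => by rw [h.el k hk y hy hs, h'.el k hk y hy hs]⟩

theorem SMor.congr {ρ ρ' : ∀ y, C.U (A.N y) → C.U (B.N y)} (h : SMor 𝒟 E A B ρ)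
    (e : ∀ y ∈ 𝒟, ∀ x, ρ y x = ρ' y x) : SMor 𝒟 E A B ρ' :=
  ⟨fun y hy => PC.congr (h.hom y hy) (e y hy),
    fun y hy z hz hyz x => by rw [← e z hz, ← e y hy, h.nat y hy z hz hyz],
    fun k hk y hy hs => by rw [← e y hy, h.el k hk y hy hs]⟩

/-- coherence for morphisms of systems -/
theorem SMor.coh {ρ : ∀ y, C.U (A.N y) → C.U (B.N y)} {σ : ∀ y, C.U (B.N y) → C.U (M.N y)}
    {τ : ∀ y, C.U (A.N y) → C.U (M.N y)} (h' : SMor 𝒟 E B M σ) (h : SMor 𝒟 E A M τ)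
    (e : ∀ y ∈ 𝒟, ∀ x, σ y (ρ y x) = τ y x) : SMor 𝒟 E A B ρ :=
  ⟨fun y hy => coh' (h'.hom y hy) (h.hom y hy) (e y hy),
    fun y hy z hz hyz x => C.inj (h'.hom z hz) (by
      rw [e z hz, h.nat y hy z hz hyz, h'.nat y hy z hz hyz, e y hy]),
    fun k hk y hy hs => C.inj (h'.hom y hy) (by rw [e y hy, h.el k hk y hy hs, h'.el k hk y hy hs])⟩

/-- factorisation through a morphism with larger ranges -/
theorem SMor.factor {σ : ∀ y, C.U (B.N y) → C.U (M.N y)} {τ : ∀ y, C.U (A.N y) → C.U (M.N y)}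
    (h' : SMor 𝒟 E B M σ) (h : SMor 𝒟 E A M τ) (hr : ∀ y ∈ 𝒟, range (τ y) ⊆ range (σ y)) :
    ∃ ρ, SMor 𝒟 E A B ρ ∧ ∀ y ∈ 𝒟, ∀ x, σ y (ρ y x) = τ y x :=
  have e : ∀ y ∈ 𝒟, ∀ x, σ y (invFun (σ y) (τ y x)) = τ y x :=
    fun y hy x => invFun_eq (hr y hy ⟨x, rfl⟩)
  ⟨fun y x => invFun (σ y) (τ y x), h'.coh h e, e⟩

/-- the inverse of a surjective morphism -/
theorem SMor.inverse {ρ : ∀ y, C.U (A.N y) → C.U (B.N y)} (h : SMor 𝒟 E A B ρ)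
    (hs : ∀ y ∈ 𝒟, Surjective (ρ y)) : ∃ σ, SMor 𝒟 E B A σ ∧ (∀ y ∈ 𝒟, ∀ x, ρ y (σ y x) = x) ∧
      ∀ y ∈ 𝒟, Surjective (σ y) := by
  obtain ⟨σ, h1, h2⟩ := h.factor (SMor.id B) fun y hy => by
    rw [(hs y hy).range_eq]; exact subset_univ _
  exact ⟨σ, h1, h2, fun y hy x => ⟨ρ y x, C.inj (h.hom y hy) (h2 y hy _)⟩⟩

/-- a subsystem of a valid system is valid -/
theorem Valid.of_mor {ρ : ∀ y, C.U (A.N y) → C.U (B.N y)} (hB : B.Valid 𝒟 E)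
    (h : SMor 𝒟 E A B ρ) (hd : S.Dn 𝒟) (hE : ∀ y ∈ 𝒟, ↑y ⊆ E) : A.Valid 𝒟 E where
  id y hy x := C.inj (h.hom y hy) (by rw [h.nat y hy y hy subset_rfl, hB.id y hy])
  hom y hy z hz hyz := coh' (h.hom z hz) (C.comp (h.hom y hy) (hB.hom y hy z hz hyz))
    (h.nat y hy z hz hyz)
  comp y hy z hz w hw h1 h2 x := C.inj (h.hom w hw) (by
    rw [h.nat z hz w hw h2, h.nat y hy z hz h1, h.nat y hy w hw (h1.trans h2),
      hB.comp y hy z hz w hw h1 h2])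
  el k hk y hy z hz h1 h2 := C.inj (h.hom z hz) (by
    rw [h.nat y hy z hz h2, h.el k hk y hy h1, h.el k hk z hz (h1.trans h2),
      hB.el k hk y hy z hz h1 h2])
  right z hz j hj := by
    have hf := (hd z hz).1
    have hw := hd.bd_sub hz (hf.erase_mem_bd hj)
    have hjE : j ∈ E := hE z hz hj.1
    exact ((hB.right z hz j hj).mono (h.hom _ hw)
      (h.el (j, false) hjE _ hw (hf.par_sub_erase hj.1)) fun _ => rfl).pre (h.hom z hz)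
      (h.nat _ hw z hz (Finset.erase_subset j z)) (h.el (j, true) hjE z hz (hf.sup_true.2 hj.1))

/-- the face `v` of a valid system is an admissible top -/
theorem Valid.admT (h : A.Valid 𝒟 E) (hd : S.Dn 𝒟) (hv : v ∈ 𝒟) (hE : ↑v ⊆ E) :
    A.AdmT v (A.N v) (fun y => A.i y v) (fun j => A.c j v) :=
  ⟨⟨fun y hy => h.hom y (hd.bd_sub hv hy) v hv hy.2.1,
    fun y hy z hz hyz => h.comp y (hd.bd_sub hv hy) z (hd.bd_sub hv hz) v hv hyz hz.2.1⟩,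
    fun j hj => ⟨fun z hz hjz => h.el (j, true) (hE hj.1) z (hd.bd_sub hv hz) v hv
      (hz.1.sup_true.2 hjz) hz.2.1, h.right v hv j hj⟩⟩

section Top

variable {Z Z' : C.Obj} {e : ∀ y, C.U (A.N y) → C.U Z} {e' : ∀ y, C.U (A.N y) → C.U Z'}

theorem Cone.mono (h : A.Cone 𝒟 Z e) (h' : 𝒟' ⊆ 𝒟) : A.Cone 𝒟' Z e :=
  ⟨fun y hy => h.hom y (h' hy), fun y hy z hz => h.nat y (h' hy) z (h' hz)⟩

theorem Cone.post (h : A.Cone 𝒟 Z e) {f : C.U Z → C.U Z'} (hf : C.IsH f)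
    (he : ∀ y ∈ 𝒟, ∀ x, f (e y x) = e' y x) : A.Cone 𝒟 Z' e' :=
  ⟨fun y hy => comp' (h.hom y hy) hf (he y hy),
    fun y hy z hz hyz x => by rw [← he z hz, ← he y hy, h.nat y hy z hz hyz]⟩

theorem Cone.pre (h : A.Cone 𝒟 Z e) {f : C.U Z' → C.U Z} (hf : C.IsH f)
    (he : ∀ y ∈ 𝒟, ∀ x, f (e' y x) = e y x) : A.Cone 𝒟 Z' e' :=
  ⟨fun y hy => coh' hf (h.hom y hy) (he y hy),
    fun y hy z hz hyz x => C.inj hf (by rw [he z hz, he y hy, h.nat y hy z hz hyz])⟩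

theorem Cone.pull {ρ : ∀ y, C.U (B.N y) → C.U (A.N y)} (h : A.Cone 𝒟 Z e) (hρ : SMor 𝒟 E B A ρ) :
    B.Cone 𝒟 Z (fun y x => e y (ρ y x)) :=
  ⟨fun y hy => C.comp (hρ.hom y hy) (h.hom y hy),
    fun y hy z hz hyz x => by rw [hρ.nat y hy z hz hyz, h.nat y hy z hz hyz]⟩

theorem AdmT.post {p : S.L → C.U Z} {p' : S.L → C.U Z'} (h : A.AdmT v Z e p) (hv : S.Face v)
    {f : C.U Z → C.U Z'} (hf : C.IsH f) (he : ∀ y ∈ S.Bd v, ∀ x, f (e y x) = e' y x)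
    (hp : ∀ j, S.Mx v j → f (p j) = p' j) : A.AdmT v Z' e' p' :=
  ⟨h.cone.post hf he, fun j hj => ⟨fun z hz hjz => by
    rw [← he z hz, (h.pnt j hj).idp z hz hjz, hp j hj],
    (h.pnt j hj).right.post hf (he _ (hv.erase_mem_bd hj)) (hp j hj)⟩⟩

theorem AdmT.pre {p : S.L → C.U Z} {p' : S.L → C.U Z'} (h : A.AdmT v Z e p) (hv : S.Face v)
    {f : C.U Z' → C.U Z} (hf : C.IsH f) (he : ∀ y ∈ S.Bd v, ∀ x, f (e' y x) = e y x)
    (hp : ∀ j, S.Mx v j → f (p' j) = p j) : A.AdmT v Z' e' p' :=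
  ⟨h.cone.pre hf he, fun j hj => ⟨fun z hz hjz => C.inj hf (by
    rw [he z hz, (h.pnt j hj).idp z hz hjz, hp j hj]),
    (h.pnt j hj).right.pre hf (he _ (hv.erase_mem_bd hj)) (hp j hj)⟩⟩

/-- restriction of a top along a morphism of boundaries -/
theorem AdmT.pull {p : S.L → C.U Z} {ρ : ∀ y, C.U (B.N y) → C.U (A.N y)} (h : A.AdmT v Z e p)
    (hv : S.Face v) (hρ : SMor (S.Bd v) v B A ρ) : B.AdmT v Z (fun y x => e y (ρ y x)) p :=
  ⟨h.cone.pull hρ, fun j hj => ⟨fun z hz hjz => by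
    rw [hρ.el (j, true) hj.1 z hz (hz.1.sup_true.2 hjz)]; exact (h.pnt j hj).idp z hz hjz,
    (h.pnt j hj).right.mono (hρ.hom _ (hv.erase_mem_bd hj))
      (hρ.el (j, false) hj.1 _ (hv.erase_mem_bd hj) (hv.par_sub_erase hj.1)) fun _ => rfl⟩⟩

/-- `r` maps `B` naturally into `F A` over `A` -/
structure Sig (κ : Cardinal.{0}) (𝒟 : Set (Finset S.L)) (A B : Sys S)
    (σ : ∀ y, C.U (A.N y) → C.U (B.N y)) (F : Fn C.toPC)
    (r : ∀ y, C.U (B.N y) → C.U (F.ap (A.N y))) : Prop where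
  bd : F.Bd κ
  hom : ∀ y ∈ 𝒟, C.IsH (r y)
  eta : ∀ y ∈ 𝒟, ∀ x, r y (σ y x) = F.eta _ x
  nat : ∀ y ∈ 𝒟, ∀ z ∈ 𝒟, y ⊆ z → ∀ u, r z (B.i y z u) = F.mp (A.i y z) (r y u)

/-- the canonical amalgam -/
theorem AdmT.fn {p : S.L → C.U Z} (h : A.AdmT v Z e p) (hκ : C.Lv κ) (hv : S.Face v)
    (hA : A.Small κ (S.Bd v)) (hV : A.Valid (S.Bd v) v) {σ : ∀ y, C.U (A.N y) → C.U (B.N y)}
    (hσ : SMor (S.Bd v) v A B σ) {F : Fn C.toPC} {r : ∀ y, C.U (B.N y) → C.U (F.ap (A.N y))}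
    (hr : Sig κ (S.Bd v) A B σ F r) :
    AA A v Z e p B σ (F.ap Z) (F.eta Z) (fun y x => F.mp (e y) (r y x)) := by
  have hov : ∀ y ∈ S.Bd v, ∀ x, F.mp (e y) (r y (σ y x)) = F.eta Z (e y x) := fun y hy x => by
    rw [hr.eta y hy, F.eta_nat (h.cone.hom y hy)]
  refine ⟨F.eta_h Z, ⟨⟨fun y hy => C.comp (hr.hom y hy) (F.mp_h (h.cone.hom y hy)),
    fun y hy z hz hyz x => ?_⟩, fun j hj => ⟨fun z hz hjz => ?_, ?_⟩⟩, hov⟩
  · rw [hr.nat y hy z hz hyz]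
    exact F.mp_eq (hV.hom y hy z hz hyz) (h.cone.hom z hz) (h.cone.nat y hy z hz hyz) _
  · rw [← hσ.c hj.1 hz hz.1 hjz, hov z hz]
    exact congrArg _ ((h.pnt j hj).idp z hz hjz)
  · have hw := hv.erase_mem_bd hj
    refine ((h.pnt j hj).right.fn hκ (h.cone.hom _ hw) (hA _ hw) hr.bd).mono (hr.hom _ hw) ?_
      fun _ => rfl
    rw [← hr.eta _ hw]
    exact congrArg _ (hσ.el (j, false) hj.1 _ hw (hv.par_sub_erase hj.1)).symm

/-- a top over a small boundary contains a small top, which may be asked to contain a given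
small set -/
theorem AdmT.cut {p : S.L → C.U Z} (h : A.AdmT v Z e p) (hκ : C.k0 ≤ κ) (hv : S.Face v)
    (hA : A.Small κ (S.Bd v)) {T : Set (C.U Z)} (hT : #T ≤ κ) :
    ∃ (Q : C.Obj) (k : C.U Q → C.U Z) (e' : ∀ y, C.U (A.N y) → C.U Q) (p' : S.L → C.U Q),
      C.IsH k ∧ #(C.U Q) ≤ κ ∧ T ⊆ range k ∧ A.AdmT v Q e' p' ∧
      (∀ y ∈ S.Bd v, ∀ x, k (e' y x) = e y x) ∧ ∀ j, S.Mx v j → k (p' j) = p j := by
  have hi := C.inf.trans hκ
  have h1 : #(⋃ y : S.Bd v, range (e y) : Set (C.U Z)) ≤ κ := (mk_iUnion_le _).trans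
    (mul_le_of_le hi ((S.fin_bd v).lt_aleph0.le.trans hi)
      (ciSup_le' fun y => mk_range_le.trans (hA y y.2)))
  have h2 : #(p '' {j | S.Mx v j}) ≤ κ := ((S.fin_mx v).image p).lt_aleph0.le.trans hi
  obtain ⟨Q, k, k1, k2, k3⟩ := ls' hκ Z (S := T ∪ ((⋃ y : S.Bd v, range (e y)) ∪ p '' {j | S.Mx v j}))
    ((mk_union_le _ _).trans (add_le_of_le hi hT ((mk_union_le _ _).trans (add_le_of_le hi h1 h2))))
  have e1 : ∀ y ∈ S.Bd v, ∀ x, k (invFun k (e y x)) = e y x := fun y hy x =>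
    invFun_eq (k2 (Or.inr (Or.inl (mem_iUnion.2 ⟨⟨y, hy⟩, x, rfl⟩))))
  have e2 : ∀ j, S.Mx v j → k (invFun k (p j)) = p j := fun j hj =>
    invFun_eq (k2 (Or.inr (Or.inr ⟨j, hj, rfl⟩)))
  exact ⟨Q, k, _, _, k1, k3, subset_union_left.trans k2, h.pre hv k1 e1 e2, e1, e2⟩

end Top

/-- the face `v` of the target of a morphism is an admissible amalgam -/
theorem SMor.aa {E : Finset S.L} {σ : ∀ y, C.U (A.N y) → C.U (B.N y)} (h : SMor 𝒟 E A B σ)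
    (hB : B.Valid 𝒟 E) (hF : S.Cx 𝒟 E) (hv : v ∈ 𝒟) :
    AA A v (A.N v) (fun y => A.i y v) (fun j => A.c j v) B σ (B.N v) (σ v) (fun y => B.i y v) :=
  have hf := (hF.dn v hv).1
  ⟨h.hom v hv, (hB.admT hF.dn hv (Finset.coe_subset.2 (hF.sub v hv))).post hf (C.idH _)
    (fun _ _ _ => rfl) fun j hj =>
      (h.el (j, true) (hF.sub v hv hj.1) v hv (hf.sup_true.2 hj.1)).symm,
    fun z hz x => (h.nat z (hF.dn.bd_sub hv hz) v hv hz.2.1 x).symm⟩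

/-- uniqueness passes along a morphism that is onto at the top -/
theorem UqT.transfer {Q Q' : C.Obj} {e : ∀ y, C.U (A.N y) → C.U Q} {p : S.L → C.U Q}
    {e' : ∀ y, C.U (B.N y) → C.U Q'} {p' : S.L → C.U Q'} (h : UqT κ A v Q e p) (hv : S.Face v)
    {ρ : ∀ y, C.U (A.N y) → C.U (B.N y)} (hρ : SMor (S.Bd v) v A B ρ) {k : C.U Q → C.U Q'}
    (hk : C.IsH k) (hs : Surjective k) (he : ∀ y ∈ S.Bd v, ∀ x, e' y (ρ y x) = k (e y x))
    (hp : ∀ j, S.Mx v j → k (p j) = p' j) : UqT κ B v Q' e' p' := by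
  intro M σ hM hσ Z h1 e1 Z' h2 e2 a1 a2
  have key : ∀ {Z : C.Obj} {h1 : C.U Q' → C.U Z} {e1}, AA B v Q' e' p' M σ Z h1 e1 →
      AA A v Q e p M (fun y x => σ y (ρ y x)) Z (fun x => h1 (k x)) e1 := fun a =>
    ⟨C.comp hk a.hom, a.adm.post hv (C.idH _) (fun _ _ _ => rfl) fun j hj => by rw [hp j hj],
      fun z hz x => by rw [a.ov z hz, he z hz]⟩
  refine (h M _ hM (hρ.comp hσ) _ _ _ _ _ _ (key a1) (key a2)).mono ?_
  rintro _ _ (⟨x, rfl, rfl⟩ | h)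
  · obtain ⟨x, rfl⟩ := hs x
    exact Or.inl ⟨x, rfl, rfl⟩
  · exact Or.inr h

theorem Uq.transfer (h : Uq κ v A) (hv : S.Face v) {ρ : ∀ y, C.U (A.N y) → C.U (B.N y)}
    (hρ : SMor (S.Le v) v A B ρ) (hs : Surjective (ρ v)) : Uq κ v B :=
  uq_iff.2 ((uq_iff.1 h).transfer hv (hρ.mono (S.bd_sub_le v) subset_rfl) (hρ.hom v hv.mem_le) hs
    (fun y hy x => (hρ.nat y (S.bd_sub_le v hy) v hv.mem_le hy.2.1 x).symm)
    fun j hj => hρ.el (j, true) hj.1 v hv.mem_le (hv.sup_true.2 hj.1))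

/-- the stage `γ` is a subsystem -/
structure Cl (κ : Cardinal.{0}) (A : Sys S) (𝒟 : Set (Finset S.L)) (E : Set S.L) (γ : J κ) :
    Prop where
  into : ∀ y ∈ 𝒟, ∀ z ∈ 𝒟, y ⊆ z → Into (A.i y z) γ γ
  el : ∀ k : S.L × Bool, k.1 ∈ E → ∀ y ∈ 𝒟, A.el k y ∈ C.filt κ (A.N y) γ

theorem Cl.mono {γ : J κ} (h : Cl κ A 𝒟 E γ) (h' : 𝒟' ⊆ 𝒟) (hE : E' ⊆ E) : Cl κ A 𝒟' E' γ :=
  ⟨fun y hy z hz => h.into y (h' hy) z (h' hz), fun k hk y hy => h.el k (hE hk) y (h' hy)⟩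

theorem Cl.mor {γ : J κ} (h : Cl κ A 𝒟 E γ) : SMor 𝒟 E (A.stage κ γ) A (fun _ => val) :=
  ⟨fun _ _ => val_h, fun y hy z hz hyz x => (h.into y hy z hz hyz).val x,
    fun k hk y hy _ => val_pt (h.el k hk y hy)⟩

theorem ev_cl {E : Finset S.L} (hκ : C.Lv κ) (hF : S.Cx 𝒟 E) (hA : A.Small (succ κ) 𝒟) :
    ∀ᶠ γ in cf κ, Cl κ A 𝒟 E γ := by
  have hE : {k : S.L × Bool | k.1 ∈ E}.Finite :=
    (E.finite_toSet.prod (finite_univ (α := Bool))).subset fun k hk => ⟨hk, trivial⟩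
  filter_upwards [(eventually_all_finite hF.fin).2 fun y hy => (eventually_all_finite hF.fin).2
      fun z hz => CC.ev_into (C.lv_ge hκ) (hA y hy) (hA z hz) (A.i y z),
    (eventually_all_finite hE).2 fun k _ => (eventually_all_finite hF.fin).2 fun y hy =>
      CC.ev_mem (C.lv_ge hκ) (hA y hy) (A.el k y)] with γ h1 h2
  exact ⟨fun y hy z hz _ => h1 y hy z hz, h2⟩

theorem small_stage (hκ : C.Lv κ) (hA : A.Small (succ κ) 𝒟) (γ : J κ) :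
    (A.stage κ γ).Small κ 𝒟 := fun y hy => CC.card_st (C.lv_ge hκ) (hA y hy) γ

theorem Cl.valid {E : Finset S.L} {γ : J κ} (h : Cl κ A 𝒟 E γ) (hF : S.Cx 𝒟 E)
    (hA : A.Valid 𝒟 E) : (A.stage κ γ).Valid 𝒟 E :=
  hA.of_mor h.mor hF.dn fun y hy => Finset.coe_subset.2 (hF.sub y hy)

/-- a club of stages of a good system consists of uniqueness systems -/
theorem Good.ev_inU {E : Finset S.L} (h : Good κ 𝒟 E A) (hκ : C.Lv κ) (hF : S.Cx 𝒟 E) :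
    ∀ᶠ γ in cf κ, Cl κ A 𝒟 E γ ∧ InU κ 𝒟 E (A.stage κ γ) := by
  filter_upwards [ev_cl hκ hF h.small, (eventually_all_finite hF.fin).2 h.uq] with γ h1 h2
  exact ⟨h1, small_stage hκ h.small γ, h1.valid hF h.valid, h2⟩

/-- a morphism with ranges inside a closed stage factors through it -/
theorem Cl.mor_pt {γ : J κ} (h : Cl κ A 𝒟 E γ) {ρ : ∀ y, C.U (B.N y) → C.U (A.N y)}
    (hρ : SMor 𝒟 E B A ρ) (hr : ∀ y ∈ 𝒟, ∀ x, ρ y x ∈ C.filt κ (A.N y) γ) :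
    SMor 𝒟 E B (A.stage κ γ) (fun y x => pt γ (ρ y x)) :=
  h.mor.coh hρ fun y hy x => val_pt (hr y hy x)

/-- the morphism induced on stages -/
theorem Cl.mor_stm {γ δ : J κ} (h : Cl κ B 𝒟 E γ) (h' : Cl κ A 𝒟 E δ)
    {ρ : ∀ y, C.U (B.N y) → C.U (A.N y)} (hρ : SMor 𝒟 E B A ρ) (hi : ∀ y ∈ 𝒟, Into (ρ y) γ δ) :
    SMor 𝒟 E (B.stage κ γ) (A.stage κ δ) (fun y => stm (ρ y) γ δ) :=
  h'.mor_pt (h.mor.comp hρ) fun y hy x => hi y hy (val_mem x)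

theorem Cl.mor_tr (hκ : C.Lv κ) (hA : A.Small (succ κ) 𝒟) {γ δ : J κ} (h : Cl κ A 𝒟 E γ)
    (h' : Cl κ A 𝒟 E δ) (hγδ : γ ≤ δ) :
    SMor 𝒟 E (A.stage κ γ) (A.stage κ δ) (fun y => tr (A.N y) γ δ) :=
  h.mor_stm h' (SMor.id A) fun y hy => CC.into_tr (C.lv_ge hκ) (hA y hy) hγδ

theorem ev_range (hκ : C.Lv κ) (hf : 𝒟.Finite) (hA : A.Small (succ κ) 𝒟) (hB : B.Small κ 𝒟)
    (ρ : ∀ y, C.U (B.N y) → C.U (A.N y)) :
    ∀ᶠ γ in cf κ, ∀ y ∈ 𝒟, ∀ x, ρ y x ∈ C.filt κ (A.N y) γ :=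
  (eventually_all_finite hf).2 fun y hy => CC.ev_range (C.lv_ge hκ) (hA y hy) (hB y hy) (ρ y)

theorem ev_into (hκ : C.Lv κ) (hf : 𝒟.Finite) (hA : A.Small (succ κ) 𝒟)
    (hB : B.Small (succ κ) 𝒟) (ρ : ∀ y, C.U (B.N y) → C.U (A.N y)) :
    ∀ᶠ γ in cf κ, ∀ y ∈ 𝒟, Into (ρ y) γ γ :=
  (eventually_all_finite hf).2 fun y hy => CC.ev_into (C.lv_ge hκ) (hB y hy) (hA y hy) (ρ y)

end Sys

end Pool.Agent.P.MP_860a31_lc.E
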