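import Pool.Agent.P.MP_860a31_lc.E.Stm

/-!
Extension of a small system with uniqueness below the maximal faces to a good system,
face by face.
-/

open Cardinal hiding univ
open Set Order Filter Function

namespace Pool.Agent.P.MP_860a31_lc.E

open PC Sys

theorem te1 (h : S_UpdGood) : S_TE1 := by
  intro C S κ hκ 𝒟 E hF hD A hA hV hU
  have main : 𝒟 ⊆ 𝒟 → ∃ (V : Sys S) (g : ∀ y, C.U (A.N y) → C.U (V.N y)),
      Good κ 𝒟 E V ∧ SMor 𝒟 E A V g := by
    refine Shape.Cx.induction (S := S) (E := E) (P := fun D1 => D1 ⊆ 𝒟 →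
      ∃ (V : Sys S) (g : ∀ y, C.U (A.N y) → C.U (V.N y)),
        Good κ D1 E V ∧ SMor D1 E A V g) ?_ ?_ hF
    · intro _
      exact ⟨A, fun _ x => x,
        ⟨fun _ h => absurd h (notMem_empty _),
          ⟨fun _ h => absurd h (notMem_empty _), fun _ h => absurd h (notMem_empty _),
            fun _ h => absurd h (notMem_empty _), fun _ _ _ h => absurd h (notMem_empty _),
            fun _ h => absurd h (notMem_empty _)⟩,
          fun _ h => absurd h (notMem_empty _), fun _ h => absurd h (notMem_empty _)⟩,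
        SMor.id A⟩
    · intro D1 v h1 hvf hvE hv1 hb ih hsub
      have hv : v ∈ 𝒟 := hsub (mem_insert _ _)
      have hD1 : D1 ⊆ 𝒟 := (subset_insert _ _).trans hsub
      obtain ⟨V, g, hG, hg⟩ := ih hD1
      have hvE' : (↑v : Set S.L) ⊆ ↑E := Finset.coe_subset.2 hvE
      have hbD : S.Bd v ⊆ 𝒟 := hb.trans hD1
      obtain ⟨Z, k, e', k1, k2, k3, k4, k5, k6⟩ := hD v hv V (hG.mono hb hvE') A g
        ⟨hA.mono hbD, hV.mono hbD hvE', fun z hz => hU z (hbD hz) ⟨v, hv, hz.2⟩⟩
        (hg.mono hb hvE') (A.N v) (fun y => A.i y v) (fun j => A.c j v) (hA v hv)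
        (hV.admT hF.dn hv hvE')
      obtain ⟨B, ρ, kk, b1, b2, -, b4⟩ := h C S κ hκ D1 {v} E h1.dn
        (by rintro _ rfl; exact ⟨hvf, hv1, hb⟩) V (fun _ => Z) (fun _ => e')
        (fun _ a => k (A.el a v)) hG (fun y hy => Finset.coe_subset.2 (h1.sub y hy))
        (by rintro _ rfl; exact hvE') (by rintro _ rfl; exact k4)
        (by
          rintro _ rfl a ha y hy hs
          rw [← hg.el a ha y (hb hy) hs, k5 y hy, hV.el a ha y (hbD hy) _ hv hs hy.2.1])
        (by rintro _ rfl; exact ⟨k2, k3, k6⟩)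
      obtain ⟨c1, -, c3, c4⟩ := b4 v (mem_singleton v)
      rw [union_singleton] at b1
      have hm := hg.comp b2
      have e1 : update (fun y x => ρ y (g y x)) v (fun x => kk v (k x)) v =
          fun x => kk v (k x) := update_self ..
      have e2 : ∀ y ∈ D1, update (fun y x => ρ y (g y x)) v (fun x => kk v (k x)) y =
          fun x => ρ y (g y x) := fun y hy =>
        update_of_ne (fun e : y = v => hv1 (e ▸ hy)) _ _
      refine ⟨B, update (fun y x => ρ y (g y x)) v (fun x => kk v (k x)), b1, ?_, ?_, ?_⟩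
      · rintro y (rfl | hy)
        · rw [e1]; exact C.comp k1 c1
        · rw [e2 y hy]; exact hm.hom y hy
      · rintro y (rfl | hy) z (rfl | hz) hyz x
        · rw [hV.id _ hv, b1.valid.id _ (mem_insert _ _)]
        · exact absurd ((h1.dn z hz).2 y hvf hyz) hv1
        · have hy' : y ∈ S.Bd z := ⟨(h1.dn y hy).1, hyz.ssubset_of_ne fun e => hv1 (e ▸ hy)⟩
          rw [e1, e2 y hy]
          show kk z (k (A.i y z x)) = B.i y z (ρ y (g y x))
          rw [c3 y hy', k5 y hy']
        · rw [e2 y hy, e2 z hz]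
          exact hm.nat y hy z hz hyz x
      · rintro a ha y (rfl | hy) hs
        · rw [e1]; exact (c4 a).symm
        · rw [e2 y hy]; exact hm.el a ha y hy hs
  exact main subset_rfl

end Pool.Agent.P.MP_860a31_lc.E
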