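import Pool.Agent.P.MP_860a31_lc.E.Stm

/-!
The trap for the boundary of a face.
-/

open Cardinal hiding univ
open Set Order Filter Function

namespace Pool.Agent.P.MP_860a31_lc.E

open PC Sys

namespace TrapBdP

variable {C : AX} {S : Shape C}

/-- a family on the left vertices, extended by junk -/
noncomputable def ext {α : Type} {X : α ⊕ α → C.Obj} {Z : C.Obj}
    (e : ∀ y, C.U (X (.inl y)) → C.U Z) : ∀ i, C.U (X i) → C.U Z
  | .inl y => e y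
  | .inr _ => fun _ => Classical.choice (C.ne Z)

theorem mem_I {𝒟 : Set (Finset S.L)} {i : Finset S.L ⊕ Finset S.L} (h : i ∈ pairI 𝒟 ∅) :
    ∃ y ∈ 𝒟, i = .inl y := by
  rcases h with ⟨y, hy, rfl⟩ | ⟨_, h, _⟩
  · exact ⟨y, hy, rfl⟩
  · exact h.elim

theorem inl_mem {𝒟 : Set (Finset S.L)} {y : Finset S.L} (h : y ∈ 𝒟) :
    (Sum.inl y : Finset S.L ⊕ Finset S.L) ∈ pairI 𝒟 ∅ := Or.inl ⟨y, h, rfl⟩

theorem adm_of {κ : Cardinal.{0}} {V : Sys S} {v : Finset S.L} {γ : J κ} {Z : C.Obj}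
    {e : ∀ y, C.U (C.st κ (V.N y) γ) → C.U Z} {p : S.L → C.U Z}
    (h : (V.stage κ γ).AdmT v Z e p) :
    Adm ((pairDg V V (fun _ x => x)).stage κ γ) (pairI (S.Bd v) ∅)
      ((bdPc V V (fun _ x => x) v).stage κ γ) Z
      (ext (X := fun i => C.st κ ((pairDg V V (fun _ x => x)).X i) γ) e) p := by
  refine ⟨fun i hi => ?_, fun i hi i' hi' a x => ?_, fun j hj i hi a => ?_, fun j hj => ?_⟩
  · obtain ⟨y, hy, rfl⟩ := mem_I hi
    exact h.cone.hom y hy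
  · obtain ⟨y, hy, rfl⟩ := mem_I hi
    obtain ⟨z, hz, rfl⟩ := mem_I hi'
    exact h.cone.nat y hy z hz (show y ⊂ z from a).1 x
  · obtain ⟨y, hy, rfl⟩ := mem_I hi
    exact (h.pnt j hj).idp y hy a
  · exact (h.pnt j hj).right

theorem admT_of {V : Sys S} {v : Finset S.L} (hV : V.Valid (S.Bd v) v) {Z : C.Obj}
    {e : ∀ i, C.U ((pairDg V V (fun _ x => x)).X i) → C.U Z} {p : S.L → C.U Z}
    (h : Adm (pairDg V V (fun _ x => x)) (pairI (S.Bd v) ∅) (bdPc V V (fun _ x => x) v) Z e p) :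
    V.AdmT v Z (fun y => e (.inl y)) p := by
  refine ⟨⟨fun y hy => h.hom _ (inl_mem hy), fun y hy z hz hyz x => ?_⟩,
    fun j hj => ⟨fun z hz hjz => h.idp j hj _ (inl_mem hz) hjz, h.right j hj⟩⟩
  rcases hyz.eq_or_ssubset with rfl | hlt
  · exact congrArg _ (hV.id y hy x)
  · exact h.nat _ (inl_mem hy) _ (inl_mem hz) hlt x

end TrapBdP

open TrapBdP in
theorem trapBd (h1 : S_DTrap) (h2 : S_SRpair) (h3 : S_HUbd) : S_TrapBd := by
  intro C S κ hκ v hv hU V hV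
  have hD : (pairDg V V (fun _ x => x)).Ok (pairI (S.Bd v) ∅) (succ κ) := by
    refine ⟨((S.fin_bd v).image _).union (finite_empty.image _), fun i hi => ?_,
      fun i hi i' hi' a => ?_⟩
    · obtain ⟨y, hy, rfl⟩ := mem_I hi
      exact hV.small y hy
    · obtain ⟨y, hy, rfl⟩ := mem_I hi
      obtain ⟨z, hz, rfl⟩ := mem_I hi'
      exact hV.valid.hom y hy z hz (show y ⊂ z from a).1
  have hP : (bdPc V V (fun _ x => x) v).Ok (pairI (S.Bd v) ∅) :=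
    ⟨S.fin_mx v, fun j hj => inl_mem (hv.erase_mem_bd hj)⟩
  have hS : SRc κ (pairDg V V (fun _ x => x)) (pairI (S.Bd v) ∅) :=
    h2 C S κ hκ (S.Bd v) ∅ v (S.cx_bd v) (fun _ h => h.elim) (empty_subset _)
      (fun w hw => hU w (S.bd_sub_le v hw)) V V _ hV (hV.mono (empty_subset _) subset_rfl)
      ⟨fun _ h => h.elim, fun _ h => h.elim, fun _ _ _ h => h.elim⟩
  obtain ⟨D0, hD0, H⟩ := h1 C κ hκ _ _ _ _ _ hD hP hS
    (h3 C S (succ κ) v hv (hU v hv.mem_le) V V _ hV)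
  refine ⟨D0, hD0, fun γ0 hγ0 Q e0 p0 hQ hA => ?_⟩
  obtain ⟨Z, k, e, k1, k2, k3, k4, k5, k6⟩ := H γ0 hγ0 Q _ p0 hQ (adm_of hA)
  refine ⟨Z, k, fun y => e (.inl y), k1, k2, k3, admT_of hV.valid k4,
    fun y hy x => k5 _ (inl_mem hy) x, k6.mono fun γ hγ δ hδ hγδ => ?_⟩
  intro Z1 g1 e1 Z2 g2 e2 a1 a2
  refine (hγ δ hδ hγδ Z1 g1 _ Z2 g2 _ ⟨a1.hom, adm_of a1.adm, fun i hi x => ?_⟩
    ⟨a2.hom, adm_of a2.adm, fun i hi x => ?_⟩).mono ?_
  · obtain ⟨y, hy, rfl⟩ := mem_I hi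
    exact a1.ov y hy x
  · obtain ⟨y, hy, rfl⟩ := mem_I hi
    exact a2.ov y hy x
  · rintro _ _ (h | ⟨y, hy, h⟩)
    · exact Or.inl h
    · exact Or.inr ⟨.inl y, inl_mem hy, h⟩

end Pool.Agent.P.MP_860a31_lc.E
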