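import Pool.Agent.P.MP_860a31_lc.E.Stm

/-!
Uniqueness of tops over the boundary of a face, from uniqueness for the smaller faces.
-/

open Cardinal hiding univ
open Set Order Filter Function

namespace Pool.Agent.P.MP_860a31_lc.E

open PC Sys

namespace UL1P

variable {C : AX} {S : Shape C}

/-- uniqueness of tops over the family `𝒞` -/
def UT (A : Sys S) (𝒞 : Set (Finset S.L)) (v : Finset S.L) (j : S.L) : Prop :=
  ∀ (Z : C.Obj) (e : ∀ y, C.U (A.N y) → C.U Z) (p : C.U Z) (Z' : C.Obj)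
    (e' : ∀ y, C.U (A.N y) → C.U Z') (p' : C.U Z'), A.Cone 𝒞 Z e →
    A.Pnt 𝒞 v j e p → A.Cone 𝒞 Z' e' → A.Pnt 𝒞 v j e' p' →
    C.El Z Z' (fun a b => GI 𝒞 e e' a b ∨ (p = a ∧ p' = b))

theorem base {A : Sys S} {v : Finset S.L} {j : S.L} (hx : S.Face (v.erase j)) :
    UT A (S.Le (v.erase j)) v j := by
  intro Z e p Z' e' p' hc hp hc' hp'
  refine (hp.right.uniq hp'.right).mono ?_
  rintro _ _ (⟨z, hz, x, rfl, rfl⟩ | h)
  · exact Or.inl ⟨A.i z (v.erase j) x, hc.nat z hz _ hx.mem_le hz.2 x,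
      hc'.nat z hz _ hx.mem_le hz.2 x⟩
  · exact Or.inr h

theorem step (h1 : S_AbsP) (h2 : S_TopExt) {κ : Cardinal.{0}} (hκ : C.Lv κ) {v y : Finset S.L}
    {j : S.L} (hj : S.Mx v j) (hUL : ∀ w ∈ S.Bd v, ULat κ w) (hTE : TEat κ (S.Bd y) y)
    {A : Sys S} (hA : InU κ (S.Bd v) v A) {𝒞 : Set (Finset S.L)} (hF : S.Cx 𝒞 v)
    (hsub : 𝒞 ⊆ S.Bd v) (hx : v.erase j ∈ 𝒞) (hy : y ∈ S.Bd v) (hjy : j ∈ y)
    (hb : {z ∈ 𝒞 | z ⊆ y} = S.Bd y) (ih : UT A 𝒞 v j) : UT A (insert y 𝒞) v j := by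
  have hyf : S.Face y := hy.1
  have hyv : y ⊆ v := hy.2.1
  have hyv' : (↑y : Set S.L) ⊆ ↑v := Finset.coe_subset.2 hyv
  obtain ⟨M, ρ, hM, hρ⟩ := h1 C S κ hκ 𝒞 v y hF hyf hyv (fun w hw => hUL w (hsub hw))
    (by rw [hb]; exact hTE) A (hA.mono hsub subset_rfl)
  rw [hb] at hM hρ
  have hbC : S.Bd y ⊆ 𝒞 := by rw [← hb]; exact fun _ h => h.1
  have hbv : S.Bd y ⊆ S.Bd v := hbC.trans hsub
  have hin : ∀ w ∈ 𝒞, w ∩ y ∈ S.Bd y := fun w hw => by
    rw [← hb]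
    exact ⟨(hF.dn w hw).2 _ ((hF.dn w hw).1.inter hyf) Finset.inter_subset_left,
      Finset.inter_subset_right⟩
  have hσ : SMor (S.Bd y) y A M (fun z => ρ z z) :=
    ⟨fun z hz => hρ.hom z (hbC hz) z hz Finset.inter_subset_left,
      fun z hz z' hz' hzz x => by
        rw [hρ.dn z (hbC hz) z' (hbC hz') z' hz' hzz Finset.inter_subset_left,
          hρ.up z (hbC hz) z hz z' hz' Finset.inter_subset_left hzz],
      fun k hk z hz hs => hρ.el k hk z hz hs⟩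
  have hAy := hA.valid.admT (Shape.dn_bd v) hy hyv'
  obtain ⟨W, h, g, -, hW⟩ := h2 C S κ hκ y hyf A M (fun z => ρ z z) (hA.mono hbv hyv') hM hσ
    _ _ _ hAy
  have key : ∀ w ∈ 𝒞, ∀ z ∈ S.Bd y, w ∩ y ⊆ z → ∀ a,
      g z (ρ w z a) = g (w ∩ y) (ρ w (w ∩ y) a) := fun w hw z hz hwz a => by
    rw [← hρ.up w hw (w ∩ y) (hin w hw) z hz subset_rfl hwz,
      hW.adm.cone.nat _ (hin w hw) z hz hwz]
  have hc0 : A.Cone 𝒞 W (fun w a => g (w ∩ y) (ρ w (w ∩ y) a)) :=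
    ⟨fun w hw => C.comp (hρ.hom w hw _ (hin w hw) subset_rfl) (hW.adm.cone.hom _ (hin w hw)),
      fun w hw w' hw' hww x => by
        rw [hρ.dn w hw w' hw' _ (hin w' hw') hww subset_rfl]
        exact key w hw _ (hin w' hw') (Finset.inter_subset_inter hww subset_rfl) x⟩
  have hjy' : S.Mx y j := hj.mono hyv hjy
  have hu : y.erase j ∈ S.Bd y := hyf.erase_mem_bd hjy'
  have hxu : v.erase j ∩ y ⊆ y.erase j := fun l hl =>
    Finset.mem_erase.2 ⟨(Finset.mem_erase.1 (Finset.mem_inter.1 hl).1).1,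
      (Finset.mem_inter.1 hl).2⟩
  have hux : y.erase j ⊆ v.erase j := Finset.erase_subset_erase j hyv
  have hp0 : A.Pnt 𝒞 v j (fun w a => g (w ∩ y) (ρ w (w ∩ y) a)) (h (A.c j y)) := by
    refine ⟨fun z hz hjz => ?_, ?_⟩
    · have hz' := hin z hz
      have hjz' : j ∈ z ∩ y := Finset.mem_inter.2 ⟨hjz, hjy⟩
      rw [← hA.valid.c hj.1 (hbv hz') (hsub hz) hz'.1 hjz' Finset.inter_subset_left,
        hρ.dn _ (hbC hz') z hz _ hz' Finset.inter_subset_left subset_rfl,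
        ← hA.valid.c hj.1 (hbv hz') hy hz'.1 hjz' Finset.inter_subset_right]
      exact hW.ov _ hz' _
    · refine (hW.adm.pnt j hjy').right.mono (hρ.hom _ hx _ hu hxu) ?_
        fun x => key _ hx _ hu hxu x
      rw [← hA.valid.b hj.1 (hbv hu) (hsub hx) (hyf.par_sub_erase hjy) hux,
        hρ.dn _ (hbC hu) _ hx _ hu hux hxu]
      exact hρ.el (j, false) hjy _ hu (hyf.par_sub_erase hjy)
  have main : ∀ (Z : C.Obj) (e : ∀ y, C.U (A.N y) → C.U Z) (p : C.U Z),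
      A.Cone (insert y 𝒞) Z e → A.Pnt (insert y 𝒞) v j e p →
      C.El Z W (fun a b => G (e y) h a b ∨
        GI 𝒞 e (fun w a => g (w ∩ y) (ρ w (w ∩ y) a)) a b) := by
    intro Z e p hc hp
    have hyi : y ∈ insert y 𝒞 := mem_insert _ _
    have hpy : e y (A.c j y) = p := hp.idp y hyi hjy
    obtain ⟨W1, f, f', hf, hf', hff⟩ := ih Z e p W _ _ (hc.mono (subset_insert _ _))
      ⟨fun z hz => hp.idp z (mem_insert_of_mem _ hz), hp.right⟩ hc0 hp0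
    have hfe : ∀ w ∈ 𝒞, ∀ x, f (e w x) = f' (g (w ∩ y) (ρ w (w ∩ y) x)) := fun w hw x =>
      hff _ _ (Or.inl (GI.mk e (fun w a => g (w ∩ y) (ρ w (w ∩ y) a)) hw x))
    have hov : ∀ z ∈ S.Bd y, ∀ x, f' (g z (ρ z z x)) = f (e y (A.i z y x)) := fun z hz x => by
      rw [hc.nat z (mem_insert_of_mem _ (hbC hz)) y hyi hz.2.1, hfe z (hbC hz),
        key z (hbC hz) z hz Finset.inter_subset_left]
    have a1 : AA A y (A.N y) (fun z => A.i z y) (fun i => A.c i y) M (fun z => ρ z z) W1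
        (fun x => f (e y x)) (fun z x => f' (g z x)) := by
      refine ⟨C.comp (hc.hom y hyi) hf, hW.adm.post hyf hf' (fun _ _ _ => rfl) fun i hi => ?_,
        hov⟩
      by_cases hij : i = j
      · rw [hij, hpy]
        exact (hff _ _ (Or.inr ⟨rfl, rfl⟩)).symm
      · have hiu : i ∈ y.erase j := Finset.mem_erase.2 ⟨hij, hi.1⟩
        rw [← hA.valid.c (hyv hi.1) (hbv hu) hy hu.1 hiu hu.2.1, ← hov _ hu]
        exact congrArg f' (hW.ov _ hu _).symm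
    have hel := uq_iff.1 (hA.uq y hy) M (fun z => ρ z z) hM hσ _ _ _ _ _ _ a1 hW
    refine hel.pull_left hf ?_
    rintro _ _ (⟨x, rfl, rfl⟩ | ⟨w, hw, x, rfl, rfl⟩)
    · exact Or.inl ⟨x, rfl, rfl⟩
    · exact Or.inr ⟨w ∩ y, hin w hw, ρ w (w ∩ y) x, (hfe w hw x).symm, rfl⟩
  intro Z e p Z' e' p' hc hp hc' hp'
  refine PC.El.trans (main Z e p hc hp) (main Z' e' p' hc' hp').symm ?_
  rintro _ _ (⟨w, hw | hw, x, rfl, rfl⟩ | ⟨rfl, rfl⟩)
  · subst hw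
    exact ⟨h x, Or.inl ⟨x, rfl, rfl⟩, Or.inl ⟨x, rfl, rfl⟩⟩
  · exact ⟨_, Or.inr ⟨w, hw, x, rfl, rfl⟩, Or.inr ⟨w, hw, x, rfl, rfl⟩⟩
  · exact ⟨h (A.c j y), Or.inl ⟨_, hp.idp y (mem_insert _ _) hjy, rfl⟩,
      Or.inl ⟨_, hp'.idp y (mem_insert _ _) hjy, rfl⟩⟩

end UL1P

theorem ul1 (h1 : S_AbsP) (h2 : S_TopExt) : S_UL1 := by
  intro C S κ hκ v hv hUL hTE A hA j hj
  have hx : v.erase j ∈ S.Bd v := hv.erase_mem_bd hj
  have hLe : S.Le (v.erase j) ⊆ S.Bd v := (Shape.dn_bd v).le_sub hx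
  have main : S.Bd v ⊆ S.Bd v → UL1P.UT A (S.Le (v.erase j) ∪ S.Bd v) v j := by
    refine Shape.Cx.induction (S := S) (E := v)
      (P := fun D1 => D1 ⊆ S.Bd v → UL1P.UT A (S.Le (v.erase j) ∪ D1) v j) ?_ ?_ (Shape.cx_bd v)
    · intro _
      rw [union_empty]
      exact UL1P.base hx.1
    · intro D1 y hD hyf hyv hy1 hb ih hsub
      have hy : y ∈ S.Bd v := hsub (mem_insert _ _)
      have hD1 : D1 ⊆ S.Bd v := (subset_insert _ _).trans hsub
      rw [union_insert]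
      by_cases hjy : j ∈ y
      · refine UL1P.step h1 h2 hκ hj hUL (hTE y hy) hA ⟨?_, ?_⟩ (union_subset hLe hD1)
          (Or.inl hx.1.mem_le) hy hjy ?_ (ih hD1)
        · rintro w (hw | hw)
          · exact ⟨hw.1, fun z hz hzw => Or.inl ⟨hz, hzw.trans hw.2⟩⟩
          · exact ⟨(hD.dn w hw).1, fun z hz hzw => Or.inr ((hD.dn w hw).2 z hz hzw)⟩
        · exact fun w hw => (union_subset hLe hD1 hw).2.1
        · ext z
          refine ⟨fun hz => ⟨(union_subset hLe hD1 hz.1).1, hz.2.ssubset_of_ne fun e => ?_⟩,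
            fun hz => ⟨Or.inr (hb hz), hz.2.1⟩⟩
          rcases hz.1 with h | h
          · exact Finset.notMem_erase j v (h.2 (e ▸ hjy))
          · exact hy1 (e ▸ h)
      · have hm : y ∈ S.Le (v.erase j) ∪ D1 :=
          Or.inl ⟨hyf, fun l hl => Finset.mem_erase.2 ⟨fun e => hjy (e ▸ hl), hyv hl⟩⟩
        rw [insert_eq_of_mem hm]
        exact ih hD1
  have := main subset_rfl
  rw [union_eq_self_of_subset_left hLe] at this
  exact this

end Pool.Agent.P.MP_860a31_lc.E
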