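import Pool.Agent.P.MP_860a31_lc.E.KStm

/-!
Small extensions of a family embed into a substitution instance.
-/

open Cardinal hiding univ
open Set Order Function

namespace Pool.Agent.P.MP_860a31_lc.E

namespace UUP

/-- the inclusion of the first summand -/
def inlE (X Y : Type) [LinearOrder X] [LinearOrder Y] : X ↪o X ⊕ₗ Y :=
  OrderEmbedding.ofStrictMono (toLex ∘ Sum.inl) Sum.Lex.inl_strictMono

theorem evi_eq {C : PC} {N : Fam C} {I : Type} [LinearOrder I] (p : N.El) {k : ℕ}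
    (r : Fin k ↪o I) (y : C.U (N.ob k)) (e : Fin p.1 ↪o I) (h : (⟨k, y⟩ : N.El) = p)
    (he : ∀ (j : Fin p.1) (hj : j.1 < k), e j = r ⟨j, hj⟩) : N.evi e p.2 = N.evi r y := by
  subst h
  have : e = r := by ext j; exact he j j.2
  rw [this]

/-- the extension embeds into the value on a long order -/
theorem emb (K : KC) {κ : Cardinal.{0}} (hκ : K.k0 ≤ κ)
    (hc : K.SatH κ) {N B : Fam K.toPC} {φ : ∀ n, K.U (N.ob n) → K.U (B.ob n)}
    {x : K.U (N.ob 1)} (hx : N.Atom x) (hφ : Fam.Nt N B φ) (hB : ∀ n, #(K.U (B.ob n)) ≤ κ)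
    {θ : Cardinal.{0}} (hθ : θ < hanf κ) :
    ∃ f : K.U (B.ev (W θ)) → K.U (N.ev (W θ ⊕ₗ W K.lam)), K.IsH f ∧
      ∀ n (t : Fin n ↪o W θ) y, f (B.evi t (φ n y)) = N.evi (t.trans (inlE _ _)) y := by
  have hi : ℵ₀ ≤ κ := K.inf.trans hκ
  have h3 := (card_W_lt hi hθ).2
  have h4 : #(W θ) + κ ≤ K.lam := (h3.trans_le hc.1).le
  have h5 : #(W θ ⊕ₗ W K.lam) = K.lam := by
    change #(W θ ⊕ W K.lam) = _
    rw [mk_sum, lift_id, lift_id, W.card K.lam_inf]
    exact add_eq_right K.lam_inf ((self_le_add_right _ _).trans h4)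
  have h6 : #(K.U (N.ev (W θ ⊕ₗ W K.lam))) = K.lam :=
    le_antisymm (Fam.card_ev_le N _ K.lam_inf h5.le fun n => ((PC.card_le (hφ.hom n)).trans
      (hB n)).trans ((self_le_add_left _ _).trans h4)) (h5.ge.trans (Fam.le_card_ev hx _))
  have hφ' := Fam.isH_tot hφ
  obtain ⟨f, hf, H⟩ := PC.Univ.ext (hc.2 _ h6 _ h3) (Fam.evh_h (I := W θ) hφ')
    (Fam.evmap_h (P := N) (inlE (W θ) (W K.lam)))
    (Fam.card_ev_le B _ (hi.trans (self_le_add_left _ _)) (self_le_add_right _ _)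
      fun n => (hB n).trans (self_le_add_left _ _))
  refine ⟨f, hf, fun n t y => ?_⟩
  have := H (N.evi t y)
  rwa [Fam.evh_evi hφ', Fam.cp_tot, Fam.evmap_evi] at this

end UUP

theorem uu (h1 : S_SubEx) : S_UU := by
  intro K κ hκ hc N B φ x hx hφ hB
  have hi : ℵ₀ ≤ κ := K.inf.trans hκ
  choose f hf hfφ using fun d : {θ : Cardinal.{0} // θ < hanf κ} =>
    UUP.emb K hκ hc hx hφ hB d.2
  choose M r y hr using fun (d : {θ : Cardinal.{0} // θ < hanf κ}) (n : ℕ) (t : Fin n ↪o W d.1)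
    (b : K.U (B.ob n)) => Fam.evi_surj (f d (B.evi t b))
  have hne : ∀ d : {θ : Cardinal.{0} // θ < hanf κ}, Nonempty (W d.1 ⊕ₗ W K.lam) :=
    fun d => ⟨UUP.inlE _ _ ⊥⟩
  obtain ⟨s, γ, γ', hs, H⟩ := h1 κ hi {θ : Cardinal.{0} // θ < hanf κ} (fun d => W d.1)
    (fun d => W d.1 ⊕ₗ W K.lam) (fun d => UUP.inlE _ _) (fun n => K.U (B.ob n) × ℕ)
    (fun n => K.U (B.ob n) → N.El)
    (fun d n t u => if h : u.2 < M d n t u.1 then r d n t u.1 ⟨u.2, h⟩ else UUP.inlE _ _ ⊥)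
    (fun d n t b => ⟨M d n t b, y d n t b⟩)
    (fun n => by
      rw [mk_prod, lift_id, lift_id, mk_nat]
      exact mul_le_of_le hi (hB n) hi)
    (fun n => by
      rw [← power_def, ← power_self_eq hi]
      exact (power_le_power_right (N.card_el_le hi fun k =>
        (PC.card_le (hφ.hom k)).trans (hB k))).trans
        (power_le_power_left (aleph0_pos.trans_le hi).ne' (hB n)))
    (fun θ hθ => ⟨⟨θ, hθ⟩, (card_W_lt hi hθ).1⟩)
  choose d t h hη H using H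
  have key : ∀ (m : ℕ) (b : K.U (B.ob m)), ∃ z : K.U (N.ev (s.σ m)), ∀ (n : ℕ)
      (a : Fin m ↪o Fin n), N.evmap (h n) (N.evmap (s.mp a) z) =
        f (d n) (B.evi (a.trans (t n)) b) := by
    intro m b
    have e1 : ∀ (n : ℕ) (a : Fin m ↪o Fin n), (⟨M (d n) m (a.trans (t n)) b,
        y (d n) m (a.trans (t n)) b⟩ : N.El) = γ' m b := fun n a => congrFun (H n m a).2 b
    have e2 : ∀ (n : ℕ) (a : Fin m ↪o Fin n) (j : ℕ) (hj : j < M (d n) m (a.trans (t n)) b),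
        h n (s.mp a (γ m (b, j))) = r (d n) m (a.trans (t n)) b ⟨j, hj⟩ := fun n a j hj =>
      ((H n m a).1 (b, j)).trans (dif_pos hj)
    have e3 : StrictMono fun j : Fin (γ' m b).1 => γ m (b, j) := by
      intro j j' hjj
      have hk : (γ' m b).1 = M (d m) m ((RelEmbedding.refl _).trans (t m)) b :=
        (congrArg Sigma.fst (e1 m (RelEmbedding.refl _))).symm
      refine (s.mp (RelEmbedding.refl _)).lt_iff_lt.1 ((h m).lt_iff_lt.1 ?_)
      rw [e2 m _ j (hk ▸ j.2), e2 m _ j' (hk ▸ j'.2)]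
      exact (r _ _ _ _).strictMono hjj
    refine ⟨N.evi (OrderEmbedding.ofStrictMono _ e3) (γ' m b).2, fun n a => ?_⟩
    rw [Fam.evmap_evi, Fam.evmap_evi, ← hr]
    exact UUP.evi_eq _ _ _ _ (e1 n a) fun j hj => e2 n a j hj
  choose ψ hψ using key
  have k0 : ∀ n b, N.evmap (h n) (ψ n b) = f (d n) (B.evi (t n) b) := fun n b => by
    have := hψ n b n (RelEmbedding.refl _)
    rwa [show N.evmap (s.mp (RelEmbedding.refl _)) (ψ n b) = ψ n b from (s.fam N).mp_id n _] at this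
  refine ⟨s, hs, ψ, ⟨fun n => PC.coh' (Fam.evmap_h (h n)) (K.comp (Fam.evi_h (t n)) (hf _)) (k0 n),
    fun {m n} a b => K.inj (Fam.evmap_h (h n)) ?_⟩, fun n z => K.inj (Fam.evmap_h (h n)) ?_⟩
  · rw [k0, Fam.evi_mp]
    exact (hψ m b n a).symm
  · rw [k0, hfφ, Fam.evmap_evi]
    congr 1
    ext i
    exact (hη n i).symm

end Pool.Agent.P.MP_860a31_lc.E
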