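import Pool.Agent.P.MP_860a31_lc.E.KStm

/-!
Uniformisation: from Morley's method to a family that is locally like given data.
-/

open Cardinal hiding univ
open Set Order Filter Function

namespace Pool.Agent.P.MP_860a31_lc.E

namespace UnifP

/-- iterated hulls along the faces of an increasing tuple -/
def T {X β : Type} [LinearOrder X] (H : Set β → Set β) (R : ∀ n, (Fin n ↪o X) → Set β) :
    ∀ n : ℕ, (Fin n ↪o X) → Set β := fun n =>
  Nat.strongRecOn (motive := fun n => (Fin n ↪o X) → Set β) n fun n ih s =>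
    H (R n s ∪ ⋃ (m : Fin n) (a : Fin m ↪o Fin n), ih m m.2 (a.trans s))

theorem T_eq {X β : Type} [LinearOrder X] (H : Set β → Set β) (R : ∀ n, (Fin n ↪o X) → Set β)
    (n : ℕ) (s : Fin n ↪o X) :
    T H R n s = H (R n s ∪ ⋃ (m : Fin n) (a : Fin m ↪o Fin n), T H R m (a.trans s)) := by
  unfold T
  rw [Nat.strongRecOn_eq]

theorem card_fe (m n : ℕ) : #(Fin m ↪o Fin n) ≤ ℵ₀ :=
  haveI : Finite (Fin m ↪o Fin n) :=
    Finite.of_injective (fun s : Fin m ↪o Fin n => (s : Fin m → Fin n)) DFunLike.coe_injective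
  (mk_lt_aleph0_iff.2 inferInstance).le

theorem le_of_emb {m n : ℕ} (a : Fin m ↪o Fin n) : m ≤ n := by
  simpa using Fintype.card_le_of_injective a a.injective

/-- small subobjects attached monotonically to increasing tuples -/
theorem exN (C : PC) {κ : Cardinal.{0}} (hκ : C.k0 ≤ κ) (X : Type) [LinearOrder X] (Z : C.Obj)
    (Γ : ℕ → Type) (g : ∀ n, (Fin n ↪o X) → Γ n → C.U Z) (hΓ : ∀ n, #(Γ n) ≤ κ) :
    ∃ (N : ∀ n, (Fin n ↪o X) → C.Obj) (inc : ∀ n s, C.U (N n s) → C.U Z),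
      (∀ n s, C.IsH (inc n s)) ∧ (∀ n s, #(C.U (N n s)) ≤ κ) ∧
      (∀ n s u, g n s u ∈ range (inc n s)) ∧
      ∀ (m n : ℕ) (a : Fin m ↪o Fin n) s, range (inc m (a.trans s)) ⊆ range (inc n s) := by
  have hinf : ℵ₀ ≤ κ := C.inf.trans hκ
  choose B f hf hS hB using C.ls Z
  let T' := T (X := X) (fun S => range (f S)) (fun n s => range (g n s))
  let A : ∀ n, (Fin n ↪o X) → Set (C.U Z) := fun n s =>
    range (g n s) ∪ ⋃ (m : Fin n) (a : Fin m ↪o Fin n), T' m (a.trans s)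
  have hT : ∀ n s, T' n s = range (f (A n s)) := fun n s => T_eq _ _ n s
  have hA : ∀ n s, #(A n s) ≤ κ := by
    intro n
    induction n using Nat.strong_induction_on with
    | _ n ih =>
      intro s
      refine (mk_union_le _ _).trans (add_le_of_le hinf (mk_range_le.trans (hΓ n)) ?_)
      refine (mk_iUnion_le _).trans (mul_le_of_le hinf ?_ (ciSup_le' fun m => ?_))
      · exact (mk_lt_aleph0_iff.2 inferInstance).le.trans hinf
      refine (mk_iUnion_le _).trans (mul_le_of_le hinf ((card_fe _ _).trans hinf)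
        (ciSup_le' fun a => ?_))
      rw [hT]
      exact mk_range_le.trans ((hB _).trans (add_le_of_le hinf (ih m m.2 _) hκ))
  refine ⟨fun n s => B (A n s), fun n s => f (A n s), fun n s => hf _,
    fun n s => (hB _).trans (add_le_of_le hinf (hA n s) hκ),
    fun n s u => hS _ (Or.inl ⟨u, rfl⟩), fun m n a s => ?_⟩
  rcases (le_of_emb a).lt_or_eq with h | rfl
  · refine Subset.trans ?_ (hS (A n s))
    rw [← hT]
    intro x hx
    exact Or.inr (mem_iUnion.2 ⟨⟨m, h⟩, mem_iUnion.2 ⟨a, hx⟩⟩)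
  · rw [emb_self a]
    exact Subset.rfl

theorem sig_eq {X : Type} [LinearOrder X] (S : Finset X) {n : ℕ} (e : Fin n ↪o X)
    (hc : S.card = n) (h : ∀ i, e i ∈ S) :
    (⟨S.card, S.orderEmbOfFin rfl⟩ : Σ n, Fin n ↪o X) = ⟨n, e⟩ := by
  subst hc
  rw [Finset.orderEmbOfFin_unique' rfl h]

end UnifP

open UnifP in
theorem unif (h : S_FamMorley) : S_Unif := by
  intro C hC κ hκ D X _ Z Γ Col g c hΓ hCol hX
  classical
  have hinf : ℵ₀ ≤ κ := C.inf.trans hκ
  have h2 : ℵ₀ ≤ 2 ^ κ := hinf.trans (cantor κ).le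
  choose N inc hinc hN hg hmono using fun d => exN C hκ (X d) (Z d) Γ (g d) hΓ
  have hen : ∀ d n s, ∃ en : κ.out → C.U (N d n s), Surjective en := fun d n s => by
    have : #(C.U (N d n s)) ≤ #κ.out := by rw [mk_out]; exact hN d n s
    obtain ⟨e⟩ := (Cardinal.le_def _ _).1 this
    exact ⟨invFun e, invFun_surjective e.injective⟩
  choose en hen using hen
  let I : ℕ → Type := fun n => Σ m, (Fin m ↪o Fin n) × (κ.out ⊕ Γ m)
  have hI : ∀ n, #(I n) ≤ κ := fun n =>
    card_cover (α := fun m => (Fin m ↪o Fin n) × (κ.out ⊕ Γ m)) (fun m p => (⟨m, p⟩ : I n))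
      (fun p => ⟨p.1, p.2, rfl⟩) hinf (by rwa [mk_nat]) fun m => by
        rw [mk_prod, lift_id, lift_id, mk_sum, lift_id, lift_id, mk_out]
        exact mul_le_of_le hinf ((card_fe _ _).trans hinf) (add_le_of_le hinf le_rfl (hΓ m))
  let v : ∀ d m, (Fin m ↪o X d) → κ.out ⊕ Γ m → C.U (Z d) := fun d m s =>
    Sum.elim (fun i => inc d m s (en d m s i)) (g d m s)
  have hv : ∀ d m s z, v d m s z ∈ range (inc d m s) := fun d m s z => by
    rcases z with i | u
    · exact ⟨_, rfl⟩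
    · exact hg d m s u
  have hE : ∀ d n (s : Fin n ↪o X d) (p : I n), ∃ x, inc d n s x = v d p.1 (p.2.1.trans s) p.2.2 :=
    fun d n s p => hmono d _ n p.2.1 s (hv d _ _ _)
  choose E hE using hE
  have hEs : ∀ d n s, Surjective (E d n s) := fun d n s x => by
    obtain ⟨i, rfl⟩ := hen d n s x
    exact ⟨⟨n, RelEmbedding.refl _, Sum.inl i⟩, C.inj (hinc d n s) (hE d n s _)⟩
  choose Cd cd hCd hcd using fun n => hC (I n)
  let F : ∀ d, (Σ n, Fin n ↪o X d) → Σ n, Cd n × Col n := fun d p =>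
    ⟨p.1, cd p.1 (N d p.1 p.2) (E d p.1 p.2), c d p.1 p.2⟩
  have hcard : #(Σ n, Cd n × Col n) ≤ 2 ^ κ :=
    card_cover (α := fun n => Cd n × Col n) (fun n p => (⟨n, p⟩ : Σ n, Cd n × Col n))
      (fun p => ⟨p.1, p.2, rfl⟩) h2 (by rwa [mk_nat]) fun n => by
        rw [mk_prod, lift_id, lift_id]
        exact mul_le_of_le h2 ((hCd n).trans (power_le_power_left two_ne_zero
          (add_le_of_le hinf (hI n) hκ))) (hCol n)
  obtain ⟨γ0, hγ0⟩ := h (hanf κ) (2 ^ κ) (hanfSpec κ hinf) D X _ hcard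
    (fun d S => F d ⟨S.card, S.orderEmbOfFin rfl⟩) hX
  choose d t ht hcol using hγ0
  let tt : ∀ n, Fin n ↪o X (d n) := fun n => (t n).orderEmbOfFin (ht n)
  have hF : ∀ (m n : ℕ) (a : Fin m ↪o Fin n), F (d n) ⟨m, a.trans (tt n)⟩ = γ0 m := by
    intro m n a
    have hc : (Finset.univ.map (a.trans (tt n)).toEmbedding).card = m := by simp
    have := hcol n (Finset.univ.map (a.trans (tt n)).toEmbedding) (fun x hx => by
      obtain ⟨i, -, rfl⟩ := Finset.mem_map.1 hx
      exact Finset.orderEmbOfFin_mem (t n) (ht n) (a i))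
    rw [sig_eq _ (a.trans (tt n)) hc (fun i => Finset.mem_map.2 ⟨i, Finset.mem_univ _, rfl⟩),
      hc] at this
    exact this
  have hF' : ∀ (m n : ℕ) (a : Fin m ↪o Fin n),
      cd m (N (d m) m (tt m)) (E (d m) m (tt m)) =
        cd m (N (d n) m (a.trans (tt n))) (E (d n) m (a.trans (tt n))) ∧
      c (d m) m (tt m) = c (d n) m (a.trans (tt n)) := fun m n a =>
    Prod.mk.inj (sigma_mk_injective (β := fun n => Cd n × Col n)
      ((hF m m (RelEmbedding.refl _)).trans (hF m n a).symm))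
  choose j hj hjE using fun (m n : ℕ) (a : Fin m ↪o Fin n) =>
    hcd m _ _ _ _ (hF' m n a).1 (hEs _ _ _) (hEs _ _ _)
  choose mp hmp hmpe using fun (m n : ℕ) (a : Fin m ↪o Fin n) =>
    PC.factor (C.comp (hj m n a) (hinc _ _ _)) (hinc (d n) n (tt n)) (by
      rintro _ ⟨x, rfl⟩
      exact hmono (d n) m n a (tt n) ⟨_, rfl⟩)
  have key : ∀ (m n : ℕ) (a : Fin m ↪o Fin n) (p : I m),
      mp m n a (E (d m) m (tt m) p) = E (d n) n (tt n) ⟨p.1, p.2.1.trans a, p.2.2⟩ := by
    intro m n a p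
    apply C.inj (hinc (d n) n (tt n))
    rw [hmpe, hjE, hE, hE]
    rfl
  let Q : Fam C :=
    { ob := fun n => N (d n) n (tt n)
      mp := fun a => mp _ _ a
      hom := fun a => hmp _ _ a
      mp_id := fun n x => by
        obtain ⟨p, rfl⟩ := hEs _ _ _ x
        rw [key]
        rfl
      mp_comp := fun a b x => by
        obtain ⟨p, rfl⟩ := hEs _ _ _ x
        rw [key, key, key]
        rfl }
  refine ⟨Q, fun n u => E (d n) n (tt n) ⟨n, RelEmbedding.refl _, Sum.inr u⟩,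
    fun n => c (d n) n (tt n), fun n => hN _ _ _, fun n => ⟨d n, tt n, inc (d n) n (tt n),
      hinc _ _ _, fun m a => ⟨fun u => ?_, (hF' m n a).2.symm⟩⟩⟩
  change inc (d n) n (tt n) (mp m n a _) = _
  rw [key, hE]
  rfl

end Pool.Agent.P.MP_860a31_lc.E
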