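import Pool.Agent.P.MP_860a31_lc.E.Stm

/-!
A universal extension of the same size.
-/

open Cardinal hiding univ
open Set Order Filter Function

namespace Pool.Agent.P.MP_860a31_lc.E

open PC

theorem univExt (h1 : S_RealExt) (h2 : S_RealChain) : S_UnivExt := by
  intro C θ hθ hS A hA
  have h0 : ℵ₀ ≤ θ := C.inf.trans hθ
  obtain ⟨F, t, rfl, hI, hH, hid, hc, hR, hL⟩ := gchain (Λ := W θ) (St := C.Obj) (ι := Unit)
    (fun Y _ => C.U Y) (fun _ _ f => C.IsH (f ())) (fun Y => C.idH Y)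
    (fun _ _ _ _ _ hf hg => C.comp hf hg) (fun _ Y => #(C.U Y) ≤ θ)
    (fun _ _ _ f => C.Real (f ())) A hA
    (fun _ Y hY => by
      obtain ⟨Y', g, k1, k2, k3⟩ := h1 C θ hθ hS Y hY
      exact ⟨Y', fun _ => g, k1, k2, k3⟩)
    (fun δ hδ c hc _ => by
      have : Nonempty (Iio δ) := ⟨⟨⊥, hδ.bot_lt⟩⟩
      obtain ⟨B, u, k1, k2, k3⟩ := C.colim (Iio δ) c.F (fun a b h => c.t a b h ()) c.hom
        (fun a => c.t_id a ()) (fun a b d h h' => c.t_comp a b d h h' ())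
      exact ⟨B, fun a _ => u a, card_cover u k3 h0 (W.iio h0 δ).le hc, k1,
        fun a b h _ => k2 a b h, fun _ => k3⟩)
  obtain ⟨T, u, k1, k2, k3⟩ := C.colim (W θ) F (fun a b h => t a b h ()) hH
    (fun a => hid a ()) (fun a b d h h' => hc a b d h h' ())
  refine ⟨T, u ⊥, k1 ⊥, card_cover u k3 h0 (W.card h0).le hI, h2 C θ h0 F T u k1 ?_ ?_ k3 ?_⟩
  · rintro a b h _ ⟨x, rfl⟩
    exact ⟨_, k2 a b h x⟩
  · rintro δ hδ _ ⟨y, rfl⟩
    obtain ⟨a, h, x, rfl⟩ := hL δ hδ () y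
    exact ⟨a, h, x, (k2 a δ h.le x).symm⟩
  · intro a Z e c he
    obtain ⟨a', h⟩ := hR a Z e c he
    refine ⟨a', El.push (C.idH _) (k1 (succ a)) h ?_⟩
    rintro _ _ (⟨x, rfl, rfl⟩ | ⟨rfl, rfl⟩)
    · exact ⟨_, _, Or.inl (G.mk _ _ x), rfl, k2 _ _ _ x⟩
    · exact ⟨_, _, Or.inr ⟨rfl, rfl⟩, rfl, rfl⟩

end Pool.Agent.P.MP_860a31_lc.E
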