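import Pool.Agent.P.MP_860a31_lc.E.Stm

/-!
Universality reflects to a club of stages.
-/

open Cardinal hiding univ
open Set Order Filter Function

namespace Pool.Agent.P.MP_860a31_lc.E

open PC Sys

namespace UnivReflP

/-- a continuous chain of length `κ` over `A` that realises all types at every step -/
theorem chain (h1 : S_RealExt) (C : AC) {κ θ : Cardinal.{0}} (hκ : ℵ₀ ≤ κ) (hκθ : κ ≤ θ)
    (hθ : C.k0 ≤ θ) (hs : C.PStab θ Unit) (A : C.Obj) (hA : #(C.U A) ≤ θ) :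
    ∃ (Y : W κ → C.Obj) (T : C.Obj) (u : ∀ a, C.U (Y a) → C.U T) (n : C.U A → C.U (Y ⊥)),
      C.IsH n ∧ (∀ a, #(C.U (Y a)) ≤ θ) ∧ #(C.U T) ≤ θ ∧ (∀ a, C.IsH (u a)) ∧
      (∀ a b, a ≤ b → range (u a) ⊆ range (u b)) ∧
      (∀ δ, IsSuccLimit δ → ∀ y ∈ range (u δ), ∃ a < δ, y ∈ range (u a)) ∧
      (∀ y, ∃ a x, u a x = y) ∧
      ∀ a, ∃ s : C.U (Y a) → C.U (Y (succ a)), C.Real s ∧ ∀ x, u (succ a) (s x) = u a x := by
  have hi := hκ.trans hκθ
  obtain ⟨F, t, e0, k1, k2, k3, k4, k5, k6⟩ := gchain (Λ := W κ) (St := C.Obj) (ι := Unit)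
    (fun S _ => C.U S) (fun _ _ f => C.IsH (f ())) (fun S => C.idH S)
    (fun _ _ _ _ _ hf hg => C.comp hf hg) (fun _ S => #(C.U S) ≤ θ)
    (fun _ _ _ f => C.Real (f ())) A hA
    (fun _ S hS => by
      obtain ⟨S', f, a, b, c⟩ := h1 C θ hθ hs S hS
      exact ⟨S', fun _ => f, a, b, c⟩)
    (fun δ hδ c hc _ => by
      have : Nonempty (Iio δ) := ⟨⟨⊥, hδ.bot_lt⟩⟩
      obtain ⟨S, u, a, b, d⟩ := C.colim (Iio δ) c.F (fun i j h => c.t i j h ()) c.hom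
        (fun i => c.t_id i ()) fun i j k h h' => c.t_comp i j k h h' ()
      exact ⟨S, fun i _ => u i, card_cover u d hi ((W.iio hκ δ).le.trans hκθ) hc, a,
        fun i j h _ => b i j h, fun _ => d⟩)
  subst e0
  obtain ⟨T, u, a, b, d⟩ := C.colim (W κ) F (fun i j h => t i j h ()) k2 (fun i => k3 i ())
    fun i j k h h' => k4 i j k h h' ()
  refine ⟨F, T, u, _, C.idH _, k1, card_cover u d hi ((W.card hκ).le.trans hκθ) k1, a,
    fun i j h => ?_, fun δ hδ => ?_, d, fun i => ⟨_, k5 i, b _ _ _⟩⟩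
  · rintro _ ⟨x, rfl⟩
    exact ⟨_, b i j h x⟩
  · rintro _ ⟨y, rfl⟩
    obtain ⟨i, h, x, rfl⟩ := k6 δ hδ () y
    exact ⟨i, h, x, (b _ _ _ _).symm⟩

end UnivReflP

theorem univRefl (h1 : S_RealExt) (h2 : S_RealChain) : S_UnivRefl := by
  intro C κ hκ A B g hg hB hU
  have hi := AX.lv_inf hκ
  have hk := C.lv_ge hκ
  have hA : #(C.U A) ≤ succ κ := (card_le hg).trans hB
  obtain ⟨Y, T, u, n, hn, hY, hT, hu, hm, hl, hs, hr⟩ := UnivReflP.chain h1 C.toAC hi (le_succ κ)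
    (C.lv_ge (C.lv_succ hκ)) (AX.pstab (C.lv_succ hκ)) A hA
  obtain ⟨k, k1, k2⟩ := hU.ext (C.comp hn (hu ⊥)) (C.idH A) hT
  have hr' : ∀ a (β : C.U (Y a)) (t : C.Op), ∃ r, C.Right t (Y a) β (u a) (u (succ a) r) :=
    fun a β t => by
      obtain ⟨s, s1, s2⟩ := hr a
      obtain ⟨r, h⟩ := s1 _ _ (C.op t _ β) ((C.S t).eta_h _)
      refine ⟨r, AX.Right.post (e := s) (c := r) (h.symm' ?_) (hu _) s2 rfl⟩
      rintro _ _ (⟨x, rfl, rfl⟩ | ⟨rfl, rfl⟩)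
      · exact Or.inl (G.mk _ _ x)
      · exact Or.inr ⟨rfl, rfl⟩
  choose r hr' using hr'
  have hW := (W.card hi).le
  filter_upwards [CC.ev_into hk hA (hY ⊥) n, CC.ev_into hk hT hB k,
    ev_all hW fun a => CC.ev_into hk (hY a) hT (u a),
    ev_all hW fun a => CC.ev_into hk hT (hY a) (invFun (u a)),
    ev_all hW fun a => (CC.isFilt hk (hY a)).ev_rel (CC.isFilt hk (hY (succ a))) hi
      (fun β => range (r a β)) fun _ => mk_range_le.trans (C.op_card.trans hk)]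
    with γ e1 e2 e3 e4 e5
  have key : ∀ a y, y ∈ range (stm (u a) γ γ) ↔ val y ∈ range (u a) := fun a y => by
    refine ⟨?_, fun h => ⟨stm (invFun (u a)) γ γ y, val_inj ?_⟩⟩
    · rintro ⟨x, rfl⟩
      exact ⟨_, ((e3 a).val x).symm⟩
    · rw [(e3 a).val, (e4 a).val, invFun_eq h]
  have h3 := h2 C.toAC κ hi (fun a => C.st κ (Y a) γ) (C.st κ T γ) (fun a => stm (u a) γ γ)
    (fun a => (e3 a).isH (hu a))
    (fun a b h y hy => (key b y).2 (hm a b h ((key a y).1 hy)))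
    (fun δ hδ y hy => (hl δ hδ _ ((key δ y).1 hy)).imp fun a h => ⟨h.1, (key a y).2 h.2⟩)
    (fun y => (hs (val y)).imp fun a h => (key a y).2 h)
    (fun a Z e c he => by
      obtain ⟨t, β, h⟩ := AX.exists_right hκ he (CC.card_st hk (hY a) γ) c
      refine ⟨pt γ (r a (val β) t), h.uniq
        (((hr' a (val β) t).mono val_h rfl fun _ => rfl).pre val_h (e3 a).val ?_)⟩
      rw [(e3 _).val, val_pt (e5 a _ (val_mem β) ⟨t, rfl⟩)])
  have h4 := (h3.pre (e1.isH hn)).post (e2.isH k1)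
  have h5 : (fun x => stm k γ γ (stm (u ⊥) γ γ (stm n γ γ x))) = stm g γ γ := by
    funext x
    rw [(e3 ⊥).stm_stm, stm, e1.val, k2, stm]
  exact h5 ▸ h4

end Pool.Agent.P.MP_860a31_lc.E
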