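import Pool.Agent.P.MP_860a31_lc.E.Stm

/-!
System form of the reflection of universality.
-/

open Cardinal hiding univ
open Set Order Filter Function

namespace Pool.Agent.P.MP_860a31_lc.E

open PC Sys

namespace UnivSysP

/-- a stage of a saturated object is universally extended by almost all later stages -/
theorem ev_univ (h1 : S_UnivExt) {C : AX} {μ : Cardinal.{0}} (hμ : C.Lv μ) {X : C.Obj}
    (hX : #(C.U X) ≤ succ μ) (hs : C.Sat μ X) (ξ : J μ) :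
    ∀ᶠ ξ' in cf μ, C.Univ μ (tr X ξ ξ') := by
  obtain ⟨A', g, hg, hA', hU⟩ := h1 C.toAC μ (C.lv_ge hμ) (AX.pstab hμ) (C.st μ X ξ)
    (CC.card_st (C.lv_ge hμ) hX ξ)
  obtain ⟨f, hf, hfg⟩ := Univ.ext (C := C.toAC) hs hg (val_h (γ := ξ)) hA'
  filter_upwards [CC.ev_range (C.lv_ge hμ) hX hA' f] with ξ' h
  have h2 := hU.post (pt_h hf h)
  have e : (fun x => pt ξ' (f (g x))) = tr X ξ ξ' := funext fun x => by rw [hfg]; rfl
  rw [← e]
  exact h2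

/-- a tower of closed stages, each universal over the previous one -/
theorem tower (h1 : S_UnivExt) {C : AX} {S : Shape C} {μ : Cardinal.{0}} (hμ : C.Lv μ)
    {𝒟 : Set (Finset S.L)} {E : Finset S.L} (hF : S.Cx 𝒟 E) {V : Sys S}
    (hV : V.Small (succ μ) 𝒟) (hs : ∀ y ∈ 𝒟, C.Sat μ (V.N y)) {ξ : J μ} (hξ : Cl μ V 𝒟 E ξ) :
    ∃ s : ℕ → J μ, s 0 = ξ ∧ Monotone s ∧ (∀ k, Cl μ V 𝒟 E (s k)) ∧
      ∀ k, ∀ y ∈ 𝒟, C.Univ μ (tr (V.N y) (s k) (s (k + 1))) := by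
  have st : ∀ a : J μ, ∃ b, a < b ∧ Cl μ V 𝒟 E b ∧ ∀ y ∈ 𝒟, C.Univ μ (tr (V.N y) a b) :=
    fun a => ev_exists_gt ((ev_cl hμ hF hV).and ((eventually_all_finite hF.fin).2
      fun y hy => ev_univ h1 hμ (hV y hy) (hs y hy) a)) a
  choose nx h2 h3 h4 using st
  refine ⟨fun k => Nat.rec ξ (fun _ a => nx a) k, rfl,
    monotone_nat_of_le_succ fun k => (h2 _).le, fun k => ?_, fun k => h4 _⟩
  cases k with
  | zero => exact hξ
  | succ k => exact h3 _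

end UnivSysP

theorem univSys (h1 : S_UnivExt) (h2 : S_UnivRefl) (h3 : S_Abs) : S_UnivSys := by
  intro C S κ hκ 𝒟 E hF V hV hVv hs ξ hξ
  have hμ := C.lv_succ hκ
  have hk := C.lv_ge hμ
  obtain ⟨s, rfl, hm, hc, hu⟩ := UnivSysP.tower h1 hμ hF hV hs hξ
  have hN : #ℕ ≤ κ := by rw [mk_nat]; exact AX.lv_inf hκ
  filter_upwards [ev_ge (s 𝒟.ncard), ev_cl hμ hF hV] with ξ' hξ' hc'
  have sm := small_stage hμ hV
  filter_upwards [ev_all hN fun k => ev_cl hκ hF (sm (s k)), ev_cl hκ hF (sm ξ'),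
    ev_all hN fun k => Sys.ev_into hκ hF.fin (sm ξ') (sm (s k)) (fun y => tr (V.N y) (s k) ξ'),
    ev_all hN fun k => Sys.ev_into hκ hF.fin (sm (s (k + 1))) (sm (s k))
      (fun y => tr (V.N y) (s k) (s (k + 1))),
    ev_all hN fun k => (eventually_all_finite hF.fin).2 fun y hy =>
      h2 C κ hκ _ _ _ (CC.tr_h hk (hV y hy) (hm (Nat.le_succ k))) (sm (s (k + 1)) y hy)
        (hu k y hy)] with γ c1 c2 i1 i2 u1 hA B τ hB hτ
  have mor : ∀ k ≤ 𝒟.ncard, SMor 𝒟 E ((V.stage (succ κ) (s k)).stage κ γ)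
      ((V.stage (succ κ) ξ').stage κ γ) (fun y => stm (tr (V.N y) (s k) ξ') γ γ) :=
    fun k hk' => (c1 k).mor_stm c2 (Cl.mor_tr hμ hV (hc k) hc' ((hm hk').trans hξ')) (i1 k)
  have tri : ∀ k, ∀ y ∈ 𝒟, ∀ x, stm (tr (V.N y) (s (k + 1)) ξ') γ γ
      (stm (tr (V.N y) (s k) (s (k + 1))) γ γ x) = stm (tr (V.N y) (s k) ξ') γ γ x :=
    fun k y hy x => ((i2 k y hy).stm_stm x).trans
      (stm_congr (CC.tr_tr hk (hV y hy) (hm (Nat.le_succ k)) ξ' _))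
  refine h3 C S κ 𝒟 E hF _ B ((V.stage (succ κ) ξ').stage κ γ) τ
    (fun y => stm (tr (V.N y) (s 0) ξ') γ γ)
    (fun k y => range (stm (tr (V.N y) (s k) ξ') γ γ)) hA hB hτ
    (c2.valid hF (hc'.valid hF hVv)) (mor 0 (Nat.zero_le _)) ?_ ?_ (fun y _ x => ⟨x, rfl⟩) ?_
  · rintro k - y hy _ ⟨x, rfl⟩
    exact ⟨_, tri k y hy x⟩
  · rintro k hk' y hy z hz hyz _ ⟨x, rfl⟩
    exact ⟨_, (mor k hk'.le).nat y hy z hz hyz x⟩
  · intro k hk' y hy B' R hB' hR hT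
    obtain ⟨f, hf, H⟩ := u1 k y hy B' (fun b x => R b (stm (tr (V.N y) (s k) ξ') γ γ x)) hB'
      (hR.pull_right ((mor k hk'.le).hom y hy) fun _ _ r => r)
    refine ⟨fun b => stm (tr (V.N y) (s (k + 1)) ξ') γ γ (f b),
      C.comp hf ((mor (k + 1) hk').hom y hy), fun b a r => ?_, fun b => ⟨_, rfl⟩⟩
    obtain ⟨x, rfl⟩ := hT b a r
    show stm _ γ γ (f b) = _
    rw [H b x r]
    exact tri k y hy x

end Pool.Agent.P.MP_860a31_lc.E
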