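import Pool.Agent.P.MP_860a31_lc.E.Stm

/-!
Adding tops for a set of new faces.
-/

open Cardinal hiding univ
open Set Order Filter Function

namespace Pool.Agent.P.MP_860a31_lc.E

open PC Sys

namespace UpdP

/-- a map is a morphism if its composite with an isomorphism is one -/
theorem of_surj {C : PC} {A B D : C.Obj} {ρ : C.U A → C.U B} {f : C.U B → C.U D}
    {h : C.U A → C.U D} (hρ : C.IsH ρ) (hs : Surjective ρ) (hh : C.IsH h)
    (e : ∀ x, f (ρ x) = h x) : C.IsH f := by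
  obtain ⟨g, hg, h1, -⟩ := inverse hρ hs
  exact comp' hg hh fun y => by rw [← e, h1]

/-- the relation `Right` along an isomorphism of the base -/
theorem right_iso {C : AX} {t : C.Op} {A B Z : C.Obj} {ρ : C.U A → C.U B} {β : C.U A}
    {e : C.U B → C.U Z} {c : C.U Z} (hρ : C.IsH ρ) (hs : Surjective ρ)
    (h : C.Right t A β (fun x => e (ρ x)) c) : C.Right t B (ρ β) e c := by
  obtain ⟨g, hg, h1, h2⟩ := inverse hρ hs
  exact h.mono hg (h2 β) fun x => congrArg e (h1 x)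

/-- the possible inclusions in the enlarged family -/
theorem cases {C : AX} {S : Shape C} {𝒟 T : Set (Finset S.L)} (hD : S.Dn 𝒟)
    (hT : ∀ v ∈ T, S.Face v ∧ v ∉ 𝒟 ∧ S.Bd v ⊆ 𝒟) {y z : Finset S.L} (hy : y ∈ 𝒟 ∪ T)
    (hz : z ∈ 𝒟 ∪ T) (h : y ⊆ z) :
    (y ∈ 𝒟 ∧ z ∈ 𝒟) ∨ (y ∈ S.Bd z ∧ z ∈ T) ∨ (y ∈ T ∧ y = z) := by
  have hf : S.Face y := hy.elim (fun h => (hD y h).1) fun h => (hT y h).1
  rcases hz with hz | hz
  · exact Or.inl ⟨(hD z hz).2 y hf h, hz⟩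
  · rcases h.eq_or_ssubset with e | e
    · exact Or.inr (Or.inr ⟨e ▸ hz, e⟩)
    · exact Or.inr (Or.inl ⟨⟨hf, e⟩, hz⟩)

end UpdP

open UpdP

theorem upd : S_Upd := by
  classical
  intro C S 𝒟 T E hD hT A Z e q hA hE hE' hadm hq
  have hnT : ∀ y ∈ 𝒟, y ∉ T := fun y hy h => (hT y h).2.1 hy
  have ex1 : ∀ y, ∃ (N : C.Obj) (ρ : C.U (A.N y) → C.U N) (k : C.U (Z y) → C.U N),
      (y ∉ T → C.IsH ρ ∧ Surjective ρ) ∧ (y ∈ T → C.IsH k ∧ Surjective k) := fun y => by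
    by_cases h : y ∈ T
    · exact ⟨Z y, fun _ => Classical.choice (C.ne _), fun x => x, fun h' => absurd h h',
        fun _ => ⟨C.idH _, surjective_id⟩⟩
    · exact ⟨A.N y, fun x => x, fun _ => Classical.choice (C.ne _),
        fun _ => ⟨C.idH _, surjective_id⟩, fun h' => absurd h' h⟩
  choose N ρ k hρ hk using ex1
  have ex2 : ∀ y z, ∃ f : C.U (N y) → C.U (N z),
      (y ∉ T → z ∉ T → ∀ x, f (ρ y x) = ρ z (A.i y z x)) ∧
      (y ∉ T → z ∈ T → ∀ x, f (ρ y x) = k z (e z y x)) ∧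
      (y ∈ T → y = z → ∀ x, HEq (f x) x) := fun y z => by
    by_cases h : y ∈ T
    · by_cases h' : y = z
      · subst h'
        exact ⟨fun x => x, fun h' => absurd h h', fun h' => absurd h h', fun _ _ _ => HEq.rfl⟩
      · exact ⟨fun _ => Classical.choice (C.ne _), fun h' => absurd h h', fun h' => absurd h h',
          fun _ h'' => absurd h'' h'⟩
    · obtain ⟨g, -, -, hg⟩ := inverse (hρ y h).1 (hρ y h).2
      by_cases h' : z ∈ T
      · exact ⟨fun x => k z (e z y (g x)), fun _ h'' => absurd h' h'', fun _ _ x => by simp only [hg],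
          fun h'' => absurd h'' h⟩
      · exact ⟨fun x => ρ z (A.i y z (g x)), fun _ _ x => by simp only [hg], fun _ h'' => absurd h'' h',
          fun h'' => absurd h'' h⟩
  choose i hi1 hi2 hi3 using ex2
  have ex3 : ∀ (a : S.L × Bool) y, ∃ c : C.U (N y), (y ∉ T → c = ρ y (A.el a y)) ∧
      (y ∈ T → c = k y (q y a)) := fun a y => by
    by_cases h : y ∈ T
    · exact ⟨_, fun h' => absurd h h', fun _ => rfl⟩
    · exact ⟨_, fun _ => rfl, fun h' => absurd h' h⟩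
  choose c hc1 hc2 using ex3
  have r1 : ∀ y ∈ 𝒟, C.IsH (ρ y) := fun y hy => (hρ y (hnT y hy)).1
  have r2 : ∀ y ∈ 𝒟, Surjective (ρ y) := fun y hy => (hρ y (hnT y hy)).2
  have H1 : ∀ y ∈ 𝒟, ∀ z ∈ 𝒟, ∀ x, i y z (ρ y x) = ρ z (A.i y z x) := fun y hy z hz =>
    hi1 y z (hnT y hy) (hnT z hz)
  have H2 : ∀ z ∈ T, ∀ y ∈ S.Bd z, ∀ x, i y z (ρ y x) = k z (e z y x) := fun z hz y hy =>
    hi2 y z (hnT y ((hT z hz).2.2 hy)) hz
  have H3 : ∀ y ∈ T, ∀ x, i y y x = x := fun y hy x => eq_of_heq (hi3 y y hy rfl x)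
  have H4 : ∀ a, ∀ y ∈ 𝒟, c a y = ρ y (A.el a y) := fun a y hy => hc1 a y (hnT y hy)
  refine ⟨⟨N, i, c⟩, ρ, k, ⟨?_, ?_, ?_, ?_, ?_⟩,
    ⟨r1, fun y hy z hz _ x => (H1 y hy z hz x).symm, fun a _ y hy _ => (H4 a y hy).symm⟩, r2,
    fun v hv => ⟨(hk v hv).1, (hk v hv).2, H2 v hv, fun a => hc2 a v hv⟩⟩
  · rintro y (hy | hy) x
    · obtain ⟨x, rfl⟩ := r2 y hy x
      change i y y (ρ y x) = _
      rw [H1 y hy y hy, hA.id y hy]
    · exact H3 y hy x
  · intro y hy z hz hyz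
    change C.IsH (i y z)
    rcases cases hD hT hy hz hyz with ⟨hy, hz⟩ | ⟨hy, hz⟩ | ⟨hy, rfl⟩
    · exact of_surj (r1 y hy) (r2 y hy) (C.comp (hA.hom y hy z hz hyz) (r1 z hz)) (H1 y hy z hz)
    · have hy' := (hT z hz).2.2 hy
      exact of_surj (r1 y hy') (r2 y hy') (C.comp ((hadm z hz).cone.hom y hy) (hk z hz).1)
        (H2 z hz y hy)
    · exact PC.congr (C.idH _) fun x => (H3 y hy x).symm
  · intro y hy z hz w hw hyz hzw x
    change i z w (i y z x) = i y w x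
    rcases cases hD hT hz hw hzw with ⟨hz', hw⟩ | ⟨hz', hw⟩ | ⟨hz', rfl⟩
    · rcases cases hD hT hy hz hyz with ⟨hy, -⟩ | ⟨-, hz⟩ | ⟨hy, rfl⟩
      · obtain ⟨x, rfl⟩ := r2 y hy x
        rw [H1 y hy z hz', H1 z hz' w hw, H1 y hy w hw, hA.comp y hy z hz' w hw hyz hzw]
      · exact absurd hz (hnT z hz')
      · rw [H3 y hy]
    · rcases cases hD hT hy hz hyz with ⟨hy, hz⟩ | ⟨-, hz⟩ | ⟨hy, rfl⟩
      · obtain ⟨x, rfl⟩ := r2 y hy x
        have hy' : y ∈ S.Bd w := ⟨(hD y hy).1, lt_of_le_of_lt hyz hz'.2⟩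
        rw [H1 y hy z hz, H2 w hw z hz', H2 w hw y hy', (hadm w hw).cone.nat y hy' z hz' hyz]
      · exact absurd hz (hnT z ((hT w hw).2.2 hz'))
      · rw [H3 y hy]
    · rw [H3 z hz']
  · intro a ha y hy z hz hs hyz
    change i y z (c a y) = c a z
    rcases cases hD hT hy hz hyz with ⟨hy, hz⟩ | ⟨hy, hz⟩ | ⟨hy, rfl⟩
    · rw [H4 a y hy, H4 a z hz, H1 y hy z hz, hA.el a ha y hy z hz hs hyz]
    · rw [H4 a y ((hT z hz).2.2 hy), hc2 a z hz, H2 z hz y hy, hq z hz a ha y hy hs]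
    · exact H3 y hy _
  · rintro z (hz | hz) j hj
    · have hw := hD.bd_sub hz ((hD z hz).1.erase_mem_bd hj)
      change C.Right (S.opn j) (N (z.erase j)) (c (j, false) (z.erase j)) (i (z.erase j) z)
        (c (j, true) z)
      rw [H4 _ _ hw, H4 _ z hz]
      exact right_iso (r1 _ hw) (r2 _ hw)
        ((hA.right z hz j hj).post (r1 z hz) (fun x => (H1 _ hw z hz x).symm) rfl)
    · have hb := (hT z hz).1.erase_mem_bd hj
      have hw := (hT z hz).2.2 hb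
      change C.Right (S.opn j) (N (z.erase j)) (c (j, false) (z.erase j)) (i (z.erase j) z)
        (c (j, true) z)
      rw [H4 _ _ hw, hc2 _ z hz]
      exact right_iso (r1 _ hw) (r2 _ hw)
        (((hadm z hz).pnt j hj).right.post (hk z hz).1 (fun x => (H2 z hz _ hb x).symm) rfl)

theorem updGood (h1 : S_Upd) (h2 : S_GoodIso) (h3 : S_GoodT) : S_UpdGood := by
  intro C S κ hκ 𝒟 T E hD hT A Z e q hA hE hE' hadm hq hZ
  obtain ⟨B, ρ, k, hB, hρ, hs, hk⟩ := h1 C S 𝒟 T E hD hT A Z e q hA.valid hE hE' hadm hq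
  have hG : Good κ 𝒟 E B := h2 C S κ hκ 𝒟 E hD hE A B ρ hρ hs hA
  have hc : ∀ v ∈ T, #(C.U (B.N v)) ≤ succ κ := fun v hv =>
    (mk_le_of_surjective (hk v hv).2.1).trans (hZ v hv).1
  refine ⟨B, ρ, k, ⟨?_, hB, ?_, ?_⟩, hρ, hs, hk⟩
  · rintro y (hy | hy)
    · exact hG.small y hy
    · exact hc y hy
  · rintro y (hy | hy)
    · exact hG.sat y hy
    · exact (hZ y hy).2.1.iso (hk y hy).1 (hk y hy).2.1
  · rintro v (hv | hv)
    · exact hG.uq v hv
    · exact (h3 C S κ hκ v (hT v hv).1 A B ρ (Z v) (B.N v) (e v) (fun y => B.i y v)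
        (fun j => q v (j, true)) (fun j => B.c j v) (k v) (hG.small.mono (hT v hv).2.2) (hc v hv)
        (hρ.mono (hT v hv).2.2 (hE' v hv)) (hk v hv).1 (hk v hv).2.1 (hk v hv).2.2.1
        (fun j _ => ((hk v hv).2.2.2 (j, true)).symm) (hZ v hv).2.2).mono fun γ h => uq_iff.2 h

end Pool.Agent.P.MP_860a31_lc.E
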